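import Mathlib
import Pool.Agent.LGO.Q.Loc

/-!
# LGO/AX: charts of a curve and algebraic independence of the `τ`-coordinates (definitions)

`Cur`: model of an irreducible curve with three functions: the plane curve `F(T, Y) = 0`, `F` irreducible, away
from the zeros of `D(T)`, with the functions `x a = N a (T, Y) / M(T)`.

`Br`: a branch over the point `o` of the projective `T`-line (`none` is `∞`): `T = o + t ^ m`, `Y = Y(t)`, and
lifts to the upper half plane of the three functions, `t = exp w`: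
`x a = j (z a)`, `z a = e a * w / (2 π i) + ψ a (exp w)`, `e a = 0` iff `x a` is finite at the centre.
-/

namespace Pool.Agent.LGO.AX

open Polynomial Pool.Agent.LGO
open scoped MatrixGroups

/-- the model of a curve -/
structure Cur where
  F : ℂ[X][X]
  N : Fin 3 → ℂ[X][X]
  M : ℂ[X]
  D : ℂ[X]
  irr : Irreducible F
  deg : 0 < F.natDegree
  D_ne : D ≠ 0
  lead : ∀ T, D.eval T ≠ 0 → F.leadingCoeff.eval T ≠ 0
  sep : ∀ T, D.eval T ≠ 0 → (F.map (evalRingHom T)).Separable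
  M_ne : ∀ T, D.eval T ≠ 0 → M.eval T ≠ 0

/-- the points of the curve -/
def Cur.pt (S : Cur) : Set (ℂ × ℂ) := {p | S.D.eval p.1 ≠ 0 ∧ S.F.evalEval p.1 p.2 = 0}

/-- the three functions -/
noncomputable def Cur.x (S : Cur) (a : Fin 3) (p : ℂ × ℂ) : ℂ :=
  (S.N a).evalEval p.1 p.2 / S.M.eval p.1

/-- remove finitely many fibres -/
noncomputable def Cur.rem (S : Cur) (E : Finset ℂ) : Cur where
  F := S.F
  N := S.N
  M := S.M
  D := S.D * ∏ c ∈ E, (X - C c)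
  irr := S.irr
  deg := S.deg
  D_ne := mul_ne_zero S.D_ne (Finset.prod_ne_zero_iff.mpr fun c _ => X_sub_C_ne_zero c)
  lead := fun T h => S.lead T (left_ne_zero_of_mul (by rwa [eval_mul] at h))
  sep := fun T h => S.sep T (left_ne_zero_of_mul (by rwa [eval_mul] at h))
  M_ne := fun T h => S.M_ne T (left_ne_zero_of_mul (by rwa [eval_mul] at h))

theorem Cur.mem_rem (S : Cur) (E : Finset ℂ) (p : ℂ × ℂ) : p ∈ (S.rem E).pt ↔ p ∈ S.pt ∧ p.1 ∉ E := by
  simp only [Cur.pt, Cur.rem, Set.mem_ofPred_eq, eval_mul, eval_prod, eval_sub, eval_X, eval_C, ne_eq,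
    mul_eq_zero, Finset.prod_eq_zero_iff, sub_eq_zero, not_or, not_exists, not_and]
  constructor
  · rintro ⟨⟨h1, h2⟩, h3⟩
    exact ⟨⟨h1, h3⟩, fun h => h2 _ h rfl⟩
  · rintro ⟨⟨h1, h2⟩, h3⟩
    exact ⟨⟨h1, fun c hc h => h3 (h ▸ hc)⟩, h2⟩

/-- the functions are not constant -/
def Cur.NCo (S : Cur) : Prop := ∀ a c, ∃ p ∈ S.pt, S.x a p ≠ c

/-- Möbius transformation of an integral matrix -/
noncomputable def mz (g : Matrix (Fin 2) (Fin 2) ℤ) (z : ℂ) : ℂ :=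
  ((g 0 0 : ℂ) * z + (g 0 1 : ℂ)) / ((g 1 0 : ℂ) * z + (g 1 1 : ℂ))

/-- no modular relation between two of the functions, even after removing finitely many fibres -/
def Cur.NoMod (S : Cur) : Prop := ∀ i j : Fin 3, i ≠ j → ∀ g : Matrix (Fin 2) (Fin 2) ℤ, 0 < g.det →
  ∀ E : Finset ℂ, ¬ ∀ p ∈ S.pt, p.1 ∉ E → ∃ z : ℂ, 0 < z.im ∧ S.x i p = jF z ∧ S.x j p = jF (mz g z)

/-- local coordinate on the projective line: `T = o + s`, or `T = 1 / s` at `∞` -/
noncomputable def Tp (o : Option ℂ) (s : ℂ) : ℂ := o.elim s⁻¹ (fun c => c + s)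

/-- `e w / (2 π i) + ψ (exp w)` -/
noncomputable def zz (e : ℕ) (ψ : ℂ → ℂ) (w : ℂ) : ℂ :=
  (e : ℂ) * w / (2 * Real.pi * Complex.I) + ψ (Complex.exp w)

/-- a branch over a point of the projective line -/
structure Br (S : Cur) where
  o : Option ℂ
  m : ℕ
  r : ℝ
  Y : ℂ → ℂ
  e : Fin 3 → ℕ
  ψ : Fin 3 → ℂ → ℂ
  m_pos : 0 < m
  r_pos : 0 < r
  dY : DifferentiableOn ℂ Y {t | 0 < ‖t‖ ∧ ‖t‖ < r}
  mem : ∀ t, 0 < ‖t‖ → ‖t‖ < r → (Tp o (t ^ m), Y t) ∈ S.pt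
  dψ : ∀ a, DifferentiableOn ℂ (ψ a) (Metric.ball 0 r)
  im_pos : ∀ a w, Real.exp w.re < r → 0 < (zz (e a) (ψ a) w).im
  jz : ∀ a w, Real.exp w.re < r →
    jF (zz (e a) (ψ a) w) = S.x a (Tp o (Complex.exp w ^ m), Y (Complex.exp w))
  cen : ∀ a, e a = 0 → 0 < (ψ a 0).im

/-- the half plane of a branch -/
def Br.U {S : Cur} (β : Br S) : Set ℂ := {w | Real.exp w.re < β.r}

/-- the point of the curve -/
noncomputable def Br.pt {S : Cur} (β : Br S) (w : ℂ) : ℂ × ℂ :=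
  (Tp β.o (Complex.exp w ^ β.m), β.Y (Complex.exp w))

/-- the lifts -/
noncomputable def Br.z {S : Cur} (β : Br S) (a : Fin 3) (w : ℂ) : ℂ := zz (β.e a) (β.ψ a) w

/-- a finite atlas: all points of the curve outside finitely many fibres -/
structure Atl (S : Cur) where
  n : ℕ
  br : Fin n → Br S
  cen : Finset ℂ
  cover : ∀ p ∈ S.pt, p.1 ∉ cen → ∃ i w, Real.exp w.re ≤ (br i).r * Real.exp (-4) ∧
    |w.im| ≤ Real.pi ∧ (br i).pt w = p

/-- the lifted curve of a branch, moved by `γ ∈ SL₂(ℤ)³` -/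
def cv {S : Cur} (β : Br S) (γ : Fin 3 → SL(2, ℤ)) : Set (Fin 3 → ℂ) :=
  {ζ | ∃ w ∈ β.U, ζ = fun a => mz (γ a).1 (β.z a w)}

/-- the elements of `SL₂(ℤ)³` which preserve an ideal of relations -/
def Stb (I : Ideal (MvPolynomial (Fin 3) ℂ)) : Set (Fin 3 → SL(2, ℤ)) :=
  {δ | ∀ A : Set (Fin 3 → ℂ), (∀ ζ ∈ A, ∀ a, 0 < (ζ a).im) → MvPolynomial.vanishingIdeal ℂ A = I →
    MvPolynomial.vanishingIdeal ℂ ((fun ζ a => mz (δ a).1 (ζ a)) '' A) = I}

/-- the vector field `∑ v a (Z a) ∂ / ∂ Z a` -/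
noncomputable def vf (v : Fin 3 → ℂ[X]) (G : MvPolynomial (Fin 3) ℂ) : MvPolynomial (Fin 3) ℂ :=
  ∑ a, aeval (MvPolynomial.X a) (v a) * MvPolynomial.pderiv a G

/-- the quadratic vector fields which preserve an ideal -/
def LL (I : Ideal (MvPolynomial (Fin 3) ℂ)) : Set (Fin 3 → ℂ[X]) :=
  {v | (∀ a, (v a).natDegree ≤ 2) ∧ ∀ G ∈ I, vf v G ∈ I}

/-- push forward of the quadratic vector field `q ∂` by the Möbius transformation `g` (up to the factor
`1 / det g` this is `(a - c Z)² q((d Z - b) / (a - c Z))`) -/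
noncomputable def push (g : Matrix (Fin 2) (Fin 2) ℂ) (q : ℂ[X]) : ℂ[X] :=
  C (g.det)⁻¹ * (C (q.coeff 0) * (C (g 0 0) - C (g 1 0) * X) ^ 2 +
    C (q.coeff 1) * ((C (g 0 0) - C (g 1 0) * X) * (C (g 1 1) * X - C (g 0 1))) +
    C (q.coeff 2) * (C (g 1 1) * X - C (g 0 1)) ^ 2)

end Pool.Agent.LGO.AX
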