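import Mathlib
import Pool.Agent.LGO.AX.Defs

/-!
# LGO/AX: algebra of the independence proof, part A: Möbius transformations in a field of functions
-/

namespace Pool.Agent.LGO.AX

open MvPolynomial
open scoped MatrixGroups

/-- Möbius transformation of an integral matrix in any field -/
noncomputable def mK {K : Type} [Field K] (g : Matrix (Fin 2) (Fin 2) ℤ) (z : K) : K :=
  ((g 0 0 : K) * z + (g 0 1 : K)) / ((g 1 0 : K) * z + (g 1 1 : K))

/-- the denominator -/
noncomputable def dn {K : Type} [Field K] (g : Matrix (Fin 2) (Fin 2) ℤ) (z : K) : K :=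
  (g 1 0 : K) * z + (g 1 1 : K)

theorem mz_eq (g : Matrix (Fin 2) (Fin 2) ℤ) (z : ℂ) : mz g z = mK g z := rfl

theorem dn_ne {g : SL(2, ℤ)} {z : ℂ} (h : 0 < z.im) : dn g.1 z ≠ 0 := by
  intro h0
  have him : (dn g.1 z).im = (g.1 1 0 : ℝ) * z.im := by
    simp [dn]
  rw [h0] at him
  have hc : (g.1 1 0 : ℝ) = 0 := by
    rcases mul_eq_zero.mp him.symm with h1 | h1
    · exact h1
    · exact absurd h1 h.ne'
  have hc' : g.1 1 0 = 0 := by exact_mod_cast hc
  have hd : (g.1 1 1 : ℂ) = 0 := by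
    simpa [dn, hc'] using h0
  have hd' : g.1 1 1 = 0 := by exact_mod_cast hd
  have hdet := g.2
  rw [Matrix.det_fin_two, hc', hd'] at hdet
  simp at hdet

/-- clearing denominators -/
theorem clear (γ : Fin 3 → SL(2, ℤ)) (H : MvPolynomial (Fin 3) ℂ) :
    ∃ (P : MvPolynomial (Fin 3) ℂ) (N : ℕ), ∀ (L : Type) [Field L] [Algebra ℂ L] (x : Fin 3 → L),
      (∀ a, dn (γ a).1 (x a) ≠ 0) →
        aeval x P = (∏ a, dn (γ a).1 (x a)) ^ N * aeval (fun a => mK (γ a).1 (x a)) H := by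
  have hD : ∃ D : MvPolynomial (Fin 3) ℂ, ∀ (L : Type) [Field L] [Algebra ℂ L] (x : Fin 3 → L),
      aeval x D = ∏ a, dn (γ a).1 (x a) := by
    refine ⟨∏ a, (C ((γ a).1 1 0 : ℂ) * X a + C ((γ a).1 1 1 : ℂ)), fun L _ _ x => ?_⟩
    rw [map_prod]
    refine Finset.prod_congr rfl fun a _ => ?_
    simp [dn]
  obtain ⟨D, hD⟩ := hD
  induction H using MvPolynomial.induction_on with
  | C c => exact ⟨C c, 0, fun L _ _ x _ => by simp⟩
  | add p q hp hq =>
    obtain ⟨P1, N1, h1⟩ := hp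
    obtain ⟨P2, N2, h2⟩ := hq
    refine ⟨P1 * D ^ N2 + P2 * D ^ N1, N1 + N2, fun L _ _ x hx => ?_⟩
    rw [map_add, map_mul, map_mul, map_pow, map_pow, h1 L x hx, h2 L x hx, hD, map_add]
    ring
  | mul_X p i hp =>
    obtain ⟨P1, N1, h1⟩ := hp
    refine ⟨P1 * (C ((γ i).1 0 0 : ℂ) * X i + C ((γ i).1 0 1 : ℂ)) *
      ∏ a ∈ Finset.univ.erase i, (C ((γ a).1 1 0 : ℂ) * X a + C ((γ a).1 1 1 : ℂ)), N1 + 1,
      fun L _ _ x hx => ?_⟩
    have hpr : aeval x (∏ a ∈ Finset.univ.erase i,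
        (C ((γ a).1 1 0 : ℂ) * X a + C ((γ a).1 1 1 : ℂ)) : MvPolynomial (Fin 3) ℂ) =
        ∏ a ∈ Finset.univ.erase i, dn (γ a).1 (x a) := by
      rw [map_prod]
      refine Finset.prod_congr rfl fun a _ => ?_
      simp [dn]
    have hsp : (∏ a, dn (γ a).1 (x a)) = dn (γ i).1 (x i) *
        ∏ a ∈ Finset.univ.erase i, dn (γ a).1 (x a) :=
      (Finset.mul_prod_erase Finset.univ (fun a => dn (γ a).1 (x a)) (Finset.mem_univ i)).symm
    have hi : mK (γ i).1 (x i) * dn (γ i).1 (x i) =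
        ((γ i).1 0 0 : L) * x i + ((γ i).1 0 1 : L) := by
      have := hx i
      unfold mK
      exact div_mul_cancel₀ _ this
    rw [map_mul, map_mul, h1 L x hx, hpr, map_mul, pow_succ]
    have e1 : aeval x (C ((γ i).1 0 0 : ℂ) * X i + C ((γ i).1 0 1 : ℂ) : MvPolynomial (Fin 3) ℂ) =
        mK (γ i).1 (x i) * dn (γ i).1 (x i) := by
      rw [hi]; simp
    rw [e1, aeval_X]
    nth_rewrite 3 [hsp]
    ring

theorem mob1 (a b c d y : ℂ) (h : a * d - b * c = 1) (hd : -c * y + a ≠ 0) :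
    c * ((d * y - b) / (-c * y + a)) + d = 1 / (-c * y + a) := by
  rw [eq_div_iff hd, add_mul, mul_assoc, div_mul_cancel₀ _ hd]
  linear_combination h

theorem mob2 (a b c d y : ℂ) (h : a * d - b * c = 1) (hd : -c * y + a ≠ 0) :
    (a * ((d * y - b) / (-c * y + a)) + b) / (1 / (-c * y + a)) = y := by
  rw [div_div_eq_mul_div, div_one, add_mul, mul_assoc, div_mul_cancel₀ _ hd]
  linear_combination y * h

/-- the cleared polynomial is `0` only if `H = 0` -/
theorem zero_of_clear {γ : Fin 3 → SL(2, ℤ)} {H P : MvPolynomial (Fin 3) ℂ} {N : ℕ}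
    (h : ∀ x : Fin 3 → ℂ, (∀ a, dn (γ a).1 (x a) ≠ 0) →
      aeval x P = (∏ a, dn (γ a).1 (x a)) ^ N * aeval (fun a => mK (γ a).1 (x a)) H)
    (hP : P = 0) : H = 0 := by
  -- `H` vanishes on the product of the upper half planes
  have h1 : ∀ y : Fin 3 → ℂ, (∀ a, 0 < (y a).im) → aeval y H = 0 := by
    intro y hy
    -- preimage under the Möbius transformation
    let x : Fin 3 → ℂ := fun a => mK ((γ a)⁻¹).1 (y a)
    have hx : ∀ a, dn (γ a).1 (x a) ≠ 0 ∧ mK (γ a).1 (x a) = y a := by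
      intro a
      have hd : dn ((γ a)⁻¹).1 (y a) ≠ 0 := dn_ne (hy a)
      have hdet : (γ a).1 0 0 * (γ a).1 1 1 - (γ a).1 0 1 * (γ a).1 1 0 = 1 := by
        have := (γ a).2
        rwa [Matrix.det_fin_two] at this
      have hdet' : ((γ a).1 0 0 : ℂ) * (γ a).1 1 1 - (γ a).1 0 1 * (γ a).1 1 0 = 1 := by
        exact_mod_cast hdet
      have hinv : ((γ a)⁻¹).1 = !![(γ a).1 1 1, -(γ a).1 0 1; -(γ a).1 1 0, (γ a).1 0 0] := by
        rw [Matrix.SpecialLinearGroup.coe_inv, Matrix.adjugate_fin_two]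
      have hdn : dn ((γ a)⁻¹).1 (y a) = -((γ a).1 1 0 : ℂ) * y a + (γ a).1 0 0 := by
        rw [hinv]; simp [dn]
      have hxa : x a = (((γ a).1 1 1 : ℂ) * y a - (γ a).1 0 1) /
          (-((γ a).1 1 0 : ℂ) * y a + (γ a).1 0 0) := by
        change mK ((γ a)⁻¹).1 (y a) = _
        rw [hinv]
        simp only [mK]
        congr 1
        simp
        ring
        simp
      rw [hdn] at hd
      have e1 : dn (γ a).1 (x a) = 1 / (-((γ a).1 1 0 : ℂ) * y a + (γ a).1 0 0) := by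
        rw [hxa]
        exact mob1 _ _ _ _ _ hdet' hd
      have hne : dn (γ a).1 (x a) ≠ 0 := by
        rw [e1]; exact one_div_ne_zero hd
      refine ⟨hne, ?_⟩
      unfold mK
      change _ / dn (γ a).1 (x a) = _
      rw [e1, hxa]
      exact mob2 _ _ _ _ _ hdet' hd
    have := h x (fun a => (hx a).1)
    rw [hP, map_zero] at this
    have h2 := (mul_eq_zero.mp this.symm).resolve_left
      (pow_ne_zero _ (Finset.prod_ne_zero_iff.mpr fun a _ => (hx a).1))
    have h3 : (fun a => mK (γ a).1 (x a)) = y := funext fun a => (hx a).2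
    rwa [h3] at h2
  -- so it is `0`
  refine MvPolynomial.funext_set (fun _ => {z : ℂ | 0 < z.im}) (fun _ => ?_) ?_
  · exact Set.infinite_of_injective_forall_mem (f := fun n : ℕ => ((n : ℂ) + Complex.I))
      (fun m n h => by simpa using h) (fun n => by simp)
  · intro y hy
    rw [map_zero]
    have := h1 y (fun a => hy a (Set.mem_univ a))
    simpa [aeval_eq_eval] using this

end Pool.Agent.LGO.AX
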