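import Mathlib
import Pool.Agent.LGO.AX.AlgA

/-!
# LGO/AX: algebra of the independence proof, part B: the key lemma

If `z` is transcendental over `F`, `l, m ∈ F` and `δ' (r z + l) - r δ z = m` for two elements `δ, δ'` of
`SL₂(ℤ)`, `δ` with lower left entry `≠ 0`, then `l` is rational: look at the pole of `δ`.
-/

namespace Pool.Agent.LGO.AX

open Polynomial
open scoped MatrixGroups

variable {F K : Type} [Field F] [Field K] [Algebra F K]

theorem det_eq (g : SL(2, ℤ)) : g.1 0 0 * g.1 1 1 - g.1 0 1 * g.1 1 0 = 1 := by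
  have := g.2
  rwa [Matrix.det_fin_two] at this

theorem dn_tr [CharZero F] {z : K} (hz : Transcendental F z) {r : ℚ} (hr : r ≠ 0) (l : F)
    (g : SL(2, ℤ)) : dn g.1 (algebraMap F K r * z + algebraMap F K l) ≠ 0 := by
  intro h
  have hp : aeval z (C (g.1 1 0 : F) * (C (r : F) * X + C l) + C (g.1 1 1 : F)) = 0 := by
    rw [map_add, map_mul, map_add, map_mul, aeval_C, aeval_C, aeval_X, aeval_C, aeval_C]
    rw [map_intCast, map_intCast]
    exact h
  have h0 : (C (g.1 1 0 : F) * (C (r : F) * X + C l) + C (g.1 1 1 : F)) = 0 := by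
    by_contra hne
    exact hz ⟨_, hne, hp⟩
  have h1 : (g.1 1 0 : F) * r = 0 := by
    have e1 := congrArg (fun p => eval 1 p) h0
    have e0 := congrArg (fun p => eval 0 p) h0
    simp only [eval_add, eval_mul, eval_C, eval_X, eval_zero] at e1 e0
    linear_combination e1 - e0
  have hc : g.1 1 0 = 0 := by
    rcases mul_eq_zero.mp h1 with h2 | h2
    · exact_mod_cast h2
    · exact absurd (by exact_mod_cast h2) hr
  have h3 : (g.1 1 1 : F) = 0 := by
    have := congrArg (fun p => eval 0 p) h0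
    simpa [hc] using this
  have hd : g.1 1 1 = 0 := by exact_mod_cast h3
  have := det_eq g
  rw [hc, hd] at this
  simp at this

theorem dn_tr' [CharZero F] {z : K} (hz : Transcendental F z) (g : SL(2, ℤ)) : dn g.1 z ≠ 0 := by
  have := dn_tr hz (one_ne_zero) (0 : F) g
  simpa using this

theorem key [CharZero F] {z : K} (hz : Transcendental F z) {l m : F} {r : ℚ} (hr : r ≠ 0)
    {g g' : SL(2, ℤ)} (hc : g.1 1 0 ≠ 0)
    (h : mK g'.1 (algebraMap F K r * z + algebraMap F K l) - algebraMap F K r * mK g.1 z =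
      algebraMap F K m) : ∃ ρ : ℚ, l = ρ := by
  have h1 := dn_tr' hz g
  have h2 := dn_tr hz hr l g'
  set w : K := algebraMap F K r * z + algebraMap F K l with hw
  have hg : mK g.1 z * dn g.1 z = (g.1 0 0 : K) * z + (g.1 0 1 : K) := by
    unfold mK; exact div_mul_cancel₀ _ h1
  have hg' : mK g'.1 w * dn g'.1 w = (g'.1 0 0 : K) * w + (g'.1 0 1 : K) := by
    unfold mK; exact div_mul_cancel₀ _ h2
  have hkey : ((g'.1 0 0 : K) * w + (g'.1 0 1 : K)) * dn g.1 z -
      algebraMap F K r * (((g.1 0 0 : K) * z + (g.1 0 1 : K)) * dn g'.1 w) -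
      algebraMap F K m * (dn g.1 z * dn g'.1 w) = 0 := by
    rw [← hg, ← hg', ← h]; ring
  let p : F[X] := (C (g'.1 0 0 : F) * (C (r : F) * X + C l) + C (g'.1 0 1 : F)) *
      (C (g.1 1 0 : F) * X + C (g.1 1 1 : F)) -
    C (r : F) * ((C (g.1 0 0 : F) * X + C (g.1 0 1 : F)) *
      (C (g'.1 1 0 : F) * (C (r : F) * X + C l) + C (g'.1 1 1 : F))) -
    C m * ((C (g.1 1 0 : F) * X + C (g.1 1 1 : F)) *
      (C (g'.1 1 0 : F) * (C (r : F) * X + C l) + C (g'.1 1 1 : F)))
  have hp : aeval z p = 0 := by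
    simp only [p, map_sub, map_add, map_mul, aeval_C, aeval_X, map_intCast]
    exact hkey
  have hp0 : p = 0 := by
    by_contra hne
    exact hz ⟨_, hne, hp⟩
  have hcF : (g.1 1 0 : F) ≠ 0 := by exact_mod_cast hc
  set x : F := -(g.1 1 1 : F) / (g.1 1 0 : F) with hx
  have hcx : (g.1 1 0 : F) * x + (g.1 1 1 : F) = 0 := by
    rw [hx]; field_simp; ring
  have hax : ((g.1 0 0 : F) * x + (g.1 0 1 : F)) * (g.1 1 0 : F) = -1 := by
    have hdet : (g.1 0 0 : F) * g.1 1 1 - g.1 0 1 * g.1 1 0 = 1 := by exact_mod_cast det_eq g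
    linear_combination (g.1 0 0 : F) * hcx - hdet
  have hax0 : (g.1 0 0 : F) * x + (g.1 0 1 : F) ≠ 0 := by
    intro h0
    rw [h0, zero_mul] at hax
    exact absurd hax (by norm_num)
  have hev : eval x p = 0 := by rw [hp0, eval_zero]
  have hrF : (r : F) ≠ 0 := by exact_mod_cast hr
  have h3 : (g'.1 1 0 : F) * ((r : F) * x + l) + (g'.1 1 1 : F) = 0 := by
    have h4 : (r : F) * (((g.1 0 0 : F) * x + (g.1 0 1 : F)) *
        ((g'.1 1 0 : F) * ((r : F) * x + l) + (g'.1 1 1 : F))) = 0 := by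
      simp only [p, eval_sub, eval_add, eval_mul, eval_C, eval_X] at hev
      rw [hcx] at hev
      linear_combination -hev
    rcases mul_eq_zero.mp h4 with h5 | h5
    · exact absurd h5 hrF
    · exact (mul_eq_zero.mp h5).resolve_left hax0
  have hc' : (g'.1 1 0 : F) ≠ 0 := by
    intro h0
    rw [h0, zero_mul, zero_add] at h3
    have hc0 : g'.1 1 0 = 0 := by exact_mod_cast h0
    have hd0 : g'.1 1 1 = 0 := by exact_mod_cast h3
    have := det_eq g'
    rw [hc0, hd0] at this
    simp at this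
  refine ⟨-(g'.1 1 1 : ℚ) / (g'.1 1 0 : ℚ) - r * (-(g.1 1 1 : ℚ) / (g.1 1 0 : ℚ)), ?_⟩
  push_cast
  rw [← hx]
  have : l = -(g'.1 1 1 : F) / (g'.1 1 0 : F) - r * x := by
    rw [eq_sub_iff_add_eq, eq_div_iff hc']
    linear_combination h3
  exact this

end Pool.Agent.LGO.AX
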