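import Mathlib
import Pool.Agent.LGO.AX.AlgB

/-!
# LGO/AX: algebra of the independence proof, part C: fields
-/

namespace Pool.Agent.LGO.AX

open MvPolynomial
open scoped MatrixGroups IntermediateField.algebraAdjoinAdjoin

/-- the field of functions of an irreducible variety -/
theorem fieldOf (I : Ideal (MvPolynomial (Fin 3) ℂ)) (hI : I.IsPrime) :
    ∃ (K : Type) (_ : Field K) (_ : Algebra ℂ K) (z : Fin 3 → K), ∀ H, aeval z H = 0 ↔ H ∈ I := by
  refine ⟨FractionRing (MvPolynomial (Fin 3) ℂ ⧸ I), inferInstance, inferInstance,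
    fun a => algebraMap (MvPolynomial (Fin 3) ℂ ⧸ I) _ (Ideal.Quotient.mk I (X a)), fun H => ?_⟩
  have h1 : aeval (fun a => algebraMap (MvPolynomial (Fin 3) ℂ ⧸ I)
      (FractionRing (MvPolynomial (Fin 3) ℂ ⧸ I)) (Ideal.Quotient.mk I (X a))) H =
      algebraMap (MvPolynomial (Fin 3) ℂ ⧸ I) _ (Ideal.Quotient.mk I H) := by
    have : (aeval (fun a => algebraMap (MvPolynomial (Fin 3) ℂ ⧸ I)
        (FractionRing (MvPolynomial (Fin 3) ℂ ⧸ I)) (Ideal.Quotient.mk I (X a)))) =
        (IsScalarTower.toAlgHom ℂ (MvPolynomial (Fin 3) ℂ ⧸ I)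
          (FractionRing (MvPolynomial (Fin 3) ℂ ⧸ I))).comp (Ideal.Quotient.mkₐ ℂ I) := by
      apply MvPolynomial.algHom_ext
      intro a
      simp
    rw [this]
    simp
  rw [h1, map_eq_zero_iff _ (IsFractionRing.injective (MvPolynomial (Fin 3) ℂ ⧸ I)
    (FractionRing (MvPolynomial (Fin 3) ℂ ⧸ I))), Ideal.Quotient.eq_zero_iff_mem]

/-- an algebraic element over an algebraically closed field is a constant -/
theorem const_of_alg {K : Type} [Field K] [Algebra ℂ K] {x : K} (hx : IsAlgebraic ℂ x) :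
    ∃ c : ℂ, algebraMap ℂ K c = x :=
  minpoly.mem_range_of_degree_eq_one ℂ x
    (IsAlgClosed.degree_eq_one_of_irreducible ℂ (minpoly.irreducible hx.isIntegral))

/-- the algebraic closure of `ℂ(b)` in `K` -/
theorem algF {K : Type} [Field K] [Algebra ℂ K] (b : K) (hb : Transcendental ℂ b) :
    ∃ F : IntermediateField ℂ K, b ∈ F ∧ (∀ x : K, IsAlgebraic F x → x ∈ F) ∧
      ∀ x ∈ F, ∃ G : MvPolynomial (Fin 2) ℂ, G ≠ 0 ∧ aeval ![x, b] G = 0 := by
  let L : IntermediateField ℂ K := IntermediateField.adjoin ℂ {b}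
  have hbL : b ∈ L := IntermediateField.mem_adjoin_simple_self ℂ b
  refine ⟨(algebraicClosure L K).restrictScalars ℂ, ?_, ?_, ?_⟩
  · rw [IntermediateField.mem_restrictScalars, mem_algebraicClosure_iff]
    exact isAlgebraic_algebraMap (⟨b, hbL⟩ : L)
  · intro x hx
    rw [IntermediateField.mem_restrictScalars, mem_algebraicClosure_iff]
    have h1 : IsAlgebraic (algebraicClosure L K) x := hx
    have h2 : Algebra.IsAlgebraic L (algebraicClosure L K) := inferInstance
    exact h1.restrictScalars L
  · intro x hx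
    rw [IntermediateField.mem_restrictScalars, mem_algebraicClosure_iff] at hx
    have h1 : IsAlgebraic (Algebra.adjoin ℂ {b}) x :=
      (IsFractionRing.isAlgebraic_iff (Algebra.adjoin ℂ {b}) L K).mpr hx
    have h2 : ¬ AlgebraicIndependent ℂ (fun o : Option Unit => o.elim x (fun _ => b)) := by
      rw [AlgebraicIndependent.option_iff]
      rintro ⟨_, h3⟩
      have e : Set.range (fun _ : Unit => b) = {b} := by
        ext; simp [eq_comm]
      rw [e] at h3
      exact h3 h1
    rw [algebraicIndependent_iff] at h2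
    push Not at h2
    obtain ⟨G, hG0, hG⟩ := h2
    let f : Option Unit ≃ Fin 2 := ⟨fun o => o.elim 0 (fun _ => 1), ![none, some ()],
      fun o => by rcases o with _ | _ <;> rfl, fun i => by fin_cases i <;> rfl⟩
    refine ⟨rename f G, fun h => hG (by
      have := (rename_injective f f.injective) (h.trans (map_zero (rename f)).symm)
      exact this), ?_⟩
    rw [aeval_rename]
    have : (![x, b] : Fin 2 → K) ∘ f = fun o : Option Unit => o.elim x (fun _ => b) := by
      funext o
      rcases o with _ | _ <;> rfl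
    rw [this]
    exact hG0

end Pool.Agent.LGO.AX
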