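import Mathlib
import Pool.Agent.LGO.AX.AlgC

/-!
# LGO/AX: algebra of the independence proof, part D: shifts
-/

namespace Pool.Agent.LGO.AX

open MvPolynomial
open scoped MatrixGroups

/-- relations of the moved set are the relations of the moved functions -/
theorem star {A : Set (Fin 3 → ℂ)} (hA : ∀ ζ ∈ A, ∀ a, 0 < (ζ a).im) {K : Type} [Field K]
    [Algebra ℂ K] {z : Fin 3 → K} (hz : ∀ H, aeval z H = 0 ↔ H ∈ vanishingIdeal ℂ A)
    (hzt : ∀ a, Transcendental ℂ (z a)) (γ : Fin 3 → SL(2, ℤ)) (H : MvPolynomial (Fin 3) ℂ) :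
    H ∈ vanishingIdeal ℂ ((fun ζ a => mz (γ a).1 (ζ a)) '' A) ↔
      aeval (fun a => mK (γ a).1 (z a)) H = 0 := by
  obtain ⟨P, N, hP⟩ := clear γ H
  have h1 : P ∈ vanishingIdeal ℂ A ↔ H ∈ vanishingIdeal ℂ ((fun ζ a => mz (γ a).1 (ζ a)) '' A) := by
    rw [mem_vanishingIdeal_iff, mem_vanishingIdeal_iff]
    constructor
    · rintro h _ ⟨ζ, hζ, rfl⟩
      have h2 := hP ℂ ζ (fun a => dn_ne (hA ζ hζ a))
      rw [h ζ hζ] at h2
      exact (mul_eq_zero.mp h2.symm).resolve_left
        (pow_ne_zero _ (Finset.prod_ne_zero_iff.mpr fun a _ => dn_ne (hA ζ hζ a)))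
    · intro h ζ hζ
      have h2 := hP ℂ ζ (fun a => dn_ne (hA ζ hζ a))
      have h3 : aeval (fun a => mK (γ a).1 (ζ a)) H = 0 := h _ ⟨ζ, hζ, rfl⟩
      rw [h2, h3, mul_zero]
  rw [← h1, ← hz]
  have hd : ∀ a, dn (γ a).1 (z a) ≠ 0 := fun a => dn_tr' (hzt a) (γ a)
  rw [hP K z hd]
  constructor
  · intro h
    exact (mul_eq_zero.mp h).resolve_left (pow_ne_zero _ (Finset.prod_ne_zero_iff.mpr fun a _ => hd a))
  · intro h
    rw [h, mul_zero]

/-- shifts by integers give shifts by complex numbers -/
theorem shift_all {e : Fin 3 → ℕ} {H : MvPolynomial (Fin 3) ℂ} {ζ : Fin 3 → ℂ}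
    (h : ∀ n : ℕ, aeval (fun b => ζ b + (n : ℂ) * (e b : ℂ)) H = 0) (x : ℂ) :
    aeval (fun b => ζ b + x * (e b : ℂ)) H = 0 := by
  let p : Polynomial ℂ := aeval (fun b => Polynomial.C (ζ b) + Polynomial.X * Polynomial.C (e b : ℂ)) H
  have hev : ∀ x : ℂ, Polynomial.eval x p = aeval (fun b => ζ b + x * (e b : ℂ)) H := by
    intro x
    have : (Polynomial.aeval x).comp (aeval (fun b => Polynomial.C (ζ b) +
        Polynomial.X * Polynomial.C (e b : ℂ)) : MvPolynomial (Fin 3) ℂ →ₐ[ℂ] Polynomial ℂ) =
        aeval (fun b => ζ b + x * (e b : ℂ)) := by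
      apply MvPolynomial.algHom_ext
      intro b
      simp
    rw [← this]
    simp [p, Polynomial.aeval_def]
  have hp : p = 0 := by
    refine Polynomial.eq_zero_of_infinite_isRoot p ?_
    refine Set.infinite_of_injective_forall_mem (f := fun n : ℕ => (n : ℂ)) Nat.cast_injective ?_
    intro n
    change Polynomial.eval _ p = 0
    rw [hev, h n]
  rw [← hev, hp, Polynomial.eval_zero]

/-- the relations after the shift which moves the coordinate `i` to the constant `x0` -/
theorem cusp_rel {A : Set (Fin 3 → ℂ)} {e : Fin 3 → ℕ} {i : Fin 3} (hi : 0 < e i)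
    (hs : ∀ H ∈ vanishingIdeal ℂ A, ∀ n : ℕ, ∀ ζ ∈ A, aeval (fun b => ζ b + (n : ℂ) * (e b : ℂ)) H = 0)
    {H : MvPolynomial (Fin 3) ℂ} (hH : H ∈ vanishingIdeal ℂ A) (x0 : ℂ) :
    aeval (fun b => X b + (C x0 - X i) * C ((e b : ℂ) / (e i : ℂ))) H ∈
      (vanishingIdeal ℂ A : Ideal (MvPolynomial (Fin 3) ℂ)) := by
  rw [mem_vanishingIdeal_iff]
  intro ζ hζ
  have h1 := shift_all (fun n => hs H hH n ζ hζ) ((x0 - ζ i) / (e i : ℂ))
  have : aeval ζ (aeval (fun b => X b + (C x0 - X i) * C ((e b : ℂ) / (e i : ℂ)) :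
      Fin 3 → MvPolynomial (Fin 3) ℂ) H) =
      aeval (fun b => ζ b + ((x0 - ζ i) / (e i : ℂ)) * (e b : ℂ)) H := by
    rw [← AlgHom.comp_apply]
    congr 1
    apply MvPolynomial.algHom_ext
    intro b
    simp
    ring
  rw [this, h1]

/-- the same in a field, for functions `w` satisfying all relations -/
theorem cusp_field {A : Set (Fin 3 → ℂ)} {e : Fin 3 → ℕ} {i : Fin 3} (hi : 0 < e i)
    (hs : ∀ H ∈ vanishingIdeal ℂ A, ∀ n : ℕ, ∀ ζ ∈ A, aeval (fun b => ζ b + (n : ℂ) * (e b : ℂ)) H = 0)
    {K : Type} [Field K] [Algebra ℂ K] {w : Fin 3 → K}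
    (hw : ∀ H ∈ vanishingIdeal ℂ A, aeval w H = 0)
    {H : MvPolynomial (Fin 3) ℂ} (hH : H ∈ vanishingIdeal ℂ A) (x0 : ℂ) :
    aeval (fun b => w b + (algebraMap ℂ K x0 - w i) * algebraMap ℂ K ((e b : ℂ) / (e i : ℂ))) H = 0 := by
  have h1 := hw _ (cusp_rel hi hs hH x0)
  rw [← h1, ← AlgHom.comp_apply]
  congr 1
  apply MvPolynomial.algHom_ext
  intro b
  simp

/-- two variables: if `G(x0, a + r x0) = 0` for all `x0` and `a` is not constant then `G = 0` -/
theorem two {K : Type} [Field K] [Algebra ℂ K] {a : K} (ha : Transcendental ℂ a) (r : ℂ)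
    {G : MvPolynomial (Fin 2) ℂ}
    (h : ∀ x0 : ℂ, aeval ![algebraMap ℂ K x0, a + algebraMap ℂ K (r * x0)] G = 0) : G = 0 := by
  refine MvPolynomial.funext fun v => ?_
  rw [map_zero]
  let p : Polynomial ℂ := aeval ![Polynomial.C (v 0), Polynomial.X + Polynomial.C (r * v 0)] G
  have hp : Polynomial.aeval a p = 0 := by
    rw [← h (v 0)]
    simp only [p]
    rw [← AlgHom.comp_apply]
    congr 1
    apply MvPolynomial.algHom_ext
    intro b
    fin_cases b <;> simp
  have hp0 : p = 0 := by
    by_contra hne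
    exact ha ⟨p, hne, hp⟩
  have h2 : Polynomial.aeval (v 1 - r * v 0) p = aeval v G := by
    simp only [p]
    rw [← AlgHom.comp_apply]
    congr 1
    apply MvPolynomial.algHom_ext
    intro b
    fin_cases b <;> simp
  rw [hp0, map_zero] at h2
  rw [← aeval_eq_eval, ← h2]

/-- three variables: if `G(x0, a + r x0, b) = 0` (in the order `i, j, k`) for all `x0`, `b ∈ F` is not
constant and `a` is transcendental over `F`, then `G = 0` -/
theorem three {K : Type} [Field K] [Algebra ℂ K] {F : IntermediateField ℂ K} {a : K}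
    (ha : Transcendental F a) {b : K} (hbF : b ∈ F) (hb : Transcendental ℂ b) (r : ℂ)
    {i j k : Fin 3} (hij : i ≠ j) (hjk : j ≠ k) (hik : i ≠ k) {G : MvPolynomial (Fin 3) ℂ}
    (h : ∀ (x0 : ℂ) (v : Fin 3 → K), v i = algebraMap ℂ K x0 → v j = a + algebraMap ℂ K (r * x0) →
      v k = b → aeval v G = 0) : G = 0 := by
  have hcov : ∀ c : Fin 3, c = i ∨ c = j ∨ c = k := by
    intro c
    fin_cases i <;> fin_cases j <;> fin_cases k <;> fin_cases c <;> simp_all
  refine MvPolynomial.funext fun v => ?_
  rw [map_zero]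
  let b' : F := ⟨b, hbF⟩
  -- first the coordinate `j`
  have h1 : aeval (fun c => if c = i then algebraMap ℂ F (v i) else if c = j then algebraMap ℂ F (v j)
      else b') G = 0 := by
    let p : Polynomial F := aeval (fun c => if c = i then Polynomial.C (algebraMap ℂ F (v i))
      else if c = j then Polynomial.X + Polynomial.C (algebraMap ℂ F (r * v i))
      else Polynomial.C b') G
    have hp : Polynomial.aeval a p = 0 := by
      rw [← h (v i) (fun c => if c = i then algebraMap ℂ K (v i) else if c = j then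
        a + algebraMap ℂ K (r * v i) else b) (by simp) (by simp [hij.symm])
        (by simp [hik.symm, hjk.symm])]
      simp only [p]
      have : ((Polynomial.aeval a : Polynomial F →ₐ[F] K).restrictScalars ℂ).comp
          (aeval (fun c => if c = i then Polynomial.C (algebraMap ℂ F (v i))
            else if c = j then Polynomial.X + Polynomial.C (algebraMap ℂ F (r * v i))
            else Polynomial.C b')) = aeval (fun c => if c = i then algebraMap ℂ K (v i) else if c = j
            then a + algebraMap ℂ K (r * v i) else b) := by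
        apply MvPolynomial.algHom_ext
        intro c
        rcases hcov c with rfl | rfl | rfl
        · simp [← IsScalarTower.algebraMap_apply]
        · simp [hij.symm, ← IsScalarTower.algebraMap_apply]
        · simp [hik.symm, hjk.symm, b']
      rw [← this]
      rfl
    have hp0 : p = 0 := by
      by_contra hne
      exact ha ⟨p, hne, hp⟩
    have h2 : Polynomial.eval (algebraMap ℂ F (v j - r * v i)) p =
        aeval (fun c => if c = i then algebraMap ℂ F (v i) else if c = j then algebraMap ℂ F (v j)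
          else b') G := by
      simp only [p]
      have : ((Polynomial.aeval (algebraMap ℂ F (v j - r * v i)) :
          Polynomial F →ₐ[F] F).restrictScalars ℂ).comp
          (aeval (fun c => if c = i then Polynomial.C (algebraMap ℂ F (v i))
            else if c = j then Polynomial.X + Polynomial.C (algebraMap ℂ F (r * v i))
            else Polynomial.C b')) = aeval (fun c => if c = i then algebraMap ℂ F (v i) else if c = j
            then algebraMap ℂ F (v j) else b') := by
        apply MvPolynomial.algHom_ext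
        intro c
        rcases hcov c with rfl | rfl | rfl
        · simp
        · simp [hij.symm]
        · simp [hik.symm, hjk.symm]
      rw [← this]
      simp [Polynomial.aeval_def]
    rw [← h2, hp0, Polynomial.eval_zero]
  -- then the coordinate `k`
  let q : Polynomial ℂ := aeval (fun c => if c = i then Polynomial.C (v i) else if c = j then
    Polynomial.C (v j) else Polynomial.X) G
  have hq : Polynomial.aeval b q = 0 := by
    have e1 := congrArg (algebraMap F K) h1
    rw [map_zero] at e1
    rw [← e1]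
    simp only [q]
    have : (Polynomial.aeval b : Polynomial ℂ →ₐ[ℂ] K).comp (aeval (fun c => if c = i then
        Polynomial.C (v i) else if c = j then Polynomial.C (v j) else Polynomial.X)) =
        (IsScalarTower.toAlgHom ℂ F K).comp (aeval (fun c => if c = i then algebraMap ℂ F (v i)
          else if c = j then algebraMap ℂ F (v j) else b')) := by
      apply MvPolynomial.algHom_ext
      intro c
      rcases hcov c with rfl | rfl | rfl
      · simp [← IsScalarTower.algebraMap_apply]
      · simp [hij.symm, ← IsScalarTower.algebraMap_apply]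
      · simp [hik.symm, hjk.symm, b']
    have e2 := congrArg (fun f => f G) this
    simpa using e2
  have hq0 : q = 0 := by
    by_contra hne
    exact hb ⟨q, hne, hq⟩
  have h3 : Polynomial.aeval (v k) q = aeval v G := by
    simp only [q]
    rw [← AlgHom.comp_apply]
    congr 1
    apply MvPolynomial.algHom_ext
    intro c
    rcases hcov c with rfl | rfl | rfl
    · simp
    · simp [hij.symm]
    · simp [hik.symm, hjk.symm]
  rw [hq0, map_zero] at h3
  rw [← aeval_eq_eval, ← h3]

end Pool.Agent.LGO.AX
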