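import Mathlib
import Pool.Agent.LGO.AX.AlgD

/-!
# LGO/AX: algebra of the independence proof, part E: `ind_of`

The family `Fm` consists of the lifted curves (of all branches, moved by `SL₂(ℤ)³`).
-/

namespace Pool.Agent.LGO.AX

open MvPolynomial
open scoped MatrixGroups

/-- the properties of the family of lifted curves -/
structure Fmy (Fm : Set (Set (Fin 3 → ℂ))) : Prop where
  im : ∀ A ∈ Fm, ∀ ζ ∈ A, ∀ a, 0 < (ζ a).im
  prime : ∀ A ∈ Fm, (vanishingIdeal ℂ A : Ideal (MvPolynomial (Fin 3) ℂ)).IsPrime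
  nc : ∀ A ∈ Fm, ∀ a c, ∃ ζ ∈ A, ζ a ≠ c
  tr : ∀ A ∈ Fm, ∀ A' ∈ Fm, ∃ γ : Fin 3 → SL(2, ℤ),
    (vanishingIdeal ℂ A : Ideal (MvPolynomial (Fin 3) ℂ)) =
      vanishingIdeal ℂ ((fun ζ a => mz (γ a).1 (ζ a)) '' A')
  cusp : ∀ a, ∃ A ∈ Fm, ∃ e : Fin 3 → ℕ, 0 < e a ∧ (∃ k, e k = 0) ∧
    (∀ H ∈ (vanishingIdeal ℂ A : Ideal (MvPolynomial (Fin 3) ℂ)), ∀ n : ℕ, ∀ ζ ∈ A,
      aeval (fun b => ζ b + (n : ℂ) * (e b : ℂ)) H = 0) ∧
    ∃ δ : Fin 3 → SL(2, ℤ), (vanishingIdeal ℂ ((fun ζ a => mz (δ a).1 (ζ a)) '' A) :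
      Ideal (MvPolynomial (Fin 3) ℂ)) = vanishingIdeal ℂ A ∧ (δ a).1 1 0 ≠ 0
  nomod : ∀ A ∈ Fm, ∀ i j, i ≠ j → ∀ r : ℚ, 0 < r → ∀ l : ℚ, ∃ ζ ∈ A, ζ j ≠ r * ζ i + l

variable {Fm : Set (Set (Fin 3 → ℂ))}

theorem tra (h : Fmy Fm) {A : Set (Fin 3 → ℂ)} (hA : A ∈ Fm) {K : Type} [Field K] [Algebra ℂ K]
    {z : Fin 3 → K} (hz : ∀ H, aeval z H = 0 ↔ H ∈ vanishingIdeal ℂ A) (a : Fin 3) :
    Transcendental ℂ (z a) := by
  intro ha
  obtain ⟨c, hc⟩ := const_of_alg ha
  have h1 : (X a - C c : MvPolynomial (Fin 3) ℂ) ∈ vanishingIdeal ℂ A := by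
    rw [← hz]; simp [hc]
  obtain ⟨ζ, hζ, hne⟩ := h.nc A hA a c
  have := h1 ζ hζ
  simp at this
  exact hne (sub_eq_zero.mp this)

/-- a linear relation with rational coefficients is excluded -/
theorem no_lin (h : Fmy Fm) {A : Set (Fin 3 → ℂ)} (hA : A ∈ Fm) {K : Type} [Field K] [Algebra ℂ K]
    {z : Fin 3 → K} (hz : ∀ H, aeval z H = 0 ↔ H ∈ vanishingIdeal ℂ A) {i j : Fin 3} (hij : i ≠ j)
    {r : ℚ} (hr : 0 < r) (l : ℚ) : z j - algebraMap ℂ K r * z i ≠ algebraMap ℂ K l := by
  intro h0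
  have h1 : (X j - C (r : ℂ) * X i - C (l : ℂ) : MvPolynomial (Fin 3) ℂ) ∈ vanishingIdeal ℂ A := by
    rw [← hz]
    simp only [map_sub, map_mul, aeval_X, aeval_C]
    rw [h0, sub_self]
  obtain ⟨ζ, hζ, hne⟩ := h.nomod A hA i j hij r hr l
  have := h1 ζ hζ
  simp only [map_sub, map_mul, aeval_X, aeval_C] at this
  apply hne
  have h2 : ζ j - (r : ℂ) * ζ i - (l : ℂ) = 0 := this
  linear_combination h2

/-- a nonzero relation between two coordinates -/
def PD (A : Set (Fin 3 → ℂ)) (i k : Fin 3) : Prop :=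
  ∃ G : MvPolynomial (Fin 2) ℂ, G ≠ 0 ∧ ∀ ζ ∈ A, aeval ![ζ i, ζ k] G = 0

theorem PD.symm {A : Set (Fin 3 → ℂ)} {i k : Fin 3} (h : PD A i k) : PD A k i := by
  obtain ⟨G, hG, h1⟩ := h
  refine ⟨rename (Equiv.swap 0 1) G, fun h0 => hG ?_, fun ζ hζ => ?_⟩
  · exact rename_injective _ (Equiv.swap (0 : Fin 2) 1).injective
      (h0.trans (map_zero (rename _)).symm)
  · rw [aeval_rename, ← h1 ζ hζ]
    congr 2
    funext c
    fin_cases c <;> simp

/-- no relation at a cusp where the coordinate `i` is infinite -/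
theorem pair_cusp (h : Fmy Fm) {A : Set (Fin 3 → ℂ)} (hA : A ∈ Fm) {e : Fin 3 → ℕ} {i k : Fin 3}
    (hik : i ≠ k) (hi : 0 < e i)
    (hs : ∀ H ∈ (vanishingIdeal ℂ A : Ideal (MvPolynomial (Fin 3) ℂ)), ∀ n : ℕ, ∀ ζ ∈ A,
      aeval (fun b => ζ b + (n : ℂ) * (e b : ℂ)) H = 0)
    {δ : Fin 3 → SL(2, ℤ)} (hδ : (vanishingIdeal ℂ ((fun ζ a => mz (δ a).1 (ζ a)) '' A) :
      Ideal (MvPolynomial (Fin 3) ℂ)) = vanishingIdeal ℂ A) (hc : (δ i).1 1 0 ≠ 0) : ¬ PD A i k := by
  rintro ⟨G, hG, hG0⟩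
  obtain ⟨K, _, _, z, hz⟩ := fieldOf _ (h.prime A hA)
  have htr := tra h hA hz
  set r : ℚ := (e k : ℚ) / (e i : ℚ) with hr
  have hrC : ((r : ℚ) : ℂ) = (e k : ℂ) / (e i : ℂ) := by rw [hr]; push_cast; rfl
  -- `λ = z k - r z i` is a constant
  set lam : K := z k - algebraMap ℂ K r * z i with hlam
  have hGI : rename ![i, k] G ∈ (vanishingIdeal ℂ A : Ideal (MvPolynomial (Fin 3) ℂ)) := by
    rw [mem_vanishingIdeal_iff]
    intro ζ hζ
    rw [aeval_rename, ← hG0 ζ hζ]
    congr 2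
    funext c
    fin_cases c <;> rfl
  have hrel : ∀ x0 : ℂ, aeval ![algebraMap ℂ K x0, lam + algebraMap ℂ K (r * x0)] G = 0 := by
    intro x0
    have h1 := cusp_field hi hs (fun H hH => (hz H).mpr hH) hGI x0
    rw [aeval_rename] at h1
    rw [← h1]
    congr 2
    funext c
    have hei : (e i : ℂ) ≠ 0 := by exact_mod_cast hi.ne'
    fin_cases c
    · change algebraMap ℂ K x0 = z i + (algebraMap ℂ K x0 - z i) *
        algebraMap ℂ K ((e i : ℂ) / (e i : ℂ))
      rw [div_self hei, map_one]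
      ring
    · change lam + algebraMap ℂ K (r * x0) = z k + (algebraMap ℂ K x0 - z i) *
        algebraMap ℂ K ((e k : ℂ) / (e i : ℂ))
      rw [hlam, map_mul, ← hrC]
      ring
  have hlc : ∃ c : ℂ, algebraMap ℂ K c = lam := by
    apply const_of_alg
    by_contra hne
    exact hG (two hne r hrel)
  obtain ⟨c, hcl⟩ := hlc
  by_cases hek : e k = 0
  · -- `z k` would be constant
    have : lam = z k := by rw [hlam, hr, hek]; simp
    rw [this] at hcl
    exact htr k (hcl ▸ isAlgebraic_algebraMap c)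
  · have hr0 : 0 < r := by
      rw [hr]
      apply div_pos <;> exact_mod_cast (by omega)
    -- the relation for the moved functions
    have hrelI : (X k - C (r : ℂ) * X i - C c : MvPolynomial (Fin 3) ℂ) ∈
        (vanishingIdeal ℂ A : Ideal (MvPolynomial (Fin 3) ℂ)) := by
      rw [← hz]
      simp only [map_sub, map_mul, aeval_X, aeval_C]
      rw [hcl, hlam, sub_self]
    have h2 := hrelI
    rw [← hδ] at h2
    rw [star (h.im A hA) hz htr δ] at h2
    simp only [map_sub, map_mul, aeval_X, aeval_C] at h2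
    have hzk : z k = algebraMap ℂ K r * z i + algebraMap ℂ K c := by
      rw [hcl, hlam]; ring
    have h3 : mK (δ k).1 (algebraMap ℂ K r * z i + algebraMap ℂ K c) -
        algebraMap ℂ K r * mK (δ i).1 (z i) = algebraMap ℂ K c := by
      rw [← hzk]
      linear_combination h2
    obtain ⟨ρ, hρ⟩ := key (htr i) hr0.ne' hc h3
    apply no_lin h hA hz hik hr0 ρ
    rw [← hρ, hcl]

/-- no relation between two coordinates -/
theorem pair (h : Fmy Fm) {A : Set (Fin 3 → ℂ)} (hA : A ∈ Fm) {i k : Fin 3} (hik : i ≠ k) :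
    ¬ PD A i k := by
  rintro ⟨G, hG, hG0⟩
  obtain ⟨A', hA', e, hi, -, hs, δ, hδ, hc⟩ := h.cusp i
  obtain ⟨γ, hγ⟩ := h.tr A hA A' hA'
  -- transport the relation to `A'`
  have hGI : rename ![i, k] G ∈ (vanishingIdeal ℂ A : Ideal (MvPolynomial (Fin 3) ℂ)) := by
    rw [mem_vanishingIdeal_iff]
    intro ζ hζ
    rw [aeval_rename, ← hG0 ζ hζ]
    congr 2
    funext c
    fin_cases c <;> rfl
  obtain ⟨K, _, _, z, hz⟩ := fieldOf _ (h.prime A' hA')
  have htr := tra h hA' hz
  rw [hγ, star (h.im A' hA') hz htr γ, aeval_rename] at hGI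
  -- `γ z i` is algebraic over `ℂ(γ z k)`, so `z i` is algebraic over `ℂ(z k)`
  obtain ⟨F, hkF, hF, hFG⟩ := algF (z k) (htr k)
  have hmk : ∀ (g : SL(2, ℤ)) (x : K), x ∈ F → mK g.1 x ∈ F := by
    intro g x hx
    unfold mK
    exact div_mem (add_mem (mul_mem (intCast_mem F _) hx) (intCast_mem F _))
      (add_mem (mul_mem (intCast_mem F _) hx) (intCast_mem F _))
  have hyk : mK (γ k).1 (z k) ∈ F := hmk _ _ hkF
  have hmobt : ∀ (g : SL(2, ℤ)) (x : K), Transcendental ℂ x → Transcendental ℂ (mK g.1 x) := by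
    intro g x hx ha
    obtain ⟨c, hc'⟩ := const_of_alg ha
    have hd := dn_tr' hx g
    have h1 : mK g.1 x * dn g.1 x = (g.1 0 0 : K) * x + (g.1 0 1 : K) := by
      unfold mK; exact div_mul_cancel₀ _ hd
    rw [← hc'] at h1
    have hp : Polynomial.aeval x (Polynomial.C c * (Polynomial.C (g.1 1 0 : ℂ) * Polynomial.X +
        Polynomial.C (g.1 1 1 : ℂ)) - (Polynomial.C (g.1 0 0 : ℂ) * Polynomial.X +
        Polynomial.C (g.1 0 1 : ℂ))) = 0 := by
      simp only [map_sub, map_add, map_mul, Polynomial.aeval_C, Polynomial.aeval_X, map_intCast]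
      unfold dn at h1
      linear_combination h1
    have hp0 : (Polynomial.C c * (Polynomial.C (g.1 1 0 : ℂ) * Polynomial.X +
        Polynomial.C (g.1 1 1 : ℂ)) - (Polynomial.C (g.1 0 0 : ℂ) * Polynomial.X +
        Polynomial.C (g.1 0 1 : ℂ))) = 0 := by
      by_contra hne
      exact hx ⟨_, hne, hp⟩
    have e0 := congrArg (Polynomial.eval 0) hp0
    have e1 := congrArg (Polynomial.eval 1) hp0
    simp only [Polynomial.eval_sub, Polynomial.eval_add, Polynomial.eval_mul, Polynomial.eval_C,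
      Polynomial.eval_X, Polynomial.eval_zero] at e0 e1
    have hdet : (g.1 0 0 : ℂ) * g.1 1 1 - g.1 0 1 * g.1 1 0 = 1 := by exact_mod_cast det_eq g
    have : (1 : ℂ) = 0 := by
      rw [← hdet]
      linear_combination (g.1 1 0 : ℂ) * e0 - (g.1 1 1 : ℂ) * (e1 - e0)
    exact one_ne_zero this
  -- `z i ∈ F`
  have hziF : z i ∈ F := by
    -- first `y := γ z i`
    have hyi : mK (γ i).1 (z i) ∈ F := by
      apply hF
      by_contra hne
      apply hG
      -- `G (y, b) = 0` with `y` transcendental over `F`, `b ∈ F` transcendental over `ℂ`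
      let b' : F := ⟨mK (γ k).1 (z k), hyk⟩
      refine MvPolynomial.funext fun v => ?_
      rw [map_zero]
      have h1 : aeval ![algebraMap ℂ F (v 0), b'] G = 0 := by
        let p : Polynomial F := aeval ![Polynomial.X, Polynomial.C b'] G
        have hp : Polynomial.aeval (mK (γ i).1 (z i)) p = 0 := by
          rw [← hGI]
          simp only [p]
          have : ((Polynomial.aeval (mK (γ i).1 (z i)) : Polynomial F →ₐ[F] K).restrictScalars
              ℂ).comp (aeval ![Polynomial.X, Polynomial.C b']) =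
              aeval ((fun a => mK (γ a).1 (z a)) ∘ ![i, k]) := by
            apply MvPolynomial.algHom_ext
            intro c
            fin_cases c <;> simp [b']
          rw [← this]
          rfl
        have hp0 : p = 0 := by
          by_contra hne'
          exact hne ⟨p, hne', hp⟩
        have h2 : Polynomial.eval (algebraMap ℂ F (v 0)) p = aeval ![algebraMap ℂ F (v 0), b'] G := by
          simp only [p]
          have : ((Polynomial.aeval (algebraMap ℂ F (v 0)) : Polynomial F →ₐ[F] F).restrictScalars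
              ℂ).comp (aeval ![Polynomial.X, Polynomial.C b']) =
              aeval ![algebraMap ℂ F (v 0), b'] := by
            apply MvPolynomial.algHom_ext
            intro c
            fin_cases c <;> simp
          rw [← this]
          simp
        rw [← h2, hp0, Polynomial.eval_zero]
      let q : Polynomial ℂ := aeval ![Polynomial.C (v 0), Polynomial.X] G
      have hq : Polynomial.aeval (mK (γ k).1 (z k)) q = 0 := by
        have e1 := congrArg (algebraMap F K) h1
        rw [map_zero] at e1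
        rw [← e1]
        simp only [q]
        have : (Polynomial.aeval (mK (γ k).1 (z k)) : Polynomial ℂ →ₐ[ℂ] K).comp
            (aeval ![Polynomial.C (v 0), Polynomial.X]) =
            (IsScalarTower.toAlgHom ℂ F K).comp (aeval ![algebraMap ℂ F (v 0), b']) := by
          apply MvPolynomial.algHom_ext
          intro c
          fin_cases c <;> simp [b', ← IsScalarTower.algebraMap_apply]
        have e2 := congrArg (fun f => f G) this
        simpa using e2
      have hq0 : q = 0 := by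
        by_contra hne'
        exact hmobt (γ k) (z k) (htr k) ⟨q, hne', hq⟩
      have h3 : Polynomial.aeval (v 1) q = aeval v G := by
        simp only [q]
        rw [← AlgHom.comp_apply]
        congr 1
        apply MvPolynomial.algHom_ext
        intro c
        fin_cases c <;> simp
      rw [hq0, map_zero] at h3
      rw [← aeval_eq_eval, ← h3]
    -- invert the Möbius transformation
    have hd := dn_tr' (htr i) (γ i)
    have h1 : mK (γ i).1 (z i) * dn (γ i).1 (z i) = ((γ i).1 0 0 : K) * z i + ((γ i).1 0 1 : K) := by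
      unfold mK; exact div_mul_cancel₀ _ hd
    set y := mK (γ i).1 (z i) with hy
    have h2 : z i * (((γ i).1 1 0 : K) * y - ((γ i).1 0 0 : K)) =
        ((γ i).1 0 1 : K) - ((γ i).1 1 1 : K) * y := by
      unfold dn at h1
      linear_combination h1
    have h3 : ((γ i).1 1 0 : K) * y - ((γ i).1 0 0 : K) ≠ 0 := by
      intro h0
      rw [h0, mul_zero] at h2
      have hdet : ((γ i).1 0 0 : K) * (γ i).1 1 1 - (γ i).1 0 1 * (γ i).1 1 0 = 1 := by
        have := congrArg (Int.cast : ℤ → K) (det_eq (γ i))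
        push_cast at this
        exact this
      have : (1 : K) = 0 := by
        rw [← hdet]
        linear_combination -((γ i).1 1 1 : K) * h0 + ((γ i).1 1 0 : K) * h2
      exact one_ne_zero this
    have h4 : z i = (((γ i).1 0 1 : K) - ((γ i).1 1 1 : K) * y) /
        (((γ i).1 1 0 : K) * y - ((γ i).1 0 0 : K)) := by
      rw [eq_div_iff h3]; exact h2
    rw [h4]
    exact div_mem (sub_mem (intCast_mem F _) (mul_mem (intCast_mem F _) hyi))
      (sub_mem (mul_mem (intCast_mem F _) hyi) (intCast_mem F _))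
  obtain ⟨G', hG', hG'0⟩ := hFG _ hziF
  refine pair_cusp h hA' hik hi hs hδ hc ⟨G', hG', fun ζ hζ => ?_⟩
  have h5 : rename ![i, k] G' ∈ (vanishingIdeal ℂ A' : Ideal (MvPolynomial (Fin 3) ℂ)) := by
    rw [← hz, aeval_rename, ← hG'0]
    congr 2
    funext c
    fin_cases c <;> rfl
  have h6 := h5 ζ hζ
  rw [aeval_rename] at h6
  rw [← h6]
  congr 2
  funext c
  fin_cases c <;> rfl

/-- the coordinates are algebraically independent on the curves of the family -/
theorem ind_cusp (h : Fmy Fm) {A : Set (Fin 3 → ℂ)} (hA : A ∈ Fm) {e : Fin 3 → ℕ} {i k : Fin 3}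
    (hi : 0 < e i) (hk : e k = 0)
    (hs : ∀ H ∈ (vanishingIdeal ℂ A : Ideal (MvPolynomial (Fin 3) ℂ)), ∀ n : ℕ, ∀ ζ ∈ A,
      aeval (fun b => ζ b + (n : ℂ) * (e b : ℂ)) H = 0)
    {δ : Fin 3 → SL(2, ℤ)} (hδ : (vanishingIdeal ℂ ((fun ζ a => mz (δ a).1 (ζ a)) '' A) :
      Ideal (MvPolynomial (Fin 3) ℂ)) = vanishingIdeal ℂ A) (hc : (δ i).1 1 0 ≠ 0) :
    (vanishingIdeal ℂ A : Ideal (MvPolynomial (Fin 3) ℂ)) = ⊥ := by
  rw [eq_bot_iff]
  intro G hG
  rw [Ideal.mem_bot]
  by_contra hG0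
  have hik : i ≠ k := by
    rintro rfl
    omega
  obtain ⟨j, hij, hjk⟩ : ∃ j : Fin 3, i ≠ j ∧ j ≠ k := by
    fin_cases i <;> fin_cases k
    · exact absurd rfl hik
    · exact ⟨2, by decide, by decide⟩
    · exact ⟨1, by decide, by decide⟩
    · exact ⟨2, by decide, by decide⟩
    · exact absurd rfl hik
    · exact ⟨0, by decide, by decide⟩
    · exact ⟨1, by decide, by decide⟩
    · exact ⟨0, by decide, by decide⟩
    · exact absurd rfl hik
  obtain ⟨K, _, _, z, hz⟩ := fieldOf _ (h.prime A hA)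
  have htr := tra h hA hz
  set r : ℚ := (e j : ℚ) / (e i : ℚ) with hr
  have hrC : ((r : ℚ) : ℂ) = (e j : ℂ) / (e i : ℂ) := by rw [hr]; push_cast; rfl
  have hei : (e i : ℂ) ≠ 0 := by exact_mod_cast hi.ne'
  obtain ⟨F, hkF, hF, hFG⟩ := algF (z k) (htr k)
  have hmk : ∀ (g : SL(2, ℤ)) (x : K), x ∈ F → mK g.1 x ∈ F := by
    intro g x hx
    unfold mK
    exact div_mem (add_mem (mul_mem (intCast_mem F _) hx) (intCast_mem F _))
      (add_mem (mul_mem (intCast_mem F _) hx) (intCast_mem F _))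
  -- pairs
  have hnF : ∀ b : Fin 3, b ≠ k → z b ∉ F := by
    intro b hb hbF
    obtain ⟨G', hG', hG'0⟩ := hFG _ hbF
    refine pair h hA hb ⟨G', hG', fun ζ hζ => ?_⟩
    have h5 : rename ![b, k] G' ∈ (vanishingIdeal ℂ A : Ideal (MvPolynomial (Fin 3) ℂ)) := by
      rw [← hz, aeval_rename, ← hG'0]
      congr 2
      funext c
      fin_cases c <;> rfl
    have h6 := h5 ζ hζ
    rw [aeval_rename] at h6
    rw [← h6]
    congr 2
    funext c
    fin_cases c <;> rfl
  -- the general step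
  have hstep : ∀ w : Fin 3 → K, (∀ H ∈ (vanishingIdeal ℂ A : Ideal (MvPolynomial (Fin 3) ℂ)),
      aeval w H = 0) → w k ∈ F → Transcendental ℂ (w k) →
      w j - algebraMap ℂ K r * w i ∈ F := by
    intro w hw hwF hwt
    apply hF
    by_contra hne
    apply hG0
    refine three (r := (r : ℂ)) hne hwF hwt hij hjk hik fun x0 v hvi hvj hvk => ?_
    have h1 := cusp_field hi hs hw hG x0
    rw [← h1]
    congr 2
    have hcov : ∀ c : Fin 3, c = i ∨ c = j ∨ c = k := by
      intro c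
      clear * - hij hjk hik
      fin_cases i <;> fin_cases j <;> fin_cases k <;> fin_cases c <;> simp_all
    funext c
    rcases hcov c with rfl | rfl | rfl
    · rw [hvi, div_self hei, map_one]; ring
    · rw [hvj, ← hrC, map_mul]; ring
    · rw [hvk, hk]; simp
  have hlF : z j - algebraMap ℂ K r * z i ∈ F :=
    hstep z (fun H hH => (hz H).mpr hH) hkF (htr k)
  by_cases hej : e j = 0
  · -- `z j ∈ F`
    apply hnF j hjk
    have : z j - algebraMap ℂ K r * z i = z j := by rw [hr, hej]; simp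
    rwa [this] at hlF
  · have hr0 : 0 < r := by
      rw [hr]
      apply div_pos <;> exact_mod_cast (by omega)
    have hdt : ∀ (g : SL(2, ℤ)) (x : K), Transcendental ℂ x → Transcendental ℂ (mK g.1 x) := by
      intro g x hx ha
      obtain ⟨c, hc'⟩ := const_of_alg ha
      have hd := dn_tr' hx g
      have h1 : mK g.1 x * dn g.1 x = (g.1 0 0 : K) * x + (g.1 0 1 : K) := by
        unfold mK; exact div_mul_cancel₀ _ hd
      rw [← hc'] at h1
      have hp : Polynomial.aeval x (Polynomial.C c * (Polynomial.C (g.1 1 0 : ℂ) * Polynomial.X +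
          Polynomial.C (g.1 1 1 : ℂ)) - (Polynomial.C (g.1 0 0 : ℂ) * Polynomial.X +
          Polynomial.C (g.1 0 1 : ℂ))) = 0 := by
        simp only [map_sub, map_add, map_mul, Polynomial.aeval_C, Polynomial.aeval_X, map_intCast]
        unfold dn at h1
        linear_combination h1
      have hp0 : (Polynomial.C c * (Polynomial.C (g.1 1 0 : ℂ) * Polynomial.X +
          Polynomial.C (g.1 1 1 : ℂ)) - (Polynomial.C (g.1 0 0 : ℂ) * Polynomial.X +
          Polynomial.C (g.1 0 1 : ℂ))) = 0 := by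
        by_contra hne
        exact hx ⟨_, hne, hp⟩
      have e0 := congrArg (Polynomial.eval 0) hp0
      have e1 := congrArg (Polynomial.eval 1) hp0
      simp only [Polynomial.eval_sub, Polynomial.eval_add, Polynomial.eval_mul, Polynomial.eval_C,
        Polynomial.eval_X, Polynomial.eval_zero] at e0 e1
      have hdet : (g.1 0 0 : ℂ) * g.1 1 1 - g.1 0 1 * g.1 1 0 = 1 := by exact_mod_cast det_eq g
      have : (1 : ℂ) = 0 := by
        rw [← hdet]
        linear_combination (g.1 1 0 : ℂ) * e0 - (g.1 1 1 : ℂ) * (e1 - e0)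
      exact one_ne_zero this
    -- the same for the moved functions
    have hmF : mK (δ j).1 (z j) - algebraMap ℂ K r * mK (δ i).1 (z i) ∈ F := by
      refine hstep (fun a => mK (δ a).1 (z a)) (fun H hH => ?_) (hmk _ _ hkF) (hdt _ _ (htr k))
      rw [← star (h.im A hA) hz htr δ, hδ]
      exact hH
    -- the key lemma
    have hzt : Transcendental F (z i) := fun ha => hnF i hik (hF _ ha)
    have hCF : ∀ q : ℚ, algebraMap F K (q : F) = algebraMap ℂ K (q : ℂ) := by
      intro q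
      rw [map_ratCast, map_ratCast]
    have h3 : mK (δ j).1 (algebraMap F K (r : F) * z i +
        algebraMap F K ⟨z j - algebraMap ℂ K r * z i, hlF⟩) -
        algebraMap F K (r : F) * mK (δ i).1 (z i) =
        algebraMap F K ⟨mK (δ j).1 (z j) - algebraMap ℂ K r * mK (δ i).1 (z i), hmF⟩ := by
      rw [hCF]
      change mK (δ j).1 (algebraMap ℂ K r * z i + (z j - algebraMap ℂ K r * z i)) -
        algebraMap ℂ K r * mK (δ i).1 (z i) = mK (δ j).1 (z j) - algebraMap ℂ K r * mK (δ i).1 (z i)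
      rw [add_sub_cancel]
    obtain ⟨ρ, hρ⟩ := key hzt hr0.ne' hc h3
    apply no_lin h hA hz hij hr0 ρ
    have h4 := congrArg (algebraMap F K) hρ
    rw [hCF] at h4
    exact h4

/-- **Algebraic independence** of the three lifts on all curves of the family -/
theorem ind_of (h : Fmy Fm) {A : Set (Fin 3 → ℂ)} (hA : A ∈ Fm) :
    (vanishingIdeal ℂ A : Ideal (MvPolynomial (Fin 3) ℂ)) = ⊥ := by
  obtain ⟨A', hA', e, hi, ⟨k, hk⟩, hs, δ, hδ, hc⟩ := h.cusp 0
  have h1 := ind_cusp h hA' hi hk hs hδ hc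
  obtain ⟨γ, hγ⟩ := h.tr A hA A' hA'
  rw [eq_bot_iff]
  intro H hH
  rw [Ideal.mem_bot]
  obtain ⟨P, N, hP⟩ := clear γ H
  have hPA : P ∈ (vanishingIdeal ℂ A' : Ideal (MvPolynomial (Fin 3) ℂ)) := by
    rw [mem_vanishingIdeal_iff]
    intro ζ hζ
    rw [hP ℂ ζ (fun a => dn_ne (h.im A' hA' ζ hζ a))]
    rw [hγ] at hH
    have : aeval (fun a => mK (γ a).1 (ζ a)) H = 0 := hH _ ⟨ζ, hζ, rfl⟩
    rw [this, mul_zero]
  rw [h1, Ideal.mem_bot] at hPA
  exact zero_of_clear (fun x hx => hP ℂ x hx) hPA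

end Pool.Agent.LGO.AX
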