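import Mathlib
import Pool.Agent.LGO.AX.Defs

/-!
# LGO/AX: fibres and local sections

`G` is the set of the `T` with `D(T) ≠ 0`: open, connected, with finite complement
(`Polynomial` has finitely many roots; `Set.Countable.isPathConnected_compl_of_one_lt_rank` or
`Set.Countable.isConnected_compl_of_one_lt_rank` for the connectedness).

`card_fib`: for `T ∈ G` the polynomial `F(T, Y) = F.map (evalRingHom T)` has degree `natDegree F` (its leading
coefficient does not vanish at `T`) and is separable, so it has exactly `natDegree F` distinct roots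
(`IsAlgClosed.splits`, `Polynomial.nodup_roots`, `Polynomial.splits_iff_card_roots`).
(`Polynomial.evalEval T Y F = ((F.map (evalRingHom T)).eval Y)`: look for `eval_map`, `evalEval` lemmas,
for example `Polynomial.eval₂_evalRingHom` or `Polynomial.map_evalRingHom_eval`.)

`exists_section`: the implicit function theorem at a point `p` of the curve: the derivative in `Y` of
`F(T, Y)` does not vanish at `p` because `F(T, Y)` is separable.
Elementary proof without the implicit function theorem: choose `σ > 0` such that `p.2` is the only root of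
`F(p.1, Y)` in the closed disc of radius `σ`; Mathlib has the implicit function theorem, for example
`HasStrictFDerivAt.implicitFunction`, `ImplicitFunctionData`, or use
`HasStrictFDerivAt.toOpenPartialHomeomorph` (or `toPartialHomeomorph`) for the map
`(T, Y) ↦ (T, F(T, Y))` of `ℂ × ℂ`, whose derivative at `p` is invertible; the local inverse is differentiable
(`ContDiffAt.to_localInverse`, over `𝕜 = ℂ`), and `y(T)` = second component of the local inverse at `(T, 0)`.
-/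

namespace Pool.Agent.LGO.AX

open Polynomial Metric

/-- the good points of the `T`-plane -/
def Cur.G (S : Cur) : Set ℂ := {T | S.D.eval T ≠ 0}

theorem Cur.isOpen_G (S : Cur) : IsOpen S.G :=
  isOpen_compl_singleton.preimage (f := fun T : ℂ => S.D.eval T) S.D.continuous

theorem Cur.finite_compl_G (S : Cur) : (S.G)ᶜ.Finite := by
  refine (S.D.roots.toFinset.finite_toSet).subset ?_
  intro T hT
  have h0 : S.D.eval T = 0 := by
    by_contra h
    exact hT h
  simp only [Multiset.mem_toFinset, Finset.mem_coe]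
  exact (mem_roots S.D_ne).2 h0

theorem Cur.conn_G (S : Cur) : IsConnected S.G := by
  have h := S.finite_compl_G.countable.isConnected_compl_of_one_lt_rank (by
    rw [Complex.rank_real_complex]; exact Cardinal.one_lt_two)
  rwa [compl_compl] at h

theorem Cur.natDegree_map (S : Cur) {T : ℂ} (hT : T ∈ S.G) :
    (S.F.map (evalRingHom T)).natDegree = S.F.natDegree :=
  Polynomial.natDegree_map_of_leadingCoeff_ne_zero _ (S.lead T hT)

private theorem Cur.map_ne (S : Cur) {T : ℂ} (hT : T ∈ S.G) : S.F.map (evalRingHom T) ≠ 0 := by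
  intro h
  have h1 := S.natDegree_map hT
  rw [h, natDegree_zero] at h1
  have := S.deg
  omega

theorem Cur.mem_pt_iff (S : Cur) (p : ℂ × ℂ) :
    p ∈ S.pt ↔ p.1 ∈ S.G ∧ p.2 ∈ (S.F.map (evalRingHom p.1)).roots := by
  constructor
  · rintro ⟨h1, h2⟩
    refine ⟨h1, (mem_roots (S.map_ne h1)).2 ?_⟩
    rw [IsRoot.def, Polynomial.map_evalRingHom_eval]
    exact h2
  · rintro ⟨h1, h2⟩
    refine ⟨h1, ?_⟩
    have h3 := (mem_roots (S.map_ne h1)).1 h2
    rw [IsRoot.def, Polynomial.map_evalRingHom_eval] at h3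
    exact h3

theorem Cur.card_fib (S : Cur) {T : ℂ} (hT : T ∈ S.G) :
    (S.F.map (evalRingHom T)).roots.toFinset.card = S.F.natDegree := by
  rw [Multiset.toFinset_card_of_nodup (nodup_roots (S.sep T hT)),
    splits_iff_card_roots.1 (IsAlgClosed.splits (S.F.map (evalRingHom T))), S.natDegree_map hT]

private theorem gg_contDiff (F : ℂ[X][X]) : ContDiff ℂ 1 (fun q : ℂ × ℂ => F.evalEval q.1 q.2) := by
  have h : (fun q : ℂ × ℂ => F.evalEval q.1 q.2) =
      fun q : ℂ × ℂ => ∑ i ∈ Finset.range (F.natDegree + 1), (F.coeff i).eval q.1 * q.2 ^ i := by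
    funext q
    rw [← Polynomial.map_evalRingHom_eval, eval_map, eval₂_eq_sum_range]
    rfl
  rw [h]
  refine ContDiff.sum fun i _ => ?_
  refine ContDiff.mul ?_ (contDiff_snd.pow i)
  have h1 : ContDiff ℂ 1 (fun T : ℂ => (F.coeff i).eval T) := by
    simpa only [Polynomial.coe_aeval_eq_eval] using Polynomial.contDiff_aeval (𝕜 := ℂ) (F.coeff i) 1
  exact h1.comp contDiff_fst

/-- local sections -/
theorem exists_section (S : Cur) {p : ℂ × ℂ} (hp : p ∈ S.pt) : ∃ ρ > (0 : ℝ), ∃ σ > (0 : ℝ), ∃ y : ℂ → ℂ,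
    DifferentiableOn ℂ y (ball p.1 ρ) ∧ y p.1 = p.2 ∧ ∀ T ∈ ball p.1 ρ, (T, y T) ∈ S.pt ∧
      ‖y T - p.2‖ < σ ∧ ∀ Y, ‖Y - p.2‖ < σ → (T, Y) ∈ S.pt → Y = y T := by
  obtain ⟨hD, h0⟩ := hp
  obtain ⟨g, hg⟩ : ∃ g : ℂ × ℂ → ℂ, g = fun q => S.F.evalEval q.1 q.2 := ⟨_, rfl⟩
  have hgc : ContDiff ℂ 1 g := by rw [hg]; exact gg_contDiff S.F
  have hgd : HasFDerivAt g (fderiv ℂ g p) p :=
    (hgc.differentiable one_ne_zero).differentiableAt.hasFDerivAt
  obtain ⟨g', hg'⟩ : ∃ g' : ℂ × ℂ →L[ℂ] ℂ, g' = fderiv ℂ g p := ⟨_, rfl⟩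
  rw [← hg'] at hgd
  have hβ : g' (0, 1) ≠ 0 := by
    have e1 : HasDerivAt (fun Y : ℂ => g (p.1, Y)) (g' (0, 1)) p.2 := by
      have h1 : HasDerivAt (fun Y : ℂ => ((p.1, Y) : ℂ × ℂ)) ((0 : ℂ), (1 : ℂ)) p.2 :=
        (hasDerivAt_const p.2 p.1).prodMk (hasDerivAt_id p.2)
      exact HasFDerivAt.comp_hasDerivAt p.2 hgd h1
    have e2 : HasDerivAt (fun Y : ℂ => g (p.1, Y))
        ((derivative (S.F.map (evalRingHom p.1))).eval p.2) p.2 := by
      have h3 : (fun Y : ℂ => g (p.1, Y)) = fun Y => (S.F.map (evalRingHom p.1)).eval Y := by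
        funext Y
        rw [Polynomial.map_evalRingHom_eval, hg]
      rw [h3]
      exact (S.F.map (evalRingHom p.1)).hasDerivAt p.2
    rw [e1.unique e2]
    have h5 : (S.F.map (evalRingHom p.1)).eval p.2 = 0 := by
      rw [Polynomial.map_evalRingHom_eval]; exact h0
    have h6 := (S.sep p.1 hD).aeval_derivative_ne_zero (x := p.2) (by
      rw [Polynomial.coe_aeval_eq_eval]; exact h5)
    rwa [Polynomial.coe_aeval_eq_eval] at h6
  have hlin : ∀ v : ℂ × ℂ, g' v = v.1 * g' (1, 0) + v.2 * g' (0, 1) := by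
    intro v
    have h1 : v = v.1 • ((1 : ℂ), (0 : ℂ)) + v.2 • ((0 : ℂ), (1 : ℂ)) := by
      ext <;> simp
    conv_lhs => rw [h1]
    rw [map_add, map_smul, map_smul, smul_eq_mul, smul_eq_mul]
  let f : ℂ × ℂ → ℂ × ℂ := fun q => (q.1, g q)
  have hf : ContDiff ℂ 1 f := contDiff_fst.prodMk hgc
  let f₁ : ℂ × ℂ →L[ℂ] ℂ × ℂ := (ContinuousLinearMap.fst ℂ ℂ ℂ).prod g'
  let f₂ : ℂ × ℂ →L[ℂ] ℂ × ℂ := (ContinuousLinearMap.fst ℂ ℂ ℂ).prod
    ((g' (0, 1))⁻¹ • (ContinuousLinearMap.snd ℂ ℂ ℂ - g' (1, 0) • ContinuousLinearMap.fst ℂ ℂ ℂ))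
  have hL : Function.LeftInverse f₂ f₁ := by
    intro v
    have h1 : f₁ v = (v.1, g' v) := rfl
    have h2 : ∀ w, f₂ w = (w.1, (g' (0, 1))⁻¹ * (w.2 - g' (1, 0) * w.1)) := fun w => rfl
    rw [h2, h1]
    ext
    · rfl
    · simp only
      rw [hlin v]
      field_simp
      ring
  have hR : Function.RightInverse f₂ f₁ := by
    intro v
    have h1 : ∀ w, f₁ w = (w.1, g' w) := fun w => rfl
    have h2 : f₂ v = (v.1, (g' (0, 1))⁻¹ * (v.2 - g' (1, 0) * v.1)) := rfl
    rw [h2, h1]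
    ext
    · rfl
    · simp only
      rw [hlin]
      simp only
      field_simp
      ring
  let f' : (ℂ × ℂ) ≃L[ℂ] (ℂ × ℂ) := ContinuousLinearEquiv.equivOfInverse f₁ f₂ hL hR
  have hf' : HasFDerivAt f (f' : ℂ × ℂ →L[ℂ] ℂ × ℂ) p := by
    have h1 : (f' : ℂ × ℂ →L[ℂ] ℂ × ℂ) = f₁ := by ext <;> rfl
    rw [h1]
    exact hasFDerivAt_fst.prodMk hgd
  let e := hf.contDiffAt.toOpenPartialHomeomorph f hf' one_ne_zero
  have hes : p ∈ e.source := hf.contDiffAt.mem_toOpenPartialHomeomorph_source hf' one_ne_zero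
  have hef : ∀ q, e q = f q := fun q => rfl
  have hfp : f p = (p.1, 0) := by
    have : g p = 0 := by rw [hg]; exact h0
    show (p.1, g p) = _
    rw [this]
  have hsp : e.symm (p.1, 0) = p := by
    rw [← hfp, ← hef]
    exact e.left_inv hes
  have htp : ((p.1, 0) : ℂ × ℂ) ∈ e.target := by
    rw [← hfp, ← hef]
    exact e.map_source hes
  have hsm : ContDiffAt ℂ 1 e.symm (p.1, 0) := by
    have := hf.contDiffAt.to_localInverse hf' one_ne_zero
    rw [hfp] at this
    exact this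
  have hz : ContDiffAt ℂ 1 (fun T : ℂ => e.symm (T, (0 : ℂ))) p.1 :=
    ContDiffAt.comp (g := e.symm) (f := fun T : ℂ => ((T, (0 : ℂ)) : ℂ × ℂ)) p.1 hsm
      (contDiff_id.prodMk contDiff_const).contDiffAt
  obtain ⟨σ, hσ, hσs⟩ : ∃ σ > 0, ball p σ ⊆ e.source ∩ {q | S.D.eval q.1 ≠ 0} := by
    refine Metric.mem_nhds_iff.1 (IsOpen.mem_nhds (e.open_source.inter ?_) ⟨hes, hD⟩)
    exact S.isOpen_G.preimage continuous_fst
  have hc2 : ContinuousAt (fun T : ℂ => (e.symm (T, (0 : ℂ))).2) p.1 :=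
    continuousAt_snd.comp' hz.continuousAt
  have ev1 : ∀ᶠ T in nhds p.1, ‖(e.symm (T, (0 : ℂ))).2 - p.2‖ < σ := by
    have h1 : ∀ᶠ w in nhds ((e.symm (p.1, (0 : ℂ))).2), ‖w - p.2‖ < σ := by
      rw [hsp]
      filter_upwards [Metric.ball_mem_nhds p.2 hσ] with w hw
      rwa [mem_ball_iff_norm] at hw
    exact hc2.eventually h1
  have ev2 : ∀ᶠ T in nhds p.1, ((T, (0 : ℂ)) : ℂ × ℂ) ∈ e.target := by
    have h1 : ContinuousAt (fun T : ℂ => ((T, (0 : ℂ)) : ℂ × ℂ)) p.1 := by fun_prop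
    exact h1.eventually (e.open_target.mem_nhds htp)
  have ev3 : ∀ᶠ T in nhds p.1, DifferentiableAt ℂ (fun T : ℂ => e.symm (T, (0 : ℂ))) T := by
    filter_upwards [hz.eventually (by simp)] with T hT
    exact hT.differentiableAt one_ne_zero
  obtain ⟨ρ₀, hρ₀, hρs⟩ := Metric.eventually_nhds_iff_ball.1 (ev1.and (ev2.and ev3))
  refine ⟨min ρ₀ σ, lt_min hρ₀ hσ, σ, hσ, fun T => (e.symm (T, (0 : ℂ))).2, ?_, ?_, ?_⟩
  · intro T hT
    exact ((hρs T (ball_subset_ball (min_le_left _ _) hT)).2.2.snd).differentiableWithinAt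
  · show (e.symm (p.1, (0 : ℂ))).2 = p.2
    rw [hsp]
  · intro T hT
    obtain ⟨k1, k2, k3⟩ := hρs T (ball_subset_ball (min_le_left _ _) hT)
    have hTσ : dist T p.1 < σ := lt_of_lt_of_le hT (min_le_right _ _)
    have k4 : f (e.symm (T, (0 : ℂ))) = (T, 0) := by
      rw [← hef]
      exact e.right_inv k2
    have k5 : (e.symm (T, (0 : ℂ))).1 = T := congrArg Prod.fst k4
    have k6 : g (e.symm (T, (0 : ℂ))) = 0 := congrArg Prod.snd k4
    have k7 : e.symm (T, (0 : ℂ)) = (T, (e.symm (T, (0 : ℂ))).2) := Prod.ext k5 rfl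
    have hball : ∀ Y : ℂ, ‖Y - p.2‖ < σ → ((T, Y) : ℂ × ℂ) ∈ ball p σ := by
      intro Y hY
      rw [mem_ball, Prod.dist_eq]
      exact max_lt hTσ (by rw [dist_eq_norm]; exact hY)
    refine ⟨⟨?_, ?_⟩, k1, ?_⟩
    · exact (hσs (hball _ k1)).2
    · have : g (T, (e.symm (T, (0 : ℂ))).2) = 0 := by rw [← k7]; exact k6
      rw [hg] at this
      exact this
    · intro Y hY hYp
      have m1 : ((T, Y) : ℂ × ℂ) ∈ e.source := (hσs (hball Y hY)).1
      have m2 : e (T, Y) = (T, 0) := by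
        rw [hef]
        have : g (T, Y) = 0 := by rw [hg]; exact hYp.2
        show (T, g (T, Y)) = _
        rw [this]
      have m3 := e.left_inv m1
      rw [m2] at m3
      show Y = (e.symm (T, (0 : ℂ))).2
      rw [m3]

end Pool.Agent.LGO.AX
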