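import Mathlib
import Pool.Agent.LGO.AX.ChA

/-!
# LGO/AX: growth of the functions near a point of the projective line

* `poly_low`: a polynomial `P ≠ 0` satisfies `|P(Tp o s)| ≥ c |s| ^ k` for small `s ≠ 0`: at a finite point write
  `P = (X - o) ^ k Q` with `Q(o) ≠ 0` (`rootMultiplicity`); at `∞`, `P(1 / s) s ^ n = reverse P (s)` tends to the
  leading coefficient (`Polynomial.eval₂_reverse_mul_pow` or directly), so `|P(1/s)| ≥ c |s| ^ (-n) ≥ c`.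
* `poly_up`: `|P(Tp o s)| |s| ^ k ≤ C` for small `s ≠ 0`.
* `root_bd`: if `F(T, Y) = 0` then `|lc(T) Y| ≤ C (1 + |T|) ^ k`: `Y' = lc(T) Y` is a root of the monic
  polynomial `Y' ^ d + ∑_{i < d} a_i(T) lc(T) ^ (d - 1 - i) Y' ^ i`, so
  `|Y'| ≤ 1 + ∑ |a_i(T) lc(T) ^ (d - 1 - i)|`.
* `growth`: combine them: `x a = N a (T, Y) / M(T)`, `Y = Y' / lc(T)`.
-/

namespace Pool.Agent.LGO.AX

open Polynomial Metric

/-- polynomials have polynomial growth -/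
private theorem ChG_bd (P : ℂ[X]) : ∃ C : ℝ, 0 ≤ C ∧ ∀ z : ℂ, ‖P.eval z‖ ≤ C * (1 + ‖z‖) ^ P.natDegree := by
  refine ⟨∑ i ∈ Finset.range (P.natDegree + 1), ‖P.coeff i‖, Finset.sum_nonneg fun _ _ => norm_nonneg _,
    fun z => ?_⟩
  rw [eval_eq_sum_range, Finset.sum_mul]
  refine (norm_sum_le _ _).trans (Finset.sum_le_sum fun i hi => ?_)
  rw [norm_mul, norm_pow]
  apply mul_le_mul_of_nonneg_left _ (norm_nonneg _)
  have h1 : ‖z‖ ≤ 1 + ‖z‖ := by linarith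
  have h2 : i ≤ P.natDegree := Nat.lt_succ_iff.1 (Finset.mem_range.1 hi)
  calc ‖z‖ ^ i ≤ (1 + ‖z‖) ^ i := pow_le_pow_left₀ (norm_nonneg _) h1 _
    _ ≤ (1 + ‖z‖) ^ P.natDegree :=
        pow_le_pow_right₀ (by linarith [norm_nonneg z]) h2

/-- polynomials are bounded below near a point where they do not vanish -/
private theorem ChG_low0 {Q : ℂ[X]} {c : ℂ} (hQ : Q.eval c ≠ 0) : ∃ ρ : ℝ, 0 < ρ ∧
    ∀ s : ℂ, ‖s‖ < ρ → ‖Q.eval c‖ / 2 ≤ ‖Q.eval (c + s)‖ := by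
  have hc : Continuous fun s : ℂ => ‖Q.eval (c + s)‖ :=
    (Q.continuous.comp (continuous_const.add continuous_id)).norm
  have h0 : ‖Q.eval c‖ / 2 < ‖Q.eval (c + 0)‖ := by
    rw [add_zero]
    have := norm_pos_iff.2 hQ
    linarith
  have h1 : ∀ᶠ s in nhds (0 : ℂ), ‖Q.eval c‖ / 2 < ‖Q.eval (c + s)‖ :=
    hc.continuousAt.eventually_const_lt h0
  obtain ⟨ρ, hρ, h2⟩ := Metric.eventually_nhds_iff.1 h1
  exact ⟨ρ, hρ, fun s hs => (h2 (by simpa using hs)).le⟩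

theorem poly_low {P : ℂ[X]} (hP : P ≠ 0) (o : Option ℂ) : ∃ (c : ℝ) (k : ℕ) (ρ : ℝ), 0 < c ∧ 0 < ρ ∧
    ∀ s : ℂ, 0 < ‖s‖ → ‖s‖ < ρ → c * ‖s‖ ^ k ≤ ‖P.eval (Tp o s)‖ := by
  rcases o with _ | c
  · -- at infinity
    have hQ : P.reverse.eval 0 ≠ 0 := by
      rw [← coeff_zero_eq_eval_zero, coeff_zero_reverse]
      exact leadingCoeff_ne_zero.2 hP
    obtain ⟨ρ, hρ, h⟩ := ChG_low0 hQ
    refine ⟨‖P.reverse.eval 0‖ / 2, 0, min ρ 1, by have := norm_pos_iff.2 hQ; positivity,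
      lt_min hρ one_pos, fun s hs0 hs => ?_⟩
    have hs' : s ≠ 0 := norm_pos_iff.1 hs0
    have h1 := h s (hs.trans_le (min_le_left _ _))
    have hs1 : ‖s‖ ≤ 1 := (hs.trans_le (min_le_right _ _)).le
    rw [zero_add] at h1
    have h2 : P.reverse.eval s * (s⁻¹) ^ P.natDegree = P.eval s⁻¹ := by
      let _ : Invertible s⁻¹ := ⟨s, mul_inv_cancel₀ hs', inv_mul_cancel₀ hs'⟩
      have := eval₂_reverse_mul_pow (RingHom.id ℂ) s⁻¹ P
      simpa [eval₂_id] using this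
    change _ ≤ ‖P.eval s⁻¹‖
    rw [← h2, norm_mul, pow_zero, mul_one]
    have h3 : 1 ≤ ‖s⁻¹ ^ P.natDegree‖ := by
      rw [norm_pow, norm_inv]
      exact one_le_pow₀ ((one_le_inv₀ hs0).2 hs1)
    calc ‖P.reverse.eval 0‖ / 2 ≤ ‖P.reverse.eval s‖ := h1
      _ = ‖P.reverse.eval s‖ * 1 := (mul_one _).symm
      _ ≤ _ := mul_le_mul_of_nonneg_left h3 (norm_nonneg _)
  · -- at a finite point
    obtain ⟨Q, hPQ, hQ⟩ := exists_eq_pow_rootMultiplicity_mul_and_not_dvd P hP c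
    have hQ' : Q.eval c ≠ 0 := fun h => hQ (dvd_iff_isRoot.2 h)
    obtain ⟨ρ, hρ, h⟩ := ChG_low0 hQ'
    refine ⟨‖Q.eval c‖ / 2, P.rootMultiplicity c, ρ, by have := norm_pos_iff.2 hQ'; positivity, hρ,
      fun s _ hs => ?_⟩
    change _ ≤ ‖P.eval (c + s)‖
    rw [hPQ, eval_mul, eval_pow, eval_sub, eval_X, eval_C, add_sub_cancel_left, norm_mul, norm_pow,
      mul_comm (‖s‖ ^ _)]
    rw [← hPQ]
    exact mul_le_mul_of_nonneg_right (h s hs) (by positivity)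

private theorem ChG_Tp (o : Option ℂ) : ∃ C : ℝ, 0 ≤ C ∧ ∀ s : ℂ, 0 < ‖s‖ → ‖s‖ < 1 →
    (1 + ‖Tp o s‖) * ‖s‖ ≤ C := by
  rcases o with _ | c
  · refine ⟨2, by norm_num, fun s hs0 hs => ?_⟩
    change (1 + ‖s⁻¹‖) * ‖s‖ ≤ 2
    rw [norm_inv, add_mul, inv_mul_cancel₀ hs0.ne']
    linarith
  · refine ⟨2 + ‖c‖, by positivity, fun s hs0 hs => ?_⟩
    change (1 + ‖c + s‖) * ‖s‖ ≤ _
    have h1 := norm_add_le c s
    have h2 : 0 ≤ ‖c + s‖ := norm_nonneg _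
    nlinarith [norm_nonneg c]

theorem poly_up (P : ℂ[X]) (o : Option ℂ) : ∃ (C : ℝ) (k : ℕ), 0 ≤ C ∧
    ∀ s : ℂ, 0 < ‖s‖ → ‖s‖ < 1 → ‖P.eval (Tp o s)‖ * ‖s‖ ^ k ≤ C := by
  obtain ⟨C, hC, h⟩ := ChG_bd P
  obtain ⟨C', hC', h'⟩ := ChG_Tp o
  refine ⟨C * C' ^ P.natDegree, P.natDegree, by positivity, fun s hs0 hs => ?_⟩
  calc ‖P.eval (Tp o s)‖ * ‖s‖ ^ P.natDegree ≤
      C * (1 + ‖Tp o s‖) ^ P.natDegree * ‖s‖ ^ P.natDegree :=
        mul_le_mul_of_nonneg_right (h _) (by positivity)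
    _ = C * ((1 + ‖Tp o s‖) * ‖s‖) ^ P.natDegree := by rw [mul_pow, mul_assoc]
    _ ≤ C * C' ^ P.natDegree := mul_le_mul_of_nonneg_left
        (pow_le_pow_left₀ (by positivity) (h' s hs0 hs) _) hC

theorem root_bd (S : Cur) : ∃ (C : ℝ) (k : ℕ), 0 ≤ C ∧ ∀ T Y : ℂ, S.F.evalEval T Y = 0 →
    ‖S.F.leadingCoeff.eval T * Y‖ ≤ C * (1 + ‖T‖) ^ k := by
  set I : ℂ[X][X] := integralNormalization S.F with hI
  have hF0 : S.F ≠ 0 := S.irr.ne_zero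
  have hdI : I.natDegree = S.F.natDegree :=
    natDegree_eq_of_degree_eq S.F.degree_integralNormalization
  have hmon : I.Monic := monic_integralNormalization hF0
  choose Cc hCc hbd using fun i : ℕ => ChG_bd (I.coeff i)
  set d := S.F.natDegree with hd
  refine ⟨∑ i ∈ Finset.range d, Cc i + 1, ∑ i ∈ Finset.range d, (I.coeff i).natDegree,
    add_nonneg (Finset.sum_nonneg fun i _ => hCc i) zero_le_one, fun T Y h => ?_⟩
  set Q : ℂ[X] := I.map (evalRingHom T) with hQ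
  have hQm : Q.Monic := hmon.map _
  have hQd : Q.natDegree = d := by rw [hQ, hmon.natDegree_map, hdI]
  have hroot : Q.IsRoot (S.F.leadingCoeff.eval T * Y) := by
    rw [IsRoot.def, hQ, eval_map]
    have h1 := integralNormalization_eval₂_leadingCoeff_mul (p := S.F) S.deg (evalRingHom T) Y
    rw [coe_evalRingHom] at h1
    rw [h1, eval₂_evalRingHom, h, mul_zero]
  have h2 := hroot.norm_lt_cauchyBound hQm.ne_zero
  set K := ∑ i ∈ Finset.range d, (I.coeff i).natDegree with hK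
  have hT1 : 1 ≤ 1 + ‖T‖ := by linarith [norm_nonneg T]
  have hpow1 : 1 ≤ (1 + ‖T‖) ^ K := one_le_pow₀ hT1
  have h3 : ((Q.cauchyBound : NNReal) : ℝ) ≤ (∑ i ∈ Finset.range d, Cc i + 1) * (1 + ‖T‖) ^ K := by
    unfold cauchyBound
    rw [hQm.leadingCoeff, nnnorm_one, div_one, hQd, NNReal.coe_add, NNReal.coe_one, add_mul, one_mul]
    apply add_le_add _ hpow1
    have h4 : (Finset.range d).sup (fun i => ‖Q.coeff i‖₊) ≤
        Real.toNNReal ((∑ i ∈ Finset.range d, Cc i) * (1 + ‖T‖) ^ K) := by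
      apply Finset.sup_le
      intro i hi
      rw [Real.le_toNNReal_iff_coe_le (mul_nonneg (Finset.sum_nonneg fun i _ => hCc i) (by positivity))]
      rw [coe_nnnorm, hQ, coeff_map, coe_evalRingHom]
      refine (hbd i T).trans ?_
      apply mul_le_mul
      · exact Finset.single_le_sum (f := Cc) (fun j _ => hCc j) hi
      · exact pow_le_pow_right₀ hT1 (Finset.single_le_sum
          (f := fun i => (I.coeff i).natDegree) (fun j _ => Nat.zero_le _) hi)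
      · positivity
      · exact Finset.sum_nonneg fun i _ => hCc i
    have h5 : (0 : ℝ) ≤ (∑ i ∈ Finset.range d, Cc i) * (1 + ‖T‖) ^ K :=
      mul_nonneg (Finset.sum_nonneg fun i _ => hCc i) (by positivity)
    have h6 := NNReal.coe_le_coe.2 h4
    rwa [Real.coe_toNNReal _ h5] at h6
  have h7 : ‖S.F.leadingCoeff.eval T * Y‖ < ((Q.cauchyBound : NNReal) : ℝ) := by
    exact_mod_cast h2
  exact h7.le.trans h3

/-- polynomial growth in `1 / s` on the curve near the point `o` -/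
private def ChG_Gr (S : Cur) (o : Option ℂ) (f : ℂ → ℂ → ℝ) : Prop :=
  (∀ s y, 0 ≤ f s y) ∧ ∃ (C : ℝ) (k : ℕ) (ρ : ℝ), 0 ≤ C ∧ 0 < ρ ∧ ρ ≤ 1 ∧ ∀ s y : ℂ, 0 < ‖s‖ →
    ‖s‖ < ρ → (Tp o s, y) ∈ S.pt → f s y * ‖s‖ ^ k ≤ C

private theorem ChG_mono {S : Cur} {o : Option ℂ} {f g : ℂ → ℂ → ℝ} (hf : ∀ s y, 0 ≤ f s y)
    (hfg : ∀ s y : ℂ, 0 < ‖s‖ → (Tp o s, y) ∈ S.pt → f s y ≤ g s y) (hg : ChG_Gr S o g) :
    ChG_Gr S o f := by
  obtain ⟨_, C, k, ρ, hC, hρ, hρ1, h⟩ := hg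
  exact ⟨hf, C, k, ρ, hC, hρ, hρ1, fun s y h0 h1 h2 =>
    (mul_le_mul_of_nonneg_right (hfg s y h0 h2) (by positivity)).trans (h s y h0 h1 h2)⟩

private theorem ChG_add {S : Cur} {o : Option ℂ} {f g : ℂ → ℂ → ℝ} (hf : ChG_Gr S o f)
    (hg : ChG_Gr S o g) : ChG_Gr S o (fun s y => f s y + g s y) := by
  obtain ⟨hf0, C, k, ρ, hC, hρ, hρ1, h⟩ := hf
  obtain ⟨hg0, C', k', ρ', hC', hρ', hρ1', h'⟩ := hg
  refine ⟨fun s y => add_nonneg (hf0 s y) (hg0 s y), C + C', k + k', min ρ ρ', by positivity,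
    lt_min hρ hρ', (min_le_left _ _).trans hρ1, fun s y h0 h1 h2 => ?_⟩
  have e1 := h s y h0 (h1.trans_le (min_le_left _ _)) h2
  have e2 := h' s y h0 (h1.trans_le (min_le_right _ _)) h2
  have hs1 : ‖s‖ ≤ 1 := (h1.trans_le ((min_le_left _ _).trans hρ1)).le
  have p1 : ‖s‖ ^ k ≤ 1 := pow_le_one₀ (norm_nonneg _) hs1
  have p2 : ‖s‖ ^ k' ≤ 1 := pow_le_one₀ (norm_nonneg _) hs1
  have q1 : 0 ≤ ‖s‖ ^ k := by positivity
  have q2 : 0 ≤ ‖s‖ ^ k' := by positivity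
  rw [add_mul, pow_add]
  have a1 : f s y * (‖s‖ ^ k * ‖s‖ ^ k') ≤ C := by
    rw [← mul_assoc]
    calc f s y * ‖s‖ ^ k * ‖s‖ ^ k' ≤ f s y * ‖s‖ ^ k * 1 :=
          mul_le_mul_of_nonneg_left p2 (mul_nonneg (hf0 s y) q1)
      _ ≤ C := by rw [mul_one]; exact e1
  have a2 : g s y * (‖s‖ ^ k * ‖s‖ ^ k') ≤ C' := by
    rw [mul_comm (‖s‖ ^ k), ← mul_assoc]
    calc g s y * ‖s‖ ^ k' * ‖s‖ ^ k ≤ g s y * ‖s‖ ^ k' * 1 :=
          mul_le_mul_of_nonneg_left p1 (mul_nonneg (hg0 s y) q2)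
      _ ≤ C' := by rw [mul_one]; exact e2
  linarith

private theorem ChG_mul {S : Cur} {o : Option ℂ} {f g : ℂ → ℂ → ℝ} (hf : ChG_Gr S o f)
    (hg : ChG_Gr S o g) : ChG_Gr S o (fun s y => f s y * g s y) := by
  obtain ⟨hf0, C, k, ρ, hC, hρ, hρ1, h⟩ := hf
  obtain ⟨hg0, C', k', ρ', hC', hρ', hρ1', h'⟩ := hg
  refine ⟨fun s y => mul_nonneg (hf0 s y) (hg0 s y), C * C', k + k', min ρ ρ', by positivity,
    lt_min hρ hρ', (min_le_left _ _).trans hρ1, fun s y h0 h1 h2 => ?_⟩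
  have e1 := h s y h0 (h1.trans_le (min_le_left _ _)) h2
  have e2 := h' s y h0 (h1.trans_le (min_le_right _ _)) h2
  calc f s y * g s y * ‖s‖ ^ (k + k') = (f s y * ‖s‖ ^ k) * (g s y * ‖s‖ ^ k') := by ring
    _ ≤ C * C' := mul_le_mul e1 e2 (mul_nonneg (hg0 s y) (by positivity)) hC

private theorem ChG_pow {S : Cur} {o : Option ℂ} {f : ℂ → ℂ → ℝ} (hf : ChG_Gr S o f) (n : ℕ) :
    ChG_Gr S o (fun s y => f s y ^ n) := by
  induction n with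
  | zero => exact ⟨fun s y => by positivity, 1, 0, 1, zero_le_one, one_pos, le_rfl, fun s y _ _ _ => by simp⟩
  | succ n ih => simpa only [pow_succ] using ChG_mul ih hf

private theorem ChG_sum {S : Cur} {o : Option ℂ} {f : ℕ → ℂ → ℂ → ℝ} (hf : ∀ i, ChG_Gr S o (f i))
    (A : Finset ℕ) : ChG_Gr S o (fun s y => ∑ i ∈ A, f i s y) := by
  induction A using Finset.induction_on with
  | empty => exact ⟨fun s y => by simp, 0, 0, 1, le_rfl, one_pos, le_rfl, fun s y _ _ _ => by simp⟩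
  | insert a A ha ih => simpa only [Finset.sum_insert ha] using ChG_add (hf a) ih

private theorem ChG_poly (S : Cur) (o : Option ℂ) (P : ℂ[X]) :
    ChG_Gr S o (fun s _ => ‖P.eval (Tp o s)‖) := by
  obtain ⟨C, k, hC, h⟩ := poly_up P o
  exact ⟨fun s y => norm_nonneg _, C, k, 1, hC, one_pos, le_rfl, fun s y h0 h1 _ => h s h0 h1⟩

private theorem ChG_inv (S : Cur) (o : Option ℂ) {P : ℂ[X]} (hP : P ≠ 0) :
    ChG_Gr S o (fun s _ => ‖P.eval (Tp o s)‖⁻¹) := by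
  obtain ⟨c, k, ρ, hc, hρ, h⟩ := poly_low hP o
  refine ⟨fun s y => inv_nonneg.2 (norm_nonneg _), c⁻¹, k, min ρ 1, by positivity,
    lt_min hρ one_pos, min_le_right _ _, fun s y h0 h1 _ => ?_⟩
  have h2 := h s h0 (h1.trans_le (min_le_left _ _))
  have h3 : 0 < c * ‖s‖ ^ k := by positivity
  have h4 : ‖P.eval (Tp o s)‖⁻¹ ≤ (c * ‖s‖ ^ k)⁻¹ := inv_anti₀ h3 h2
  calc ‖P.eval (Tp o s)‖⁻¹ * ‖s‖ ^ k ≤ (c * ‖s‖ ^ k)⁻¹ * ‖s‖ ^ k :=
        mul_le_mul_of_nonneg_right h4 (by positivity)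
    _ = c⁻¹ := by
        have : ‖s‖ ^ k ≠ 0 := by positivity
        field_simp

theorem growth (S : Cur) (o : Option ℂ) (a : Fin 3) : ∃ (C : ℝ) (k : ℕ) (ρ : ℝ), 0 < ρ ∧
    ∀ s y : ℂ, 0 < ‖s‖ → ‖s‖ < ρ → (Tp o s, y) ∈ S.pt → ‖S.x a (Tp o s, y)‖ * ‖s‖ ^ k ≤ C := by
  have hD := S.D_ne
  have hlc : S.F.leadingCoeff ≠ 0 := leadingCoeff_ne_zero.2 S.irr.ne_zero
  have hM : S.M ≠ 0 := by
    rintro h0
    have hfin := S.finite_compl_G
    have hne : S.G.Nonempty := by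
      by_contra hne
      rw [Set.not_nonempty_iff_eq_empty] at hne
      rw [hne, Set.compl_empty] at hfin
      exact Set.infinite_univ hfin
    obtain ⟨T, hT⟩ := hne
    have := S.M_ne T hT
    rw [h0, eval_zero] at this
    exact this rfl
  -- the growth of the coordinate `Y`
  have hY : ChG_Gr S o (fun _ y => ‖y‖) := by
    obtain ⟨C, k, hC, h⟩ := root_bd S
    have hT : ChG_Gr S o (fun s _ => 1 + ‖Tp o s‖) := by
      obtain ⟨C', hC', h'⟩ := ChG_Tp o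
      exact ⟨fun s y => by positivity, C', 1, 1, hC', one_pos, le_rfl, fun s y h0 h1 _ => by
        rw [pow_one]; exact h' s h0 h1⟩
    have hconst : ChG_Gr S o (fun _ _ => C) :=
      ⟨fun s y => hC, C, 0, 1, hC, one_pos, le_rfl, fun s y _ _ _ => by simp⟩
    refine ChG_mono (fun s y => norm_nonneg _) (fun s y h0 h1 => ?_)
      (ChG_mul (ChG_mul hconst (ChG_pow hT k)) (ChG_inv S o hlc))
    have h2 := h (Tp o s) y h1.2
    have h3 := S.lead _ h1.1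
    have h4 : 0 < ‖S.F.leadingCoeff.eval (Tp o s)‖ := norm_pos_iff.2 h3
    rw [norm_mul] at h2
    change ‖y‖ ≤ C * (1 + ‖Tp o s‖) ^ k * ‖S.F.leadingCoeff.eval (Tp o s)‖⁻¹
    rw [← div_eq_mul_inv, le_div_iff₀ h4, mul_comm]
    exact h2
  have hfin : ChG_Gr S o (fun s y => (∑ i ∈ Finset.range ((S.N a).natDegree + 1),
      ‖((S.N a).coeff i).eval (Tp o s)‖ * ‖y‖ ^ i) * ‖S.M.eval (Tp o s)‖⁻¹) :=
    ChG_mul (ChG_sum (fun i => ChG_mul (ChG_poly S o _) (ChG_pow hY i)) _) (ChG_inv S o hM)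
  obtain ⟨_, C, k, ρ, hC, hρ, hρ1, h⟩ := ChG_mono (f := fun s y => ‖S.x a (Tp o s, y)‖)
    (fun s y => norm_nonneg _) (fun s y h0 h1 => by
      change ‖(S.N a).evalEval (Tp o s) y / S.M.eval (Tp o s)‖ ≤ _
      rw [norm_div, div_eq_mul_inv]
      apply mul_le_mul_of_nonneg_right _ (by positivity)
      rw [← eval₂_evalRingHom, eval₂_eq_sum_range]
      refine (norm_sum_le _ _).trans (Finset.sum_le_sum fun i _ => ?_)
      rw [norm_mul, norm_pow, coe_evalRingHom]) hfin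
  exact ⟨C, k, ρ, hρ, h⟩

end Pool.Agent.LGO.AX
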