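import Mathlib

/-!
# LGO/AX: functions of `t = exp w`; poles

`descent`: a holomorphic function on the half plane `exp (Re w) < r` with period `2 π i` is a holomorphic
function of `t = exp w` on the punctured disc.  Take `g t = f (log t)`; near a point `t₀` of the slit plane
`log` is holomorphic; near a point of the negative real axis use `log (-t) + π i` (it differs from `log t` by
`0` or `2 π i`), and the periodicity.

`pole_or_fin`: `t ^ k f(t)` is bounded and holomorphic on the punctured disc, so it extends to a holomorphic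
function `h` on the disc (removable singularity: `Complex.differentiableOn_update_limUnder_of_bddAbove` or
similar).  If `h = 0` near `0` then `f = 0` on the punctured disc (identity theorem, the punctured disc is
connected; or `h = 0` on the disc).  Otherwise `h = t ^ n u(t)` near `0` with `u(0) ≠ 0`
(`AnalyticAt.exists_eventuallyEq_pow_smul_nonzero_iff`): if `n ≥ k` then `f` is bounded near `0` and extends; if
`n < k` then `|f| → ∞`.
-/

namespace Pool.Agent.LGO.AX

open Metric Filter Topology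

private theorem ChD_per {f : ℂ → ℂ} {r : ℝ}
    (hper : ∀ w : ℂ, Real.exp w.re < r → f (w + 2 * Real.pi * Complex.I) = f w) (w : ℂ)
    (hw : Real.exp w.re < r) (n : ℤ) : f (w + n * (2 * Real.pi * Complex.I)) = f w := by
  have hre : ∀ m : ℤ, (w + m * (2 * Real.pi * Complex.I)).re = w.re := by
    intro m
    simp
  induction n using Int.induction_on with
  | zero => simp
  | succ n ih =>
    rw [← ih]
    have h1 := hper (w + (n : ℤ) * (2 * Real.pi * Complex.I)) (by rw [hre]; exact hw)
    rw [← h1]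
    congr 1
    push_cast
    ring
  | pred n ih =>
    rw [← ih]
    have h1 := hper (w + ((-(n : ℤ) - 1 : ℤ) : ℂ) * (2 * Real.pi * Complex.I)) (by rw [hre]; exact hw)
    rw [← h1]
    congr 1
    push_cast
    ring

theorem descent {f : ℂ → ℂ} {r : ℝ} (hr : 0 < r)
    (hf : DifferentiableOn ℂ f {w | Real.exp w.re < r})
    (hper : ∀ w : ℂ, Real.exp w.re < r → f (w + 2 * Real.pi * Complex.I) = f w) :
    ∃ g : ℂ → ℂ, DifferentiableOn ℂ g {t | 0 < ‖t‖ ∧ ‖t‖ < r} ∧
      ∀ w : ℂ, Real.exp w.re < r → f w = g (Complex.exp w) := by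
  have hopen : IsOpen {w : ℂ | Real.exp w.re < r} :=
    isOpen_lt (Real.continuous_exp.comp Complex.continuous_re) continuous_const
  have hg : ∀ w : ℂ, Real.exp w.re < r → f w = f (Complex.log (Complex.exp w)) := by
    intro w hw
    obtain ⟨n, hn⟩ := Complex.log_exp_exists w
    rw [hn, ChD_per hper w hw n]
  refine ⟨fun t => f (Complex.log t), ?_, hg⟩
  rintro t₀ ⟨h0, h1⟩
  have ht0 : t₀ ≠ 0 := norm_pos_iff.1 h0
  set L : ℂ → ℂ := fun t => Complex.log t₀ + Complex.log (t / t₀) with hL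
  have hL0 : L t₀ = Complex.log t₀ := by
    simp [hL, div_self ht0]
  have hLd : DifferentiableAt ℂ L t₀ := by
    refine (differentiableAt_const _).add ?_
    refine DifferentiableAt.clog (by fun_prop) ?_
    rw [div_self ht0]
    exact Complex.one_mem_slitPlane
  have hexpL : ∀ t : ℂ, t ≠ 0 → Complex.exp (L t) = t := by
    intro t ht
    rw [hL]
    simp only
    rw [Complex.exp_add, Complex.exp_log ht0, Complex.exp_log (div_ne_zero ht ht0)]
    field_simp
  have hnorm : ∀ t : ℂ, t ≠ 0 → Real.exp (L t).re = ‖t‖ := by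
    intro t ht
    rw [← Complex.norm_exp, hexpL t ht]
  have hfL : DifferentiableAt ℂ (fun t => f (L t)) t₀ := by
    have h2 : DifferentiableAt ℂ f (L t₀) := by
      refine (hf (L t₀) ?_).differentiableAt (hopen.mem_nhds ?_)
      · show Real.exp (L t₀).re < r
        rw [hnorm t₀ ht0]
        exact h1
      · show Real.exp (L t₀).re < r
        rw [hnorm t₀ ht0]
        exact h1
    exact h2.comp t₀ hLd
  refine DifferentiableAt.differentiableWithinAt ?_
  refine hfL.congr_of_eventuallyEq ?_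
  have h3 : ∀ᶠ t : ℂ in 𝓝 t₀, t ≠ 0 ∧ ‖t‖ < r :=
    (isOpen_ne.mem_nhds ht0 : {t : ℂ | t ≠ 0} ∈ 𝓝 t₀) |> fun h4 =>
      Filter.inter_mem h4 ((isOpen_lt continuous_norm continuous_const).mem_nhds h1)
  filter_upwards [h3] with t ht
  have h5 := hg (L t) (by rw [hnorm t ht.1]; exact ht.2)
  rw [h5, hexpL t ht.1]

theorem pole_or_fin {f : ℂ → ℂ} {r : ℝ} (hr : 0 < r)
    (hf : DifferentiableOn ℂ f {t | 0 < ‖t‖ ∧ ‖t‖ < r})
    (hg : ∃ (C : ℝ) (k : ℕ), ∀ t, 0 < ‖t‖ → ‖t‖ < r → ‖f t‖ * ‖t‖ ^ k ≤ C) :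
    (∃ g : ℂ → ℂ, DifferentiableOn ℂ g (ball 0 r) ∧ ∀ t, 0 < ‖t‖ → ‖t‖ < r → f t = g t) ∨
      Tendsto (fun t => ‖f t‖) (𝓝[≠] 0) atTop := by
  obtain ⟨C, k, hC⟩ := hg
  have hopen : IsOpen {t : ℂ | 0 < ‖t‖ ∧ ‖t‖ < r} :=
    (isOpen_lt continuous_const continuous_norm).inter (isOpen_lt continuous_norm continuous_const)
  have hset : ball (0 : ℂ) r \ {0} = {t : ℂ | 0 < ‖t‖ ∧ ‖t‖ < r} := by
    ext t
    simp only [Set.mem_sdiff, mem_ball_zero_iff, Set.mem_singleton_iff, Set.mem_ofPred_eq, norm_pos_iff]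
    exact and_comm
  have hfd : ∀ t : ℂ, 0 < ‖t‖ → ‖t‖ < r → DifferentiableAt ℂ f t := fun t h1 h2 =>
    (hf t ⟨h1, h2⟩).differentiableAt (hopen.mem_nhds ⟨h1, h2⟩)
  set h : ℂ → ℂ := fun t => t ^ k * f t with hh
  have hext := Complex.differentiableOn_update_limUnder_of_bddAbove (f := h) (s := ball 0 r) (c := 0)
    (ball_mem_nhds 0 hr) (by
      rw [hset]
      exact (differentiableOn_pow (n := k)).mul hf) (by
      rw [hset]
      refine ⟨C, ?_⟩
      rintro _ ⟨t, ht, rfl⟩
      simp only [Function.comp, hh, norm_mul, norm_pow]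
      rw [mul_comm]
      exact hC t ht.1 ht.2)
  set H := Function.update h 0 (limUnder (𝓝[≠] 0) h) with hH
  have hHan : AnalyticAt ℂ H 0 := hext.analyticAt (ball_mem_nhds 0 hr)
  have hnhds : ∀ᶠ t : ℂ in 𝓝[≠] 0, 0 < ‖t‖ ∧ ‖t‖ < r := by
    have h1 : ∀ᶠ t : ℂ in 𝓝[≠] 0, t ∈ ball (0 : ℂ) r := nhdsWithin_le_nhds (ball_mem_nhds 0 hr)
    filter_upwards [h1, self_mem_nhdsWithin] with t ht1 ht2
    exact ⟨norm_pos_iff.2 ht2, mem_ball_zero_iff.1 ht1⟩
  have hmer : MeromorphicAt f 0 := by
    have h1 : MeromorphicAt (fun t : ℂ => (t ^ k)⁻¹ * H t) 0 :=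
      (MeromorphicAt.inv ((analyticAt_id.pow k).meromorphicAt)).mul hHan.meromorphicAt
    refine h1.congr ?_
    filter_upwards [hnhds] with t ht
    have ht0 : t ≠ 0 := norm_pos_iff.1 ht.1
    rw [hH, Function.update_of_ne ht0, hh]
    field_simp
  by_cases ho : meromorphicOrderAt f 0 < 0
  · right
    have h1 := tendsto_cobounded_of_meromorphicOrderAt_neg ho
    exact tendsto_norm_cobounded_atTop.comp h1
  · left
    obtain ⟨c, hc⟩ := tendsto_nhds_of_meromorphicOrderAt_nonneg hmer (not_lt.1 ho)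
    refine ⟨Function.update f 0 c, ?_, fun t ht _ => ?_⟩
    · have hne : ∀ t : ℂ, 0 < ‖t‖ → ‖t‖ < r → DifferentiableAt ℂ (Function.update f 0 c) t := by
        intro t h1 h2
        refine (hfd t h1 h2).congr_of_eventuallyEq ?_
        filter_upwards [isOpen_ne.mem_nhds (norm_pos_iff.1 h1 : t ≠ 0)] with s hs
        exact Function.update_of_ne hs _ _
      intro t ht
      refine DifferentiableAt.differentiableWithinAt ?_
      by_cases ht0 : t = 0
      · subst ht0
        refine (Complex.analyticAt_of_differentiable_on_punctured_nhds_of_continuousAt ?_ ?_).differentiableAt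
        · filter_upwards [hnhds] with s hs
          exact hne s hs.1 hs.2
        · exact continuousAt_update_same.2 hc
      · exact hne t (norm_pos_iff.2 ht0) (mem_ball_zero_iff.1 ht)
    · rw [Function.update_of_ne (norm_pos_iff.1 ht)]

end Pool.Agent.LGO.AX
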