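import Mathlib
import Pool.Agent.LGO.AX.Defs
import Pool.Agent.LGO.Gal.JG

/-!
# LGO/AX: local inversion of `j`

`j_inv_fin`: let `j(τ₀) = c` (`j_surj` in `Pool/Agent/Hhelper14/ZPL/Hecke2.lean`).  `jF` is analytic and not
constant near `τ₀` (`jF_analytic`, `jF_not_const` in `LGO/Q/Loc.lean`), so
`jF z - c = (z - τ₀) ^ q g(z)` near `τ₀`, `g(τ₀) ≠ 0`, `q ≥ 1`
(`AnalyticAt.exists_eventuallyEq_pow_smul_nonzero_iff`, as in the proof of `j_local`).  Near `τ₀` there is a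
holomorphic `q`-th root `h` of `g` (`h = exp (log (g / g(τ₀)) / q) * g(τ₀) ^ (1 / q)`, `g / g(τ₀)` is close to
`1`), so `jF z - c = ((z - τ₀) h(z)) ^ q`, and `z ↦ (z - τ₀) h(z)` has derivative `h(τ₀) ≠ 0` at `τ₀`; let `φ` be
its local inverse (`HasStrictDerivAt.localInverse`, analytic inverse function theorem:
`AnalyticAt.analyticAt_localInverse` or `ContDiffAt.to_localInverse`, or
`HasStrictDerivAt.to_localInverse` at all points near), `φ(0) = τ₀`.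

`j_inv_inf`: for `Im z > 1` (say) `jF z = H(q) / q` with `q = exp (2 π i z)` and `H` analytic at `0`, `H(0) = 1`
(see `j_cusp` in `LGO/Gal/JG.lean`, `LGO/Gal/JInj.lean` (`cusp_inj`) and
`Pool/Agent/ZPS/Series.lean`, `evZ_J`, for such an expansion; for example `E₄` and the discriminant are
holomorphic functions of `q` (`cuspFunction`), `Δ = q ∏ (1 - q ^ n) ^ 24`).  So `1 / jF z = q / H(q) =: A(q)`,
`A(0) = 0`, `A'(0) = 1`; `Q` is the local inverse of `A` at `0`: `A(Q(u)) = u`; `Q u ≠ 0` for `u ≠ 0`.  If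
`exp (2 π i z) = Q u` with `|Q u| < exp (- 2 π)` then `Im z > 1` and `1 / jF z = A(Q u) = u`.
-/

namespace Pool.Agent.LGO.AX

open Metric

/-- analytic local inverse -/
theorem chJ_loc_inv {f : ℂ → ℂ} {a : ℂ} (hf : AnalyticAt ℂ f a) (hd : deriv f a ≠ 0) :
    ∃ g : ℂ → ℂ, AnalyticAt ℂ g (f a) ∧ g (f a) = a ∧ deriv g (f a) ≠ 0 ∧ ∀ᶠ u in nhds (f a), f (g u) = u := by
  refine ⟨hf.hasStrictDerivAt.localInverse _ _ _ hd, hf.analyticAt_localInverse hd, ?_, ?_, ?_⟩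
  · exact HasStrictFDerivAt.localInverse_apply_image ..
  · have h := (hf.hasStrictDerivAt.to_localInverse hd).hasDerivAt.deriv
    rw [h]
    exact inv_ne_zero hd
  · exact HasStrictDerivAt.eventually_right_inverse ..

/-- a ball on which an analytic function is differentiable and an eventual property holds -/
theorem chJ_ball_of {g : ℂ → ℂ} {b : ℂ} (hg : AnalyticAt ℂ g b) {P : ℂ → Prop} (hP : ∀ᶠ u in nhds b, P u) :
    ∃ r : ℝ, 0 < r ∧ DifferentiableOn ℂ g (ball b r) ∧ ∀ u ∈ ball b r, P u := by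
  have h1 := hg.eventually_analyticAt
  obtain ⟨r, hr, h2⟩ := Metric.eventually_nhds_iff_ball.mp (h1.and hP)
  exact ⟨r, hr, fun u hu => (h2 u hu).1.differentiableAt.differentiableWithinAt, fun u hu => (h2 u hu).2⟩

/-- holomorphic root of a non vanishing germ -/
theorem chJ_root_germ {g : ℂ → ℂ} {a : ℂ} (hg : AnalyticAt ℂ g a) (h0 : g a ≠ 0) {q : ℕ} (hq : 0 < q) :
    ∃ h : ℂ → ℂ, AnalyticAt ℂ h a ∧ h a ≠ 0 ∧ ∀ᶠ z in nhds a, h z ^ q = g z := by
  obtain ⟨w, hw⟩ := IsAlgClosed.exists_pow_nat_eq (g a) hq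
  have hw0 : w ≠ 0 := by
    rintro rfl
    rw [zero_pow hq.ne'] at hw
    exact h0 hw.symm
  have h1 : AnalyticAt ℂ (fun z => g z / g a) a := hg.div analyticAt_const h0
  have h2 : g a / g a ∈ Complex.slitPlane := by
    rw [div_self h0]; exact Complex.one_mem_slitPlane
  have h3 : AnalyticAt ℂ (fun z => Complex.log (g z / g a)) a := h1.clog h2
  have hq' : (q : ℂ) ≠ 0 := by exact_mod_cast hq.ne'
  refine ⟨fun z => w * Complex.exp (Complex.log (g z / g a) / q), ?_, ?_, ?_⟩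
  · exact analyticAt_const.mul ((h3.div analyticAt_const hq').cexp)
  · exact mul_ne_zero hw0 (Complex.exp_ne_zero _)
  · have h4 : ∀ᶠ z in nhds a, g z / g a ≠ 0 := by
      have := h1.continuousAt.eventually_ne (y := 0) (by simp only [div_self h0]; exact one_ne_zero)
      exact this
    filter_upwards [h4] with z hz
    rw [mul_pow, hw, ← Complex.exp_nat_mul]
    have : (q : ℂ) * (Complex.log (g z / g a) / q) = Complex.log (g z / g a) := by field_simp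
    rw [this, Complex.exp_log hz]
    field_simp

theorem j_inv_fin (c : ℂ) : ∃ (q : ℕ) (r : ℝ) (φ : ℂ → ℂ), 0 < q ∧ 0 < r ∧
    DifferentiableOn ℂ φ (ball 0 r) ∧ ∀ s ∈ ball (0 : ℂ) r, 0 < (φ s).im ∧ jF (φ s) = c + s ^ q := by
  obtain ⟨τ₀, hτ₀⟩ := Pool.Agent.Hhelper14.ZPL.j_surj c
  have hc : jF (τ₀ : ℂ) = c := by rw [jF_coe, hτ₀]
  have han : AnalyticAt ℂ jF (τ₀ : ℂ) := jF_analytic _ τ₀.im_pos
  have hnc := jF_not_const τ₀
  have han' : AnalyticAt ℂ (fun z => jF z - jF (τ₀ : ℂ)) (τ₀ : ℂ) := han.sub analyticAt_const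
  obtain ⟨q, g, hg, hg0, hfac⟩ := (han'.exists_eventuallyEq_pow_smul_nonzero_iff).mpr (by
    intro h
    exact hnc (h.mono fun z hz => sub_eq_zero.mp hz))
  have hq : 0 < q := by
    rcases Nat.eq_zero_or_pos q with h | h
    · exfalso
      have h1 := hfac.self_of_nhds
      rw [h] at h1
      simp only [sub_self, pow_zero, one_smul] at h1
      exact hg0 h1.symm
    · exact h
  obtain ⟨h, hh, hh0, hpow⟩ := chJ_root_germ hg hg0 hq
  -- the coordinate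
  set f : ℂ → ℂ := fun z => (z - (τ₀ : ℂ)) * h z with hf
  have hfan : AnalyticAt ℂ f (τ₀ : ℂ) := (analyticAt_id.sub analyticAt_const).mul hh
  have hf0 : f (τ₀ : ℂ) = 0 := by simp [hf]
  have hfd : deriv f (τ₀ : ℂ) ≠ 0 := by
    have h1 : HasDerivAt f (1 * h (τ₀ : ℂ) + ((τ₀ : ℂ) - (τ₀ : ℂ)) * deriv h (τ₀ : ℂ)) (τ₀ : ℂ) :=
      ((hasDerivAt_id (τ₀ : ℂ)).sub_const (τ₀ : ℂ)).mul hh.differentiableAt.hasDerivAt
    rw [h1.deriv, sub_self, zero_mul, add_zero, one_mul]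
    exact hh0
  obtain ⟨φ, hφ, hφ0, -, hinv⟩ := chJ_loc_inv hfan hfd
  rw [hf0] at hφ hφ0 hinv
  have hct : Filter.Tendsto φ (nhds 0) (nhds (τ₀ : ℂ)) := by
    have := hφ.continuousAt.tendsto
    rwa [hφ0] at this
  have hall : ∀ᶠ z in nhds (τ₀ : ℂ), 0 < z.im ∧ jF z - jF (τ₀ : ℂ) = f z ^ q := by
    have him : ∀ᶠ z in nhds (τ₀ : ℂ), 0 < z.im := isOpen_uhp.mem_nhds τ₀.im_pos
    filter_upwards [him, hfac, hpow] with z h1 h2 h3
    refine ⟨h1, ?_⟩
    rw [h2, smul_eq_mul, ← h3]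
    simp only [hf]
    rw [mul_pow]
  obtain ⟨r, hr, hd, hP⟩ := chJ_ball_of hφ (hinv.and (hct.eventually hall))
  refine ⟨q, r, φ, hq, hr, hd, fun s hs => ?_⟩
  obtain ⟨h1, h2, h3⟩ := hP s hs
  refine ⟨h2, ?_⟩
  rw [h1, hc] at h3
  linear_combination h3

theorem j_inv_inf : ∃ (r : ℝ) (Q : ℂ → ℂ), 0 < r ∧ DifferentiableOn ℂ Q (ball 0 r) ∧ Q 0 = 0 ∧
    deriv Q 0 ≠ 0 ∧ ∀ u ∈ ball (0 : ℂ) r, u ≠ 0 → Q u ≠ 0 ∧
      ∀ z : ℂ, Complex.exp (2 * Real.pi * Complex.I * z) = Q u → 0 < z.im ∧ jF z = u⁻¹ := by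
  obtain ⟨J, hJg, hJ0, hJτ⟩ := Pool.Agent.Hhelper14.ZP.exists_J
  have hana : AnalyticOnNhd ℂ J (Metric.ball 0 1) :=
    hJg.differentiableOn.analyticOnNhd Metric.isOpen_ball
  have hJ : AnalyticAt ℂ J 0 := hana 0 (by simp)
  have hJ0' : J 0 ≠ 0 := by rw [hJ0]; exact one_ne_zero
  set A : ℂ → ℂ := fun q => q * (J q)⁻¹ with hA
  have hAan : AnalyticAt ℂ A 0 := analyticAt_id.mul (hJ.inv hJ0')
  have hA0 : A 0 = 0 := by simp [hA]
  have hAd : deriv A 0 ≠ 0 := by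
    have h3 : HasDerivAt A (1 * (J 0)⁻¹ + 0 * deriv (fun z => (J z)⁻¹) 0) 0 :=
      (hasDerivAt_id (0 : ℂ)).mul (hJ.inv hJ0').differentiableAt.hasDerivAt
    rw [h3.deriv, hJ0]
    simp
  obtain ⟨Q, hQ, hQ0, hQd, hinv⟩ := chJ_loc_inv hAan hAd
  rw [hA0] at hQ hQ0 hQd hinv
  have hct : Filter.Tendsto Q (nhds 0) (nhds 0) := by
    have := hQ.continuousAt.tendsto
    rwa [hQ0] at this
  have hall : ∀ᶠ q in nhds (0 : ℂ), ‖q‖ < 1 ∧ J q ≠ 0 := by
    have h1 : ∀ᶠ q in nhds (0 : ℂ), ‖q‖ < 1 := by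
      have : Metric.ball (0 : ℂ) 1 ∈ nhds (0 : ℂ) := Metric.ball_mem_nhds _ one_pos
      filter_upwards [this] with q hq
      simpa using hq
    exact h1.and (hJ.continuousAt.eventually_ne hJ0')
  obtain ⟨r, hr, hd, hP⟩ := chJ_ball_of hQ (hinv.and (hct.eventually hall))
  refine ⟨r, Q, hr, hd, hQ0, hQd, fun u hu hu0 => ?_⟩
  obtain ⟨h1, h2, h3⟩ := hP u hu
  have hQu : Q u ≠ 0 := by
    intro h
    rw [h, hA0] at h1
    exact hu0 h1.symm
  refine ⟨hQu, fun z hz => ?_⟩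
  have him : 0 < z.im := by
    have h4 : ‖Complex.exp (2 * Real.pi * Complex.I * z)‖ < 1 := by rw [hz]; exact h2
    rw [Complex.norm_exp, Real.exp_lt_one_iff] at h4
    have h5 : (2 * Real.pi * Complex.I * z).re = -(2 * Real.pi) * z.im := by
      simp [Complex.mul_re, Complex.mul_im]
    rw [h5] at h4
    have := Real.pi_pos
    nlinarith
  refine ⟨him, ?_⟩
  have h6 := hJτ ⟨z, him⟩
  have h7 : Function.Periodic.qParam 1 ((⟨z, him⟩ : UpperHalfPlane) : ℂ) = Q u := by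
    rw [← hz]
    simp [Function.Periodic.qParam]
  rw [h7, ← jF_coe] at h6
  have h8 : jF z * Q u = J (Q u) := h6
  have h9 : A (Q u) = u := h1
  simp only [hA] at h9
  have h10 : jF z = J (Q u) / Q u := by rw [eq_div_iff hQu]; exact h8
  have h11 : u⁻¹ = (Q u * (J (Q u))⁻¹)⁻¹ := by rw [h9]
  rw [h10, h11]
  generalize J (Q u) = a at *
  generalize Q u = b at *
  field_simp

end Pool.Agent.LGO.AX
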