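import Mathlib
import Pool.Agent.LGO.AX.ChJ
import Pool.Agent.LGO.AX.ChD

/-!
# LGO/AX: lifts to the upper half plane near the centre of a branch

`lift_fin` (`X` holomorphic at `0`).  Let `c = X(0)`, `q, φ` from `j_inv_fin c`.  If `X = c` near `0`: `ψ = φ(0)`
(constant; take `r'` small).  Otherwise `X(t) = c + t ^ k u(t)` near `0`, `k ≥ 1`, `u(0) ≠ 0`
(`AnalyticAt.exists_eventuallyEq_pow_smul_nonzero_iff`), and
`X(t ^ q) - c = t ^ (q k) u(t ^ q) = (t ^ k v(t)) ^ q` where `v` is a holomorphic `q`-th root of `u(t ^ q)` near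
`0` (`u(t ^ q) / u(0)` is close to `1`: use `exp (log (·) / q)`).  `ψ(t) = φ(t ^ k v(t))`.

`lift_inf` (`|X| → ∞`).  `1 / X` is bounded near `0` and extends to a holomorphic function `U` with `U(0) = 0`, not
identically `0` near `0`; `Q(U(t))` (`j_inv_inf`) is holomorphic near `0`, vanishes at `0`, and does not vanish
for small `t ≠ 0`: `Q(U(t)) = t ^ e v(t)`, `e ≥ 1`, `v(0) ≠ 0`, `v(t) = exp (2 π i ψ(t))` with `ψ` holomorphic near
`0` (`v / v(0)` is close to `1`: `log`).  Then `exp (2 π i zz e ψ w) = exp (e w) exp (2 π i ψ (exp w)) = Q(U(exp w))`,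
so `0 < Im` and `jF (zz e ψ w) = U(exp w)⁻¹ = X(exp w)`.

`lift`: combine with `pole_or_fin`; `q` from `lift_fin` (or `q = 1` in the case `∞`), and replace `t` by `t ^ n`:
`ψ' t = ψ (t ^ n)`, `e' = e n`, `zz (e n) ψ' w = zz e ψ (n w)`, `r' ^ n` small.
-/

namespace Pool.Agent.LGO.AX

open Metric Filter Topology

/-- a small ball on which an analytic function is differentiable and an eventual property holds -/
private theorem chL_ball {g : ℂ → ℂ} (hg : AnalyticAt ℂ g 0) {P : ℂ → Prop}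
    (hP : ∀ᶠ u in 𝓝 (0 : ℂ), P u) {r : ℝ} (hr : 0 < r) :
    ∃ r' : ℝ, 0 < r' ∧ r' ≤ 1 ∧ r' ≤ r ∧ DifferentiableOn ℂ g (ball 0 r') ∧
      ∀ u ∈ ball (0 : ℂ) r', P u := by
  obtain ⟨ρ, hρ, hd, h⟩ := chJ_ball_of hg hP
  refine ⟨min ρ (min 1 r), lt_min hρ (lt_min one_pos hr),
    (min_le_right _ _).trans (min_le_left _ _), (min_le_right _ _).trans (min_le_right _ _),
    hd.mono (ball_subset_ball (min_le_left _ _)),
    fun u hu => h u (ball_subset_ball (min_le_left _ _) hu)⟩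

private theorem chL_pow_le {r' r : ℝ} (h0 : 0 < r') (h1 : r' ≤ 1) (h2 : r' ≤ r) {q : ℕ} (hq : 0 < q) :
    r' ^ q ≤ r :=
  (pow_le_of_le_one h0.le h1 hq.ne').trans h2

theorem lift_fin {X : ℂ → ℂ} {r : ℝ} (hr : 0 < r) (hX : DifferentiableOn ℂ X (ball 0 r)) :
    ∃ (q : ℕ) (r' : ℝ) (ψ : ℂ → ℂ), 0 < q ∧ 0 < r' ∧ r' ^ q ≤ r ∧ DifferentiableOn ℂ ψ (ball 0 r') ∧
      ∀ t ∈ ball (0 : ℂ) r', 0 < (ψ t).im ∧ jF (ψ t) = X (t ^ q) := by
  obtain ⟨q, r₀, φ, hq, hr₀, hφ, hj⟩ := j_inv_fin (X 0)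
  have hXa : AnalyticAt ℂ X 0 := hX.analyticAt (ball_mem_nhds 0 hr)
  have hφa : AnalyticAt ℂ φ 0 := hφ.analyticAt (ball_mem_nhds 0 hr₀)
  have hYa : AnalyticAt ℂ (fun t => X t - X 0) 0 := hXa.sub analyticAt_const
  by_cases hcon : ∀ᶠ t in 𝓝 (0 : ℂ), X t - X 0 = 0
  · obtain ⟨r', h0, h1, h2, h3, h4⟩ := chL_ball
      (analyticAt_const (v := φ 0) : AnalyticAt ℂ (fun _ : ℂ => φ 0) 0) hcon hr
    refine ⟨1, r', fun _ => φ 0, one_pos, h0, chL_pow_le h0 h1 h2 one_pos, h3, fun t ht => ?_⟩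
    obtain ⟨h5, h6⟩ := hj 0 (mem_ball_self hr₀)
    refine ⟨h5, ?_⟩
    rw [h6, zero_pow hq.ne', add_zero, pow_one]
    exact (sub_eq_zero.1 (h4 t ht)).symm
  · obtain ⟨k, u, hu, hu0, hfac⟩ := (hYa.exists_eventuallyEq_pow_smul_nonzero_iff).mpr hcon
    simp only [sub_zero, smul_eq_mul] at hfac
    have hk : k ≠ 0 := by
      rintro rfl
      have h1 := hfac.self_of_nhds
      rw [sub_self, pow_zero, one_mul] at h1
      exact hu0 h1.symm
    have hpa : AnalyticAt ℂ (fun t : ℂ => t ^ q) 0 := analyticAt_id.pow q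
    have hp0 : (0 : ℂ) ^ q = 0 := zero_pow hq.ne'
    have hpt : Tendsto (fun t : ℂ => t ^ q) (𝓝 0) (𝓝 0) := by
      have h := hpa.continuousAt.tendsto
      rwa [hp0] at h
    have hua : AnalyticAt ℂ (fun t : ℂ => u (t ^ q)) 0 :=
      AnalyticAt.fun_comp (g := u) (by rw [hp0]; exact hu) hpa
    obtain ⟨v, hv, -, hvq⟩ := chJ_root_germ hua (by
      show u (0 ^ q) ≠ 0
      rw [zero_pow hq.ne']
      exact hu0) hq
    have hsa : AnalyticAt ℂ (fun t : ℂ => t ^ k * v t) 0 := (analyticAt_id.pow k).mul hv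
    have hs0 : (0 : ℂ) ^ k * v 0 = 0 := by
      rw [zero_pow hk, zero_mul]
    have hst : Tendsto (fun t : ℂ => t ^ k * v t) (𝓝 0) (𝓝 0) := by
      have h := hsa.continuousAt.tendsto
      rwa [hs0] at h
    have hψ : AnalyticAt ℂ (fun t : ℂ => φ (t ^ k * v t)) 0 :=
      AnalyticAt.fun_comp (g := φ) (by rw [hs0]; exact hφa) hsa
    have hev : ∀ᶠ t in 𝓝 (0 : ℂ), 0 < (φ (t ^ k * v t)).im ∧ jF (φ (t ^ k * v t)) = X (t ^ q) := by
      filter_upwards [hst.eventually (ball_mem_nhds (0 : ℂ) hr₀), hvq, hpt.eventually hfac] with t h1 h2 h3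
      obtain ⟨h4, h5⟩ := hj _ h1
      refine ⟨h4, ?_⟩
      rw [h5, mul_pow, h2]
      have h6 : (t ^ k) ^ q = (t ^ q) ^ k := by rw [← pow_mul, ← pow_mul, mul_comm]
      rw [h6, ← h3]
      ring
    obtain ⟨r', h0, h1, h2, h3, h4⟩ := chL_ball hψ hev hr
    exact ⟨q, r', _, hq, h0, chL_pow_le h0 h1 h2 hq, h3, h4⟩

theorem lift_inf {X : ℂ → ℂ} {r : ℝ} (hr : 0 < r) (hX : DifferentiableOn ℂ X {t | 0 < ‖t‖ ∧ ‖t‖ < r})
    (hinf : Tendsto (fun t => ‖X t‖) (𝓝[≠] 0) atTop) :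
    ∃ (e : ℕ) (r' : ℝ) (ψ : ℂ → ℂ), 0 < e ∧ 0 < r' ∧ r' ≤ r ∧ DifferentiableOn ℂ ψ (ball 0 r') ∧
      ∀ w : ℂ, Real.exp w.re < r' → 0 < (zz e ψ w).im ∧ jF (zz e ψ w) = X (Complex.exp w) := by
  obtain ⟨r₁, Q, hr₁, hQ, hQ0, -, hQj⟩ := j_inv_inf
  have hopen : IsOpen {t : ℂ | 0 < ‖t‖ ∧ ‖t‖ < r} :=
    (isOpen_lt continuous_const continuous_norm).inter (isOpen_lt continuous_norm continuous_const)
  have hnhds : ∀ᶠ t : ℂ in 𝓝[≠] 0, 0 < ‖t‖ ∧ ‖t‖ < r := by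
    have h1 : ∀ᶠ t : ℂ in 𝓝[≠] 0, t ∈ ball (0 : ℂ) r := nhdsWithin_le_nhds (ball_mem_nhds 0 hr)
    filter_upwards [h1, self_mem_nhdsWithin] with t ht1 ht2
    exact ⟨norm_pos_iff.2 ht2, mem_ball_zero_iff.1 ht1⟩
  have hne : ∀ᶠ t : ℂ in 𝓝[≠] 0, X t ≠ 0 := by
    filter_upwards [hinf.eventually_gt_atTop 0] with t ht
    exact norm_pos_iff.1 ht
  obtain ⟨U, hU⟩ : ∃ U : ℂ → ℂ, U = Function.update (fun t => (X t)⁻¹) 0 0 := ⟨_, rfl⟩
  have hU0 : U 0 = 0 := by rw [hU, Function.update_self]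
  have hUt : ∀ t : ℂ, t ≠ 0 → U t = (X t)⁻¹ := fun t ht => by rw [hU, Function.update_of_ne ht]
  have hUlim : Tendsto (fun t => (X t)⁻¹) (𝓝[≠] 0) (𝓝 0) := by
    rw [tendsto_zero_iff_norm_tendsto_zero]
    have h1 : (fun t => ‖(X t)⁻¹‖) = fun t => ‖X t‖⁻¹ := by
      funext t
      exact norm_inv _
    rw [h1]
    exact tendsto_inv_atTop_zero.comp hinf
  have hUan : AnalyticAt ℂ U 0 := by
    refine Complex.analyticAt_of_differentiable_on_punctured_nhds_of_continuousAt ?_ ?_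
    · filter_upwards [hnhds, hne] with t ht1 ht2
      have ht0 : t ≠ 0 := norm_pos_iff.1 ht1.1
      have hd : DifferentiableAt ℂ (fun t => (X t)⁻¹) t :=
        ((hX t ht1).differentiableAt (hopen.mem_nhds ht1)).inv ht2
      refine hd.congr_of_eventuallyEq ?_
      filter_upwards [isOpen_ne.mem_nhds ht0] with s hs
      exact hUt s hs
    · rw [hU]
      exact continuousAt_update_same.2 hUlim
  have hUct : Tendsto U (𝓝 0) (𝓝 0) := by
    have h := hUan.continuousAt.tendsto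
    rwa [hU0] at h
  have hQa : AnalyticAt ℂ Q 0 := hQ.analyticAt (ball_mem_nhds 0 hr₁)
  have hAan : AnalyticAt ℂ (fun t => Q (U t)) 0 :=
    AnalyticAt.fun_comp (g := Q) (by rw [hU0]; exact hQa) hUan
  have hAne : ∀ᶠ t : ℂ in 𝓝[≠] 0, Q (U t) ≠ 0 := by
    have h1 : ∀ᶠ t : ℂ in 𝓝[≠] 0, U t ∈ ball (0 : ℂ) r₁ :=
      nhdsWithin_le_nhds (hUct.eventually (ball_mem_nhds (0 : ℂ) hr₁))
    filter_upwards [h1, hne, self_mem_nhdsWithin] with t ht1 ht2 ht3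
    refine (hQj _ ht1 ?_).1
    rw [hUt t ht3]
    exact inv_ne_zero ht2
  have hnc : ¬ ∀ᶠ t in 𝓝 (0 : ℂ), Q (U t) = 0 := by
    intro h
    have h1 : ∀ᶠ t : ℂ in 𝓝[≠] 0, Q (U t) = 0 := nhdsWithin_le_nhds h
    obtain ⟨t, ht1, ht2⟩ := (h1.and hAne).exists
    exact ht2 ht1
  obtain ⟨e, v, hv, hv0, hfac⟩ := (hAan.exists_eventuallyEq_pow_smul_nonzero_iff).mpr hnc
  simp only [sub_zero, smul_eq_mul] at hfac
  have he : e ≠ 0 := by
    rintro rfl
    have h1 := hfac.self_of_nhds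
    rw [hU0, hQ0, pow_zero, one_mul] at h1
    exact hv0 h1.symm
  have h2pi : (2 * Real.pi * Complex.I : ℂ) ≠ 0 := Complex.two_pi_I_ne_zero
  obtain ⟨ψ, hψd⟩ : ∃ ψ : ℂ → ℂ, ψ = fun t => (Complex.log (v t / v 0) + Complex.log (v 0)) /
      (2 * Real.pi * Complex.I) := ⟨_, rfl⟩
  have hψ : AnalyticAt ℂ ψ 0 := by
    rw [hψd]
    refine AnalyticAt.div (AnalyticAt.add (AnalyticAt.clog (hv.div analyticAt_const hv0) ?_)
      analyticAt_const) analyticAt_const h2pi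
    rw [div_self hv0]
    exact Complex.one_mem_slitPlane
  have hvne : ∀ᶠ t in 𝓝 (0 : ℂ), v t ≠ 0 := hv.continuousAt.eventually_ne hv0
  have hψe : ∀ᶠ t in 𝓝 (0 : ℂ), Complex.exp (2 * Real.pi * Complex.I * ψ t) = v t := by
    filter_upwards [hvne] with t ht
    rw [hψd]
    simp only
    rw [mul_div_cancel₀ _ h2pi, Complex.exp_add, Complex.exp_log (div_ne_zero ht hv0),
      Complex.exp_log hv0, div_mul_cancel₀ _ hv0]
  have hall : ∀ᶠ t in 𝓝 (0 : ℂ), t ≠ 0 →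
      (Complex.exp (2 * Real.pi * Complex.I * ψ t) = v t ∧ Q (U t) = t ^ e * v t ∧
        U t ∈ ball (0 : ℂ) r₁ ∧ X t ≠ 0) := by
    have h1 : ∀ᶠ t in 𝓝 (0 : ℂ), t ≠ 0 → X t ≠ 0 := by
      have := eventually_nhdsWithin_iff.1 hne
      exact this
    filter_upwards [hψe, hfac, hUct.eventually (ball_mem_nhds (0 : ℂ) hr₁), h1] with t g1 g2 g3 g4 ht
    exact ⟨g1, g2, g3, g4 ht⟩
  obtain ⟨r', h0, h1, h2, h3, h4⟩ := chL_ball hψ hall hr
  refine ⟨e, r', ψ, Nat.pos_of_ne_zero he, h0, h2, h3, fun w hw => ?_⟩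
  have ht0 : Complex.exp w ≠ 0 := Complex.exp_ne_zero w
  have htb : Complex.exp w ∈ ball (0 : ℂ) r' := by
    rw [mem_ball_zero_iff, Complex.norm_exp]
    exact hw
  obtain ⟨g1, g2, g3, g4⟩ := h4 _ htb ht0
  have g5 : U (Complex.exp w) ≠ 0 := by
    rw [hUt _ ht0]
    exact inv_ne_zero g4
  obtain ⟨g6, g7⟩ := (hQj _ g3 g5).2 (zz e ψ w) (by
    rw [g2, ← g1, ← Complex.exp_nat_mul, ← Complex.exp_add]
    congr 1
    unfold zz
    field_simp)
  refine ⟨g6, ?_⟩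
  rw [g7, hUt _ ht0, inv_inv]

/-- the lift of a function of `t` with at most a pole, after `t ↦ t ^ (q n)` -/
theorem lift {X : ℂ → ℂ} {r : ℝ} (hr : 0 < r) (hX : DifferentiableOn ℂ X {t | 0 < ‖t‖ ∧ ‖t‖ < r})
    (hg : ∃ (C : ℝ) (k : ℕ), ∀ t, 0 < ‖t‖ → ‖t‖ < r → ‖X t‖ * ‖t‖ ^ k ≤ C) :
    ∃ q : ℕ, 0 < q ∧ ∀ n : ℕ, 0 < n → ∃ (e : ℕ) (r' : ℝ) (ψ : ℂ → ℂ), 0 < r' ∧ r' ^ (q * n) ≤ r ∧
      DifferentiableOn ℂ ψ (ball 0 r') ∧ (e = 0 → 0 < (ψ 0).im) ∧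
      ∀ w : ℂ, Real.exp w.re < r' → 0 < (zz e ψ w).im ∧
        jF (zz e ψ w) = X (Complex.exp w ^ (q * n)) := by
  have hball : ∀ {ρ : ℝ} {n : ℕ}, 0 < n → ∀ t ∈ ball (0 : ℂ) (min 1 ρ), t ^ n ∈ ball (0 : ℂ) ρ := by
    intro ρ n hn t ht
    rw [mem_ball_zero_iff] at ht ⊢
    rw [norm_pow]
    have h1 : ‖t‖ ≤ 1 := ht.le.trans (min_le_left _ _)
    exact (pow_le_of_le_one (norm_nonneg t) h1 hn.ne').trans_lt (ht.trans_le (min_le_right _ _))
  rcases pole_or_fin hr hX hg with ⟨g, hgd, hgX⟩ | hinf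
  · obtain ⟨q, r', ψ, hq, hr', hrq, hψ, hψj⟩ := lift_fin hr hgd
    refine ⟨q, hq, fun n hn => ⟨0, min 1 r', fun t => ψ (t ^ n), lt_min one_pos hr', ?_, ?_, ?_, ?_⟩⟩
    · have h0 : (0 : ℝ) ≤ min 1 r' := (lt_min one_pos hr').le
      rw [pow_mul]
      refine (pow_le_of_le_one (pow_nonneg h0 q) (pow_le_one₀ h0 (min_le_left _ _)) hn.ne').trans ?_
      exact (pow_le_pow_left₀ h0 (min_le_right _ _) q).trans hrq
    · exact hψ.comp (differentiableOn_pow (n := n)) fun t ht => hball hn t ht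
    · intro _
      show 0 < (ψ (0 ^ n)).im
      rw [zero_pow hn.ne']
      exact (hψj 0 (mem_ball_self hr')).1
    · intro w hw
      have htb : Complex.exp w ∈ ball (0 : ℂ) (min 1 r') := by
        rw [mem_ball_zero_iff, Complex.norm_exp]
        exact hw
      obtain ⟨h1, h2⟩ := hψj _ (hball hn _ htb)
      have h3 : zz 0 (fun t => ψ (t ^ n)) w = ψ (Complex.exp w ^ n) := by
        unfold zz
        rw [Nat.cast_zero, zero_mul, zero_div, zero_add]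
      rw [h3]
      refine ⟨h1, ?_⟩
      rw [h2, ← pow_mul, mul_comm n q]
      refine (hgX _ ?_ ?_).symm
      · rw [norm_pos_iff]
        exact pow_ne_zero _ (Complex.exp_ne_zero w)
      · rw [norm_pow]
        have h4 : ‖Complex.exp w‖ < min 1 r' := mem_ball_zero_iff.1 htb
        have h0 : (0 : ℝ) ≤ min 1 r' := (lt_min one_pos hr').le
        have h5 : ‖Complex.exp w‖ ^ (q * n) < (min 1 r') ^ (q * n) :=
          pow_lt_pow_left₀ h4 (norm_nonneg _) (Nat.mul_pos hq hn).ne'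
        refine h5.trans_le ?_
        rw [pow_mul]
        refine (pow_le_of_le_one (pow_nonneg h0 q) (pow_le_one₀ h0 (min_le_left _ _)) hn.ne').trans ?_
        exact (pow_le_pow_left₀ h0 (min_le_right _ _) q).trans hrq
  · obtain ⟨e, r', ψ, he, hr', hrr, hψ, hψj⟩ := lift_inf hr hX hinf
    refine ⟨1, one_pos, fun n hn => ⟨e * n, min 1 r', fun t => ψ (t ^ n), lt_min one_pos hr', ?_, ?_, ?_, ?_⟩⟩
    · have h0 : (0 : ℝ) ≤ min 1 r' := (lt_min one_pos hr').le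
      rw [one_mul]
      exact (pow_le_of_le_one h0 (min_le_left _ _) hn.ne').trans ((min_le_right _ _).trans hrr)
    · exact hψ.comp (differentiableOn_pow (n := n)) fun t ht => hball hn t ht
    · intro h
      exact absurd h (Nat.mul_pos he hn).ne'
    · intro w hw
      have htb : Complex.exp w ∈ ball (0 : ℂ) (min 1 r') := by
        rw [mem_ball_zero_iff, Complex.norm_exp]
        exact hw
      have h1 := mem_ball_zero_iff.1 (hball hn _ htb)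
      have h2 : Complex.exp ((n : ℂ) * w) = Complex.exp w ^ n := Complex.exp_nat_mul w n
      have h3 : Real.exp ((n : ℂ) * w).re < r' := by
        rw [← Complex.norm_exp, h2]
        exact h1
      obtain ⟨h4, h5⟩ := hψj _ h3
      have h6 : zz (e * n) (fun t => ψ (t ^ n)) w = zz e ψ ((n : ℂ) * w) := by
        unfold zz
        rw [h2, Nat.cast_mul, mul_assoc]
      rw [h6]
      refine ⟨h4, ?_⟩
      rw [h5, h2, one_mul]

end Pool.Agent.LGO.AX
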