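import Mathlib
import Pool.Agent.LGO.AX.ChA

/-!
# LGO/AX: all sections over a disc and over a convex set

`Sec S Ω T y`: `d = natDegree F` holomorphic functions `y k` on `Ω` which are the `d` roots of `F(T(w), Y)`.

`exists_loc`: take the `d` distinct roots over `T₀` (`card_fib`, `Finset.equivFin`...), the section through
each of them (`exists_section`), and a common small radius such that the values stay distinct (continuity);
these are `d` distinct roots over every `T` of the disc, hence all roots (`card_fib`).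

`exists_sec` (`Ω` convex and open, `T` holomorphic on `Ω` with values in `G`).  The map
`π : S.pt → ℂ`, `p ↦ p.1` (subtype) is a covering on `G`: `IsCoveringMapOn π S.G`, from `exists_loc` (over the
disc it is the product with the discrete set `Fin d`).  `Ω` as a subtype is simply connected (convex:
contractible, `Convex.contractibleSpace` and `SimplyConnectedSpace.ofContractible` or similar) and locally
path connected (open), so `IsCoveringMapOn.existsUnique_continuousMap_lifts` (Mathlib,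
`Mathlib/Topology/Homotopy/Lifting.lean`; see its use in `Mathlib/Analysis/Complex/BranchLogRoot.lean`)
gives, for each of the `d` points over `T(w₀)`, a continuous lift; different lifts are different everywhere by
uniqueness; they are holomorphic because near every point they are the composition of `T` with a local
section (a continuous root close to `y(T₀)` is the local section: last clause of `exists_section`).
(Without coverings: `w₀ ∈ Ω`; for `w ∈ Ω` continue along the segment from `w₀` to `w`.)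
-/

namespace Pool.Agent.LGO.AX

open Polynomial Metric

/-- all sections over the holomorphic map `T` on `Ω` -/
structure Sec (S : Cur) (Ω : Set ℂ) (T : ℂ → ℂ) (y : Fin S.F.natDegree → ℂ → ℂ) : Prop where
  an : ∀ k, DifferentiableOn ℂ (y k) Ω
  inj : ∀ w ∈ Ω, Function.Injective fun k => y k w
  mem : ∀ w ∈ Ω, T w ∈ S.G ∧ ∀ Y, (T w, Y) ∈ S.pt ↔ ∃ k, Y = y k w

private theorem ChS_all (S : Cur) {T : ℂ} (hT : T ∈ S.G) {y : Fin S.F.natDegree → ℂ}
    (hinj : Function.Injective y) (hmem : ∀ k, (T, y k) ∈ S.pt) (Y : ℂ) :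
    (T, Y) ∈ S.pt ↔ ∃ k, Y = y k := by
  classical
  constructor
  · intro h
    have h1 : Finset.univ.image y = (S.F.map (evalRingHom T)).roots.toFinset := by
      apply Finset.eq_of_subset_of_card_le
      · intro Z hZ
        obtain ⟨k, -, rfl⟩ := Finset.mem_image.mp hZ
        rw [Multiset.mem_toFinset]
        exact ((S.mem_pt_iff _).mp (hmem k)).2
      · rw [S.card_fib hT, Finset.card_image_of_injective _ hinj, Finset.card_univ, Fintype.card_fin]
    have h2 : Y ∈ Finset.univ.image y := by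
      rw [h1, Multiset.mem_toFinset]
      exact ((S.mem_pt_iff _).mp h).2
    obtain ⟨k, -, hk⟩ := Finset.mem_image.mp h2
    exact ⟨k, hk.symm⟩
  · rintro ⟨k, rfl⟩
    exact hmem k

private theorem ChS_enum (S : Cur) {T : ℂ} (hT : T ∈ S.G) :
    ∃ y : Fin S.F.natDegree → ℂ, Function.Injective y ∧ ∀ k, (T, y k) ∈ S.pt := by
  classical
  have e := (S.F.map (evalRingHom T)).roots.toFinset.equivFinOfCardEq (S.card_fib hT)
  refine ⟨fun k => (e.symm k : ℂ), ?_, ?_⟩
  · intro k l h
    exact e.symm.injective (Subtype.ext h)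
  · intro k
    refine (S.mem_pt_iff _).mpr ⟨hT, ?_⟩
    exact Multiset.mem_toFinset.mp (e.symm k).2

private theorem ChS_cont {X : Type*} [TopologicalSpace X] {d : ℕ} {g : X → ℂ} {u : Fin d → X → ℂ}
    (hg : Continuous g) (hu : ∀ k, Continuous (u k)) {κ : X → Fin d} (hκ : ∀ x, g x = u (κ x) x)
    (hinj : ∀ x, Function.Injective fun k => u k x) : Continuous κ := by
  rw [continuous_discrete_rng]
  intro k
  have h1 : κ ⁻¹' {k} = ⋂ l : {l : Fin d // l ≠ k}, {x | g x ≠ u l x} := by
    ext x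
    simp only [Set.mem_preimage, Set.mem_singleton_iff, Set.mem_iInter]
    constructor
    · intro h l hl
      apply l.2
      have h2 : u (κ x) x = u l x := (hκ x).symm.trans hl
      exact (hinj x h2).symm.trans h
    · intro h
      by_contra hne
      exact h ⟨κ x, hne⟩ (hκ x)
  rw [h1]
  exact isOpen_iInter_of_finite fun l => isOpen_ne_fun hg (hu l)

theorem exists_loc (S : Cur) {T₀ : ℂ} (hT : T₀ ∈ S.G) :
    ∃ ρ > (0 : ℝ), ∃ y, Sec S (ball T₀ ρ) (fun T => T) y := by
  obtain ⟨Y, hYinj, hY⟩ := ChS_enum S hT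
  choose ρ hρ σ hσ y hy using fun k => exists_section S (hY k)
  have hd : ∀ k, DifferentiableOn ℂ (y k) (ball T₀ (ρ k)) := fun k => (hy k).1
  have hc : ∀ k, ContinuousAt (y k) T₀ := fun k =>
    ((hd k).continuousOn.continuousAt (ball_mem_nhds T₀ (hρ k)))
  have hv : ∀ k, y k T₀ = Y k := fun k => (hy k).2.1
  have h1 : ∀ᶠ T in nhds T₀, ∀ k, T ∈ ball T₀ (ρ k) :=
    Filter.eventually_all.mpr fun k => ball_mem_nhds T₀ (hρ k)
  have h2 : ∀ᶠ T in nhds T₀, ∀ k l, k ≠ l → y k T ≠ y l T := by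
    refine Filter.eventually_all.mpr fun k => Filter.eventually_all.mpr fun l => ?_
    by_cases hkl : k = l
    · exact Filter.Eventually.of_forall fun T h => absurd hkl h
    · have h3 : ContinuousAt (fun T => y k T - y l T) T₀ := (hc k).sub (hc l)
      have h4 : y k T₀ - y l T₀ ≠ 0 := by
        rw [hv, hv, sub_ne_zero]
        exact fun h => hkl (hYinj h)
      filter_upwards [h3.eventually_ne h4] with T hT _
      exact sub_ne_zero.mp hT
  have h3 : ∀ᶠ T in nhds T₀, T ∈ S.G := S.isOpen_G.mem_nhds hT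
  obtain ⟨r, hr, hb⟩ := Metric.eventually_nhds_iff_ball.mp (h1.and (h2.and h3))
  refine ⟨r, hr, y, ?_, ?_, ?_⟩
  · intro k
    exact (hd k).mono fun T hT => (hb T hT).1 k
  · intro T hT k l hkl
    by_contra hne
    exact (hb T hT).2.1 k l hne hkl
  · intro T hT
    refine ⟨(hb T hT).2.2, ?_⟩
    refine ChS_all S (hb T hT).2.2 (y := fun k => y k T) ?_ ?_
    · intro k l hkl
      by_contra hne
      exact (hb T hT).2.1 k l hne hkl
    · intro k
      exact ((hy k).2.2 T ((hb T hT).1 k)).1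

private theorem ChS_even (S : Cur) {T₀ : ℂ} (hT : T₀ ∈ S.G) :
    IsEvenlyCovered (fun p : S.pt => p.1.1) T₀ (Fin S.F.natDegree) := by
  obtain ⟨ρ, hρ, y, hs⟩ := exists_loc S hT
  have hpc : Continuous (fun p : S.pt => p.1.1) := by fun_prop
  refine ⟨inferInstance, ball T₀ ρ, mem_ball_self hρ, isOpen_ball, isOpen_ball.preimage hpc, ?_⟩
  have hκ : ∀ p : (fun p : S.pt => p.1.1) ⁻¹' (ball T₀ ρ), ∃ k, p.1.1.2 = y k p.1.1.1 := by
    intro p
    exact ((hs.mem p.1.1.1 p.2).2 p.1.1.2).mp p.1.2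
  choose κ hκ using hκ
  have hyc : ∀ k, Continuous fun T : ball T₀ ρ => y k T := fun k =>
    ((hs.an k).continuousOn).comp_continuous continuous_subtype_val fun T => T.2
  have hκc : Continuous κ := by
    refine ChS_cont (g := fun p : (fun p : S.pt => p.1.1) ⁻¹' (ball T₀ ρ) => p.1.1.2)
      (u := fun k p => y k p.1.1.1) (by fun_prop) (fun k => ?_) hκ fun p => hs.inj _ p.2
    exact (hyc k).comp (f := fun p : (fun p : S.pt => p.1.1) ⁻¹' (ball T₀ ρ) => (⟨p.1.1.1, p.2⟩ : ball T₀ ρ))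
      (by fun_prop)
  refine ⟨{ toFun := fun p => (⟨p.1.1.1, p.2⟩, κ p)
            invFun := fun q => ⟨⟨(q.1.1, y q.2 q.1.1), ((hs.mem q.1.1 q.1.2).2 _).mpr ⟨q.2, rfl⟩⟩, q.1.2⟩
            left_inv := ?_
            right_inv := ?_
            continuous_toFun := ?_
            continuous_invFun := ?_ }, ?_⟩
  · intro p
    apply Subtype.ext
    apply Subtype.ext
    exact Prod.ext rfl (hκ p).symm
  · intro q
    refine Prod.ext rfl ?_
    have h := hκ ⟨⟨(q.1.1, y q.2 q.1.1), ((hs.mem q.1.1 q.1.2).2 _).mpr ⟨q.2, rfl⟩⟩, q.1.2⟩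
    exact (hs.inj q.1.1 q.1.2 h).symm
  · exact Continuous.prodMk (by fun_prop) hκc
  · refine Continuous.subtype_mk (Continuous.subtype_mk (Continuous.prodMk (by fun_prop) ?_) _) _
    exact continuous_prod_of_discrete_right.mpr fun k => hyc k
  · intro p
    rfl

private theorem ChS_cov (S : Cur) : IsCoveringMapOn (fun p : S.pt => p.1.1) S.G := fun _ hT =>
  (ChS_even S hT).to_isEvenlyCovered_preimage

theorem exists_sec (S : Cur) {Ω : Set ℂ} (hΩ : Convex ℝ Ω) (ho : IsOpen Ω) (hne : Ω.Nonempty) {T : ℂ → ℂ}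
    (hT : DifferentiableOn ℂ T Ω) (hG : ∀ w ∈ Ω, T w ∈ S.G) : ∃ y, Sec S Ω T y := by
  classical
  obtain ⟨w₀, hw₀⟩ := hne
  have : ContractibleSpace Ω := hΩ.contractibleSpace ⟨w₀, hw₀⟩
  have : SimplyConnectedSpace Ω := SimplyConnectedSpace.ofContractible Ω
  have : LocallyPathConnectedSpace Ω := ho.locallyPathConnectedSpace
  obtain ⟨Y, hYinj, hY⟩ := ChS_enum S (hG w₀ hw₀)
  have hTc : Continuous fun w : Ω => T w := hT.continuousOn.comp_continuous continuous_subtype_val fun w => w.2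
  have hlift : ∀ (a : Ω) (e : S.pt), e.1.1 = T a → ∃! F : C(Ω, S.pt), F a = e ∧
      (fun p : S.pt => p.1.1) ∘ F = (⟨fun w : Ω => T w, hTc⟩ : C(Ω, ℂ)) := fun a e he =>
    (ChS_cov S).existsUnique_continuousMap_lifts (⟨fun w : Ω => T w, hTc⟩ : C(Ω, ℂ)) he fun w => hG w w.2
  choose F hF using fun k => (hlift ⟨w₀, hw₀⟩ ⟨(T w₀, Y k), hY k⟩ rfl).exists
  have hF1 : ∀ k (w : Ω), (F k w).1.1 = T w := fun k w => congrFun (hF k).2 w
  obtain ⟨y, hy⟩ : ∃ y : Fin S.F.natDegree → ℂ → ℂ, ∀ k (w : Ω), y k w = (F k w).1.2 :=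
    ⟨fun k w => if h : w ∈ Ω then (F k ⟨w, h⟩).1.2 else 0, fun k w => by simp⟩
  have hpt : ∀ k (w : Ω), (T w, y k w) ∈ S.pt := by
    intro k w
    have h : (T w, y k w) = (F k w).1 := Prod.ext (hF1 k w).symm (hy k w)
    rw [h]
    exact (F k w).2
  have hinj : ∀ w ∈ Ω, Function.Injective fun k => y k w := by
    intro w hw k l hkl
    have h1 : F k ⟨w, hw⟩ = F l ⟨w, hw⟩ := by
      apply Subtype.ext
      refine Prod.ext ?_ ?_
      · rw [hF1, hF1]
      · rw [← hy, ← hy]
        exact hkl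
    have h2 : F k = F l := (hlift ⟨w, hw⟩ (F l ⟨w, hw⟩) (hF1 l _)).unique ⟨h1, (hF k).2⟩ ⟨rfl, (hF l).2⟩
    have h3 : (⟨(T w₀, Y k), hY k⟩ : S.pt) = ⟨(T w₀, Y l), hY l⟩ := by
      rw [← (hF k).1, ← (hF l).1, h2]
    exact hYinj (congrArg (fun p : S.pt => p.1.2) h3)
  refine ⟨y, ?_, hinj, ?_⟩
  · intro k
    have hyc : ContinuousOn (y k) Ω := by
      rw [continuousOn_iff_continuous_domRestrict]
      have h : Ω.domRestrict (y k) = fun w : Ω => (F k w).1.2 := by
        funext w
        exact hy k w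
      rw [h]
      fun_prop
    intro w hw
    have hwn : Ω ∈ nhds w := ho.mem_nhds hw
    obtain ⟨ρ, hρ, σ, hσ, s, hsd, hs0, hs⟩ := exists_section S (hpt k ⟨w, hw⟩)
    have hTd : DifferentiableAt ℂ T w := (hT w hw).differentiableAt hwn
    have h1 : ∀ᶠ v in nhds w, T v ∈ ball (T w) ρ := hTd.continuousAt (ball_mem_nhds _ hρ)
    have h2 : ∀ᶠ v in nhds w, y k v ∈ ball (y k w) σ :=
      (hyc.continuousAt hwn) (ball_mem_nhds _ hσ)
    have h3 : y k =ᶠ[nhds w] fun v => s (T v) := by
      filter_upwards [h1, h2, hwn] with v hv1 hv2 hv3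
      refine (hs (T v) hv1).2.2 (y k v) ?_ (hpt k ⟨v, hv3⟩)
      rw [mem_ball, dist_eq_norm] at hv2
      exact hv2
    have h4 : DifferentiableAt ℂ s (T w) := hsd.differentiableAt (ball_mem_nhds _ hρ)
    have h5 : DifferentiableAt ℂ (fun v => s (T v)) w := DifferentiableAt.comp w h4 hTd
    exact (h5.congr_of_eventuallyEq h3).differentiableWithinAt
  · intro w hw
    exact ⟨hG w hw, ChS_all S (hG w hw) (y := fun k => y k w) (hinj w hw) fun k => hpt k ⟨w, hw⟩⟩

/-- a continuous root on a connected set is one of the sections -/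
theorem Sec.eq_of_mem {S : Cur} {Ω : Set ℂ} {T : ℂ → ℂ} {y : Fin S.F.natDegree → ℂ → ℂ}
    (h : Sec S Ω T y) {Ω' : Set ℂ} (hΩ' : IsPreconnected Ω') (hsub : Ω' ⊆ Ω) {g : ℂ → ℂ}
    (hg : ContinuousOn g Ω') (hmem : ∀ w ∈ Ω', (T w, g w) ∈ S.pt) (hne : Ω'.Nonempty) :
    ∃ k, ∀ w ∈ Ω', g w = y k w := by
  have : PreconnectedSpace Ω' := isPreconnected_iff_preconnectedSpace.mp hΩ'
  have hκ : ∀ w : Ω', ∃ k, g w = y k w := fun w =>
    ((h.mem w (hsub w.2)).2 (g w)).mp (hmem w w.2)
  choose κ hκ using hκ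
  have hκc : Continuous κ := by
    refine ChS_cont (g := fun w : Ω' => g w) (u := fun k w => y k w) ?_ (fun k => ?_) hκ
      fun w => h.inj w (hsub w.2)
    · exact hg.comp_continuous continuous_subtype_val fun w => w.2
    · exact ((h.an k).continuousOn.mono hsub).comp_continuous continuous_subtype_val fun w => w.2
  obtain ⟨w₁, hw₁⟩ := hne
  refine ⟨κ ⟨w₁, hw₁⟩, fun w hw => ?_⟩
  have h1 : κ ⟨w, hw⟩ = κ ⟨w₁, hw₁⟩ := PreconnectedSpace.constant inferInstance hκc
  rw [← h1]
  exact hκ ⟨w, hw⟩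

end Pool.Agent.LGO.AX
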