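import Mathlib
import Pool.Agent.LGO.AX.ChS
import Pool.Agent.LGO.AX.ChD

/-!
# LGO/AX: the branches over a punctured disc (analytic Puiseux)

Let `o` be a point of the projective line.  There is `r₀ > 0` such that `Tp o s ∈ G` for `0 < |s| < r₀` (finitely
many bad points; at `∞`: `|1 / s| > 1 / r₀` is larger than all bad points).  On the half plane
`Ω = {exp (Re w) < r₀}` (convex) let `y k` be the sections over `T(w) = Tp o (exp w)` (`exists_sec`).  For every
`k` the function `w ↦ y k (w + 2 π i)` is again a continuous root over `T(w)`, so it is `y (σ k)`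
(`Sec.eq_of_mem`), and `σ` is injective, a permutation of `Fin d`; `σ ^ (d !) = 1`
(`orderOf_dvd_card`, `pow_card_eq_one`), so `y k (w + 2 π i m) = y k w` for `m = d !`.  Then
`w ↦ y k (m w)` on `exp (Re w) < r`, `r = r₀ ^ (1 / m)`, has period `2 π i` and descends to a function
`Y k (t)`, `t = exp w` (`descent`), `T = Tp o (exp (m w)) = Tp o (t ^ m)`.  Every `t ≠ 0` is `exp w`.
-/

namespace Pool.Agent.LGO.AX

open Polynomial Metric

/-- small punctured neighbourhoods of `o` contain good points only -/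
theorem exists_good (S : Cur) (o : Option ℂ) :
    ∃ r > (0 : ℝ), ∀ s : ℂ, 0 < ‖s‖ → ‖s‖ < r → Tp o s ∈ S.G := by
  have hfin := S.finite_compl_G
  rcases o with _ | c
  · obtain ⟨R, hR⟩ := (hfin.image fun T => ‖T‖).bddAbove
    refine ⟨(max R 0 + 1)⁻¹, by positivity, fun s hs hsr => ?_⟩
    by_contra hcon
    have h1 : ‖Tp none s‖ ≤ R := hR ⟨_, hcon, rfl⟩
    have h2 : Tp none s = s⁻¹ := rfl
    rw [h2, norm_inv] at h1
    have h3 : max R 0 + 1 < ‖s‖⁻¹ := by
      rw [lt_inv_comm₀ (by positivity) hs]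
      exact hsr
    have h4 := le_max_left R 0
    linarith
  · have hcl : IsClosed ((S.G)ᶜ \ {c}) := (hfin.subset Set.sdiff_subset).isClosed
    have hop : IsOpen ((S.G)ᶜ \ {c})ᶜ := hcl.isOpen_compl
    have hmem : c ∈ ((S.G)ᶜ \ {c})ᶜ := by simp
    obtain ⟨r, hr, hball⟩ := Metric.isOpen_iff.1 hop c hmem
    refine ⟨r, hr, fun s hs hsr => ?_⟩
    have h2 : Tp (some c) s = c + s := rfl
    rw [h2]
    have h3 : c + s ∈ ball c r := by
      rw [mem_ball, dist_eq_norm, add_sub_cancel_left]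
      exact hsr
    have h4 := hball h3
    by_contra hcon
    apply h4
    refine ⟨hcon, ?_⟩
    rw [Set.mem_singleton_iff]
    intro h5
    have : s = 0 := by simpa using h5
    rw [this, norm_zero] at hs
    exact lt_irrefl _ hs

theorem ChM_dTp (o : Option ℂ) {s : ℂ} (hs : s ≠ 0) : DifferentiableAt ℂ (Tp o) s := by
  rcases o with _ | c
  · have : Tp none = fun s : ℂ => s⁻¹ := rfl
    rw [this]
    exact differentiableAt_inv hs
  · have : Tp (some c) = fun s : ℂ => c + s := rfl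
    rw [this]
    exact (differentiableAt_id.const_add c)

/-- analytic Puiseux theorem -/
theorem exists_Y (S : Cur) (o : Option ℂ) : ∃ (m : ℕ) (r : ℝ) (Y : Fin S.F.natDegree → ℂ → ℂ), 0 < m ∧
    0 < r ∧ Sec S {t | 0 < ‖t‖ ∧ ‖t‖ < r} (fun t => Tp o (t ^ m)) Y := by
  obtain ⟨r₀, hr₀, hgood⟩ := exists_good S o
  set Ω : Set ℂ := {w | Real.exp w.re < r₀} with hΩ
  have hΩ' : Ω = Complex.re ⁻¹' Set.Iio (Real.log r₀) := by
    ext w
    simp only [hΩ, Set.mem_ofPred_eq, Set.mem_preimage, Set.mem_Iio]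
    rw [← Real.lt_log_iff_exp_lt hr₀]
  have hconv : Convex ℝ Ω := by
    rw [hΩ']
    exact (convex_Iio _).is_linear_preimage Complex.reLm.isLinear
  have hopen : IsOpen Ω := by
    rw [hΩ']
    exact isOpen_Iio.preimage Complex.continuous_re
  have hne : Ω.Nonempty := by
    refine ⟨((Real.log r₀ - 1 : ℝ) : ℂ), ?_⟩
    rw [hΩ', Set.mem_preimage, Complex.ofReal_re, Set.mem_Iio]
    linarith
  have hexp : ∀ w ∈ Ω, ‖Complex.exp w‖ < r₀ := fun w hw => by
    rw [Complex.norm_exp]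
    exact hw
  have hTd : DifferentiableOn ℂ (fun w => Tp o (Complex.exp w)) Ω := fun w _ =>
    ((ChM_dTp o (Complex.exp_ne_zero w)).comp w Complex.differentiableAt_exp).differentiableWithinAt
  have hTG : ∀ w ∈ Ω, Tp o (Complex.exp w) ∈ S.G := fun w hw =>
    hgood _ (norm_pos_iff.2 (Complex.exp_ne_zero w)) (hexp w hw)
  obtain ⟨y, hy⟩ := exists_sec S hconv hopen hne hTd hTG
  have hshift : ∀ w ∈ Ω, w + 2 * Real.pi * Complex.I ∈ Ω := fun w hw => by
    have h1 : (w + 2 * Real.pi * Complex.I).re = w.re := by simp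
    rw [hΩ, Set.mem_ofPred_eq, h1]
    exact hw
  have hσ : ∀ k, ∃ l, ∀ w ∈ Ω, y k (w + 2 * Real.pi * Complex.I) = y l w := by
    intro k
    refine hy.eq_of_mem hconv.isPreconnected le_rfl ?_ ?_ hne
    · refine (hy.an k).continuousOn.comp (by fun_prop) fun w hw => hshift w hw
    · intro w hw
      have h1 := ((hy.mem _ (hshift w hw)).2 (y k (w + 2 * Real.pi * Complex.I))).2 ⟨k, rfl⟩
      rw [Complex.exp_periodic w] at h1
      exact h1
  choose σ hσ using hσ
  have hinj : Function.Injective σ := by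
    intro k l hkl
    obtain ⟨w, hw⟩ := hne
    apply hy.inj _ (hshift w hw)
    show y k _ = y l _
    rw [hσ k w hw, hσ l w hw, hkl]
  set τ : Equiv.Perm (Fin S.F.natDegree) :=
    Equiv.ofBijective σ (Finite.injective_iff_bijective.1 hinj) with hτ
  have hτ' : ∀ k, τ k = σ k := fun k => rfl
  set m : ℕ := orderOf τ with hm
  have hm0 : 0 < m := orderOf_pos τ
  have hiter : ∀ (n : ℕ) (k) (w), w ∈ Ω →
      y k (w + n * (2 * Real.pi * Complex.I)) = y ((τ ^ n) k) w ∧
        w + n * (2 * Real.pi * Complex.I) ∈ Ω := by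
    intro n
    induction n with
    | zero =>
      intro k w hw
      simp [hw]
    | succ n ih =>
      intro k w hw
      have e1 : w + ((n + 1 : ℕ) : ℂ) * (2 * Real.pi * Complex.I) =
          w + n * (2 * Real.pi * Complex.I) + 2 * Real.pi * Complex.I := by
        push_cast
        ring
      obtain ⟨-, h2⟩ := ih k w hw
      rw [e1]
      refine ⟨?_, hshift _ h2⟩
      rw [hσ k _ h2, (ih (σ k) w hw).1, pow_succ, Equiv.Perm.mul_apply, hτ']
  have hper : ∀ k w, w ∈ Ω → y k (w + m * (2 * Real.pi * Complex.I)) = y k w := by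
    intro k w hw
    rw [(hiter m k w hw).1, hm, pow_orderOf_eq_one, Equiv.Perm.one_apply]
  set r : ℝ := r₀ ^ ((m : ℝ)⁻¹) with hr
  have hr0 : 0 < r := Real.rpow_pos_of_pos hr₀ _
  have hrm : r ^ m = r₀ := Real.rpow_inv_natCast_pow hr₀.le hm0.ne'
  have hmΩ : ∀ w : ℂ, Real.exp w.re < r → (m : ℂ) * w ∈ Ω := by
    intro w hw
    have h1 : ((m : ℂ) * w).re = m * w.re := by simp
    rw [hΩ, Set.mem_ofPred_eq, h1, Real.exp_nat_mul, ← hrm]
    exact pow_lt_pow_left₀ hw (Real.exp_pos _).le hm0.ne'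
  have hdesc : ∀ k, ∃ g : ℂ → ℂ, DifferentiableOn ℂ g {t | 0 < ‖t‖ ∧ ‖t‖ < r} ∧
      ∀ w : ℂ, Real.exp w.re < r → y k ((m : ℂ) * w) = g (Complex.exp w) := by
    intro k
    refine descent (f := fun w => y k ((m : ℂ) * w)) hr0 ?_ ?_
    · exact (hy.an k).comp (by fun_prop) fun w hw => hmΩ w hw
    · intro w hw
      have e1 : (m : ℂ) * (w + 2 * Real.pi * Complex.I) =
          (m : ℂ) * w + m * (2 * Real.pi * Complex.I) := by ring
      show y k ((m : ℂ) * (w + 2 * Real.pi * Complex.I)) = y k ((m : ℂ) * w)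
      rw [e1]
      exact hper k _ (hmΩ w hw)
  choose Y hYd hY using hdesc
  have hlog : ∀ t : ℂ, 0 < ‖t‖ → ‖t‖ < r → ∃ w : ℂ, Complex.exp w = t ∧ Real.exp w.re < r := by
    intro t ht htr
    refine ⟨Complex.log t, Complex.exp_log (norm_pos_iff.1 ht), ?_⟩
    rw [← Complex.norm_exp, Complex.exp_log (norm_pos_iff.1 ht)]
    exact htr
  refine ⟨m, r, Y, hm0, hr0, hYd, ?_, ?_⟩
  · rintro t ⟨ht, htr⟩
    obtain ⟨w, rfl, hw⟩ := hlog t ht htr
    intro k l hkl
    have hkl' : Y k (Complex.exp w) = Y l (Complex.exp w) := hkl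
    rw [← hY k w hw, ← hY l w hw] at hkl'
    exact hy.inj _ (hmΩ w hw) hkl'
  · rintro t ⟨ht, htr⟩
    obtain ⟨w, rfl, hw⟩ := hlog t ht htr
    have h1 := hy.mem _ (hmΩ w hw)
    rw [Complex.exp_nat_mul] at h1
    refine ⟨h1.1, fun Z => (h1.2 Z).trans ?_⟩
    simp only [hY _ w hw]

end Pool.Agent.LGO.AX
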