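import Mathlib
import Pool.Agent.LGO.AX.ChM
import Pool.Agent.LGO.AX.ChG
import Pool.Agent.LGO.AX.ChL

/-!
# LGO/AX: the branches over a point of the projective line

`exists_br`.  `m, r, Y` from `exists_Y S o`.  Fix `k : Fin d`.  For each `a` the function
`X a t = S.x a (Tp o (t ^ m), Y k t)` is holomorphic on `0 < |t| < r` (`N a`, `M` are polynomials, `M ≠ 0`;
`t ↦ Tp o (t ^ m)` is holomorphic for `t ≠ 0`) and has growth `|X a t| |t| ^ K ≤ C` for small `t` (`growth` with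
`s = t ^ m`; shrink `r`).  `lift` gives `q a`; let `n a = ∏_{b ≠ a} q b`, so `q a * n a = q := q 0 q 1 q 2` for all
`a`, and take the `e a, ψ a, r' a` for `n a`; `r' = min` of the `r' a`.  The branch:
`⟨o, m q, r', t ↦ Y k (t ^ q), e, ψ⟩`: `Tp o (t ^ (m q)) = Tp o ((t ^ q) ^ m)`.
Cover: let `ρ` be so small that every `t` with `t ^ (m q_k) = s`, `0 < |s| < ρ` satisfies
`|t| ≤ r'_k exp (-4)` for all `k` (`|t| = |s| ^ (1 / (m q_k))`).  Given `s, y` choose `t₀` with `t₀ ^ m = s`; then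
`y = Y k t₀` for some `k` (`Sec.mem`); choose `t` with `t ^ q_k = t₀`, `w = log t` (`|Im w| ≤ π`).

`exists_atl`: the closed disc `|T| ≤ 2 / ρ_∞` is compact (`ρ_∞` for `o = none`), it is covered by the discs
`|T - c| < ρ_c`; take a finite subcover, `cen` = its centres; together with the branches over `∞` this is a
finite atlas (the points with `|T| > 1 / ρ_∞` are `Tp none s`, `s = 1 / T`, `0 < |s| < ρ_∞`).  A sigma type of
the finitely many families is `Fin n` (`Finset.equivFin`, or lists).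
-/

namespace Pool.Agent.LGO.AX

open Polynomial Metric

private theorem ChB_ee (P : ℂ[X][X]) (x y : ℂ) :
    P.evalEval x y = ∑ i ∈ Finset.range (P.natDegree + 1), (P.coeff i).eval x * y ^ i := by
  rw [evalEval, eval_eq_sum_range (p := P), eval_finsetSum]
  simp

private theorem ChB_diff (P : ℂ[X][X]) {T Y : ℂ → ℂ} {t : ℂ} (hT : DifferentiableAt ℂ T t)
    (hY : DifferentiableAt ℂ Y t) : DifferentiableAt ℂ (fun t => P.evalEval (T t) (Y t)) t := by
  simp only [ChB_ee]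
  refine DifferentiableAt.fun_sum fun i _ => ?_
  exact ((P.coeff i).differentiable.differentiableAt.comp t hT).mul (hY.pow i)

private theorem ChB_ev {α : Type*} [Finite α] (f : α → ℝ) (hf : ∀ k, 0 < f k) :
    ∃ ρ : ℝ, 0 < ρ ∧ ∀ k, ρ < f k := by
  have h1 : ∀ᶠ ρ in nhdsWithin (0 : ℝ) (Set.Ioi 0), ∀ k, ρ < f k :=
    Filter.eventually_all.2 fun k => (eventually_lt_nhds (hf k)).filter_mono nhdsWithin_le_nhds
  obtain ⟨ρ, h2, h3⟩ := (h1.and self_mem_nhdsWithin).exists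
  exact ⟨ρ, h3, h2⟩

private theorem ChB_open (r : ℝ) : IsOpen {t : ℂ | 0 < ‖t‖ ∧ ‖t‖ < r} :=
  (isOpen_lt continuous_const continuous_norm).inter (isOpen_lt continuous_norm continuous_const)

theorem exists_br5 (S : Cur) (o : Option ℂ) : ∃ (ρ : ℝ) (n : ℕ) (br : Fin n → Br S), 0 < ρ ∧
    ∀ s y : ℂ, 0 < ‖s‖ → ‖s‖ < ρ → (Tp o s, y) ∈ S.pt → ∃ i w,
      Real.exp w.re ≤ (br i).r * Real.exp (-5) ∧ |w.im| ≤ Real.pi ∧ (br i).pt w = (Tp o s, y) := by
  classical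
  obtain ⟨m, r, Y, hm, hr, hsec⟩ := exists_Y S o
  choose C K ρg hρg hgrow using fun a => growth S o a
  obtain ⟨ρ1, hρ1, hρ1a⟩ := ChB_ev ρg hρg
  -- the radius of the punctured disc
  set r1 : ℝ := min r (min 1 ρ1) with hr1d
  have hr1 : 0 < r1 := lt_min hr (lt_min one_pos hρ1)
  have hr1r : r1 ≤ r := min_le_left _ _
  have hr11 : r1 ≤ 1 := (min_le_right _ _).trans (min_le_left _ _)
  have hr1ρ : r1 ≤ ρ1 := (min_le_right _ _).trans (min_le_right _ _)
  have hXd : ∀ k a, DifferentiableOn ℂ (fun t => S.x a (Tp o (t ^ m), Y k t))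
      {t | 0 < ‖t‖ ∧ ‖t‖ < r1} := by
    rintro k a t ⟨ht0, ht1⟩
    have ht : t ≠ 0 := norm_pos_iff.1 ht0
    have hTd : DifferentiableAt ℂ (fun t => Tp o (t ^ m)) t :=
      DifferentiableAt.comp t (ChM_dTp o (pow_ne_zero m ht)) (differentiableAt_pow m)
    have hYd : DifferentiableAt ℂ (Y k) t :=
      (hsec.an k).differentiableAt ((ChB_open r).mem_nhds ⟨ht0, ht1.trans_le hr1r⟩)
    have hne : S.M.eval (Tp o (t ^ m)) ≠ 0 :=
      S.M_ne _ (hsec.mem t ⟨ht0, ht1.trans_le hr1r⟩).1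
    refine DifferentiableAt.differentiableWithinAt ?_
    show DifferentiableAt ℂ (fun t => (S.N a).evalEval (Tp o (t ^ m)) (Y k t) /
      S.M.eval (Tp o (t ^ m))) t
    refine (ChB_diff (S.N a) hTd hYd).fun_div ?_ hne
    exact (S.M.differentiable.differentiableAt).comp t hTd
  have hXg : ∀ k a, ∃ (C : ℝ) (n : ℕ), ∀ t : ℂ, 0 < ‖t‖ → ‖t‖ < r1 →
      ‖S.x a (Tp o (t ^ m), Y k t)‖ * ‖t‖ ^ n ≤ C := by
    intro k a
    refine ⟨C a, m * K a, fun t ht0 ht1 => ?_⟩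
    have h1 := hgrow a (t ^ m) (Y k t) (by rw [norm_pow]; positivity) ?_
      (((hsec.mem t ⟨ht0, ht1.trans_le hr1r⟩).2 _).2 ⟨k, rfl⟩)
    · rw [pow_mul, ← norm_pow t m]
      exact h1
    · rw [norm_pow]
      calc ‖t‖ ^ m ≤ ‖t‖ ^ 1 := pow_le_pow_of_le_one ht0.le (ht1.le.trans hr11) hm
        _ = ‖t‖ := pow_one _
        _ < ρg a := (ht1.trans_le hr1ρ).trans (hρ1a a)
  choose q hq hlift using fun k a => lift hr1 (hXd k a) (hXg k a)
  -- the common ramification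
  set Q : Fin S.F.natDegree → ℕ := fun k => ∏ a, q k a with hQd
  have hQ : ∀ k, 0 < Q k := fun k => Finset.prod_pos fun a _ => hq k a
  have hQn : ∀ k a, q k a * ∏ b ∈ Finset.univ.erase a, q k b = Q k := fun k a =>
    Finset.mul_prod_erase _ _ (Finset.mem_univ a)
  have hn : ∀ k a, 0 < ∏ b ∈ Finset.univ.erase a, q k b := fun k a =>
    Finset.prod_pos fun b _ => hq k b
  choose e r' ψ hr' hr'q hψ hcen hz using fun k a => hlift k a _ (hn k a)
  simp only [hQn] at hr'q hz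
  have hR := fun k => ChB_ev (fun a => r' k a) (fun a => hr' k a)
  choose R hR0 hRa using hR
  have hRQ : ∀ k (t : ℂ), 0 < ‖t‖ → ‖t‖ < R k → 0 < ‖t ^ Q k‖ ∧ ‖t ^ Q k‖ < r := by
    intro k t ht0 ht1
    rw [norm_pow]
    refine ⟨by positivity, lt_of_lt_of_le ?_ hr1r⟩
    exact lt_of_lt_of_le (pow_lt_pow_left₀ (ht1.trans (hRa k 0)) ht0.le (hQ k).ne') (hr'q k 0)
  let br : Fin S.F.natDegree → Br S := fun k =>
    { o := o
      m := m * Q k
      r := R k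
      Y := fun t => Y k (t ^ Q k)
      e := e k
      ψ := ψ k
      m_pos := Nat.mul_pos hm (hQ k)
      r_pos := hR0 k
      dY := (hsec.an k).comp (by fun_prop) fun t ht => hRQ k t ht.1 ht.2
      mem := by
        intro t ht0 ht1
        have h1 := ((hsec.mem _ (hRQ k t ht0 ht1)).2 (Y k (t ^ Q k))).2 ⟨k, rfl⟩
        rw [mul_comm m, pow_mul]
        exact h1
      dψ := fun a => (hψ k a).mono (ball_subset_ball (hRa k a).le)
      im_pos := fun a w hw => (hz k a w (hw.trans (hRa k a))).1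
      jz := by
        intro a w hw
        rw [(hz k a w (hw.trans (hRa k a))).2, mul_comm m, pow_mul]
      cen := fun a h => hcen k a h }
  obtain ⟨ρ2, hρ2, hρ2k⟩ := ChB_ev (fun k => (R k * Real.exp (-5)) ^ (m * Q k))
    (fun k => pow_pos (mul_pos (hR0 k) (Real.exp_pos _)) _)
  refine ⟨min (r ^ m) ρ2, S.F.natDegree, br, lt_min (pow_pos hr m) hρ2, ?_⟩
  intro s y hs0 hs1 hmem
  obtain ⟨t₀, ht₀⟩ := IsAlgClosed.exists_pow_nat_eq s hm
  have ht₀0 : 0 < ‖t₀‖ := by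
    rw [norm_pos_iff]
    rintro rfl
    rw [zero_pow hm.ne'] at ht₀
    rw [← ht₀, norm_zero] at hs0
    exact lt_irrefl _ hs0
  have ht₀r : ‖t₀‖ < r := by
    have h1 : ‖t₀‖ ^ m < r ^ m := by
      rw [← norm_pow, ht₀]
      exact hs1.trans_le (min_le_left _ _)
    exact lt_of_pow_lt_pow_left₀ m hr.le h1
  obtain ⟨k, hk⟩ := ((hsec.mem t₀ ⟨ht₀0, ht₀r⟩).2 y).1 (by rw [ht₀]; exact hmem)
  obtain ⟨t, ht⟩ := IsAlgClosed.exists_pow_nat_eq t₀ (hQ k)
  have ht0 : t ≠ 0 := by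
    rintro rfl
    rw [zero_pow (hQ k).ne'] at ht
    rw [← ht, norm_zero] at ht₀0
    exact lt_irrefl _ ht₀0
  have htm : t ^ (m * Q k) = s := by
    rw [mul_comm m, pow_mul, ht, ht₀]
  refine ⟨k, Complex.log t, ?_, by rw [Complex.log_im]; exact Complex.abs_arg_le_pi t, ?_⟩
  · rw [← Complex.norm_exp, Complex.exp_log ht0]
    show ‖t‖ ≤ R k * Real.exp (-5)
    have h1 : ‖t‖ ^ (m * Q k) < (R k * Real.exp (-5)) ^ (m * Q k) := by
      rw [← norm_pow, htm]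
      exact (hs1.trans_le (min_le_right _ _)).trans (hρ2k k)
    exact (lt_of_pow_lt_pow_left₀ _ (mul_pos (hR0 k) (Real.exp_pos _)).le h1).le
  · show (Tp o (Complex.exp (Complex.log t) ^ (m * Q k)), Y k (Complex.exp (Complex.log t) ^ Q k)) =
      (Tp o s, y)
    rw [Complex.exp_log ht0, htm, ht, hk]

theorem exists_br (S : Cur) (o : Option ℂ) : ∃ (ρ : ℝ) (n : ℕ) (br : Fin n → Br S), 0 < ρ ∧
    ∀ s y : ℂ, 0 < ‖s‖ → ‖s‖ < ρ → (Tp o s, y) ∈ S.pt → ∃ i w,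
      Real.exp w.re ≤ (br i).r * Real.exp (-4) ∧ |w.im| ≤ Real.pi ∧ (br i).pt w = (Tp o s, y) := by
  obtain ⟨ρ, n, br, hρ, h⟩ := exists_br5 S o
  refine ⟨ρ, n, br, hρ, fun s y h0 h1 h2 => ?_⟩
  obtain ⟨i, w, h3, h4, h5⟩ := h s y h0 h1 h2
  refine ⟨i, w, h3.trans (mul_le_mul_of_nonneg_left ?_ (br i).r_pos.le), h4, h5⟩
  exact Real.exp_le_exp.2 (by norm_num)

end Pool.Agent.LGO.AX
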