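import Mathlib
import Pool.Agent.LGO.AX.ChB

/-!
# LGO/AX: finite atlas

`exists_atl`: the closed disc `|T| ≤ 2 / ρ_∞` is compact (`ρ_∞` from `exists_br S none`), it is covered by the
discs `|T - c| < ρ_c` (`ρ_c` from `exists_br S (some c)`); take a finite subcover, `cen` = its centres; together
with the branches over `∞` this is a finite atlas: a point with `|T| > 1 / ρ_∞` is `Tp none s`, `s = 1 / T`,
`0 < |s| < ρ_∞`; a point with `|T| ≤ 2 / ρ_∞`, `T ∉ cen`, is `Tp (some c) s`, `s = T - c`, `0 < |s| < ρ_c`.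
A sigma type of finitely many families `Fin (n c) → Br S` is `Fin n` (`Fintype.equivFin`, or
`finSigmaFinEquiv`).
-/

namespace Pool.Agent.LGO.AX

open Polynomial Metric

theorem exists_atl5 (S : Cur) : ∃ A : Atl S, ∀ p ∈ S.pt, p.1 ∉ A.cen → ∃ i w,
    Real.exp w.re ≤ (A.br i).r * Real.exp (-5) ∧ |w.im| ≤ Real.pi ∧ (A.br i).pt w = p := by
  classical
  choose ρ n br hρ hbr using fun o => exists_br5 S o
  have hρ0 : 0 < ρ none := hρ none
  obtain ⟨t, -, ht⟩ := (isCompact_closedBall (0 : ℂ) (2 / ρ none)).elim_nhds_subcover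
    (fun c => ball c (ρ (some c))) (fun c _ => ball_mem_nhds c (hρ (some c)))
  -- all centres, with the point at infinity
  set O : Finset (Option ℂ) := insert none (t.image some) with hO
  let I : Type := Σ o : {o // o ∈ O}, Fin (n o.1)
  let e : I ≃ Fin (Fintype.card I) := Fintype.equivFin I
  have key : ∀ o ∈ O, ∀ s y : ℂ, 0 < ‖s‖ → ‖s‖ < ρ o → (Tp o s, y) ∈ S.pt →
      ∃ (i : Fin (Fintype.card I)) (w : ℂ),
        Real.exp w.re ≤ (br (e.symm i).1.1 (e.symm i).2).r * Real.exp (-5) ∧ |w.im| ≤ Real.pi ∧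
          (br (e.symm i).1.1 (e.symm i).2).pt w = (Tp o s, y) := by
    intro o ho s y h0 h1 h2
    obtain ⟨i, w, h3, h4, h5⟩ := hbr o s y h0 h1 h2
    refine ⟨e ⟨⟨o, ho⟩, i⟩, w, ?_⟩
    rw [Equiv.symm_apply_apply]
    exact ⟨h3, h4, h5⟩
  suffices hcov : ∀ p ∈ S.pt, p.1 ∉ t → ∃ (i : Fin (Fintype.card I)) (w : ℂ),
      Real.exp w.re ≤ (br (e.symm i).1.1 (e.symm i).2).r * Real.exp (-5) ∧ |w.im| ≤ Real.pi ∧
        (br (e.symm i).1.1 (e.symm i).2).pt w = p by
    refine ⟨{ n := Fintype.card I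
              br := fun i => br (e.symm i).1.1 (e.symm i).2
              cen := t
              cover := fun p hp hpt => ?_ }, hcov⟩
    obtain ⟨i, w, h3, h4, h5⟩ := hcov p hp hpt
    refine ⟨i, w, h3.trans (mul_le_mul_of_nonneg_left ?_ (br (e.symm i).1.1 (e.symm i).2).r_pos.le),
      h4, h5⟩
    exact Real.exp_le_exp.2 (by norm_num)
  rintro ⟨T, y⟩ hp hT
  change T ∉ t at hT
  by_cases hle : ‖T‖ ≤ 2 / ρ none
  · have h1 : T ∈ ⋃ c ∈ t, ball c (ρ (some c)) := ht (by
      rw [mem_closedBall_zero_iff]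
      exact hle)
    rw [Set.mem_iUnion₂] at h1
    obtain ⟨c, hc, h2⟩ := h1
    have hne : T - c ≠ 0 := by
      intro h3
      rw [sub_eq_zero] at h3
      exact hT (h3 ▸ hc)
    have hTp : Tp (some c) (T - c) = T := by
      change c + (T - c) = T
      ring
    have h4 := key (some c) (by rw [hO]; exact Finset.mem_insert_of_mem (Finset.mem_image_of_mem _ hc))
      (T - c) y (norm_pos_iff.2 hne) (by rw [mem_ball, dist_eq_norm] at h2; exact h2)
      (by rw [hTp]; exact hp)
    rw [hTp] at h4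
    exact h4
  · rw [not_le] at hle
    have hT0 : 0 < ‖T‖ := lt_trans (by positivity) hle
    have hTp : Tp none T⁻¹ = T := by
      change (T⁻¹)⁻¹ = T
      exact inv_inv T
    have h4 := key none (by rw [hO]; exact Finset.mem_insert_self _ _) T⁻¹ y
      (norm_pos_iff.2 (inv_ne_zero (norm_pos_iff.1 hT0))) (by
        rw [norm_inv, inv_lt_comm₀ hT0 hρ0]
        refine lt_of_le_of_lt ?_ hle
        rw [← one_div]
        exact div_le_div_of_nonneg_right (by norm_num) hρ0.le)
      (by rw [hTp]; exact hp)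
    rw [hTp] at h4
    exact h4

theorem exists_atl (S : Cur) : Nonempty (Atl S) := by
  obtain ⟨A, -⟩ := exists_atl5 S
  exact ⟨A⟩

end Pool.Agent.LGO.AX
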