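import Mathlib
import Pool.Agent.LGO.AX.ChG

/-!
# LGO/AX: common zeros; functions of moderate growth

`common_finite`: `F` is irreducible in `ℂ[X][X]` of positive degree in `Y` and does not divide `H`.  By Gauss's
lemma `F` is irreducible in `ℂ(X)[Y]` and does not divide `H` there, so `U F + W H = 1` in `ℂ(X)[Y]`; clear the
denominators: `U F + W H = R` with `0 ≠ R ∈ ℂ[X]`, `U, W ∈ ℂ[X][X]`.  So `R(T) = 0` at every common zero.

`ext_poly`: `f` is holomorphic outside the finitely many zeros of `D` and bounded near each of them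
(`C (1 + |T|) ^ k`), so it extends to an entire function (removable singularities, one zero after the other),
of polynomial growth, so it is a polynomial (Liouville and division by `T`).
-/

namespace Pool.Agent.LGO.AX

open Polynomial Metric

private theorem CoR_bez (K : Type) [Field K] [Algebra ℂ[X] K] [IsFractionRing ℂ[X] K] {F H : ℂ[X][X]}
    (hi : Irreducible F) (hd : F.natDegree ≠ 0) (hH : ¬ F ∣ H) :
    ∃ (U W : ℂ[X][X]) (R : ℂ[X]), R ≠ 0 ∧ U * F + W * H = C R := by
  have hprim : F.IsPrimitive := hi.isPrimitive hd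
  have hirr : Irreducible (F.map (algebraMap ℂ[X] K)) :=
    hprim.irreducible_iff_irreducible_map_fraction_map.1 hi
  have hnd : ¬ F.map (algebraMap ℂ[X] K) ∣ H.map (algebraMap ℂ[X] K) := fun h =>
    hH (hprim.dvd_of_fraction_map_dvd_fraction_map h)
  obtain ⟨u, w, huw⟩ := (hirr.coprime_iff_not_dvd.2 hnd : IsCoprime _ _)
  obtain ⟨b, hb0, hb⟩ := IsLocalization.integerNormalization_spec (nonZeroDivisors ℂ[X]) u
  obtain ⟨c, hc0, hc⟩ := IsLocalization.integerNormalization_spec (nonZeroDivisors ℂ[X]) w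
  rw [Algebra.smul_def, Polynomial.algebraMap_apply] at hb hc
  rw [mem_nonZeroDivisors_iff_ne_zero] at hb0 hc0
  refine ⟨C c * IsLocalization.integerNormalization (nonZeroDivisors ℂ[X]) u,
    C b * IsLocalization.integerNormalization (nonZeroDivisors ℂ[X]) w, b * c, mul_ne_zero hb0 hc0, ?_⟩
  apply map_injective (algebraMap ℂ[X] K) (IsFractionRing.injective _ _)
  rw [Polynomial.map_add, Polynomial.map_mul, Polynomial.map_mul, Polynomial.map_mul, Polynomial.map_mul,
    hb, hc, map_C, map_C, map_C, map_mul, C_mul]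
  linear_combination (C ((algebraMap ℂ[X] K) c) * C ((algebraMap ℂ[X] K) b)) * huw

theorem common_finite (S : Cur) {H : ℂ[X][X]} (hH : ¬ S.F ∣ H) :
    {T : ℂ | ∃ Y, S.F.evalEval T Y = 0 ∧ H.evalEval T Y = 0}.Finite := by
  classical
  obtain ⟨U, W, R, hR, key⟩ := CoR_bez (RatFunc ℂ) S.irr S.deg.ne' hH
  refine (R.roots.toFinset.finite_toSet).subset fun T hT => ?_
  obtain ⟨Y, h1, h2⟩ := hT
  have h3 := congrArg (fun P : ℂ[X][X] => P.evalEval T Y) key
  simp only [evalEval_add, evalEval_mul, h1, h2, mul_zero, add_zero, evalEval_C] at h3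
  simp only [Finset.mem_coe, Multiset.mem_toFinset, mem_roots', IsRoot.def]
  exact ⟨hR, h3.symm⟩

/-- an entire function of polynomial growth is a polynomial -/
private theorem CoR_ent (k : ℕ) : ∀ (f : ℂ → ℂ), Differentiable ℂ f →
    (∃ C : ℝ, ∀ T, ‖f T‖ ≤ C * (1 + ‖T‖) ^ k) → ∃ P : ℂ[X], ∀ T, f T = P.eval T := by
  induction k with
  | zero =>
    rintro f hf ⟨C, hC⟩
    refine ⟨Polynomial.C (f 0), fun T => ?_⟩
    rw [eval_C]
    apply hf.apply_eq_apply_of_bounded
    rw [isBounded_iff_forall_norm_le]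
    exact ⟨C, by rintro _ ⟨T, rfl⟩; simpa using hC T⟩
  | succ k ih =>
    rintro f hf ⟨C, hC⟩
    have hC0 : 0 ≤ C := by
      have := hC 0
      simp only [norm_zero, add_zero, one_pow, mul_one] at this
      exact (norm_nonneg _).trans this
    have hg : Differentiable ℂ (dslope f 0) := by
      rw [← differentiableOn_univ]
      exact (Complex.differentiableOn_dslope Filter.univ_mem).2 hf.differentiableOn
    -- bounded on the closed unit ball
    obtain ⟨B, hB⟩ := (isCompact_closedBall (0 : ℂ) 1).exists_bound_of_continuousOn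
      hg.continuous.continuousOn
    have hB0 : 0 ≤ B := (norm_nonneg _).trans (hB 0 (by simp))
    have hbd : ∀ T, ‖dslope f 0 T‖ ≤ (B + 4 * C) * (1 + ‖T‖) ^ k := by
      intro T
      have h1 : (1 : ℝ) ≤ (1 + ‖T‖) ^ k := one_le_pow₀ (by linarith [norm_nonneg T])
      by_cases hT : ‖T‖ ≤ 1
      · calc ‖dslope f 0 T‖ ≤ B := hB T (by simpa using hT)
          _ ≤ (B + 4 * C) * 1 := by linarith
          _ ≤ (B + 4 * C) * (1 + ‖T‖) ^ k := mul_le_mul_of_nonneg_left h1 (by linarith)
      · push Not at hT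
        have hT0 : T ≠ 0 := by
          rintro rfl
          simp at hT
          linarith
        have hTp : 0 < ‖T‖ := norm_pos_iff.2 hT0
        have h2 : ‖T‖ * ‖dslope f 0 T‖ = ‖f T - f 0‖ := by
          have := sub_smul_dslope f 0 T
          rw [sub_zero, smul_eq_mul] at this
          rw [← this, norm_mul]
        have h3 : ‖f T - f 0‖ ≤ 2 * C * (1 + ‖T‖) ^ (k + 1) := by
          have h4 := hC 0
          simp only [norm_zero, add_zero, one_pow, mul_one] at h4
          have h5 : (1 : ℝ) ≤ (1 + ‖T‖) ^ (k + 1) := one_le_pow₀ (by linarith [norm_nonneg T])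
          calc ‖f T - f 0‖ ≤ ‖f T‖ + ‖f 0‖ := norm_sub_le _ _
            _ ≤ C * (1 + ‖T‖) ^ (k + 1) + C * 1 := by linarith [hC T]
            _ ≤ C * (1 + ‖T‖) ^ (k + 1) + C * (1 + ‖T‖) ^ (k + 1) := by
                linarith [mul_le_mul_of_nonneg_left h5 hC0]
            _ = _ := by ring
        have h6 : ‖T‖ * ‖dslope f 0 T‖ ≤ ‖T‖ * (4 * C * (1 + ‖T‖) ^ k) := by
          rw [h2]
          refine h3.trans ?_
          rw [pow_succ]
          have h7 : 1 + ‖T‖ ≤ 2 * ‖T‖ := by linarith
          have h8 : 0 ≤ 2 * C * (1 + ‖T‖) ^ k := by positivity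
          nlinarith [mul_le_mul_of_nonneg_left h7 h8]
        have h9 := le_of_mul_le_mul_left h6 hTp
        calc ‖dslope f 0 T‖ ≤ 4 * C * (1 + ‖T‖) ^ k := h9
          _ ≤ (B + 4 * C) * (1 + ‖T‖) ^ k :=
              mul_le_mul_of_nonneg_right (by linarith) (by positivity)
    obtain ⟨P, hP⟩ := ih (dslope f 0) hg ⟨B + 4 * C, hbd⟩
    refine ⟨Polynomial.C (f 0) + X * P, fun T => ?_⟩
    rw [eval_add, eval_C, eval_mul, eval_X, ← hP T]
    have := sub_smul_dslope f 0 T
    rw [sub_zero, smul_eq_mul] at this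
    rw [this]; ring

/-- the complement of the zeros is dense: an inequality between continuous functions extends -/
private theorem CoR_dense {D : ℂ[X]} (hD : D ≠ 0) : Dense {T : ℂ | D.eval T ≠ 0} := by
  have h : {T : ℂ | D.eval T ≠ 0} = (↑D.roots.toFinset : Set ℂ)ᶜ := by
    ext T
    simp [hD]
  rw [h]
  exact (Finset.finite_toSet _).countable.dense_compl ℂ

private theorem CoR_ext (s : Multiset ℂ) : ∀ (f : ℂ → ℂ),
    DifferentiableOn ℂ f {T | T ∉ s} → (∃ (C : ℝ) (k : ℕ), ∀ T, T ∉ s → ‖f T‖ ≤ C * (1 + ‖T‖) ^ k) →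
    ∃ P : ℂ[X], ∀ T, T ∉ s → f T = P.eval T := by
  classical
  induction s using Multiset.induction with
  | empty =>
    rintro f hf ⟨C, k, hC⟩
    obtain ⟨P, hP⟩ := CoR_ent k f (fun T => by
      have := hf T (by simp)
      refine this.differentiableAt ?_
      simp) ⟨C, fun T => hC T (by simp)⟩
    exact ⟨P, fun T _ => hP T⟩
  | cons a s ih =>
    rintro f hf ⟨C, k, hC⟩
    by_cases ha : a ∈ s
    · obtain ⟨P, hP⟩ := ih f (hf.mono fun T hT => by
        simp only [Set.mem_ofPred_eq, Multiset.mem_cons, not_or] at hT ⊢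
        exact ⟨fun h => hT (h ▸ ha), hT⟩) ⟨C, k, fun T hT => hC T (by
          rw [Multiset.mem_cons, not_or]
          exact ⟨fun h => hT (h ▸ ha), hT⟩)⟩
      exact ⟨P, fun T hT => hP T (fun h => hT (Multiset.mem_cons_of_mem h))⟩
    · have hopen : IsOpen {T : ℂ | T ∉ s} := by
        have : {T : ℂ | T ∉ s} = (↑s.toFinset : Set ℂ)ᶜ := by ext T; simp
        rw [this]
        exact (Finset.finite_toSet _).isClosed.isOpen_compl
      have haU : {T : ℂ | T ∉ s} ∈ nhds a := hopen.mem_nhds ha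
      -- a bounded neighbourhood of `a`
      set U : Set ℂ := {T : ℂ | T ∉ s} ∩ ball a 1 with hU
      have hUn : U ∈ nhds a := Filter.inter_mem haU (ball_mem_nhds a one_pos)
      have hC0 : 0 ≤ C := by
        obtain ⟨T, hT⟩ : ∃ T : ℂ, T ∉ a ::ₘ s := by
          have := Set.Finite.infinite_compl (Finset.finite_toSet (a ::ₘ s).toFinset)
          obtain ⟨T, hT⟩ := this.nonempty
          exact ⟨T, by simpa using hT⟩
        have h1 := (norm_nonneg _).trans (hC T hT)
        have h2 : 0 < (1 + ‖T‖) ^ k := by positivity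
        exact nonneg_of_mul_nonneg_left h1 h2
      have hfU : DifferentiableOn ℂ f (U \ {a}) := hf.mono fun T hT => by
        simp only [Set.mem_ofPred_eq, Multiset.mem_cons, not_or]
        exact ⟨hT.2, hT.1.1⟩
      have hbU : BddAbove (norm ∘ f '' (U \ {a})) := by
        refine ⟨C * (2 + ‖a‖) ^ k, ?_⟩
        rintro _ ⟨T, hT, rfl⟩
        have h1 := hC T (by rw [Multiset.mem_cons, not_or]; exact ⟨hT.2, hT.1.1⟩)
        refine h1.trans (mul_le_mul_of_nonneg_left (pow_le_pow_left₀ (by positivity) ?_ _) hC0)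
        have h2 : ‖T - a‖ < 1 := by simpa [dist_eq_norm] using hT.1.2
        have h3 : ‖T‖ ≤ ‖T - a‖ + ‖a‖ := by simpa using norm_add_le (T - a) a
        linarith
      set g := Function.update f a (Filter.limUnder (nhdsWithin a {a}ᶜ) f) with hg
      have hgU : DifferentiableOn ℂ g U :=
        Complex.differentiableOn_update_limUnder_of_bddAbove hUn hfU hbU
      have hgf : ∀ T, T ≠ a → g T = f T := fun T hT => Function.update_of_ne hT _ _
      have hgd : DifferentiableOn ℂ g {T | T ∉ s} := by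
        intro T hT
        by_cases hTa : T = a
        · subst hTa
          exact (hgU.differentiableAt hUn).differentiableWithinAt
        · have h1 : {T : ℂ | T ∉ a ::ₘ s} ∈ nhds T := by
            have : {T : ℂ | T ∉ a ::ₘ s} = (↑(a ::ₘ s).toFinset : Set ℂ)ᶜ := by ext T; simp
            rw [this]
            refine (Finset.finite_toSet _).isClosed.isOpen_compl.mem_nhds ?_
            simp only [Set.mem_compl_iff, Finset.mem_coe, Multiset.mem_toFinset, Multiset.mem_cons, not_or]
            exact ⟨hTa, hT⟩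
          have h2 : DifferentiableAt ℂ f T := hf.differentiableAt h1
          have h3 : g =ᶠ[nhds T] f := by
            filter_upwards [isOpen_ne.mem_nhds hTa] with z hz using hgf z hz
          exact (h2.congr_of_eventuallyEq h3).differentiableWithinAt
      have hgb : ∀ T, T ∉ s → ‖g T‖ ≤ C * (1 + ‖T‖) ^ k := by
        intro T hT
        by_cases hTa : T = a
        · subst hTa
          have hcg : ContinuousAt (fun z => C * (1 + ‖z‖) ^ k - ‖g z‖) T :=
            ((continuous_const.mul ((continuous_const.add continuous_norm).pow k)).continuousAt).sub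
              ((hgU.differentiableAt hUn).continuousAt.norm)
          have hlim : Filter.Tendsto (fun z => C * (1 + ‖z‖) ^ k - ‖g z‖) (nhdsWithin T {T}ᶜ)
              (nhds (C * (1 + ‖T‖) ^ k - ‖g T‖)) := hcg.tendsto.mono_left nhdsWithin_le_nhds
          have hev : ∀ᶠ z in nhdsWithin T {T}ᶜ, 0 ≤ C * (1 + ‖z‖) ^ k - ‖g z‖ := by
            rw [eventually_nhdsWithin_iff]
            filter_upwards [haU] with z hz hzT
            rw [hgf z hzT]
            have := hC z (by rw [Multiset.mem_cons, not_or]; exact ⟨hzT, hz⟩)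
            linarith
          have := ge_of_tendsto hlim hev
          linarith
        · rw [hgf T hTa]
          exact hC T (by rw [Multiset.mem_cons, not_or]; exact ⟨hTa, hT⟩)
      obtain ⟨P, hP⟩ := ih g hgd ⟨C, k, hgb⟩
      refine ⟨P, fun T hT => ?_⟩
      rw [Multiset.mem_cons, not_or] at hT
      rw [← hgf T hT.1]
      exact hP T hT.2

theorem ext_poly {D : ℂ[X]} (hD : D ≠ 0) {f : ℂ → ℂ} (hf : DifferentiableOn ℂ f {T | D.eval T ≠ 0})
    (hb : ∃ (C : ℝ) (k : ℕ), ∀ T, D.eval T ≠ 0 → ‖f T‖ ≤ C * (1 + ‖T‖) ^ k) :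
    ∃ P : ℂ[X], ∀ T, D.eval T ≠ 0 → f T = P.eval T := by
  have h : ∀ T : ℂ, D.eval T ≠ 0 ↔ T ∉ D.roots := fun T => by
    rw [mem_roots hD, IsRoot.def]
  obtain ⟨C, k, hC⟩ := hb
  obtain ⟨P, hP⟩ := CoR_ext D.roots f (hf.mono fun T hT => (h T).2 hT) ⟨C, k, fun T hT => hC T ((h T).2 hT)⟩
  exact ⟨P, fun T hT => hP T ((h T).1 hT)⟩

/-- a bounded holomorphic function outside finitely many points is constant -/
theorem ext_const {D : ℂ[X]} (hD : D ≠ 0) {f : ℂ → ℂ} (hf : DifferentiableOn ℂ f {T | D.eval T ≠ 0})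
    (hb : ∃ C : ℝ, ∀ T, D.eval T ≠ 0 → ‖f T‖ ≤ C) :
    ∃ c : ℂ, ∀ T, D.eval T ≠ 0 → f T = c := by
  obtain ⟨C, hC⟩ := hb
  obtain ⟨P, hP⟩ := ext_poly hD hf ⟨C, 0, fun T hT => by simpa using hC T hT⟩
  have hall : ∀ T : ℂ, ‖P.eval T‖ ≤ C := by
    have hcl : IsClosed {T : ℂ | ‖P.eval T‖ ≤ C} := isClosed_le P.continuous.norm continuous_const
    intro T
    have h1 : {T : ℂ | D.eval T ≠ 0} ⊆ {T : ℂ | ‖P.eval T‖ ≤ C} := fun z hz => by
      have := hC z hz
      rw [hP z hz] at this
      exact this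
    have h2 := hcl.closure_subset_iff.2 h1
    rw [(CoR_dense hD).closure_eq] at h2
    exact h2 (Set.mem_univ T)
  refine ⟨P.eval 0, fun T hT => ?_⟩
  rw [hP T hT]
  apply P.differentiable.apply_eq_apply_of_bounded
  rw [isBounded_iff_forall_norm_le]
  exact ⟨C, by rintro _ ⟨z, rfl⟩; exact hall z⟩

end Pool.Agent.LGO.AX
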