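import Mathlib
import Pool.Agent.LGO.AX.ChS

/-!
# LGO/AX: symmetric functions over the `T`-plane

`LC S P`: the property `P` of points of the curve is locally constant.  `Hol S h`: `h` is holomorphic along
local sections.  `sp S P h T` is the product of the `X - h(T, Y)` over the points `(T, Y)` of the fibre with
the property `P`.

On a small disc about `T₀ ∈ G` let `y k` be the sections (`exists_loc`).  `P (T, y k T)` does not depend on `T` in
the disc (the disc is connected and `T ↦ P (T, y k T)` is locally constant by `LC`: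
`IsPreconnected.constant` or a clopen argument), so `sp S P h T = ∏ k ∈ K, (X - C (h (T, y k T)))` with a fixed
`K : Finset (Fin d)` on the disc.  So the degree `card K` is locally constant, hence constant on `G`
(`conn_G`), and the coefficients are holomorphic (elementary symmetric functions of the holomorphic
functions `h (T, y k T)`; induction over `K`: the coefficients of a product of two polynomials with
holomorphic coefficients are holomorphic).
`sp_bd`: the coefficients of a product of at most `d` factors `X - c` with `|c| ≤ B`, `1 ≤ B`, are bounded by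
`(2 B) ^ d` (induction; or `Polynomial.coeff` bound by the product of the `ℓ¹` norms `1 + |c| ≤ 2 B`).
-/

namespace Pool.Agent.LGO.AX

open Polynomial Metric Filter Topology

/-- a locally constant property of the points of the curve -/
def LC (S : Cur) (P : ℂ × ℂ → Prop) : Prop := ∀ p ∈ S.pt, ∀ᶠ p' in 𝓝[S.pt] p, (P p' ↔ P p)

/-- holomorphic along local sections -/
def Hol (S : Cur) (h : ℂ × ℂ → ℂ) : Prop := ∀ (Ω : Set ℂ) (y : ℂ → ℂ), IsOpen Ω → DifferentiableOn ℂ y Ω →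
  (∀ T ∈ Ω, (T, y T) ∈ S.pt) → DifferentiableOn ℂ (fun T => h (T, y T)) Ω

open Classical in
/-- the polynomial with the roots `h(T, Y)`, `(T, Y)` in the fibre with `P (T, Y)` -/
noncomputable def sp (S : Cur) (P : ℂ × ℂ → Prop) (h : ℂ × ℂ → ℂ) (T : ℂ) : ℂ[X] :=
  ∏ Y ∈ (S.F.map (evalRingHom T)).roots.toFinset.filter fun Y => P (T, Y), (X - C (h (T, Y)))

theorem sp_monic (S : Cur) (P : ℂ × ℂ → Prop) (h : ℂ × ℂ → ℂ) (T : ℂ) : (sp S P h T).Monic := by
  unfold sp
  exact monic_prod_of_monic _ _ fun Y _ => monic_X_sub_C _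

theorem sp_root (S : Cur) {P : ℂ × ℂ → Prop} {h : ℂ × ℂ → ℂ} {p : ℂ × ℂ} (hp : p ∈ S.pt) (hP : P p) :
    (sp S P h p.1).eval (h p) = 0 := by
  classical
  unfold sp
  rw [eval_prod]
  refine Finset.prod_eq_zero (i := p.2) ?_ ?_
  · rw [Finset.mem_filter, Multiset.mem_toFinset]
    exact ⟨((S.mem_pt_iff p).mp hp).2, hP⟩
  · rw [eval_sub, eval_X, eval_C]
    exact sub_self _

open Classical in
/-- the part of the fibre with the property `P` -/
private noncomputable def CoS_fib (S : Cur) (P : ℂ × ℂ → Prop) (T : ℂ) : Finset ℂ :=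
  (S.F.map (evalRingHom T)).roots.toFinset.filter fun Y => P (T, Y)

private theorem CoS_sp (S : Cur) (P : ℂ × ℂ → Prop) (h : ℂ × ℂ → ℂ) (T : ℂ) :
    sp S P h T = ∏ Y ∈ CoS_fib S P T, (X - C (h (T, Y))) := rfl

private theorem CoS_mem (S : Cur) {P : ℂ × ℂ → Prop} {T : ℂ} (hT : T ∈ S.G) (Y : ℂ) :
    Y ∈ CoS_fib S P T ↔ (T, Y) ∈ S.pt ∧ P (T, Y) := by
  classical
  unfold CoS_fib
  rw [Finset.mem_filter, Multiset.mem_toFinset, S.mem_pt_iff]
  exact ⟨fun h => ⟨⟨hT, h.1⟩, h.2⟩, fun h => ⟨h.1.2, h.2⟩⟩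

private theorem CoS_card_le (S : Cur) (P : ℂ × ℂ → Prop) {T : ℂ} (hT : T ∈ S.G) :
    (CoS_fib S P T).card ≤ S.F.natDegree := by
  classical
  rw [← S.card_fib hT]
  refine Finset.card_le_card fun Y hY => ?_
  unfold CoS_fib at hY
  rw [Finset.mem_filter] at hY
  exact hY.1

private theorem CoS_deg (S : Cur) (P : ℂ × ℂ → Prop) (h : ℂ × ℂ → ℂ) (T : ℂ) :
    (sp S P h T).natDegree = (CoS_fib S P T).card := by
  rw [CoS_sp, natDegree_finsetProd_X_sub_C_eq_card]

/-- local description of the part of the fibre -/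
private theorem CoS_loc (S : Cur) {P : ℂ × ℂ → Prop} (hP : LC S P) {T₀ : ℂ} (hT : T₀ ∈ S.G) :
    ∃ ρ > (0 : ℝ), ∃ (y : Fin S.F.natDegree → ℂ → ℂ) (K : Finset (Fin S.F.natDegree)),
      (∀ k, DifferentiableOn ℂ (y k) (ball T₀ ρ)) ∧
      (∀ k, ∀ T ∈ ball T₀ ρ, (T, y k T) ∈ S.pt) ∧
      ∀ T ∈ ball T₀ ρ, (∀ h, sp S P h T = ∏ k ∈ K, (X - C (h (T, y k T)))) ∧
        (CoS_fib S P T).card = K.card := by
  classical
  obtain ⟨ρ, hρ, y, hs⟩ := exists_loc S hT
  have hpt : ∀ k, ∀ T ∈ ball T₀ ρ, (T, y k T) ∈ S.pt := fun k T hT' =>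
    ((hs.mem T hT').2 _).mpr ⟨k, rfl⟩
  have h1 : ∀ᶠ T in 𝓝 T₀, T ∈ ball T₀ ρ := ball_mem_nhds T₀ hρ
  have h2 : ∀ᶠ T in 𝓝 T₀, ∀ k, (P (T, y k T) ↔ P (T₀, y k T₀)) := by
    refine Filter.eventually_all.mpr fun k => ?_
    have hc : ContinuousAt (y k) T₀ :=
      (hs.an k).continuousOn.continuousAt (ball_mem_nhds T₀ hρ)
    have ht : Tendsto (fun T => (T, y k T)) (𝓝 T₀) (𝓝[S.pt] (T₀, y k T₀)) := by
      rw [tendsto_nhdsWithin_iff]
      refine ⟨(continuousAt_id.prodMk hc : ContinuousAt (fun T => (T, y k T)) T₀), ?_⟩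
      filter_upwards [h1] with T hT'
      exact hpt k T hT'
    exact ht.eventually (hP (T₀, y k T₀) (hpt k T₀ (mem_ball_self hρ)))
  obtain ⟨r, hr, hb⟩ := Metric.eventually_nhds_iff_ball.mp (h1.and h2)
  refine ⟨r, hr, y, Finset.univ.filter fun k => P (T₀, y k T₀), ?_, ?_, ?_⟩
  · intro k
    exact (hs.an k).mono fun T hT' => (hb T hT').1
  · intro k T hT'
    exact hpt k T (hb T hT').1
  · intro T hT'
    have hTb := (hb T hT').1
    have hinj := hs.inj T hTb
    have hfib : CoS_fib S P T =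
        (Finset.univ.filter fun k => P (T₀, y k T₀)).image fun k => y k T := by
      ext Y
      rw [CoS_mem S (hs.mem T hTb).1, Finset.mem_image, (hs.mem T hTb).2 Y]
      constructor
      · rintro ⟨⟨k, rfl⟩, hk⟩
        refine ⟨k, ?_, rfl⟩
        rw [Finset.mem_filter]
        exact ⟨Finset.mem_univ _, ((hb T hT').2 k).mp hk⟩
      · rintro ⟨k, hk, rfl⟩
        rw [Finset.mem_filter] at hk
        exact ⟨⟨k, rfl⟩, ((hb T hT').2 k).mpr hk.2⟩
    constructor
    · intro h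
      rw [CoS_sp, hfib, Finset.prod_image fun k _ l _ hkl => hinj hkl]
    · rw [hfib, Finset.card_image_of_injective _ hinj]

theorem sp_degree (S : Cur) {P : ℂ × ℂ → Prop} (hP : LC S P) (h : ℂ × ℂ → ℂ) :
    ∃ n ≤ S.F.natDegree, (∀ T ∈ S.G, (sp S P h T).natDegree = n) ∧
      ((∃ p ∈ S.pt, P p) → 0 < n) ∧ ((∃ p ∈ S.pt, ¬ P p) → n < S.F.natDegree) := by
  classical
  obtain ⟨T₁, hT₁⟩ := S.conn_G.nonempty
  have hcont : ContinuousOn (fun T => (CoS_fib S P T).card) S.G := by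
    intro T₀ hT₀
    obtain ⟨ρ, hρ, y, K, -, -, hK⟩ := CoS_loc S hP hT₀
    have h1 : (fun T => (CoS_fib S P T).card) =ᶠ[𝓝 T₀] fun _ => K.card := by
      filter_upwards [ball_mem_nhds T₀ hρ] with T hT
      exact (hK T hT).2
    exact (continuousAt_const.congr h1.symm).continuousWithinAt
  have hconst : ∀ T ∈ S.G, (CoS_fib S P T).card = (CoS_fib S P T₁).card := fun T hT =>
    S.conn_G.isPreconnected.constant hcont hT hT₁
  refine ⟨(CoS_fib S P T₁).card, CoS_card_le S P hT₁, ?_, ?_, ?_⟩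
  · intro T hT
    rw [CoS_deg, hconst T hT]
  · rintro ⟨p, hp, hPp⟩
    have hpG : p.1 ∈ S.G := ((S.mem_pt_iff p).mp hp).1
    rw [← hconst p.1 hpG, Finset.card_pos]
    exact ⟨p.2, (CoS_mem S hpG p.2).mpr ⟨hp, hPp⟩⟩
  · rintro ⟨p, hp, hPp⟩
    have hpG : p.1 ∈ S.G := ((S.mem_pt_iff p).mp hp).1
    rw [← hconst p.1 hpG, ← S.card_fib hpG]
    refine Finset.card_lt_card ?_
    unfold CoS_fib
    rw [Finset.filter_ssubset]
    refine ⟨p.2, ?_, hPp⟩
    rw [Multiset.mem_toFinset]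
    exact ((S.mem_pt_iff p).mp hp).2

private theorem CoS_coeff (a : ℂ) (Q : ℂ[X]) (j : ℕ) :
    ((X - C a) * Q).coeff j = (if j = 0 then 0 else Q.coeff (j - 1)) - a * Q.coeff j := by
  rw [sub_mul, coeff_sub, coeff_C_mul]
  congr 1
  cases j with
  | zero => simp
  | succ n => simp

private theorem CoS_prod_diff {ι : Type*} {U : Set ℂ} (K : Finset ι) (g : ι → ℂ → ℂ)
    (hg : ∀ k ∈ K, DifferentiableOn ℂ (g k) U) :
    ∀ j, DifferentiableOn ℂ (fun T => (∏ k ∈ K, (X - C (g k T))).coeff j) U := by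
  classical
  induction K using Finset.induction_on with
  | empty =>
    intro j
    simp only [Finset.prod_empty]
    exact differentiableOn_const _
  | insert a K ha ih =>
    intro j
    have ih' := ih fun k hk => hg k (Finset.mem_insert_of_mem hk)
    have h1 : (fun T => (∏ k ∈ insert a K, (X - C (g k T))).coeff j) = fun T =>
        (if j = 0 then 0 else (∏ k ∈ K, (X - C (g k T))).coeff (j - 1)) -
          g a T * (∏ k ∈ K, (X - C (g k T))).coeff j := by
      funext T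
      rw [Finset.prod_insert ha, CoS_coeff]
    rw [h1]
    refine DifferentiableOn.sub ?_ ((hg a (Finset.mem_insert_self a K)).mul (ih' j))
    by_cases hj : j = 0
    · simp only [hj, if_true]
      exact differentiableOn_const _
    · simp only [hj, if_false]
      exact ih' (j - 1)

private theorem CoS_prod_bd {ι : Type*} (K : Finset ι) (g : ι → ℂ) {B : ℝ} (hB : 1 ≤ B)
    (hg : ∀ k ∈ K, ‖g k‖ ≤ B) : ∀ j, ‖(∏ k ∈ K, (X - C (g k))).coeff j‖ ≤ (2 * B) ^ K.card := by
  classical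
  induction K using Finset.induction_on with
  | empty =>
    intro j
    rw [Finset.prod_empty, Finset.card_empty, pow_zero, coeff_one]
    split_ifs
    · simp
    · simp
  | insert a K ha ih =>
    intro j
    have ih' := ih fun k hk => hg k (Finset.mem_insert_of_mem hk)
    have ha' := hg a (Finset.mem_insert_self a K)
    rw [Finset.prod_insert ha, CoS_coeff, Finset.card_insert_of_notMem ha, pow_succ]
    have h0 : (0 : ℝ) ≤ (2 * B) ^ K.card := by positivity
    have h1 : ‖(if j = 0 then (0 : ℂ) else (∏ k ∈ K, (X - C (g k))).coeff (j - 1))‖ ≤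
        (2 * B) ^ K.card := by
      split_ifs
      · rw [norm_zero]
        exact h0
      · exact ih' (j - 1)
    have h2 : ‖g a * (∏ k ∈ K, (X - C (g k))).coeff j‖ ≤ B * (2 * B) ^ K.card := by
      rw [norm_mul]
      exact mul_le_mul ha' (ih' j) (norm_nonneg _) (by linarith)
    calc _ ≤ _ := norm_sub_le _ _
      _ ≤ (2 * B) ^ K.card + B * (2 * B) ^ K.card := add_le_add h1 h2
      _ ≤ (2 * B) ^ K.card * (2 * B) := by nlinarith

theorem sp_diff (S : Cur) {P : ℂ × ℂ → Prop} (hP : LC S P) {h : ℂ × ℂ → ℂ} (hh : Hol S h) (j : ℕ) :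
    DifferentiableOn ℂ (fun T => (sp S P h T).coeff j) S.G := by
  intro T₀ hT₀
  obtain ⟨ρ, hρ, y, K, hy, hpt, hK⟩ := CoS_loc S hP hT₀
  have h1 : DifferentiableOn ℂ (fun T => (∏ k ∈ K, (X - C (h (T, y k T)))).coeff j) (ball T₀ ρ) :=
    CoS_prod_diff K (fun k T => h (T, y k T)) (fun k _ => hh _ _ isOpen_ball (hy k) (hpt k)) j
  have h2 : (fun T => (sp S P h T).coeff j) =ᶠ[𝓝 T₀]
      fun T => (∏ k ∈ K, (X - C (h (T, y k T)))).coeff j := by
    filter_upwards [ball_mem_nhds T₀ hρ] with T hT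
    rw [(hK T hT).1 h]
  exact ((h1.differentiableAt (ball_mem_nhds T₀ hρ)).congr_of_eventuallyEq
    h2).differentiableWithinAt

theorem sp_bd (S : Cur) (P : ℂ × ℂ → Prop) (h : ℂ × ℂ → ℂ) {T : ℂ} (hT : T ∈ S.G) {B : ℝ} (hB : 1 ≤ B)
    (hb : ∀ Y, (T, Y) ∈ S.pt → ‖h (T, Y)‖ ≤ B) (j : ℕ) :
    ‖(sp S P h T).coeff j‖ ≤ (2 * B) ^ S.F.natDegree := by
  rw [CoS_sp]
  refine (CoS_prod_bd (CoS_fib S P T) (fun Y => h (T, Y)) hB ?_ j).trans ?_
  · intro Y hY
    exact hb Y ((CoS_mem S hT Y).mp hY).1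
  · exact pow_le_pow_right₀ (by linarith) (CoS_card_le S P hT)

end Pool.Agent.LGO.AX
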