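import Mathlib
import Pool.Agent.LGO.AX.CoR
import Pool.Agent.LGO.AX.CoS

/-!
# LGO/AX: the curve is connected; Liouville's theorem on the curve

`connected`.  Let `P` be locally constant, true at `p₀`; suppose it is false somewhere.  Let
`h(T, Y) = lc(T) Y` (holomorphic along sections), `sp T = sp S P h T`, of degree `n` with `0 < n < d`
(`sp_degree`).  By `root_bd` (`LGO/AX/ChG.lean`) and `sp_bd` the coefficients of `sp T` have moderate growth,
they are holomorphic on `G` (`sp_diff`), so they are polynomials `c_j(T)` (`ext_poly`).  Put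
`H = ∑_{j ≤ n} C c_j * (C lc * X) ^ j` in `ℂ[X][X]`: its coefficient at `Y ^ n` is `c_n lc ^ n = lc ^ n ≠ 0`
(`c_n = 1` because `sp` is monic, on the infinite set `G`), its degree is `n < d = natDegree F`, so `F` does
not divide `H` (`Polynomial.natDegree_le_of_dvd`).  For `(T, Y)` in the curve with `P (T, Y)`:
`H(T, Y) = (sp T).eval (lc(T) Y) = 0` (`sp_root`), and such `Y` exist over all `T ∈ G` (`n > 0`); so `F` and `H`
have common zeros over all `T ∈ G`, an infinite set, against `common_finite`.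

`liouville`.  `P = True`: the coefficients of `sp T` are bounded and holomorphic on `G`, so constant
(`ext_const`): `sp T = Q` for all `T ∈ G` with a fixed monic `Q`, and `Q(h p) = 0` for all points `p`
(`sp_root`): `Q` has finitely many roots.
-/

namespace Pool.Agent.LGO.AX

open Polynomial Metric Filter Topology

private theorem CoM_G_inf (S : Cur) : (S.G).Infinite := by
  intro h
  have h1 : (S.G ∪ (S.G)ᶜ).Finite := h.union S.finite_compl_G
  rw [Set.union_compl_self] at h1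
  exact Set.infinite_univ h1

private theorem CoM_pt {S : Cur} {P : ℂ × ℂ → Prop} {h : ℂ × ℂ → ℂ} {T : ℂ} (hT : T ∈ S.G)
    (hpos : 0 < (sp S P h T).natDegree) : ∃ Y, (T, Y) ∈ S.pt ∧ P (T, Y) := by
  classical
  by_contra hcon
  push Not at hcon
  have h1 : sp S P h T = 1 := by
    unfold sp
    apply Finset.prod_eq_one
    intro Y hY
    rw [Finset.mem_filter, Multiset.mem_toFinset] at hY
    exact absurd hY.2 (hcon Y ((S.mem_pt_iff (T, Y)).mpr ⟨hT, hY.1⟩))
  rw [h1, natDegree_one] at hpos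
  exact lt_irrefl 0 hpos

private theorem CoM_eval {Q : ℂ[X]} {n : ℕ} (hn : Q.natDegree = n) (z : ℂ) :
    Q.eval z = ∑ j ∈ Finset.range (n + 1), Q.coeff j * z ^ j :=
  eval_eq_sum_range' (by omega) z

theorem connected (S : Cur) {P : ℂ × ℂ → Prop} (hP : LC S P) {p₀ : ℂ × ℂ} (hp₀ : p₀ ∈ S.pt) (h₀ : P p₀) :
    ∀ p ∈ S.pt, P p := by
  by_contra hcon
  push Not at hcon
  obtain ⟨p₁, hp₁, h₁⟩ := hcon
  set h : ℂ × ℂ → ℂ := fun p => S.F.leadingCoeff.eval p.1 * p.2 with hh
  have hhol : Hol S h := by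
    intro Ω y _ hy _
    have h1 : DifferentiableOn ℂ (fun T => S.F.leadingCoeff.eval T) Ω :=
      (Polynomial.differentiable _).differentiableOn
    exact h1.mul hy
  obtain ⟨n, hn, hdeg, hpos, hlt⟩ := sp_degree S hP h
  have hn0 : 0 < n := hpos ⟨p₀, hp₀, h₀⟩
  have hnd : n < S.F.natDegree := hlt ⟨p₁, hp₁, h₁⟩
  obtain ⟨C₁, k, hC₁, hb⟩ := root_bd S
  have hex : ∀ j, ∃ c : ℂ[X], ∀ T, S.D.eval T ≠ 0 → (sp S P h T).coeff j = c.eval T := by
    intro j
    refine ext_poly S.D_ne (sp_diff S hP hhol j) ⟨(2 * (1 + C₁)) ^ S.F.natDegree, k * S.F.natDegree, ?_⟩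
    intro T hT
    have hx : 1 ≤ (1 + ‖T‖) ^ k := one_le_pow₀ (by linarith [norm_nonneg T])
    have hB : 1 ≤ (1 + C₁) * (1 + ‖T‖) ^ k := by nlinarith
    have h1 := sp_bd S P h (T := T) hT hB (by
      intro Y hY
      have h2 := hb T Y hY.2
      have h3 : C₁ * (1 + ‖T‖) ^ k ≤ (1 + C₁) * (1 + ‖T‖) ^ k := by nlinarith
      exact h2.trans h3) j
    refine h1.trans (le_of_eq ?_)
    rw [pow_mul, ← mul_assoc, mul_pow]
  choose c hc using hex
  have hcn : c n = 1 := by
    refine Polynomial.eq_of_infinite_eval_eq _ _ ((CoM_G_inf S).mono ?_)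
    intro T hT
    change (c n).eval T = (1 : ℂ[X]).eval T
    rw [← hc n T hT, eval_one]
    have h1 := sp_monic S P h T
    rw [Monic, leadingCoeff, hdeg T hT] at h1
    exact h1
  set H : ℂ[X][X] := ∑ j ∈ Finset.range (n + 1), C (c j) * (C S.F.leadingCoeff * X) ^ j with hH
  have hcoeff : H.coeff n = S.F.leadingCoeff ^ n := by
    rw [hH, finsetSum_coeff, Finset.sum_eq_single n]
    · rw [hcn, C_1, one_mul, mul_pow, ← C_pow, coeff_C_mul, coeff_X_pow, if_pos rfl, mul_one]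
    · intro j _ hj
      rw [mul_pow, ← C_pow, ← mul_assoc, ← C_mul, coeff_C_mul, coeff_X_pow, if_neg (Ne.symm hj), mul_zero]
    · intro hj
      exact absurd (Finset.mem_range.mpr (Nat.lt_succ_self n)) hj
  have hlc : S.F.leadingCoeff ≠ 0 := leadingCoeff_ne_zero.mpr S.irr.ne_zero
  have hH0 : H ≠ 0 := by
    intro h0
    rw [h0, coeff_zero] at hcoeff
    exact pow_ne_zero n hlc hcoeff.symm
  have hHd : H.natDegree ≤ n := by
    rw [hH]
    refine natDegree_sum_le_of_forall_le _ _ ?_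
    intro j hj
    rw [mul_pow, ← C_pow, ← mul_assoc, ← C_mul]
    refine (natDegree_C_mul_X_pow_le _ _).trans ?_
    exact Nat.lt_succ_iff.mp (Finset.mem_range.mp hj)
  have hndvd : ¬ S.F ∣ H := by
    intro hd
    have := natDegree_le_of_dvd hd hH0
    omega
  have hfin := common_finite S hndvd
  refine CoM_G_inf S (hfin.subset ?_)
  intro T hT
  obtain ⟨Y, hY, hPY⟩ := CoM_pt (P := P) (h := h) hT (by rw [hdeg T hT]; exact hn0)
  refine ⟨Y, hY.2, ?_⟩
  have h1 := sp_root S (h := h) hY hPY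
  rw [CoM_eval (hdeg T hT)] at h1
  rw [hH, evalEval_finsetSum, ← h1]
  refine Finset.sum_congr rfl fun j _ => ?_
  rw [evalEval_mul, evalEval_pow, evalEval_mul, evalEval_C, evalEval_C, evalEval_X, hc j T hT]

theorem liouville (S : Cur) {h : ℂ × ℂ → ℂ} (hb : ∃ C : ℝ, ∀ p ∈ S.pt, ‖h p‖ ≤ C) (hh : Hol S h) :
    {z : ℂ | ∃ p ∈ S.pt, z = h p}.Finite := by
  obtain ⟨C₁, hC₁⟩ := hb
  have hP : LC S (fun _ => True) := fun p _ => Filter.Eventually.of_forall fun _ => Iff.rfl
  obtain ⟨n, hn, hdeg, -, -⟩ := sp_degree S hP h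
  have hex : ∀ j, ∃ c : ℂ, ∀ T, S.D.eval T ≠ 0 → (sp S (fun _ => True) h T).coeff j = c := by
    intro j
    refine ext_const S.D_ne (sp_diff S hP hh j) ⟨(2 * max 1 C₁) ^ S.F.natDegree, ?_⟩
    intro T hT
    exact sp_bd S _ h hT (le_max_left _ _) (fun Y hY => (hC₁ _ hY).trans (le_max_right _ _)) j
  choose c hc using hex
  set Q : ℂ[X] := ∑ j ∈ Finset.range (n + 1), C (c j) * X ^ j with hQ
  have hsp : ∀ T ∈ S.G, sp S (fun _ => True) h T = Q := by
    intro T hT
    rw [hQ, (sp S (fun _ => True) h T).as_sum_range_C_mul_X_pow, hdeg T hT]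
    refine Finset.sum_congr rfl fun j _ => ?_
    rw [hc j T hT]
  obtain ⟨T₀, hT₀⟩ := (CoM_G_inf S).nonempty
  have hQ0 : Q ≠ 0 := by
    rw [← hsp T₀ hT₀]
    exact (sp_monic S _ h T₀).ne_zero
  refine (Q.roots.toFinset.finite_toSet).subset ?_
  rintro z ⟨p, hp, rfl⟩
  rw [Finset.mem_coe, Multiset.mem_toFinset, mem_roots hQ0, IsRoot, ← hsp p.1 hp.1]
  exact sp_root S hp trivial

end Pool.Agent.LGO.AX
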