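import Mathlib
import Pool.Agent.LGO.AX.Defs
import Pool.Agent.LGO.PW.Defs

/-!
# LGO/AX: from a finite atlas of branches to the charts of `LGO/PW/Defs.lean`

Let `β` be a branch, `r = β.r`.
* `conv_comp`: all `e a = 0`.  `z a t = ψ a (r t / 8)`: `ball 0 4` corresponds to `|t| < r / 2`, whose closure is a
  compact subset of `ball 0 r`; there `Im ψ a > 0` (`im_pos` with `w = log t` for `t ≠ 0`, `cen` for `t = 0`), so
  `Im ≥ c` and `ψ a` is bounded.  `closedBall 0 1` corresponds to `|t| ≤ r / 8`, and `r exp (-5) ≤ r / 8`.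
  `Ind`: if `G(ψ(t)) = 0` for `|t| < r / 2` then for `|t| < r` by the identity theorem.
* `conv_cusp`: some `e a > 0`, some `e a = 0`.  `r' = r exp (-1)`, `w = w' + log r'`,
  `ψ' a (q) = ψ a (r' q) + e a log r' / (2 π i)`, so `cz e ψ' a w' = β.z a (w' + log r')`.  On `exp (re w) ≤ r'`: `ψ a` is
  bounded; `Im (z a) ≥ c`: for `e a = 0` compactness of the closed disc of radius `r'`; for `e a > 0`:
  `Im (z a w) = e a |re w| / (2 π) + Im (ψ a (exp w))` is large for `re w → -∞` and depends only on `t = exp w`, so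
  compactness of an annulus.  `CD` corresponds to `exp (re w) ≤ r' exp (-4) = r exp (-5)`, `|im w| ≤ π`.
  `Ind LH`: identity theorem on the half plane.
* `jF` and `jInv`: `jF τ = jInv τ` for `τ` in the upper half plane (see `Pool/Agent/LGO/Q/Loc.lean`), and the lifts
  of `Lift` are the points `⟨β.z a w, _⟩`.
* `conv`: the compact charts are the branches with all `e a = 0`, the cusp charts the others; reindex with
  `Fintype.equivFin` of the two subtypes of `Fin A.n`.
-/

namespace Pool.Agent.LGO.AX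

open Polynomial Pool.Agent.LGO Metric

/-- the punctured point is an exponential -/
private theorem Conv_exp_log {t : ℂ} (ht : t ≠ 0) : Real.exp (Complex.log t).re = ‖t‖ := by
  rw [Complex.log_re, Real.exp_log (norm_pos_iff.mpr ht)]

/-- formula for the imaginary part -/
private theorem Conv_im {S : Cur} (β : Br S) (a : Fin 3) (w : ℂ) :
    (β.z a w).im = -(β.e a * w.re) / (2 * Real.pi) + (β.ψ a (Complex.exp w)).im := by
  have hpi : (Real.pi : ℂ) ≠ 0 := by exact_mod_cast Real.pi_ne_zero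
  have h1 : (β.e a : ℂ) * w / (2 * Real.pi * Complex.I) =
      ((-((β.e a : ℝ) / (2 * Real.pi)) : ℝ) : ℂ) * (w * Complex.I) := by
    have hI := Complex.I_ne_zero
    have hII := Complex.I_mul_I
    push_cast
    field_simp
    linear_combination ((β.e a : ℂ) * w) * hII
  unfold Br.z zz
  rw [h1, Complex.add_im, Complex.im_ofReal_mul]
  simp only [Complex.mul_im, Complex.I_im, Complex.I_re]
  ring

/-- the lift of a point of a branch -/
private theorem Conv_lift {S : Cur} (β : Br S) (w : ℂ) (hw : Real.exp w.re < β.r) (a : Fin 3) :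
    ∃ τ : UpperHalfPlane, (τ : ℂ) = β.z a w ∧
      S.x a (β.pt w) = Pool.Agent.Hhelper14.ZP.jInv τ := by
  have h1 := β.im_pos a w hw
  have h2 := β.jz a w hw
  refine ⟨⟨β.z a w, h1⟩, rfl, ?_⟩
  rw [← jF_coe]
  exact h2.symm

private theorem Conv_psi_pos {S : Cur} (β : Br S) (a : Fin 3) (he : β.e a = 0) (t : ℂ) (ht : ‖t‖ < β.r) :
    0 < (β.ψ a t).im := by
  by_cases h0 : t = 0
  · rw [h0]
    exact β.cen a he
  · have h1 := β.im_pos a (Complex.log t) (by rw [Conv_exp_log h0]; exact ht)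
    simpa [zz, he, Complex.exp_log h0] using h1

/-- a positive continuous function on a compact set, uniformly in `a` -/
private theorem Conv_min {K : Fin 3 → Set ℂ} (hK : ∀ a, IsCompact (K a)) (f : Fin 3 → ℂ → ℝ)
    (hf : ∀ a, ContinuousOn (f a) (K a)) (hp : ∀ a, ∀ t ∈ K a, 0 < f a t) :
    ∃ c : ℝ, 0 < c ∧ ∀ a, ∀ t ∈ K a, c ≤ f a t := by
  have h1 : ∀ a, ∃ c : ℝ, 0 < c ∧ ∀ t ∈ K a, c ≤ f a t := by
    intro a
    by_cases hne : (K a).Nonempty
    · obtain ⟨t0, ht0, hmin⟩ := (hK a).exists_isMinOn hne (hf a)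
      exact ⟨f a t0, hp a t0 ht0, fun t ht => hmin ht⟩
    · exact ⟨1, one_pos, fun t ht => absurd ⟨t, ht⟩ hne⟩
  choose c hc hc' using h1
  refine ⟨min (c 0) (min (c 1) (c 2)), lt_min (hc 0) (lt_min (hc 1) (hc 2)), fun a t ht => ?_⟩
  refine le_trans ?_ (hc' a t ht)
  fin_cases a
  · exact min_le_left _ _
  · exact (min_le_right _ _).trans (min_le_left _ _)
  · exact (min_le_right _ _).trans (min_le_right _ _)

/-- a continuous function on a compact set is bounded, uniformly in `a` -/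
private theorem Conv_bd {K : Set ℂ} (hK : IsCompact K) (f : Fin 3 → ℂ → ℂ)
    (hf : ∀ a, ContinuousOn (f a) K) : ∃ C : ℝ, ∀ a, ∀ t ∈ K, ‖f a t‖ ≤ C := by
  have h1 : ∀ a, ∃ C : ℝ, ∀ t ∈ K, ‖f a t‖ ≤ C := fun a => hK.exists_bound_of_continuousOn (hf a)
  choose C hC using h1
  refine ⟨max (C 0) (max (C 1) (C 2)), fun a t ht => (hC a t ht).trans ?_⟩
  fin_cases a
  · exact le_max_left _ _
  · exact (le_max_left _ _).trans (le_max_right _ _)
  · exact (le_max_right _ _).trans (le_max_right _ _)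

/-- a polynomial in differentiable functions is differentiable -/
private theorem Conv_diff {Ω : Set ℂ} (f : Fin 3 → ℂ → ℂ) (hf : ∀ a, DifferentiableOn ℂ (f a) Ω)
    (G : MvPolynomial (Fin 3) ℂ) : DifferentiableOn ℂ (fun t => MvPolynomial.eval (fun a => f a t) G) Ω := by
  induction G using MvPolynomial.induction_on with
  | C c =>
    simp only [MvPolynomial.eval_C]
    exact differentiableOn_const _
  | add p q hp hq =>
    simp only [map_add]
    exact hp.add hq
  | mul_X p i hp =>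
    simp only [map_mul, MvPolynomial.eval_X]
    exact hp.mul (hf i)

private theorem Conv_ball_sub {r ρ : ℝ} (h : ρ < r) : closedBall (0 : ℂ) ρ ⊆ ball 0 r :=
  closedBall_subset_ball h

theorem conv_comp {S : Cur} (β : Br S) (he : ∀ a, β.e a = 0)
    (hind : ∀ G : MvPolynomial (Fin 3) ℂ, G ≠ 0 → ∃ w ∈ β.U, MvPolynomial.eval (fun a => β.z a w) G ≠ 0) :
    ∃ z : Fin 3 → ℂ → ℂ, PW.Comp z ∧ ∀ w, Real.exp w.re ≤ β.r * Real.exp (-5) →
      ∃ s ∈ closedBall (0 : ℂ) 1, PW.Lift z s (fun a => S.x a (β.pt w)) := by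
  have hr := β.r_pos
  have hrC : (β.r : ℂ) ≠ 0 := by exact_mod_cast hr.ne'
  have hnr : ‖(β.r : ℂ)‖ = β.r := by rw [Complex.norm_real, Real.norm_of_nonneg hr.le]
  have hsub : closedBall (0 : ℂ) (β.r / 2) ⊆ ball 0 β.r := Conv_ball_sub (by linarith)
  have hcon : ∀ a, ContinuousOn (β.ψ a) (closedBall (0 : ℂ) (β.r / 2)) := fun a =>
    ((β.dψ a).mono hsub).continuousOn
  have hmap : ∀ s ∈ ball (0 : ℂ) 4, (β.r : ℂ) * s / 8 ∈ closedBall (0 : ℂ) (β.r / 2) := by
    intro s hs
    rw [mem_ball_zero_iff] at hs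
    rw [mem_closedBall_zero_iff, norm_div, norm_mul, hnr]
    have h8 : ‖(8 : ℂ)‖ = 8 := by norm_num
    rw [h8]
    nlinarith
  have hdm : DifferentiableOn ℂ (fun s : ℂ => (β.r : ℂ) * s / 8) (ball (0 : ℂ) 4) := by
    fun_prop
  refine ⟨fun a s => β.ψ a ((β.r : ℂ) * s / 8), ⟨?_, ?_, ?_, ?_⟩, ?_⟩
  · intro a
    exact (β.dψ a).comp hdm (fun s hs => hsub (hmap s hs))
  · obtain ⟨c, hc, hc'⟩ := Conv_min (K := fun _ => closedBall (0 : ℂ) (β.r / 2))
      (fun _ => isCompact_closedBall _ _) (fun a t => (β.ψ a t).im)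
      (fun a => Complex.continuous_im.comp_continuousOn (hcon a))
      (fun a t ht => Conv_psi_pos β a (he a) t (by simpa using hsub ht))
    exact ⟨c, hc, fun a s hs => hc' a _ (hmap s hs)⟩
  · obtain ⟨C, hC⟩ := Conv_bd (isCompact_closedBall (0 : ℂ) (β.r / 2)) β.ψ hcon
    exact ⟨C, fun a s hs => hC a _ (hmap s hs)⟩
  · intro G hG
    by_contra hcontra
    push Not at hcontra
    have hd := Conv_diff β.ψ β.dψ G
    have han : AnalyticOnNhd ℂ (fun t => MvPolynomial.eval (fun a => β.ψ a t) G) (ball 0 β.r) :=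
      hd.analyticOnNhd isOpen_ball
    have hz : Set.EqOn (fun t => MvPolynomial.eval (fun a => β.ψ a t) G) (fun _ => (0 : ℂ)) (ball 0 β.r) := by
      refine han.eqOn_of_preconnected_of_eventuallyEq (fun _ _ => analyticAt_const)
        (convex_ball _ _).isPreconnected (mem_ball_self hr) ?_
      have hnh : ball (0 : ℂ) (β.r / 2) ∈ nhds (0 : ℂ) := ball_mem_nhds _ (by linarith)
      filter_upwards [hnh] with t ht
      rw [mem_ball_zero_iff] at ht
      have h1 := hcontra (8 * t / β.r) (by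
        rw [mem_ball_zero_iff, norm_div, norm_mul, hnr]
        have h8 : ‖(8 : ℂ)‖ = 8 := by norm_num
        rw [h8, div_lt_iff₀ hr]
        linarith)
      have h2 : (β.r : ℂ) * (8 * t / β.r) / 8 = t := by field_simp
      simp only [h2] at h1
      exact h1
    obtain ⟨w, hw, hw'⟩ := hind G hG
    have hwb : Complex.exp w ∈ ball (0 : ℂ) β.r := by
      rw [mem_ball_zero_iff, Complex.norm_exp]
      exact hw
    have h3 := hz hwb
    apply hw'
    have h4 : (fun a => β.z a w) = fun a => β.ψ a (Complex.exp w) := by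
      funext a
      simp [Br.z, zz, he a]
    rw [h4]
    exact h3
  · intro w hw
    have hwr : Real.exp w.re < β.r := by
      refine lt_of_le_of_lt hw ?_
      have h5 : Real.exp (-5) < 1 := by rw [Real.exp_lt_one_iff]; norm_num
      nlinarith
    refine ⟨8 * Complex.exp w / β.r, ?_, ?_⟩
    · rw [mem_closedBall_zero_iff, norm_div, norm_mul, hnr, Complex.norm_exp]
      have h8 : ‖(8 : ℂ)‖ = 8 := by norm_num
      rw [h8, div_le_one hr]
      have h5 : Real.exp (-5) ≤ 1 / 8 := by
        rw [Real.exp_neg, ← one_div]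
        refine one_div_le_one_div_of_le (by norm_num) ?_
        have h6 := Real.add_one_le_exp (1 : ℝ)
        have h7 : Real.exp 5 = Real.exp 1 ^ 5 := by rw [← Real.exp_nat_mul]; norm_num
        rw [h7]
        calc (8 : ℝ) ≤ 2 ^ 5 := by norm_num
          _ ≤ Real.exp 1 ^ 5 := pow_le_pow_left₀ (by norm_num) (by linarith) 5
      nlinarith
    · intro a
      obtain ⟨τ, h1, h2⟩ := Conv_lift β w hwr a
      refine ⟨τ, ?_, h2⟩
      rw [h1]
      have h3 : (β.r : ℂ) * (8 * Complex.exp w / β.r) / 8 = Complex.exp w := by field_simp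
      simp only [h3]
      simp [Br.z, zz, he a]

theorem conv_cusp {S : Cur} (β : Br S) (he : ∃ a, 0 < β.e a) (he0 : ∃ a, β.e a = 0)
    (hind : ∀ G : MvPolynomial (Fin 3) ℂ, G ≠ 0 → ∃ w ∈ β.U, MvPolynomial.eval (fun a => β.z a w) G ≠ 0) :
    ∃ ψ : Fin 3 → ℂ → ℂ, PW.Cusp β.e ψ ∧ ∀ w, Real.exp w.re ≤ β.r * Real.exp (-5) → |w.im| ≤ Real.pi →
      ∃ w' ∈ PW.CD, PW.Lift (PW.cz β.e ψ) w' (fun a => S.x a (β.pt w)) := by
  have hr := β.r_pos
  have hpi := Real.pi_pos
  have hpiC : (Real.pi : ℂ) ≠ 0 := by exact_mod_cast Real.pi_ne_zero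
  set r' : ℝ := β.r * Real.exp (-1) with hr'
  have hr'0 : 0 < r' := by positivity
  have he1 : Real.exp (-1) < 1 := by rw [Real.exp_lt_one_iff]; norm_num
  have hr'r : r' < β.r := by rw [hr']; nlinarith
  have hnr : ‖(r' : ℂ)‖ = r' := by rw [Complex.norm_real, Real.norm_of_nonneg hr'0.le]
  have hlr : Real.log r' = Real.log β.r - 1 := by
    rw [hr', Real.log_mul hr.ne' (Real.exp_pos _).ne', Real.log_exp]
    ring
  set l : ℂ := ((Real.log r' : ℝ) : ℂ) with hl
  have hexl : Complex.exp l = (r' : ℂ) := by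
    rw [hl, ← Complex.ofReal_exp, Real.exp_log hr'0]
  have hlre : l.re = Real.log r' := by rw [hl, Complex.ofReal_re]
  have hlim : l.im = 0 := by rw [hl, Complex.ofReal_im]
  have hcz : ∀ a w, PW.cz β.e (fun a q => β.ψ a ((r' : ℂ) * q) + (β.e a : ℂ) * l / (2 * Real.pi * Complex.I)) a w =
      β.z a (w + l) := by
    intro a w
    unfold PW.cz Br.z zz
    rw [Complex.exp_add, hexl, mul_comm (Complex.exp w) (r' : ℂ)]
    ring
  have hexw : ∀ w : ℂ, w.re < 0 → Real.exp (w + l).re < r' := by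
    intro w hw
    rw [Complex.add_re, hlre, Real.exp_add, Real.exp_log hr'0]
    have : Real.exp w.re < 1 := by rw [Real.exp_lt_one_iff]; exact hw
    nlinarith
  have hsub : closedBall (0 : ℂ) r' ⊆ ball 0 β.r := Conv_ball_sub hr'r
  have hcon : ∀ a, ContinuousOn (β.ψ a) (closedBall (0 : ℂ) r') := fun a =>
    ((β.dψ a).mono hsub).continuousOn
  have hmap : ∀ q ∈ ball (0 : ℂ) 1, (r' : ℂ) * q ∈ closedBall (0 : ℂ) r' := by
    intro q hq
    rw [mem_ball_zero_iff] at hq
    rw [mem_closedBall_zero_iff, norm_mul, hnr]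
    nlinarith [norm_nonneg q]
  obtain ⟨C, hC⟩ := Conv_bd (isCompact_closedBall (0 : ℂ) r') β.ψ hcon
  have hC0 : 0 ≤ C := (norm_nonneg _).trans (hC 0 0 (mem_closedBall_self hr'0.le))
  -- the imaginary parts
  have himl : ∃ c : ℝ, 0 < c ∧ ∀ a, ∀ w : ℂ, Real.exp w.re < r' → c ≤ (β.z a w).im := by
    -- the radius below which the linear term wins
    set ρ : ℝ := min r' (Real.exp (-(2 * Real.pi * (C + 1)))) with hρ
    have hρ0 : 0 < ρ := lt_min hr'0 (Real.exp_pos _)
    have hKc : ∀ a : Fin 3, IsCompact (closedBall (0 : ℂ) r' ∩ (if β.e a = 0 then Set.univ else (ball (0 : ℂ) ρ)ᶜ)) := by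
      intro a
      refine (isCompact_closedBall _ _).inter_right ?_
      split_ifs
      · exact isClosed_univ
      · exact isOpen_ball.isClosed_compl
    obtain ⟨c, hc, hc'⟩ := Conv_min
      (K := fun a => closedBall (0 : ℂ) r' ∩ (if β.e a = 0 then Set.univ else (ball (0 : ℂ) ρ)ᶜ)) hKc
      (fun a t => -(β.e a * Real.log ‖t‖) / (2 * Real.pi) + (β.ψ a t).im)
      (fun a => by
        refine ContinuousOn.add ?_ (Complex.continuous_im.comp_continuousOn ((hcon a).mono Set.inter_subset_left))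
        by_cases h0 : β.e a = 0
        · simp only [h0, Nat.cast_zero, zero_mul, neg_zero, zero_div]
          exact continuousOn_const
        · refine ((continuousOn_const.mul ?_).neg).div_const _
          refine ContinuousOn.log continuous_norm.continuousOn (fun t ht => ?_)
          have h1 := ht.2
          rw [if_neg h0, Set.mem_compl_iff, mem_ball_zero_iff, not_lt] at h1
          linarith)
      (fun a t ht => by
        have ht1 : ‖t‖ ≤ r' := mem_closedBall_zero_iff.1 ht.1
        by_cases h0 : β.e a = 0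
        · simp only [h0, Nat.cast_zero, zero_mul, neg_zero, zero_div, zero_add]
          exact Conv_psi_pos β a h0 t (by linarith)
        · have h1 := ht.2
          rw [if_neg h0, Set.mem_compl_iff, mem_ball_zero_iff, not_lt] at h1
          have ht0 : t ≠ 0 := norm_pos_iff.1 (by linarith)
          have h2 := β.im_pos a (Complex.log t) (by rw [Conv_exp_log ht0]; linarith)
          have h3 := Conv_im β a (Complex.log t)
          rw [Complex.exp_log ht0, Complex.log_re] at h3
          rw [← h3]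
          exact h2)
    refine ⟨min c 1, lt_min hc one_pos, fun a w hw => ?_⟩
    have hn : ‖Complex.exp w‖ = Real.exp w.re := Complex.norm_exp w
    by_cases hK : Complex.exp w ∈ closedBall (0 : ℂ) r' ∩ (if β.e a = 0 then Set.univ else (ball (0 : ℂ) ρ)ᶜ)
    · have h1 := hc' a _ hK
      simp only [hn, Real.log_exp] at h1
      rw [Conv_im]
      exact (min_le_left _ _).trans h1
    · have h1 : Complex.exp w ∈ closedBall (0 : ℂ) r' := by
        rw [mem_closedBall_zero_iff, hn]
        exact hw.le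
      have h0 : β.e a ≠ 0 := by
        intro h0
        exact hK ⟨h1, by rw [if_pos h0]; trivial⟩
      have h2 : ‖Complex.exp w‖ < ρ := by
        by_contra h2
        refine hK ⟨h1, ?_⟩
        rw [if_neg h0, Set.mem_compl_iff, mem_ball_zero_iff]
        exact h2
      have h3 : w.re < -(2 * Real.pi * (C + 1)) := by
        rw [hn] at h2
        exact Real.exp_lt_exp.1 (lt_of_lt_of_le h2 (min_le_right _ _))
      have h4 : -C ≤ (β.ψ a (Complex.exp w)).im := by
        have h5 := (Complex.abs_im_le_norm (β.ψ a (Complex.exp w))).trans (hC a _ h1)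
        exact (abs_le.1 h5).1
      have h6 : (1 : ℝ) ≤ β.e a := by exact_mod_cast Nat.one_le_iff_ne_zero.2 h0
      have h7 : C + 1 ≤ -(β.e a * w.re) / (2 * Real.pi) := by
        rw [le_div_iff₀ (by positivity)]
        have h8 : 0 ≤ -w.re := by nlinarith
        nlinarith
      rw [Conv_im]
      refine (min_le_right _ _).trans ?_
      linarith
  obtain ⟨c, hc, hc'⟩ := himl
  refine ⟨fun a q => β.ψ a ((r' : ℂ) * q) + (β.e a : ℂ) * l / (2 * Real.pi * Complex.I),
    ⟨he, he0, ?_, ?_, ?_, ?_⟩, ?_⟩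
  · intro a
    have hdm : DifferentiableOn ℂ (fun s : ℂ => (r' : ℂ) * s) (ball (0 : ℂ) 1) := by fun_prop
    exact ((β.dψ a).comp hdm (fun s hs => hsub (hmap s hs))).add (differentiableOn_const _)
  · obtain ⟨D, hD⟩ := Conv_bd (K := {0}) isCompact_singleton
      (fun a _ => (β.e a : ℂ) * l / (2 * Real.pi * Complex.I)) (fun a => continuousOn_const)
    refine ⟨C + D, fun a q hq => (norm_add_le _ _).trans ?_⟩
    exact add_le_add (hC a _ (hmap q hq)) (hD a 0 rfl)
  · refine ⟨c, hc, fun a w hw => ?_⟩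
    rw [hcz]
    exact hc' a _ (hexw w hw)
  · intro G hG
    by_contra hcontra
    push Not at hcontra
    have hopen : IsOpen β.U := by
      have h1 : Continuous fun w : ℂ => Real.exp w.re := Real.continuous_exp.comp Complex.continuous_re
      exact isOpen_lt h1 continuous_const
    have hUeq : β.U = {w : ℂ | w.re < Real.log β.r} := by
      ext w
      exact (Real.lt_log_iff_exp_lt hr).symm
    have hconn : IsPreconnected β.U := by
      rw [hUeq]
      exact (convex_halfSpace_re_lt _).isPreconnected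
    have hdz : ∀ a, DifferentiableOn ℂ (β.z a) β.U := by
      intro a
      have h1 : DifferentiableOn ℂ (fun w : ℂ => (β.e a : ℂ) * w / (2 * Real.pi * Complex.I)) β.U := by
        fun_prop
      have h2 : DifferentiableOn ℂ (fun w : ℂ => β.ψ a (Complex.exp w)) β.U :=
        (β.dψ a).comp Complex.differentiable_exp.differentiableOn (fun w hw => by
          rw [mem_ball_zero_iff, Complex.norm_exp]
          exact hw)
      exact h1.add h2
    have han : AnalyticOnNhd ℂ (fun w => MvPolynomial.eval (fun a => β.z a w) G) β.U :=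
      (Conv_diff β.z hdz G).analyticOnNhd hopen
    have hw0 : ((-1 : ℂ) + l) ∈ β.U := (hexw (-1) (by norm_num)).trans hr'r
    have hz : Set.EqOn (fun w => MvPolynomial.eval (fun a => β.z a w) G) (fun _ => (0 : ℂ)) β.U := by
      refine han.eqOn_of_preconnected_of_eventuallyEq (fun _ _ => analyticAt_const) hconn hw0 ?_
      have hnh : {w : ℂ | w.re < Real.log r'} ∈ nhds ((-1 : ℂ) + l) := by
        refine (isOpen_lt Complex.continuous_re continuous_const).mem_nhds ?_
        show ((-1 : ℂ) + l).re < Real.log r'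
        rw [Complex.add_re, hlre]
        norm_num
      filter_upwards [hnh] with w hw
      have h1 := hcontra (w - l) (by
        show (w - l).re < 0
        rw [Complex.sub_re, hlre]
        exact sub_neg.2 hw)
      simp only [hcz, sub_add_cancel] at h1
      exact h1
    obtain ⟨w, hw, hw'⟩ := hind G hG
    exact hw' (hz hw)
  · intro w hw hwi
    have hwr : Real.exp w.re < β.r := by
      refine lt_of_le_of_lt hw ?_
      have h5 : Real.exp (-5) < 1 := by rw [Real.exp_lt_one_iff]; norm_num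
      nlinarith
    refine ⟨w - l, ⟨?_, ?_⟩, ?_⟩
    · rw [Complex.sub_re, hlre, hlr]
      have h1 : w.re ≤ Real.log (β.r * Real.exp (-5)) := (Real.le_log_iff_exp_le (by positivity)).2 hw
      rw [Real.log_mul hr.ne' (Real.exp_pos _).ne', Real.log_exp] at h1
      linarith
    · rw [Complex.sub_im, hlim, sub_zero]
      exact hwi
    · intro a
      obtain ⟨τ, h1, h2⟩ := Conv_lift β w hwr a
      refine ⟨τ, ?_, h2⟩
      rw [h1, hcz, sub_add_cancel]

theorem conv {S : Cur} (A : Atl S)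
    (hA : ∀ p ∈ S.pt, p.1 ∉ A.cen → ∃ i w, Real.exp w.re ≤ (A.br i).r * Real.exp (-5) ∧
      |w.im| ≤ Real.pi ∧ (A.br i).pt w = p)
    (hind : ∀ β : Br S, ∀ G : MvPolynomial (Fin 3) ℂ, G ≠ 0 →
      ∃ w ∈ β.U, MvPolynomial.eval (fun a => β.z a w) G ≠ 0)
    (he0 : ∀ β : Br S, ∃ a, β.e a = 0) {W F : Set (Fin 3 → ℂ)} (hF : F.Finite)
    (hW : ∀ y ∈ W, y ∈ F ∨ ∃ p ∈ S.pt, p.1 ∉ A.cen ∧ y = fun a => S.x a p) : PW.HasAtlas W := by
  classical
  let P : Fin A.n → Prop := fun i => ∀ a, (A.br i).e a = 0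
  have hP : ∀ i, ¬ P i → ∃ a, 0 < (A.br i).e a := by
    intro i hi
    by_contra hc
    push Not at hc
    exact hi (fun a => Nat.le_zero.1 (hc a))
  have h1 : ∀ i : {i // P i}, ∃ z : Fin 3 → ℂ → ℂ, PW.Comp z ∧
      ∀ w, Real.exp w.re ≤ (A.br i).r * Real.exp (-5) →
        ∃ s ∈ closedBall (0 : ℂ) 1, PW.Lift z s (fun a => S.x a ((A.br i).pt w)) := fun i =>
    conv_comp (A.br i) i.2 (hind _)
  have h2 : ∀ i : {i // ¬ P i}, ∃ ψ : Fin 3 → ℂ → ℂ, PW.Cusp (A.br i).e ψ ∧
      ∀ w, Real.exp w.re ≤ (A.br i).r * Real.exp (-5) → |w.im| ≤ Real.pi →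
        ∃ w' ∈ PW.CD, PW.Lift (PW.cz (A.br i).e ψ) w' (fun a => S.x a ((A.br i).pt w)) := fun i =>
    conv_cusp (A.br i) (hP i i.2) (he0 _) (hind _)
  choose z hz hz' using h1
  choose ψ hψ hψ' using h2
  let e1 := Fintype.equivFin {i // P i}
  let e2 := Fintype.equivFin {i // ¬ P i}
  refine ⟨F, Fintype.card {i // P i}, Fintype.card {i // ¬ P i}, fun k => z (e1.symm k),
    fun k => (A.br (e2.symm k)).e, fun k => ψ (e2.symm k), hF, fun k => hz _, fun k => hψ _, ?_⟩
  intro x hx
  rcases hW x hx with h | ⟨p, hp, hpc, hxp⟩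
  · exact Or.inl h
  · obtain ⟨i, w, hw, hwi, hpt⟩ := hA p hp hpc
    right
    by_cases hPi : P i
    · left
      obtain ⟨s, hs, hs'⟩ := hz' ⟨i, hPi⟩ w hw
      refine ⟨e1 ⟨i, hPi⟩, s, hs, ?_⟩
      simp only [Equiv.symm_apply_apply]
      rw [hxp, ← hpt]
      exact hs'
    · right
      obtain ⟨w', hw', hw''⟩ := hψ' ⟨i, hPi⟩ w hw hwi
      refine ⟨e2 ⟨i, hPi⟩, w', hw', ?_⟩
      simp only [Equiv.symm_apply_apply]
      rw [hxp, ← hpt]
      exact hw''

end Pool.Agent.LGO.AX
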