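import Mathlib
import Pool.Agent.LGO.AX.Defs

/-!
# LGO/AX: zeros of functions on an irreducible curve

* `fin_zero`: `G` does not vanish on all of `S.pt`, so `F ∤ G` over `ℂ(T)`: if `G = F Q` in `ℂ(T)[Y]`, then
  `R(T) G = F Q'` with `R ≠ 0`, so `G` vanishes on `S.pt` outside finitely many fibres, then everywhere?  This needs
  care, so argue as follows.  `F` irreducible in `ℂ[T][Y]` of positive degree in `Y`, hence primitive
  (`Irreducible.isPrimitive`) and irreducible in `ℂ(T)[Y]`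
  (`Polynomial.IsPrimitive.irreducible_iff_irreducible_map_fraction_map`), and `F ∣ G` in `ℂ(T)[Y]` implies `F ∣ G` in
  `ℂ[T][Y]` (`IsPrimitive.dvd_iff_fraction_map_dvd_fraction_map` for the primitive part of `G`, Gauss), so `G` would
  vanish on `S.pt`.  So `F ∤ G`, they are coprime in `ℂ(T)[Y]`: `U F + W G = R(T) ≠ 0` with `U, W ∈ ℂ[T][Y]`.  At a
  common zero `R(T) = 0`: finitely many `T`, and for every such `T` finitely many `Y` (`F(T,·)` is separable, so not
  zero).
* `pt_fiber`: `F(T, ·)` has degree `F.natDegree > 0` (leading coefficient does not vanish), so it has a root.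
* `pt_infinite`: for infinitely many `T`.
* `x_fiber_finite`: `fin_zero` for `N a - c M` (`C M` in the inner variable), not identically zero by `NCo`.
* `x_avoid`: the fibres over `F` and over `E` are finite, `S.pt` is infinite.
* `x_hol`: `x a` is a quotient of polynomials.
* `rem_NCo`, `rem_NoMod`: `S.rem E` has the same functions, all but finitely many of the points; `x_avoid`.
-/

namespace Pool.Agent.LGO.AX

open Polynomial Pool.Agent.LGO

variable (S : Cur)

private theorem Fz_ev (G : ℂ[X][X]) (T y : ℂ) : G.evalEval T y = (G.map (evalRingHom T)).eval y := by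
  rw [map_evalRingHom_eval]

private theorem Fz_map_ne {T : ℂ} (hT : S.D.eval T ≠ 0) : S.F.map (evalRingHom T) ≠ 0 :=
  (S.sep T hT).ne_zero

theorem pt_fiber_finite (T : ℂ) : {p ∈ S.pt | p.1 = T}.Finite := by
  by_cases hT : S.D.eval T = 0
  · have h : {p ∈ S.pt | p.1 = T} = ∅ := by
      ext p
      simp only [Set.mem_ofPred_eq, Set.mem_empty_iff_false, iff_false]
      rintro ⟨⟨h1, -⟩, h2⟩
      rw [h2] at h1
      exact h1 hT
    rw [h]
    exact Set.finite_empty
  · have hne := Fz_map_ne S hT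
    refine (((S.F.map (evalRingHom T)).roots.toFinset.finite_toSet).image (fun y => (T, y))).subset ?_
    rintro ⟨a, y⟩ ⟨⟨-, h2⟩, h3⟩
    have h3' : a = T := h3
    subst h3'
    refine ⟨y, ?_, rfl⟩
    rw [Finset.mem_coe, Multiset.mem_toFinset, mem_roots hne]
    have h4 : S.F.evalEval a y = 0 := h2
    rw [Fz_ev] at h4
    exact h4

private theorem Fz_bezout_aux (K : Type) [Field K] [Algebra ℂ[X] K] [IsFractionRing ℂ[X] K]
    (G : ℂ[X][X]) (h : ¬ S.F ∣ G) :
    ∃ (R : ℂ[X]) (U W : ℂ[X][X]), R ≠ 0 ∧ U * S.F + W * G = C R := by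
  have hprim : S.F.IsPrimitive := S.irr.isPrimitive S.deg.ne'
  have hirr : Irreducible (S.F.map (algebraMap ℂ[X] K)) :=
    (hprim.irreducible_iff_irreducible_map_fraction_map (K := K)).1 S.irr
  have hnd : ¬ S.F.map (algebraMap ℂ[X] K) ∣ G.map (algebraMap ℂ[X] K) := fun h' =>
    h (hprim.dvd_of_fraction_map_dvd_fraction_map h')
  obtain ⟨u, w, huw⟩ := (hirr.coprime_iff_not_dvd).2 hnd
  obtain ⟨b, hb0, hb⟩ := IsLocalization.integerNormalization_spec (nonZeroDivisors ℂ[X]) u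
  obtain ⟨d, hd0, hd⟩ := IsLocalization.integerNormalization_spec (nonZeroDivisors ℂ[X]) w
  rw [mem_nonZeroDivisors_iff_ne_zero] at hb0 hd0
  rw [Algebra.smul_def, Polynomial.algebraMap_apply] at hb hd
  refine ⟨b * d, C d * IsLocalization.integerNormalization (nonZeroDivisors ℂ[X]) u,
    C b * IsLocalization.integerNormalization (nonZeroDivisors ℂ[X]) w, mul_ne_zero hb0 hd0, ?_⟩
  apply map_injective (algebraMap ℂ[X] K) (IsFractionRing.injective _ _)
  rw [Polynomial.map_add, Polynomial.map_mul, Polynomial.map_mul, Polynomial.map_mul,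
    Polynomial.map_mul, hb, hd, map_C, map_C, map_C, map_mul, C_mul]
  calc C ((algebraMap ℂ[X] K) d) * (C ((algebraMap ℂ[X] K) b) * u) *
        map (algebraMap ℂ[X] K) S.F +
      C ((algebraMap ℂ[X] K) b) * (C ((algebraMap ℂ[X] K) d) * w) *
        map (algebraMap ℂ[X] K) G =
      C ((algebraMap ℂ[X] K) b) * C ((algebraMap ℂ[X] K) d) *
        (u * map (algebraMap ℂ[X] K) S.F +
          w * map (algebraMap ℂ[X] K) G) := by ring
    _ = _ := by rw [huw, mul_one]

private theorem Fz_bezout (G : ℂ[X][X]) (h : ¬ S.F ∣ G) :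
    ∃ (R : ℂ[X]) (U W : ℂ[X][X]), R ≠ 0 ∧ U * S.F + W * G = C R :=
  Fz_bezout_aux S (FractionRing ℂ[X]) G h

theorem fin_zero (G : ℂ[X][X]) (h : ¬ ∀ p ∈ S.pt, G.evalEval p.1 p.2 = 0) :
    {p ∈ S.pt | G.evalEval p.1 p.2 = 0}.Finite := by
  have hnd : ¬ S.F ∣ G := by
    rintro ⟨Q, rfl⟩
    apply h
    rintro p ⟨-, hp⟩
    rw [evalEval_mul, hp, zero_mul]
  obtain ⟨R, U, W, hR, hUW⟩ := Fz_bezout S G hnd
  refine ((R.roots.toFinset.finite_toSet).biUnion fun T _ => pt_fiber_finite S T).subset ?_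
  rintro p ⟨hp, hG⟩
  have h1 : R.eval p.1 = 0 := by
    have h2 := congrArg (fun P : ℂ[X][X] => P.evalEval p.1 p.2) hUW
    simp only [evalEval_add, evalEval_mul, evalEval_C] at h2
    rw [← h2, hp.2, hG]
    ring
  simp only [Set.mem_iUnion]
  refine ⟨p.1, ?_, hp, rfl⟩
  rw [Finset.mem_coe, Multiset.mem_toFinset, mem_roots hR]
  exact h1

theorem pt_fiber {T : ℂ} (hT : S.D.eval T ≠ 0) : ∃ y, (T, y) ∈ S.pt := by
  have h1 : (S.F.map (evalRingHom T)).natDegree = S.F.natDegree :=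
    natDegree_map_of_leadingCoeff_ne_zero _ (S.lead T hT)
  have h2 : (S.F.map (evalRingHom T)).degree ≠ 0 := by
    intro h
    have h3 := natDegree_eq_of_degree_eq_some h
    rw [h1] at h3
    exact S.deg.ne' h3
  obtain ⟨y, hy⟩ := IsAlgClosed.exists_root _ h2
  refine ⟨y, hT, ?_⟩
  show S.F.evalEval T y = 0
  rw [Fz_ev]
  exact hy

theorem pt_infinite : S.pt.Infinite := by
  intro hfin
  have h1 : {T : ℂ | S.D.eval T ≠ 0}.Finite := by
    refine (hfin.image Prod.fst).subset ?_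
    intro T hT
    obtain ⟨y, hy⟩ := pt_fiber S hT
    exact ⟨(T, y), hy, rfl⟩
  have h2 : {T : ℂ | S.D.eval T = 0}.Finite := by
    refine (S.D.roots.toFinset.finite_toSet).subset ?_
    intro T hT
    rw [Finset.mem_coe, Multiset.mem_toFinset, mem_roots S.D_ne]
    exact hT
  have h3 : (Set.univ : Set ℂ).Finite := by
    refine (h1.union h2).subset ?_
    intro T _
    by_cases hT : S.D.eval T = 0
    · exact Or.inr hT
    · exact Or.inl hT
  exact Set.infinite_univ h3

private theorem Fz_x_iff {a : Fin 3} {c : ℂ} {p : ℂ × ℂ} (hp : p ∈ S.pt) :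
    S.x a p = c ↔ (S.N a - C (C c * S.M)).evalEval p.1 p.2 = 0 := by
  have hM := S.M_ne p.1 hp.1
  unfold Cur.x
  rw [evalEval_sub, evalEval_C, eval_mul, eval_C, div_eq_iff hM, sub_eq_zero]

theorem x_fiber_finite (hN : S.NCo) (a : Fin 3) (c : ℂ) : {p ∈ S.pt | S.x a p = c}.Finite := by
  have h1 : {p ∈ S.pt | S.x a p = c} =
      {p ∈ S.pt | (S.N a - C (C c * S.M)).evalEval p.1 p.2 = 0} := by
    ext p
    exact and_congr_right fun hp => Fz_x_iff S hp
  rw [h1]
  refine fin_zero S _ fun h => ?_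
  obtain ⟨p, hp, hne⟩ := hN a c
  exact hne ((Fz_x_iff S hp).2 (h p hp))

theorem x_avoid (hN : S.NCo) (a : Fin 3) {E : Finset ℂ} {F : Set ℂ} (hF : F.Finite) :
    ∃ p ∈ S.pt, p.1 ∉ E ∧ S.x a p ∉ F := by
  by_contra hcon
  have h1 : S.pt ⊆ (⋃ T ∈ (E : Set ℂ), {p ∈ S.pt | p.1 = T}) ∪ ⋃ c ∈ F, {p ∈ S.pt | S.x a p = c} := by
    intro p hp
    by_cases h2 : p.1 ∈ E
    · left
      simp only [Set.mem_iUnion]
      exact ⟨p.1, h2, hp, rfl⟩
    · right
      have h3 : S.x a p ∈ F := by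
        by_contra h4
        exact hcon ⟨p, hp, h2, h4⟩
      simp only [Set.mem_iUnion]
      exact ⟨S.x a p, h3, hp, rfl⟩
  refine pt_infinite S (Set.Finite.subset (Set.Finite.union ?_ ?_) h1)
  · exact (E.finite_toSet).biUnion fun T _ => pt_fiber_finite S T
  · exact hF.biUnion fun c _ => x_fiber_finite S hN a c

private theorem Fz_ev_sum (G : ℂ[X][X]) (T z : ℂ) :
    G.evalEval T z = ∑ i ∈ Finset.range (G.natDegree + 1), (G.coeff i).eval T * z ^ i := by
  rw [Fz_ev, eval_map, eval₂_eq_sum_range]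
  rfl

theorem x_hol (a : Fin 3) {Ω : Set ℂ} (hΩ : IsOpen Ω) {y : ℂ → ℂ} (hy : DifferentiableOn ℂ y Ω)
    (hp : ∀ T ∈ Ω, (T, y T) ∈ S.pt) : DifferentiableOn ℂ (fun T => S.x a (T, y T)) Ω := by
  unfold Cur.x
  refine DifferentiableOn.div ?_ (S.M.differentiable.differentiableOn) fun T hT => S.M_ne T (hp T hT).1
  have h1 : (fun T => (S.N a).evalEval T (y T)) =
      fun T => ∑ i ∈ Finset.range ((S.N a).natDegree + 1), ((S.N a).coeff i).eval T * y T ^ i := by
    funext T
    exact Fz_ev_sum _ _ _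
  show DifferentiableOn ℂ (fun T => (S.N a).evalEval T (y T)) Ω
  rw [h1]
  refine DifferentiableOn.fun_sum fun i _ => ?_
  exact (((S.N a).coeff i).differentiable.differentiableOn).mul (hy.pow i)

theorem rem_NCo (hN : S.NCo) (E : Finset ℂ) : (S.rem E).NCo := by
  intro a c
  obtain ⟨p, hp, hpE, hne⟩ := x_avoid S hN a (E := E) (Set.finite_singleton c)
  exact ⟨p, (S.mem_rem E p).2 ⟨hp, hpE⟩, fun h => hne h⟩

theorem rem_NoMod (hN : S.NoMod) (E : Finset ℂ) : (S.rem E).NoMod := by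
  classical
  intro i j hij g hg E' h
  refine hN i j hij g hg (E ∪ E') fun p hp hpE => ?_
  rw [Finset.mem_union, not_or] at hpE
  exact h p ((S.mem_rem E p).2 ⟨hp, hpE.1⟩) hpE.2

end Pool.Agent.LGO.AX
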