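import Mathlib
import Pool.Agent.LGO.AX.Defs

/-!
# LGO/AX: Möbius transformations of integral matrices on the upper half plane

* `mz_den_ne`: `(c, d) ≠ 0` because `det ≠ 0`, so `c z + d ≠ 0` for `Im z > 0` (imaginary part `c Im z`, and
  `d ≠ 0` if `c = 0`).
* `mz_im`: `Im (g z) = det g * Im z / |c z + d|²`.
* `mz_mul`: clear denominators (`field_simp`, `ring`) with `mz_den_ne` for `h` and for `g` at `h z`.
* `jF_mz`: `jInv` is invariant under `SL(2, ℤ)` (in `Pool/Agent/Hhelper14/ZP/` or `Pool/Agent/LGO/Gal/`: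
  `jInv (γ • τ) = jInv τ`; the action on `ℍ` has the coordinate `mz γ.1 τ`: `UpperHalfPlane.specialLinearGroup_apply`).
* `exists_num`: for every monomial `∏ Z a ^ k a` take `∏ (p a Z a + q a) ^ k a (c a Z a + d a) ^ (N - k a)` where
  `N` is larger than all exponents (`G = ∑ coeff * monomial`, `MvPolynomial.eval_eq'`).
-/

namespace Pool.Agent.LGO.AX

open Polynomial Pool.Agent.LGO
open scoped MatrixGroups

theorem mz_den_ne {g : Matrix (Fin 2) (Fin 2) ℤ} (hg : g.det ≠ 0) {z : ℂ} (hz : 0 < z.im) :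
    (g 1 0 : ℂ) * z + (g 1 1 : ℂ) ≠ 0 := by
  intro h
  apply hg
  have h1 := congrArg Complex.im h
  simp only [Complex.add_im, Complex.mul_im, Complex.intCast_re, Complex.intCast_im, zero_mul,
    add_zero, Complex.zero_im] at h1
  have hc : g 1 0 = 0 := by
    rcases mul_eq_zero.1 h1 with h2 | h2
    · exact_mod_cast h2
    · exact absurd h2 hz.ne'
  rw [hc, Int.cast_zero, zero_mul, zero_add] at h
  have hd : g 1 1 = 0 := by exact_mod_cast h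
  rw [Matrix.det_fin_two, hc, hd]
  ring

theorem mz_im {g : Matrix (Fin 2) (Fin 2) ℤ} (hg : g.det ≠ 0) {z : ℂ} (hz : 0 < z.im) :
    (mz g z).im = (g.det : ℝ) * z.im / ‖(g 1 0 : ℂ) * z + (g 1 1 : ℂ)‖ ^ 2 := by
  rw [mz, Complex.div_im, ← Complex.normSq_eq_norm_sq, Matrix.det_fin_two]
  simp only [Complex.add_im, Complex.mul_im, Complex.intCast_re, Complex.intCast_im, zero_mul,
    add_zero, Complex.add_re, Complex.mul_re, sub_zero]
  push_cast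
  ring

theorem mz_im_pos {g : Matrix (Fin 2) (Fin 2) ℤ} (hg : 0 < g.det) {z : ℂ} (hz : 0 < z.im) :
    0 < (mz g z).im := by
  rw [mz_im hg.ne' hz]
  have h1 : (0 : ℝ) < g.det := by exact_mod_cast hg
  have h2 : 0 < ‖(g 1 0 : ℂ) * z + (g 1 1 : ℂ)‖ := norm_pos_iff.2 (mz_den_ne hg.ne' hz)
  positivity

theorem Mz_det (γ : SL(2, ℤ)) : 0 < γ.1.det := by
  rw [γ.2]
  exact one_pos

theorem mz_im_sl (γ : SL(2, ℤ)) {z : ℂ} (hz : 0 < z.im) : 0 < (mz γ.1 z).im :=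
  mz_im_pos (Mz_det γ) hz

theorem mz_mul {g h : Matrix (Fin 2) (Fin 2) ℤ} (hg : 0 < g.det) (hh : 0 < h.det) {z : ℂ}
    (hz : 0 < z.im) : mz (g * h) z = mz g (mz h z) := by
  have h1 := mz_den_ne hh.ne' hz
  have h2 := mz_den_ne hg.ne' (mz_im_pos hh hz)
  have h3 : mz h z * ((h 1 0 : ℂ) * z + (h 1 1 : ℂ)) = (h 0 0 : ℂ) * z + (h 0 1 : ℂ) :=
    div_mul_cancel₀ _ h1
  have e1 : (((g * h) 0 0 : ℤ) : ℂ) * z + (((g * h) 0 1 : ℤ) : ℂ) =
      ((g 0 0 : ℂ) * mz h z + (g 0 1 : ℂ)) * ((h 1 0 : ℂ) * z + (h 1 1 : ℂ)) := by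
    simp only [Matrix.mul_apply, Fin.sum_univ_two]
    push_cast
    linear_combination -(g 0 0 : ℂ) * h3
  have e2 : (((g * h) 1 0 : ℤ) : ℂ) * z + (((g * h) 1 1 : ℤ) : ℂ) =
      ((g 1 0 : ℂ) * mz h z + (g 1 1 : ℂ)) * ((h 1 0 : ℂ) * z + (h 1 1 : ℂ)) := by
    simp only [Matrix.mul_apply, Fin.sum_univ_two]
    push_cast
    linear_combination -(g 1 0 : ℂ) * h3
  have e3 : mz (g * h) z = ((((g * h) 0 0 : ℤ) : ℂ) * z + (((g * h) 0 1 : ℤ) : ℂ)) /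
      ((((g * h) 1 0 : ℤ) : ℂ) * z + (((g * h) 1 1 : ℤ) : ℂ)) := rfl
  rw [e3, e1, e2, mul_div_mul_right _ _ h1]
  rfl

theorem mz_mul_sl (γ δ : SL(2, ℤ)) {z : ℂ} (hz : 0 < z.im) :
    mz (γ * δ).1 z = mz γ.1 (mz δ.1 z) :=
  mz_mul (Mz_det γ) (Mz_det δ) hz

theorem mz_one (z : ℂ) : mz (1 : SL(2, ℤ)).1 z = z := by
  simp [mz]

theorem mz_T (n : ℕ) (z : ℂ) : mz (ModularGroup.T ^ n).1 z = z + n := by
  have h1 : (ModularGroup.T ^ n).1 = !![1, (n : ℤ); 0, 1] := by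
    have := ModularGroup.coe_T_zpow (n : ℤ)
    rw [zpow_natCast] at this
    exact this
  rw [h1]
  simp [mz]

theorem mz_diff {g : Matrix (Fin 2) (Fin 2) ℤ} (hg : g.det ≠ 0) :
    DifferentiableOn ℂ (mz g) {z : ℂ | 0 < z.im} := by
  intro z hz
  have h1 : DifferentiableAt ℂ (fun z : ℂ => ((g 0 0 : ℂ) * z + (g 0 1 : ℂ)) /
      ((g 1 0 : ℂ) * z + (g 1 1 : ℂ))) z :=
    DifferentiableAt.div (by fun_prop) (by fun_prop) (mz_den_ne hg hz)
  exact h1.differentiableWithinAt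

theorem jF_mz (γ : SL(2, ℤ)) {z : ℂ} (hz : 0 < z.im) : jF (mz γ.1 z) = jF z := by
  set τ : UpperHalfPlane := ⟨z, hz⟩ with hτ
  have h1 : (((γ • τ : UpperHalfPlane)) : ℂ) = mz γ.1 z := by
    rw [UpperHalfPlane.coe_specialLinearGroup_apply]
    simp [mz, hτ]
  have h2 : (τ : ℂ) = z := rfl
  rw [← h1, jF_coe, ← h2, jF_coe, Pool.Agent.Hhelper14.ZP.jInv_smul]

/-- the numerator of `G (δ Z)` -/
theorem exists_num (G : MvPolynomial (Fin 3) ℂ) (δ : Fin 3 → SL(2, ℤ)) :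
    ∃ (H : MvPolynomial (Fin 3) ℂ) (N : ℕ), ∀ ζ : Fin 3 → ℂ, (∀ a, 0 < (ζ a).im) →
      MvPolynomial.eval ζ H = (∏ a, (((δ a).1 1 0 : ℂ) * ζ a + ((δ a).1 1 1 : ℂ))) ^ N *
        MvPolynomial.eval (fun a => mz (δ a).1 (ζ a)) G := by
  set N : ℕ := ∑ a, G.degreeOf a with hN
  refine ⟨∑ k ∈ G.support, MvPolynomial.C (G.coeff k) *
    ∏ a, ((MvPolynomial.C ((δ a).1 0 0 : ℂ) * MvPolynomial.X a +
      MvPolynomial.C ((δ a).1 0 1 : ℂ)) ^ (k a) *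
      (MvPolynomial.C ((δ a).1 1 0 : ℂ) * MvPolynomial.X a +
      MvPolynomial.C ((δ a).1 1 1 : ℂ)) ^ (N - k a)), N, fun ζ hζ => ?_⟩
  rw [MvPolynomial.eval_eq' _ G, map_sum, Finset.mul_sum]
  refine Finset.sum_congr rfl fun k hk => ?_
  simp only [map_mul, map_prod, map_pow, map_add, MvPolynomial.eval_C, MvPolynomial.eval_X]
  rw [← Finset.prod_pow, mul_left_comm, ← Finset.prod_mul_distrib]
  congr 1
  refine Finset.prod_congr rfl fun a _ => ?_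
  have hd := mz_den_ne (Mz_det (δ a)).ne' (hζ a)
  have hka : k a ≤ N := by
    refine (MvPolynomial.monomial_le_degreeOf a hk).trans ?_
    exact Finset.single_le_sum (f := fun a => G.degreeOf a) (fun _ _ => Nat.zero_le _)
      (Finset.mem_univ a)
  have h3 : mz (δ a).1 (ζ a) * (((δ a).1 1 0 : ℂ) * ζ a + ((δ a).1 1 1 : ℂ)) =
      ((δ a).1 0 0 : ℂ) * ζ a + ((δ a).1 0 1 : ℂ) := div_mul_cancel₀ _ hd
  rw [← h3, mul_pow, mul_assoc, ← pow_add, Nat.add_sub_cancel' hka, mul_comm]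

end Pool.Agent.LGO.AX
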