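import Mathlib
import Pool.Agent.LGO.AX.Mz
import Pool.Agent.LGO.Gal.JInj

/-!
# LGO/AX: uniqueness of lifts

`f, g : D → ℍ` holomorphic, `D` open, connected, not empty, with `j ∘ f = j ∘ g`: then `g = γ f` with one `γ`.
For every `w ∈ D` there is `γ ∈ SL(2, ℤ)` with `g w = γ f w` (`jInv τ = jInv τ'` only on an orbit: see
`Pool/Agent/Hhelper14/ZP/Orbit.lean` or `Pool/Agent/LGO/Gal/JInj.lean`).  `SL(2, ℤ)` is countable and `D` contains a
closed disc, which is not countable (or Baire); so for one `γ` the set `{w ∈ K | g w = γ f w}`, `K` a closed disc in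
`D`, is infinite, hence has an accumulation point in the compact set `K`; both sides are holomorphic on `D`
(`mz_diff`), so they are equal on `D` (identity theorem,
`AnalyticOnNhd.eqOn_of_preconnected_of_frequently_eq`).
-/

namespace Pool.Agent.LGO.AX

open Polynomial Pool.Agent.LGO
open scoped MatrixGroups

theorem lift_unique {D : Set ℂ} (hD : IsOpen D) (hc : IsPreconnected D) (hne : D.Nonempty)
    {f g : ℂ → ℂ} (hf : DifferentiableOn ℂ f D) (hg : DifferentiableOn ℂ g D)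
    (hf0 : ∀ w ∈ D, 0 < (f w).im) (hg0 : ∀ w ∈ D, 0 < (g w).im)
    (h : ∀ w ∈ D, jF (f w) = jF (g w)) : ∃ γ : SL(2, ℤ), ∀ w ∈ D, g w = mz γ.1 (f w) := by
  have hcM : Countable (Matrix (Fin 2) (Fin 2) ℤ) :=
    inferInstanceAs (Countable (Fin 2 → Fin 2 → ℤ))
  have hcS : Countable SL(2, ℤ) :=
    inferInstanceAs (Countable {A : Matrix (Fin 2) (Fin 2) ℤ // A.det = 1})
  obtain ⟨w0, hw0⟩ := hne
  obtain ⟨r, hr, hball⟩ := Metric.isOpen_iff.1 hD w0 hw0
  have hK : Metric.closedBall w0 (r / 2) ⊆ D := fun x hx =>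
    hball (Metric.closedBall_subset_ball (by linarith) hx)
  have hpt : ∀ w ∈ D, ∃ γ : SL(2, ℤ), g w = mz γ.1 (f w) := by
    intro w hw
    have h1 : Pool.Agent.Hhelper14.ZP.jInv (⟨g w, hg0 w hw⟩ : UpperHalfPlane) =
        Pool.Agent.Hhelper14.ZP.jInv (⟨f w, hf0 w hw⟩ : UpperHalfPlane) := by
      rw [← jF_coe, ← jF_coe]
      exact (h w hw).symm
    obtain ⟨γ, hγ⟩ := Gal.j_inj h1
    refine ⟨γ, ?_⟩
    have h2 : ((⟨g w, hg0 w hw⟩ : UpperHalfPlane) : ℂ) =
        ((γ • (⟨f w, hf0 w hw⟩ : UpperHalfPlane) : UpperHalfPlane) : ℂ) := by rw [hγ]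
    rw [UpperHalfPlane.specialLinearGroup_apply] at h2
    simpa [mz] using h2
  have hex : ∃ γ : SL(2, ℤ),
      ¬ (Metric.closedBall w0 (r / 2) ∩ {w | g w = mz γ.1 (f w)}).Countable := by
    by_contra hcon
    push Not at hcon
    have hcount : (Metric.closedBall w0 (r / 2)).Countable := by
      refine (Set.countable_iUnion hcon).mono fun w hw => ?_
      obtain ⟨γ, hγ⟩ := hpt w (hK hw)
      exact Set.mem_iUnion.2 ⟨γ, hw, hγ⟩
    have hdense := hcount.dense_compl ℝ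
    obtain ⟨x, hx1, hx2⟩ := hdense.inter_open_nonempty (Metric.ball w0 (r / 2)) Metric.isOpen_ball
      ⟨w0, Metric.mem_ball_self (by linarith)⟩
    exact hx2 (Metric.ball_subset_closedBall hx1)
  obtain ⟨γ, hγ⟩ := hex
  refine ⟨γ, ?_⟩
  have hinf : (Metric.closedBall w0 (r / 2) ∩ {w | g w = mz γ.1 (f w)}).Infinite := fun hfin =>
    hγ hfin.countable
  obtain ⟨x, hx, hacc⟩ := hinf.exists_accPt_of_subset_isCompact (isCompact_closedBall w0 (r / 2))
    Set.inter_subset_left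
  have hfreq : ∃ᶠ y in nhdsWithin x {x}ᶜ, g y = mz γ.1 (f y) :=
    (accPt_iff_frequently_nhdsNE.1 hacc).mono fun y hy => hy.2
  have hdet : (γ.1).det ≠ 0 := by rw [γ.2]; exact one_ne_zero
  have hmz : DifferentiableOn ℂ (fun w => mz γ.1 (f w)) D :=
    (mz_diff hdet).comp hf fun w hw => hf0 w hw
  exact (hg.analyticOnNhd hD).eqOn_of_preconnected_of_frequently_eq (hmz.analyticOnNhd hD) hc (hK hx)
    hfreq

end Pool.Agent.LGO.AX
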