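import Mathlib
import Pool.Agent.LGO.AX.Mz

/-!
# LGO/AX: the stabiliser of an ideal of relations

* `vI_image`: `G` vanishes on `δ A` iff the numerator `H` of `G (δ Z)` (`exists_num`) vanishes on `A`
  (`mz_den_ne`: the factor is not zero), so the vanishing ideal of `δ A` depends only on that of `A`.
* `stb_of`: by `vI_image`.
* `stb_mul`: `(δ δ') A = δ (δ' A)` (`mz_mul_sl`).  `stb_inv`: `A` with ideal `I`; `J` := ideal of `δ⁻¹ A`.
  `δ (δ⁻¹ A) = A`.  Also `δ A` has ideal `I`, so `δ⁻¹ (δ A) = A` has ideal `I`; `vI_image` for `δ⁻¹` and the two sets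
  `A`, `δ A` with the same ideal `I`: the ideals of `δ⁻¹ A` and `δ⁻¹ (δ A) = A` are equal.
* `Br.zdiff`: composition.  `Br.z_im`: `β.im_pos`.  `Br.z_shift`: `exp (w + 2 π i) = exp w`.
* `cv_smul`: `mz_mul_sl`.
* `cusp_stb`: with `A = cv β γ`, `δ = γ T^e γ⁻¹`: `δ A = γ T^e cv β 1 = γ cv β 1 = A` because
  `T^e z(w) = z(w) + e = z(w + 2 π i)` and `U` is invariant under `w ↦ w ± 2 π i`.
-/

namespace Pool.Agent.LGO.AX

open Polynomial Pool.Agent.LGO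
open scoped MatrixGroups

open MvPolynomial (vanishingIdeal)

private theorem stab_num {δ : Fin 3 → SL(2, ℤ)} {ζ : Fin 3 → ℂ} (h : ∀ a, 0 < (ζ a).im) :
    (∏ a, (((δ a).1 1 0 : ℂ) * ζ a + ((δ a).1 1 1 : ℂ))) ≠ 0 :=
  Finset.prod_ne_zero_iff.2 fun a _ => mz_den_ne (Mz_det (δ a)).ne' (h a)

private theorem stab_mem (G : MvPolynomial (Fin 3) ℂ) (δ : Fin 3 → SL(2, ℤ)) :
    ∃ H : MvPolynomial (Fin 3) ℂ, ∀ A : Set (Fin 3 → ℂ), (∀ ζ ∈ A, ∀ a, 0 < (ζ a).im) →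
      (G ∈ vanishingIdeal ℂ ((fun ζ a => mz (δ a).1 (ζ a)) '' A) ↔ H ∈ vanishingIdeal ℂ A) := by
  obtain ⟨H, N, hH⟩ := exists_num G δ
  refine ⟨H, fun A hA => ?_⟩
  rw [MvPolynomial.mem_vanishingIdeal_iff, MvPolynomial.mem_vanishingIdeal_iff, Set.forall_mem_image]
  refine forall₂_congr fun ζ hζ => ?_
  have h1 := hH ζ (hA ζ hζ)
  have h2 := pow_ne_zero N (stab_num (δ := δ) (hA ζ hζ))
  rw [← MvPolynomial.coe_aeval_eq_eval, ← MvPolynomial.coe_aeval_eq_eval] at h1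
  constructor
  · intro h
    rw [show MvPolynomial.aeval ζ H = _ from h1]
    exact mul_eq_zero_of_right _ h
  · intro h
    exact (mul_eq_zero.1 ((show MvPolynomial.aeval ζ H = _ from h1).symm.trans h)).resolve_left h2

private theorem stab_im {A : Set (Fin 3 → ℂ)} (hA : ∀ ζ ∈ A, ∀ a, 0 < (ζ a).im)
    (δ : Fin 3 → SL(2, ℤ)) : ∀ ζ ∈ (fun (ζ : Fin 3 → ℂ) a => mz (δ a).1 (ζ a)) '' A, ∀ a, 0 < (ζ a).im := by
  rintro ζ ⟨ξ, hξ, rfl⟩ a
  exact mz_im_sl (δ a) (hA ξ hξ a)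

private theorem stab_comp {A : Set (Fin 3 → ℂ)} (hA : ∀ ζ ∈ A, ∀ a, 0 < (ζ a).im)
    (δ δ' : Fin 3 → SL(2, ℤ)) :
    (fun (ζ : Fin 3 → ℂ) a => mz ((δ * δ') a).1 (ζ a)) '' A =
      (fun (ζ : Fin 3 → ℂ) a => mz (δ a).1 (ζ a)) '' ((fun (ζ : Fin 3 → ℂ) a => mz (δ' a).1 (ζ a)) '' A) := by
  rw [Set.image_image]
  refine Set.image_congr fun ζ hζ => ?_
  funext a
  exact mz_mul_sl (δ a) (δ' a) (hA ζ hζ a)

private theorem stab_id (A : Set (Fin 3 → ℂ)) :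
    (fun (ζ : Fin 3 → ℂ) a => mz ((1 : Fin 3 → SL(2, ℤ)) a).1 (ζ a)) '' A = A := by
  have h1 : (fun (ζ : Fin 3 → ℂ) a => mz ((1 : Fin 3 → SL(2, ℤ)) a).1 (ζ a)) = id := by
    funext ζ a
    exact mz_one (ζ a)
  rw [h1, Set.image_id]

theorem vI_image {A B : Set (Fin 3 → ℂ)} (hA : ∀ ζ ∈ A, ∀ a, 0 < (ζ a).im)
    (hB : ∀ ζ ∈ B, ∀ a, 0 < (ζ a).im) (h : vanishingIdeal ℂ A = vanishingIdeal ℂ B) (δ : Fin 3 → SL(2, ℤ)) :
    vanishingIdeal ℂ ((fun ζ a => mz (δ a).1 (ζ a)) '' A) = vanishingIdeal ℂ ((fun ζ a => mz (δ a).1 (ζ a)) '' B) := by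
  ext G
  obtain ⟨H, hH⟩ := stab_mem G δ
  rw [hH A hA, hH B hB, h]

theorem stb_of {I : Ideal (MvPolynomial (Fin 3) ℂ)} {A : Set (Fin 3 → ℂ)}
    (hA : ∀ ζ ∈ A, ∀ a, 0 < (ζ a).im) (h : vanishingIdeal ℂ A = I) {δ : Fin 3 → SL(2, ℤ)}
    (h' : vanishingIdeal ℂ ((fun ζ a => mz (δ a).1 (ζ a)) '' A) = I) : δ ∈ Stb I := by
  intro B hB hBI
  rw [vI_image hB hA (hBI.trans h.symm) δ]
  exact h'

theorem stb_one (I : Ideal (MvPolynomial (Fin 3) ℂ)) : (1 : Fin 3 → SL(2, ℤ)) ∈ Stb I := by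
  intro A _ h
  rw [stab_id]
  exact h

theorem stb_mul {I : Ideal (MvPolynomial (Fin 3) ℂ)} {δ δ' : Fin 3 → SL(2, ℤ)} (h : δ ∈ Stb I)
    (h' : δ' ∈ Stb I) : δ * δ' ∈ Stb I := by
  intro A hA hI
  rw [stab_comp hA]
  exact h _ (stab_im hA δ') (h' A hA hI)

/-- `A` is any set with the ideal `I`: without such a set `Stb I` is everything -/
theorem stb_inv {I : Ideal (MvPolynomial (Fin 3) ℂ)} {δ : Fin 3 → SL(2, ℤ)} (h : δ ∈ Stb I) :
    δ⁻¹ ∈ Stb I := by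
  intro A hA hI
  have h1 := h A hA hI
  rw [vI_image hA (stab_im hA δ) (hI.trans h1.symm) δ⁻¹, ← stab_comp hA, inv_mul_cancel, stab_id]
  exact hI

variable {S : Cur}

theorem Br.isOpen_U (β : Br S) : IsOpen β.U := by
  exact isOpen_lt (Real.continuous_exp.comp Complex.continuous_re) continuous_const

theorem Br.convex_U (β : Br S) : Convex ℝ β.U := by
  have h1 : β.U = {w : ℂ | w.re < Real.log β.r} := by
    ext w
    exact (Real.lt_log_iff_exp_lt β.r_pos).symm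
  rw [h1]
  exact convex_halfSpace_re_lt _

theorem Br.nonempty_U (β : Br S) : β.U.Nonempty := by
  refine ⟨((Real.log β.r - 1 : ℝ) : ℂ), ?_⟩
  change Real.exp (((Real.log β.r - 1 : ℝ) : ℂ)).re < β.r
  rw [Complex.ofReal_re, ← Real.lt_log_iff_exp_lt β.r_pos]
  linarith

theorem Br.z_diff (β : Br S) (a : Fin 3) : DifferentiableOn ℂ (β.z a) β.U := by
  intro w hw
  have h1 : ‖Complex.exp w‖ < β.r := by
    rw [Complex.norm_exp]
    exact hw
  have h2 : DifferentiableAt ℂ (β.ψ a) (Complex.exp w) :=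
    (β.dψ a).differentiableAt (Metric.isOpen_ball.mem_nhds (by rwa [mem_ball_zero_iff]))
  have h3 : DifferentiableAt ℂ (fun w => β.ψ a (Complex.exp w)) w :=
    h2.comp w Complex.differentiableAt_exp
  have h4 : DifferentiableAt ℂ (fun w : ℂ => (β.e a : ℂ) * w / (2 * Real.pi * Complex.I)) w := by
    fun_prop
  exact (h4.add h3).differentiableWithinAt

theorem Br.z_im (β : Br S) (a : Fin 3) {w : ℂ} (hw : w ∈ β.U) : 0 < (β.z a w).im := by
  exact β.im_pos a w hw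

theorem Br.jF_z (β : Br S) (a : Fin 3) {w : ℂ} (hw : w ∈ β.U) : jF (β.z a w) = S.x a (β.pt w) := by
  exact β.jz a w hw

theorem Br.pt_mem (β : Br S) {w : ℂ} (hw : w ∈ β.U) : β.pt w ∈ S.pt := by
  exact β.mem _ (norm_pos_iff.2 (Complex.exp_ne_zero w)) (by
    rw [Complex.norm_exp]
    exact hw)

theorem Br.shift_mem (β : Br S) {w : ℂ} (hw : w ∈ β.U) (n : ℤ) :
    w + 2 * Real.pi * Complex.I * n ∈ β.U := by
  change Real.exp (w + 2 * Real.pi * Complex.I * n).re < β.r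
  have h1 : (w + 2 * Real.pi * Complex.I * n).re = w.re := by
    simp
  rw [h1]
  exact hw

theorem Br.z_shift (β : Br S) (a : Fin 3) (w : ℂ) (n : ℤ) :
    β.z a (w + 2 * Real.pi * Complex.I * n) = β.z a w + β.e a * n := by
  have h1 : Complex.exp (w + 2 * Real.pi * Complex.I * n) = Complex.exp w := by
    rw [show w + 2 * Real.pi * Complex.I * n = w + n * (2 * Real.pi * Complex.I) by ring,
      Complex.exp_periodic.int_mul n w]
  have h2 : (2 * Real.pi * Complex.I : ℂ) ≠ 0 := Complex.two_pi_I_ne_zero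
  unfold Br.z zz
  rw [h1]
  field_simp
  ring

theorem cv_im {β : Br S} {γ : Fin 3 → SL(2, ℤ)} {ζ : Fin 3 → ℂ} (h : ζ ∈ cv β γ) (a : Fin 3) :
    0 < (ζ a).im := by
  obtain ⟨w, hw, rfl⟩ := h
  exact mz_im_sl (γ a) (β.z_im a hw)

theorem cv_smul (β : Br S) (γ δ : Fin 3 → SL(2, ℤ)) :
    cv β (δ * γ) = (fun ζ a => mz (δ a).1 (ζ a)) '' cv β γ := by
  ext ζ
  constructor
  · rintro ⟨w, hw, rfl⟩
    refine ⟨fun a => mz (γ a).1 (β.z a w), ⟨w, hw, rfl⟩, ?_⟩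
    funext a
    exact (mz_mul_sl (δ a) (γ a) (β.z_im a hw)).symm
  · rintro ⟨ξ, ⟨w, hw, rfl⟩, rfl⟩
    refine ⟨w, hw, ?_⟩
    funext a
    exact (mz_mul_sl (δ a) (γ a) (β.z_im a hw)).symm

/-- two moved curves of the same branch with the same ideal -/
theorem stb_of_cv {I : Ideal (MvPolynomial (Fin 3) ℂ)} {β : Br S} {γ γ' : Fin 3 → SL(2, ℤ)}
    (h : vanishingIdeal ℂ (cv β γ) = I) (h' : vanishingIdeal ℂ (cv β γ') = I) : γ' * γ⁻¹ ∈ Stb I := by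
  refine stb_of (A := cv β γ) (fun ζ hζ a => cv_im hζ a) h ?_
  rw [← cv_smul, inv_mul_cancel_right]
  exact h'

theorem cv_of_stb {I : Ideal (MvPolynomial (Fin 3) ℂ)} {β : Br S} {γ δ : Fin 3 → SL(2, ℤ)}
    (h : vanishingIdeal ℂ (cv β γ) = I) (h' : δ ∈ Stb I) : vanishingIdeal ℂ (cv β (δ * γ)) = I := by
  rw [cv_smul]
  exact h' _ (fun ζ hζ a => cv_im hζ a) h

theorem cusp_stb {I : Ideal (MvPolynomial (Fin 3) ℂ)} {β : Br S} {γ : Fin 3 → SL(2, ℤ)}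
    (h : vanishingIdeal ℂ (cv β γ) = I) : (fun a => γ a * ModularGroup.T ^ (β.e a) * (γ a)⁻¹) ∈ Stb I := by
  have hT : cv β (fun a => ModularGroup.T ^ (β.e a)) = cv β 1 := by
    have h2 : ∀ w : ℂ, (fun a => β.z a (w + 2 * Real.pi * Complex.I * ((1 : ℤ) : ℂ))) = fun a =>
        mz (ModularGroup.T ^ (β.e a)).1 (β.z a w) := by
      intro w
      funext a
      rw [Br.z_shift, mz_T]
      push_cast
      ring
    ext ζ
    constructor
    · rintro ⟨w, hw, rfl⟩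
      refine ⟨w + 2 * Real.pi * Complex.I * ((1 : ℤ) : ℂ), β.shift_mem hw 1, ?_⟩
      refine (h2 w).symm.trans ?_
      funext a
      exact (mz_one _).symm
    · rintro ⟨w, hw, rfl⟩
      refine ⟨w + 2 * Real.pi * Complex.I * ((-1 : ℤ) : ℂ), β.shift_mem hw (-1), ?_⟩
      refine Eq.trans ?_ (h2 _)
      funext a
      refine (mz_one _).trans ?_
      congr 1
      push_cast
      ring
  have hg : cv β ((fun a => γ a * ModularGroup.T ^ (β.e a) * (γ a)⁻¹) * γ) = cv β γ := by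
    have h3 : ((fun a => γ a * ModularGroup.T ^ (β.e a) * (γ a)⁻¹) * γ) =
        γ * (fun a => ModularGroup.T ^ (β.e a)) := by
      funext a
      exact inv_mul_cancel_right _ _
    have h4 : cv β γ = cv β (γ * 1) := by rw [mul_one]
    rw [h3, cv_smul, hT, ← cv_smul, ← h4]
  refine stb_of (A := cv β γ) (fun ζ hζ a => cv_im hζ a) h ?_
  rw [← cv_smul, hg]
  exact h

end Pool.Agent.LGO.AX
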