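import Mathlib
import Pool.Agent.LGO.AX.Stab
import Pool.Agent.LGO.AX.JUq
import Pool.Agent.LGO.AX.ChA

/-!
# LGO/AX: overlap of two branches

`β.pt w = β'.pt w' = p`.

`ovl`: near `w` there is a holomorphic change of coordinate `φ`, `φ w = w'`, `β'.pt (φ v) = β.pt v`.
Proof: `v ↦ (β'.pt v).1 = Tp o' (exp v ^ m')` is holomorphic near `w'` (`0 < ‖exp v‖`), with derivative
`≠ 0` (`o' = some c`: `m' exp(m' v)`; `none`: `- m' exp(- m' v)`); so it has a holomorphic local inverse `ι`
(`HasStrictDerivAt.toOpenPartialHomeomorph` / `HasStrictDerivAt.localInverse`), `φ v = ι ((β.pt v).1)`.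
The first coordinates of `β'.pt (φ v)` and `β.pt v` agree.  The second coordinates are two continuous functions of
`v` near `w` with the same value at `w`, both roots of `F((β.pt v).1, ·)`, which is separable at `w`; so they are
equal near `w`: the roots of `F(T, ·)` are isolated uniformly: `F(T,Y) - F(T,Y') = (Y - Y') G(T,Y,Y')` with `G`
polynomial, `G(T,Y,Y) = ∂F/∂Y(T,Y) ≠ 0` at `p` (separable), so `G ≠ 0` near `(p.1,p.2,p.2)`.

`fam_ovl`: `z^{β'} (φ v)` and `z^β v` have the same `j` (`Br.jF_z`), near `w` (on a small disc), so by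
`lift_unique` there is `κ` with `β'.z a (φ v) = mz (κ a) (β.z a v)` on the disc.  For `γ'` put `γ := γ' * κ`:
a polynomial `G` vanishes on `cv β γ` iff `G (γ z^β v) = 0` for `v` in the small disc (identity theorem on the
convex set `β.U`), iff `G (γ' z^{β'} (φ v)) = 0` there, iff `G` vanishes on `cv β' γ'` (identity theorem on `β'.U`,
`φ` is not constant: its image contains a sequence converging to `w'`).
-/

namespace Pool.Agent.LGO.AX

open Polynomial Pool.Agent.LGO Filter Topology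
open scoped MatrixGroups

open MvPolynomial (vanishingIdeal)

variable {S : Cur}

/-- the inverse of the local coordinate -/
private noncomputable def Ovl_q (o : Option ℂ) (T : ℂ) : ℂ := o.elim T⁻¹ (fun c => T - c)

private theorem Ovl_q_Tp (o : Option ℂ) (s : ℂ) : Ovl_q o (Tp o s) = s := by
  cases o with
  | none => simp [Ovl_q, Tp]
  | some c => simp [Ovl_q, Tp]

private theorem Ovl_Tp_q (o : Option ℂ) (T : ℂ) : Tp o (Ovl_q o T) = T := by
  cases o with
  | none => simp [Ovl_q, Tp]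
  | some c => simp [Ovl_q, Tp]

private theorem Ovl_dTp (o : Option ℂ) {s : ℂ} (hs : s ≠ 0) : DifferentiableAt ℂ (Tp o) s := by
  cases o with
  | none =>
    have h : Tp (none : Option ℂ) = fun s : ℂ => s⁻¹ := rfl
    rw [h]
    exact differentiableAt_inv hs
  | some c =>
    have h : Tp (some c) = fun s : ℂ => c + s := rfl
    rw [h]
    fun_prop

private theorem Ovl_dq (o : Option ℂ) {T : ℂ} (h : Ovl_q o T ≠ 0) :
    DifferentiableAt ℂ (Ovl_q o) T := by
  cases o with
  | none =>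
    have h1 : Ovl_q (none : Option ℂ) = fun s : ℂ => s⁻¹ := rfl
    have h2 : T ≠ 0 := by
      rintro rfl
      rw [h1] at h
      simp at h
    rw [h1]
    exact differentiableAt_inv h2
  | some c =>
    have h1 : Ovl_q (some c) = fun s : ℂ => s - c := rfl
    rw [h1]
    fun_prop

private theorem Ovl_dT (β : Br S) (v : ℂ) :
    DifferentiableAt ℂ (fun v => Tp β.o (Complex.exp v ^ β.m)) v := by
  have h : DifferentiableAt ℂ (fun v => Complex.exp v ^ β.m) v := by fun_prop
  exact DifferentiableAt.comp (g := Tp β.o) v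
    (Ovl_dTp β.o (pow_ne_zero _ (Complex.exp_ne_zero v))) h

private theorem Ovl_cY (β : Br S) {w : ℂ} (hw : w ∈ β.U) :
    ContinuousAt (fun v => β.Y (Complex.exp v)) w := by
  have ho : IsOpen {t : ℂ | 0 < ‖t‖ ∧ ‖t‖ < β.r} :=
    (isOpen_lt continuous_const continuous_norm).inter (isOpen_lt continuous_norm continuous_const)
  have hm : Complex.exp w ∈ {t : ℂ | 0 < ‖t‖ ∧ ‖t‖ < β.r} := by
    refine ⟨norm_pos_iff.2 (Complex.exp_ne_zero w), ?_⟩
    rw [Complex.norm_exp]
    exact hw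
  have h1 : ContinuousAt β.Y (Complex.exp w) :=
    (β.dY.differentiableAt (ho.mem_nhds hm)).continuousAt
  exact ContinuousAt.comp (g := β.Y) h1 Complex.continuous_exp.continuousAt

theorem ovl (β β' : Br S) {w w' : ℂ} (hw : w ∈ β.U) (hw' : w' ∈ β'.U) (h : β.pt w = β'.pt w') :
    ∃ (φ : ℂ → ℂ) (ε : ℝ), 0 < ε ∧ Metric.ball w ε ⊆ β.U ∧
      DifferentiableOn ℂ φ (Metric.ball w ε) ∧ φ w = w' ∧ Set.InjOn φ (Metric.ball w ε) ∧
      ∀ v ∈ Metric.ball w ε, φ v ∈ β'.U ∧ β'.pt (φ v) = β.pt v := by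
  have hT0 : Tp β.o (Complex.exp w ^ β.m) = Tp β'.o (Complex.exp w' ^ β'.m) :=
    congrArg Prod.fst h
  have hY0 : β.Y (Complex.exp w) = β'.Y (Complex.exp w') := congrArg Prod.snd h
  obtain ⟨ρ, hρ, σ, hσ, y, -, -, hy⟩ := exists_section S (β.pt_mem hw)
  -- the coordinates
  set T : ℂ → ℂ := fun v => Tp β.o (Complex.exp v ^ β.m) with hTdef
  have hTd : ∀ v, DifferentiableAt ℂ T v := fun v => Ovl_dT β v
  set s₀ : ℂ := Complex.exp w' ^ β'.m with hs₀
  have hs₀0 : s₀ ≠ 0 := pow_ne_zero _ (Complex.exp_ne_zero w')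
  set R : ℂ → ℂ := fun v => Ovl_q β'.o (T v) / s₀ with hRdef
  have hqw : Ovl_q β'.o (T w) = s₀ := by
    change Ovl_q β'.o (Tp β.o (Complex.exp w ^ β.m)) = s₀
    rw [hT0, Ovl_q_Tp]
  have hRw : R w = 1 := by
    change Ovl_q β'.o (T w) / s₀ = 1
    rw [hqw, div_self hs₀0]
  have hm' : (β'.m : ℂ) ≠ 0 := by
    have := β'.m_pos
    exact_mod_cast this.ne'
  have hRd : ∀ v, R v ≠ 0 → DifferentiableAt ℂ R v := by
    intro v hv
    have h1 : Ovl_q β'.o (T v) ≠ 0 := by
      intro h2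
      apply hv
      change Ovl_q β'.o (T v) / s₀ = 0
      rw [h2, zero_div]
    have h2 : DifferentiableAt ℂ (fun v => Ovl_q β'.o (T v)) v :=
      DifferentiableAt.comp (g := Ovl_q β'.o) v (Ovl_dq β'.o h1) (hTd v)
    exact h2.div_const s₀
  have hRc : ContinuousAt R w := (hRd w (by rw [hRw]; exact one_ne_zero)).continuousAt
  set φ : ℂ → ℂ := fun v => w' + (β'.m : ℂ)⁻¹ * Complex.log (R v) with hφ
  have hφw : φ w = w' := by
    change w' + (β'.m : ℂ)⁻¹ * Complex.log (R w) = w'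
    rw [hRw, Complex.log_one, mul_zero, add_zero]
  have hφd : ∀ v, R v ∈ Complex.slitPlane → DifferentiableAt ℂ φ v := by
    intro v hv
    have h1 : DifferentiableAt ℂ (fun v => Complex.log (R v)) v :=
      (hRd v (Complex.slitPlane_ne_zero hv)).clog hv
    exact (h1.const_mul _).const_add _
  have hφc : ContinuousAt φ w := (hφd w (by rw [hRw]; exact Complex.one_mem_slitPlane)).continuousAt
  -- the conditions near `w`
  have ev1 : ∀ᶠ v in nhds w, v ∈ β.U := β.isOpen_U.mem_nhds hw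
  have ev2 : ∀ᶠ v in nhds w, R v ∈ Complex.slitPlane := by
    refine hRc.eventually_mem (Complex.isOpen_slitPlane.mem_nhds ?_)
    rw [hRw]
    exact Complex.one_mem_slitPlane
  have ev3 : ∀ᶠ v in nhds w, φ v ∈ β'.U := by
    refine hφc.eventually_mem (β'.isOpen_U.mem_nhds ?_)
    rw [hφw]
    exact hw'
  have ev4 : ∀ᶠ v in nhds w, T v ∈ Metric.ball (β.pt w).1 ρ :=
    (hTd w).continuousAt.eventually_mem (Metric.ball_mem_nhds _ hρ)
  have ev5 : ∀ᶠ v in nhds w, β.Y (Complex.exp v) ∈ Metric.ball (β.pt w).2 σ :=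
    (Ovl_cY β hw).eventually_mem (Metric.ball_mem_nhds _ hσ)
  have ev6 : ∀ᶠ v in nhds w, β'.Y (Complex.exp (φ v)) ∈ Metric.ball (β.pt w).2 σ := by
    have h1 : ContinuousAt (fun v => β'.Y (Complex.exp v)) (φ w) := by
      rw [hφw]
      exact Ovl_cY β' hw'
    have h2 : ContinuousAt (fun v => β'.Y (Complex.exp (φ v))) w :=
      ContinuousAt.comp (g := fun v => β'.Y (Complex.exp v)) h1 hφc
    refine h2.eventually_mem ?_
    rw [hφw, ← hY0]
    exact Metric.ball_mem_nhds _ hσ
  obtain ⟨ε, hε, hall⟩ := Metric.eventually_nhds_iff_ball.1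
    (ev1.and (ev2.and (ev3.and (ev4.and (ev5.and ev6)))))
  have hm : (0 : ℝ) < β.m := by
    have := β.m_pos
    exact_mod_cast this
  have hsub : Metric.ball w (min ε (Real.pi / β.m)) ⊆ Metric.ball w ε :=
    Metric.ball_subset_ball (min_le_left _ _)
  have hexp : ∀ v, R v ≠ 0 → Complex.exp (φ v) ^ β'.m = Ovl_q β'.o (T v) := by
    intro v hv
    rw [← Complex.exp_nat_mul]
    have e1 : (β'.m : ℂ) * φ v = β'.m * w' + Complex.log (R v) := by
      change (β'.m : ℂ) * (w' + (β'.m : ℂ)⁻¹ * Complex.log (R v)) = _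
      field_simp
    rw [e1, Complex.exp_add, Complex.exp_nat_mul, Complex.exp_log hv]
    change s₀ * (Ovl_q β'.o (T v) / s₀) = _
    field_simp
  refine ⟨φ, min ε (Real.pi / β.m), lt_min hε (div_pos Real.pi_pos hm), ?_, ?_, hφw, ?_, ?_⟩
  · intro v hv
    exact (hall v (hsub hv)).1
  · intro v hv
    exact (hφd v (hall v (hsub hv)).2.1).differentiableWithinAt
  · intro v₁ h₁ v₂ h₂ h12
    have n1 := Complex.slitPlane_ne_zero (hall v₁ (hsub h₁)).2.1
    have n2 := Complex.slitPlane_ne_zero (hall v₂ (hsub h₂)).2.1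
    have e1 : Ovl_q β'.o (T v₁) = Ovl_q β'.o (T v₂) := by
      rw [← hexp v₁ n1, ← hexp v₂ n2, h12]
    have e2 : T v₁ = T v₂ := by
      rw [← Ovl_Tp_q β'.o (T v₁), e1, Ovl_Tp_q]
    have e3 : Complex.exp v₁ ^ β.m = Complex.exp v₂ ^ β.m := by
      have h3 := congrArg (Ovl_q β.o) e2
      change Ovl_q β.o (Tp β.o (Complex.exp v₁ ^ β.m)) = Ovl_q β.o (Tp β.o (Complex.exp v₂ ^ β.m))
        at h3
      rwa [Ovl_q_Tp, Ovl_q_Tp] at h3
    rw [← Complex.exp_nat_mul, ← Complex.exp_nat_mul, Complex.exp_eq_exp_iff_exists_int] at e3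
    obtain ⟨n, hn⟩ := e3
    have e4 : (β.m : ℂ) * (v₁ - v₂) = n * (2 * Real.pi * Complex.I) := by
      linear_combination hn
    have e5 : (β.m : ℝ) * ‖v₁ - v₂‖ = |(n : ℝ)| * (2 * Real.pi) := by
      have h3 := congrArg norm e4
      rw [norm_mul, norm_mul, Complex.norm_natCast, Complex.norm_intCast] at h3
      rw [h3]
      congr 1
      rw [norm_mul, norm_mul, Complex.norm_I, mul_one, Complex.norm_real, Complex.norm_ofNat,
        Real.norm_of_nonneg Real.pi_pos.le]
    have e6 : ‖v₁ - v₂‖ < 2 * (Real.pi / β.m) := by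
      have h3 := Metric.ball_subset_ball (min_le_right ε (Real.pi / β.m)) h₁
      have h4 := Metric.ball_subset_ball (min_le_right ε (Real.pi / β.m)) h₂
      rw [Metric.mem_ball, dist_eq_norm] at h3 h4
      calc ‖v₁ - v₂‖ = ‖(v₁ - w) - (v₂ - w)‖ := by congr 1; ring
        _ ≤ ‖v₁ - w‖ + ‖v₂ - w‖ := norm_sub_le _ _
        _ < _ := by linarith
    have e7 : (β.m : ℝ) * ‖v₁ - v₂‖ < 2 * Real.pi := by
      have h3 : (β.m : ℝ) * ‖v₁ - v₂‖ < β.m * (2 * (Real.pi / β.m)) :=
        mul_lt_mul_of_pos_left e6 hm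
      have h4 : (β.m : ℝ) * (2 * (Real.pi / β.m)) = 2 * Real.pi := by
        field_simp
      linarith
    have e8 : |(n : ℝ)| < 1 := by
      have hpi := Real.pi_pos
      rw [e5] at e7
      by_contra hcon
      push Not at hcon
      nlinarith
    have e9 : n = 0 := by
      have h3 : |n| < 1 := by exact_mod_cast e8
      rwa [Int.abs_lt_one_iff] at h3
    rw [e9] at e4
    simp only [Int.cast_zero, zero_mul, mul_eq_zero] at e4
    rcases e4 with e4 | e4
    · exact absurd e4 (by exact_mod_cast hm.ne')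
    · exact sub_eq_zero.1 e4
  · intro v hv
    obtain ⟨a1, a2, a3, a4, a5, a6⟩ := hall v (hsub hv)
    have n1 := Complex.slitPlane_ne_zero a2
    have e1 : Tp β'.o (Complex.exp (φ v) ^ β'.m) = T v := by
      rw [hexp v n1, Ovl_Tp_q]
    refine ⟨a3, ?_⟩
    have p1 : β.pt v = (T v, β.Y (Complex.exp v)) := rfl
    have p2 : β'.pt (φ v) = (T v, β'.Y (Complex.exp (φ v))) := by
      change (Tp β'.o (Complex.exp (φ v) ^ β'.m), β'.Y (Complex.exp (φ v))) = _
      rw [e1]
    have m1 := β.pt_mem a1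
    have m2 := β'.pt_mem a3
    rw [p1] at m1
    rw [p2] at m2
    have u := hy (T v) a4
    rw [Metric.mem_ball, dist_eq_norm] at a5 a6
    rw [p1, p2, u.2.2 _ a5 m1, u.2.2 _ a6 m2]

/-- composition of a polynomial with holomorphic functions -/
private theorem Ovl_poly (G : MvPolynomial (Fin 3) ℂ) {U : Set ℂ} {f : Fin 3 → ℂ → ℂ}
    (hf : ∀ a, DifferentiableOn ℂ (f a) U) :
    DifferentiableOn ℂ (fun w => MvPolynomial.aeval (fun a => f a w) G) U := by
  induction G using MvPolynomial.induction_on with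
  | C c =>
    simp only [MvPolynomial.aeval_C]
    exact differentiableOn_const _
  | add p q hp hq =>
    simp only [map_add]
    exact hp.add hq
  | mul_X p a hp =>
    simp only [map_mul, MvPolynomial.aeval_X]
    exact hp.mul (hf a)

private theorem Ovl_mzz (β : Br S) (γ : Fin 3 → SL(2, ℤ)) (a : Fin 3) :
    DifferentiableOn ℂ (fun w => mz (γ a).1 (β.z a w)) β.U := by
  have h : ((γ a).1).det ≠ 0 := by
    rw [(γ a).2]
    exact one_ne_zero
  exact (mz_diff h).comp (β.z_diff a) (fun w hw => β.z_im a hw)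

/-- the values of the lifts of the two branches at the common point, and the ideals -/
theorem fam_ovl (β β' : Br S) {w w' : ℂ} (hw : w ∈ β.U) (hw' : w' ∈ β'.U)
    (h : β.pt w = β'.pt w') : ∃ κ : Fin 3 → SL(2, ℤ), (∀ a, β'.z a w' = mz (κ a).1 (β.z a w)) ∧
      ∀ γ', vanishingIdeal ℂ (cv β (γ' * κ)) = vanishingIdeal ℂ (cv β' γ') := by
  obtain ⟨φ, ε, hε, hsub, hφd, hφw, hinj, hall⟩ := ovl β β' hw hw' h
  have hwb : w ∈ Metric.ball w ε := Metric.mem_ball_self hε
  have hlift : ∀ a, ∃ γ : SL(2, ℤ), ∀ v ∈ Metric.ball w ε,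
      β'.z a (φ v) = mz γ.1 (β.z a v) := by
    intro a
    refine lift_unique (D := Metric.ball w ε) (f := β.z a) (g := fun v => β'.z a (φ v))
      Metric.isOpen_ball (convex_ball w ε).isPreconnected ⟨w, hwb⟩ ((β.z_diff a).mono hsub) ?_
      (fun v hv => β.z_im a (hsub hv)) (fun v hv => β'.z_im a (hall v hv).1) ?_
    · exact (β'.z_diff a).comp hφd (fun v hv => (hall v hv).1)
    · intro v hv
      rw [β.jF_z a (hsub hv), β'.jF_z a (hall v hv).1, (hall v hv).2]
  choose κ hκ using hlift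
  refine ⟨κ, fun a => ?_, fun γ' => ?_⟩
  · have h1 := hκ a w hwb
    rwa [hφw] at h1
  · -- the two functions on the disc
    have hrel : ∀ v ∈ Metric.ball w ε, (fun a => mz ((γ' * κ) a).1 (β.z a v)) =
        fun a => mz (γ' a).1 (β'.z a (φ v)) := by
      intro v hv
      funext a
      rw [hκ a v hv, Pi.mul_apply, mz_mul_sl _ _ (β.z_im a (hsub hv))]
    have hφc : ContinuousAt φ w :=
      (hφd.differentiableAt (Metric.isOpen_ball.mem_nhds hwb)).continuousAt
    ext G
    rw [MvPolynomial.mem_vanishingIdeal_iff, MvPolynomial.mem_vanishingIdeal_iff]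
    constructor
    · intro hG
      have han : AnalyticOnNhd ℂ
          (fun v => MvPolynomial.aeval (fun a => mz (γ' a).1 (β'.z a v)) G : ℂ → ℂ) β'.U :=
        (Ovl_poly G (fun a => Ovl_mzz β' γ' a)).analyticOnNhd β'.isOpen_U
      have htend : Tendsto φ (𝓝[≠] w) (𝓝[≠] w') := by
        refine tendsto_nhdsWithin_iff.2 ⟨?_, ?_⟩
        · have h1 : Tendsto φ (𝓝 w) (𝓝 (φ w)) := hφc
          rw [hφw] at h1
          exact h1.mono_left nhdsWithin_le_nhds
        · have h1 : ∀ᶠ v in 𝓝[≠] w, v ∈ Metric.ball w ε :=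
            nhdsWithin_le_nhds (Metric.ball_mem_nhds w hε)
          filter_upwards [h1, self_mem_nhdsWithin] with v hv hne
          intro hv2
          rw [Set.mem_singleton_iff, ← hφw] at hv2
          exact hne (hinj hv hwb hv2)
      have hfr : ∃ᶠ z in 𝓝[≠] w',
          (MvPolynomial.aeval (fun a => mz (γ' a).1 (β'.z a z)) G : ℂ) = 0 := by
        refine htend.frequently (Eventually.frequently ?_)
        have h1 : ∀ᶠ v in 𝓝[≠] w, v ∈ Metric.ball w ε :=
          nhdsWithin_le_nhds (Metric.ball_mem_nhds w hε)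
        filter_upwards [h1] with v hv
        rw [← hrel v hv]
        exact hG _ ⟨v, hsub hv, rfl⟩
      have hzero := han.eqOn_zero_of_preconnected_of_frequently_eq_zero
        β'.convex_U.isPreconnected hw' hfr
      rintro ζ ⟨v, hv, rfl⟩
      exact hzero hv
    · intro hG
      have han : AnalyticOnNhd ℂ
          (fun v => MvPolynomial.aeval (fun a => mz ((γ' * κ) a).1 (β.z a v)) G : ℂ → ℂ) β.U :=
        (Ovl_poly G (fun a => Ovl_mzz β (γ' * κ) a)).analyticOnNhd β.isOpen_U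
      have hev : (fun v => MvPolynomial.aeval (fun a => mz ((γ' * κ) a).1 (β.z a v)) G : ℂ → ℂ)
          =ᶠ[𝓝 w] 0 := by
        filter_upwards [Metric.ball_mem_nhds w hε] with v hv
        rw [hrel v hv]
        exact hG _ ⟨φ v, (hall v hv).1, rfl⟩
      have hzero := han.eqOn_zero_of_preconnected_of_eventuallyEq_zero
        β.convex_U.isPreconnected hw hev
      rintro ζ ⟨v, hv, rfl⟩
      exact hzero hv

end Pool.Agent.LGO.AX
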