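import Mathlib
import Pool.Agent.LGO.AX.Ovl
import Pool.Agent.LGO.AX.CoM

/-!
# LGO/AX: all branches have the same family of ideals, and functions on the curve

`br_nhds`: near `w` the first coordinate of `β.pt` is a local homeomorphism onto a neighbourhood of `p.1`
(derivative `≠ 0`, open mapping), and a point `(T, Y) ∈ S.pt` near `p` has `Y` = the second coordinate of `β.pt v`,
where `T = (β.pt v).1`, `v` near `w` (roots are isolated, as in `ovl`).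

`br_avoid`: `Tp` is injective on small positive numbers `exp (m w)`, `w` real.

`transport`: by `connected (S.rem A.cen)` (`LGO/AX/CoM.lean`) for the property
`P p := ∃ β₁ : Br S, ∃ w ∈ β₁.U, β₁.pt w = p ∧ ∃ γ₁, vI (cv β₁ γ₁) = vI (cv β γ)`.
For `p` in `(S.rem A.cen).pt` (`Cur.mem_rem`) there are a branch `β₁` of the atlas and `w₁` with `β₁.pt w₁ = p`
(`A.cover`; `w₁ ∈ β₁.U` because `exp (-4) < 1`); the points `p'` of `S.pt` near `p` are `β₁.pt v` (`br_nhds`), and by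
`fam_ovl` (both directions: `κ` is invertible) `P p'` holds iff `∃ γ₁, vI (cv β₁ γ₁) = vI (cv β γ)`, which does not depend
on `p'`: so `LC (S.rem A.cen) P`.  `P` holds at a point of `β` outside `A.cen` (`br_avoid`), so at a point of `β'`
outside `A.cen`, and `fam_ovl` again.

`glob`: for `Q` invariant under `Stb I` the value `Q (γ z^β w)` depends only on `p = β.pt w`: by `fam_ovl`,
`β'.z a w' = mz (κ a) (β.z a w)` and `vI (cv β (γ' * κ)) = vI (cv β' γ') = I`, so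
`δ := γ' * κ * γ⁻¹ ∈ Stb I` (`stb_of_cv`) and `γ' z^{β'}(w') = δ (γ z^β(w))` (`mz_mul_sl`).  Define `h p` by choice.
-/

namespace Pool.Agent.LGO.AX

open Polynomial Pool.Agent.LGO Filter Topology
open scoped MatrixGroups
open MvPolynomial (vanishingIdeal)

variable {S : Cur}

private theorem Trans_Tp (o : Option ℂ) {s : ℂ} (hs : s ≠ 0) : ∃ c : ℂ, c ≠ 0 ∧ HasStrictDerivAt (Tp o) c s := by
  rcases o with _ | b
  · refine ⟨-(s ^ 2)⁻¹, neg_ne_zero.mpr (inv_ne_zero (pow_ne_zero 2 hs)), ?_⟩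
    exact hasStrictDerivAt_inv hs
  · refine ⟨1, one_ne_zero, ?_⟩
    exact (hasStrictDerivAt_id s).const_add b

private theorem Trans_nhds (β : Br S) (w : ℂ) :
    Filter.map (fun v => (β.pt v).1) (𝓝 w) = 𝓝 (β.pt w).1 := by
  have h1 : HasStrictDerivAt (fun v : ℂ => Complex.exp v ^ β.m)
      (β.m * Complex.exp w ^ (β.m - 1) * Complex.exp w) w := by
    exact (Complex.hasStrictDerivAt_exp w).pow β.m
  have h0 : Complex.exp w ^ β.m ≠ 0 := pow_ne_zero _ (Complex.exp_ne_zero w)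
  obtain ⟨c, hc, h2⟩ := Trans_Tp β.o h0
  have h3 : HasStrictDerivAt (fun v => (β.pt v).1)
      (c * (β.m * Complex.exp w ^ (β.m - 1) * Complex.exp w)) w := by
    exact HasStrictDerivAt.comp (h := fun v : ℂ => Complex.exp v ^ β.m) (h₂ := Tp β.o) w h2 h1
  refine h3.map_nhds_eq ?_
  have h4 : (β.m : ℂ) ≠ 0 := Nat.cast_ne_zero.mpr β.m_pos.ne'
  exact mul_ne_zero hc (mul_ne_zero (mul_ne_zero h4 (pow_ne_zero _ (Complex.exp_ne_zero w)))
    (Complex.exp_ne_zero w))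

private theorem Trans_snd (β : Br S) {w : ℂ} (hw : w ∈ β.U) :
    ContinuousAt (fun v => (β.pt v).2) w := by
  have h1 : IsOpen {t : ℂ | 0 < ‖t‖ ∧ ‖t‖ < β.r} :=
    (isOpen_lt continuous_const continuous_norm).inter (isOpen_lt continuous_norm continuous_const)
  have h2 : Complex.exp w ∈ {t : ℂ | 0 < ‖t‖ ∧ ‖t‖ < β.r} := by
    refine ⟨norm_pos_iff.mpr (Complex.exp_ne_zero w), ?_⟩
    rw [Complex.norm_exp]
    exact hw
  have h3 : ContinuousAt β.Y (Complex.exp w) :=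
    ((β.dY _ h2).differentiableAt (h1.mem_nhds h2)).continuousAt
  exact ContinuousAt.comp' (g := β.Y) (f := Complex.exp) h3 Complex.continuous_exp.continuousAt

theorem br_nhds (β : Br S) {w : ℂ} (hw : w ∈ β.U) :
    ∀ᶠ p in 𝓝[S.pt] (β.pt w), ∃ v ∈ β.U, β.pt v = p := by
  obtain ⟨ρ, hρ, σ, hσ, y, -, -, hy⟩ := exists_section S (β.pt_mem hw)
  have e1 : ∀ᶠ v in 𝓝 w, v ∈ β.U := β.isOpen_U.mem_nhds hw
  have e2 : ∀ᶠ v in 𝓝 w, ‖(β.pt v).2 - (β.pt w).2‖ < σ := by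
    have h1 : ∀ᶠ u in 𝓝 (β.pt w).2, ‖u - (β.pt w).2‖ < σ := by
      filter_upwards [Metric.ball_mem_nhds (β.pt w).2 hσ] with u hu
      rwa [mem_ball_iff_norm] at hu
    exact (Trans_snd β hw).eventually h1
  have e3 : ∀ᶠ T in 𝓝 (β.pt w).1, ∃ v, (v ∈ β.U ∧ ‖(β.pt v).2 - (β.pt w).2‖ < σ) ∧ (β.pt v).1 = T := by
    rw [← Trans_nhds β w]
    exact Filter.image_mem_map (e1.and e2)
  have e4 : ∀ᶠ T in 𝓝 (β.pt w).1, T ∈ Metric.ball (β.pt w).1 ρ := Metric.ball_mem_nhds _ hρ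
  have e5 : ∀ᶠ p in 𝓝 (β.pt w), (∃ v, (v ∈ β.U ∧ ‖(β.pt v).2 - (β.pt w).2‖ < σ) ∧ (β.pt v).1 = p.1) ∧
      p.1 ∈ Metric.ball (β.pt w).1 ρ := continuousAt_fst.eventually (e3.and e4)
  have e6 : ∀ᶠ p in 𝓝 (β.pt w), ‖p.2 - (β.pt w).2‖ < σ := by
    have h1 : ∀ᶠ u in 𝓝 (β.pt w).2, ‖u - (β.pt w).2‖ < σ := by
      filter_upwards [Metric.ball_mem_nhds (β.pt w).2 hσ] with u hu
      rwa [mem_ball_iff_norm] at hu
    exact continuousAt_snd.eventually h1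
  rw [eventually_nhdsWithin_iff]
  filter_upwards [e5, e6] with p hp1 hp2 hp
  obtain ⟨⟨v, ⟨hv, hv2⟩, hv1⟩, hpb⟩ := hp1
  refine ⟨v, hv, Prod.ext hv1 ?_⟩
  obtain ⟨-, -, huniq⟩ := hy p.1 hpb
  rw [huniq p.2 hp2 hp]
  refine huniq _ hv2 ?_
  rw [← hv1]
  exact β.pt_mem hv

/-- a branch has a point outside finitely many fibres -/
theorem br_avoid (β : Br S) (E : Finset ℂ) : ∃ w ∈ β.U, (β.pt w).1 ∉ E := by
  obtain ⟨w, hw⟩ := β.nonempty_U
  have h1 : (fun v => (β.pt v).1) '' β.U ∈ 𝓝 (β.pt w).1 := by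
    rw [← Trans_nhds β w]
    exact Filter.image_mem_map (β.isOpen_U.mem_nhds hw)
  have h2 : ((fun v => (β.pt v).1) '' β.U).Infinite := infinite_of_mem_nhds _ h1
  obtain ⟨T, ⟨v, hv, hvT⟩, hT⟩ := h2.exists_notMem_finset E
  refine ⟨v, hv, ?_⟩
  rw [show (β.pt v).1 = T from hvT]
  exact hT

private theorem Trans_U {S : Cur} (β : Br S) {w : ℂ} (h : Real.exp w.re ≤ β.r * Real.exp (-4)) : w ∈ β.U := by
  change Real.exp w.re < β.r
  have h1 : Real.exp (-4) < 1 := by rw [← Real.exp_zero]; exact Real.exp_lt_exp.mpr (by norm_num)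
  have h2 := β.r_pos
  nlinarith

theorem transport (A : Atl S) (β β' : Br S) (γ : Fin 3 → SL(2, ℤ)) :
    ∃ γ', vanishingIdeal ℂ (cv β' γ') = vanishingIdeal ℂ (cv β γ) := by
  set P : ℂ × ℂ → Prop := fun p => ∃ β₁ : Br S, ∃ w ∈ β₁.U, β₁.pt w = p ∧
    ∃ γ₁, vanishingIdeal ℂ (cv β₁ γ₁) = vanishingIdeal ℂ (cv β γ) with hP
  have key : ∀ (β₁ : Br S) (v : ℂ), v ∈ β₁.U →
      (P (β₁.pt v) ↔ ∃ γ₁, vanishingIdeal ℂ (cv β₁ γ₁) = vanishingIdeal ℂ (cv β γ)) := by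
    intro β₁ v hv
    constructor
    · rintro ⟨β₂, w₂, hw₂, h2, γ₂, hγ₂⟩
      obtain ⟨κ, -, hκ⟩ := fam_ovl β₁ β₂ hv hw₂ h2.symm
      exact ⟨γ₂ * κ, (hκ γ₂).trans hγ₂⟩
    · rintro ⟨γ₁, h1⟩
      exact ⟨β₁, v, hv, rfl, γ₁, h1⟩
  have hLC : LC (S.rem A.cen) P := by
    intro p hp
    rw [S.mem_rem] at hp
    obtain ⟨i, w₁, h1, -, rfl⟩ := A.cover p hp.1 hp.2
    have hw₁ : w₁ ∈ (A.br i).U := Trans_U _ h1
    have h2 := br_nhds (A.br i) hw₁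
    have h3 : 𝓝[(S.rem A.cen).pt] ((A.br i).pt w₁) ≤ 𝓝[S.pt] ((A.br i).pt w₁) := by
      refine nhdsWithin_mono _ ?_
      intro q hq
      exact ((S.mem_rem _ _).mp hq).1
    filter_upwards [h3 h2] with p' hp'
    obtain ⟨v, hv, rfl⟩ := hp'
    rw [key (A.br i) v hv, key (A.br i) w₁ hw₁]
  obtain ⟨w, hw, hwE⟩ := br_avoid β A.cen
  obtain ⟨w', hw', hwE'⟩ := br_avoid β' A.cen
  have h1 : P (β'.pt w') := by
    refine connected (S.rem A.cen) hLC (p₀ := β.pt w) ?_ ?_ (β'.pt w') ?_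
    · exact (S.mem_rem _ _).mpr ⟨β.pt_mem hw, hwE⟩
    · exact ⟨β, w, hw, rfl, γ, rfl⟩
    · exact (S.mem_rem _ _).mpr ⟨β'.pt_mem hw', hwE'⟩
  exact (key β' w' hw').mp h1

/-- functions on the curve from functions on the lifts which are invariant under the stabiliser -/
theorem glob {X : Type} [Inhabited X] {I : Ideal (MvPolynomial (Fin 3) ℂ)} (Q : (Fin 3 → ℂ) → X)
    (hQ : ∀ δ ∈ Stb I, ∀ ζ : Fin 3 → ℂ, (∀ a, 0 < (ζ a).im) →
      Q (fun a => mz (δ a).1 (ζ a)) = Q ζ) :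
    ∃ h : ℂ × ℂ → X, ∀ (β : Br S) (γ : Fin 3 → SL(2, ℤ)), vanishingIdeal ℂ (cv β γ) = I →
      ∀ w ∈ β.U, h (β.pt w) = Q (fun a => mz (γ a).1 (β.z a w)) := by
  classical
  have hex : ∀ p : ℂ × ℂ, ∃ x : X, ∀ (β : Br S) (γ : Fin 3 → SL(2, ℤ)), vanishingIdeal ℂ (cv β γ) = I →
      ∀ w ∈ β.U, β.pt w = p → x = Q (fun a => mz (γ a).1 (β.z a w)) := by
    intro p
    by_cases hp : ∃ (β : Br S) (γ : Fin 3 → SL(2, ℤ)) (w : ℂ), vanishingIdeal ℂ (cv β γ) = I ∧ w ∈ β.U ∧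
        β.pt w = p
    · obtain ⟨β', γ', w', hI', hw', hp'⟩ := hp
      refine ⟨Q (fun a => mz (γ' a).1 (β'.z a w')), ?_⟩
      intro β γ hI w hw hpw
      obtain ⟨κ, hκ, hv⟩ := fam_ovl β β' hw hw' (hpw.trans hp'.symm)
      have hδ : γ' * κ * γ⁻¹ ∈ Stb I := stb_of_cv hI ((hv γ').trans hI')
      have hz : ∀ a, 0 < (mz (γ a).1 (β.z a w)).im := fun a => mz_im_sl (γ a) (β.z_im a hw)
      rw [← hQ _ hδ (fun a => mz (γ a).1 (β.z a w)) hz]
      have h2 : (fun a => mz (γ' a).1 (β'.z a w')) =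
          fun a => mz ((γ' * κ * γ⁻¹) a).1 (mz (γ a).1 (β.z a w)) := by
        funext a
        rw [hκ a, ← mz_mul_sl _ _ (β.z_im a hw), ← mz_mul_sl _ _ (β.z_im a hw)]
        have h3 : (γ' * κ * γ⁻¹) a * γ a = γ' a * κ a := by
          simp only [Pi.mul_apply, Pi.inv_apply, inv_mul_cancel_right]
        rw [h3]
      rw [h2]
    · refine ⟨default, ?_⟩
      intro β γ hI w hw hpw
      exact absurd ⟨β, γ, w, hI, hw, hpw⟩ hp
  choose h hh using hex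
  exact ⟨h, fun β γ hI w hw => hh _ β γ hI w hw rfl⟩

end Pool.Agent.LGO.AX
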