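import Mathlib
import Pool.Agent.LGO.AX.Trans
import Pool.Agent.LGO.AX.Fz

/-!
# LGO/AX: cusps of every coordinate, and elements of the stabiliser which move the cusp

* `sec_param`: a section `y` through a point of a branch is parametrised by the branch: as in `ovl`, the first
  coordinate of `β.pt` has a holomorphic local inverse `v` at `w`, and the second coordinates of `β.pt (v T)` and
  `(T, y T)` agree near `T₀` (isolated roots).
* `glob_hol`: the function `h` of `glob` for `Q ζ = q (ζ a)` is holomorphic along sections of `S.rem A.cen`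
  (`sec_param`, `A.cover`, `transport` for the existence of `γ`).
* `exists_cusp` (M0): otherwise `(A.br i).e a = 0` for all `i`; on the closed disc `‖t‖ ≤ r exp (-4)` the function
  `jF (ψ a t)` is continuous (`cen`, `im_pos`; `jF_analytic`), so bounded; by `A.cover` and `jz` the function `x a` is
  bounded on `(S.rem A.cen).pt`; it is holomorphic (`x_hol`); by `liouville (S.rem A.cen)` (`LGO/AX/CoM.lean`) it has
  finitely many values: against `x_avoid`.
* `stb_c` (M1): suppose `(δ a).1 1 0 = 0` for all `δ ∈ Stb I`, `I = vI (cv β 1)`.  Then `δ a = ± (1 n; 0 1)` (determinant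
  `1`), so `Q ζ := exp (2 π i (ζ a))` is invariant under `Stb I`.  `glob`, `glob_hol` (`q z = exp (2 π i z)`, `hI` by
  `β, 1`), `‖Q‖ < 1` on the upper half plane (every `p ∈ (S.rem A.cen).pt` is a point of a branch by `A.cover`, with some
  `γ` by `transport`), so by `liouville` for `S.rem A.cen` `h` has finitely many values on `(S.rem A.cen).pt`.  But on `β`:
  `h (β.pt w) = exp (2 π i z a w) = exp (e w) exp (2 π i ψ a (exp w))` (`mz_one`), `e = β.e a > 0`, is not `0` and tends to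
  `0` for `Re w → -∞` (`w` real; only finitely many `w` real, `w ≤ w₀`, have `(β.pt w).1 ∈ A.cen`: `Tp` is injective on
  small positive `s = exp (m w)`): infinitely many values.
-/

namespace Pool.Agent.LGO.AX

open Polynomial Pool.Agent.LGO Filter Topology
open scoped MatrixGroups
open MvPolynomial (vanishingIdeal)

variable {S : Cur}

/-- the inverse of the local coordinate -/
private noncomputable def Cus_q (o : Option ℂ) (T : ℂ) : ℂ := o.elim T⁻¹ (fun c => T - c)

private theorem Cus_q_Tp (o : Option ℂ) (s : ℂ) : Cus_q o (Tp o s) = s := by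
  cases o with
  | none => simp [Cus_q, Tp]
  | some c => simp [Cus_q, Tp]

private theorem Cus_Tp_q (o : Option ℂ) (T : ℂ) : Tp o (Cus_q o T) = T := by
  cases o with
  | none => simp [Cus_q, Tp]
  | some c => simp [Cus_q, Tp]

private theorem Cus_dq (o : Option ℂ) {T : ℂ} (h : Cus_q o T ≠ 0) :
    DifferentiableAt ℂ (Cus_q o) T := by
  cases o with
  | none =>
    have h1 : Cus_q (none : Option ℂ) = fun s : ℂ => s⁻¹ := rfl
    have h2 : T ≠ 0 := by
      rintro rfl
      rw [h1] at h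
      simp at h
    rw [h1]
    exact differentiableAt_inv h2
  | some c =>
    have h1 : Cus_q (some c) = fun s : ℂ => s - c := rfl
    rw [h1]
    fun_prop

private theorem Cus_cY (β : Br S) {w : ℂ} (hw : w ∈ β.U) :
    ContinuousAt (fun v => β.Y (Complex.exp v)) w := by
  have ho : IsOpen {t : ℂ | 0 < ‖t‖ ∧ ‖t‖ < β.r} :=
    (isOpen_lt continuous_const continuous_norm).inter (isOpen_lt continuous_norm continuous_const)
  have hm : Complex.exp w ∈ {t : ℂ | 0 < ‖t‖ ∧ ‖t‖ < β.r} := by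
    refine ⟨norm_pos_iff.2 (Complex.exp_ne_zero w), ?_⟩
    rw [Complex.norm_exp]
    exact hw
  have h1 : ContinuousAt β.Y (Complex.exp w) :=
    (β.dY.differentiableAt (ho.mem_nhds hm)).continuousAt
  exact ContinuousAt.comp (g := β.Y) h1 Complex.continuous_exp.continuousAt

private theorem Cus_U (β : Br S) {w : ℂ} (h : Real.exp w.re ≤ β.r * Real.exp (-4)) : w ∈ β.U := by
  change Real.exp w.re < β.r
  have h1 : Real.exp (-4) < 1 := by rw [← Real.exp_zero]; exact Real.exp_lt_exp.mpr (by norm_num)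
  have h2 := β.r_pos
  nlinarith

theorem sec_param (β : Br S) {w : ℂ} (hw : w ∈ β.U) {Ω : Set ℂ} (hΩ : IsOpen Ω) {y : ℂ → ℂ}
    (hy : DifferentiableOn ℂ y Ω) (hp : ∀ T ∈ Ω, (T, y T) ∈ S.pt) {T₀ : ℂ} (hT : T₀ ∈ Ω)
    (h : β.pt w = (T₀, y T₀)) : ∃ (v : ℂ → ℂ) (ε : ℝ), 0 < ε ∧ Metric.ball T₀ ε ⊆ Ω ∧
      DifferentiableOn ℂ v (Metric.ball T₀ ε) ∧ v T₀ = w ∧
      ∀ T ∈ Metric.ball T₀ ε, v T ∈ β.U ∧ β.pt (v T) = (T, y T) := by
  have hT0 : Tp β.o (Complex.exp w ^ β.m) = T₀ := congrArg Prod.fst h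
  have hY0 : β.Y (Complex.exp w) = y T₀ := congrArg Prod.snd h
  obtain ⟨ρ, hρ, σ, hσ, y', -, -, hy'⟩ := exists_section S (hp T₀ hT)
  set s₀ : ℂ := Complex.exp w ^ β.m with hs₀
  have hs₀0 : s₀ ≠ 0 := pow_ne_zero _ (Complex.exp_ne_zero w)
  set R : ℂ → ℂ := fun T => Cus_q β.o T / s₀ with hRdef
  have hqT : Cus_q β.o T₀ = s₀ := by
    rw [← hT0, Cus_q_Tp]
  have hRT : R T₀ = 1 := by
    change Cus_q β.o T₀ / s₀ = 1
    rw [hqT, div_self hs₀0]
  have hm' : (β.m : ℂ) ≠ 0 := by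
    have := β.m_pos
    exact_mod_cast this.ne'
  have hRd : ∀ T, R T ≠ 0 → DifferentiableAt ℂ R T := by
    intro T hT'
    have h1 : Cus_q β.o T ≠ 0 := by
      intro h2
      apply hT'
      change Cus_q β.o T / s₀ = 0
      rw [h2, zero_div]
    exact (Cus_dq β.o h1).div_const s₀
  have hRc : ContinuousAt R T₀ := (hRd T₀ (by rw [hRT]; exact one_ne_zero)).continuousAt
  set v : ℂ → ℂ := fun T => w + (β.m : ℂ)⁻¹ * Complex.log (R T) with hv
  have hvT : v T₀ = w := by
    change w + (β.m : ℂ)⁻¹ * Complex.log (R T₀) = w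
    rw [hRT, Complex.log_one, mul_zero, add_zero]
  have hvd : ∀ T, R T ∈ Complex.slitPlane → DifferentiableAt ℂ v T := by
    intro T hT'
    have h1 : DifferentiableAt ℂ (fun T => Complex.log (R T)) T :=
      (hRd T (Complex.slitPlane_ne_zero hT')).clog hT'
    exact (h1.const_mul _).const_add _
  have hvc : ContinuousAt v T₀ := (hvd T₀ (by rw [hRT]; exact Complex.one_mem_slitPlane)).continuousAt
  have ev1 : ∀ᶠ T in nhds T₀, T ∈ Ω := hΩ.mem_nhds hT
  have ev2 : ∀ᶠ T in nhds T₀, R T ∈ Complex.slitPlane := by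
    refine hRc.eventually_mem (Complex.isOpen_slitPlane.mem_nhds ?_)
    rw [hRT]
    exact Complex.one_mem_slitPlane
  have ev3 : ∀ᶠ T in nhds T₀, v T ∈ β.U := by
    refine hvc.eventually_mem (β.isOpen_U.mem_nhds ?_)
    rw [hvT]
    exact hw
  have ev4 : ∀ᶠ T in nhds T₀, T ∈ Metric.ball T₀ ρ := Metric.ball_mem_nhds _ hρ
  have ev5 : ∀ᶠ T in nhds T₀, y T ∈ Metric.ball (y T₀) σ :=
    ((hy.differentiableAt (hΩ.mem_nhds hT)).continuousAt).eventually_mem (Metric.ball_mem_nhds _ hσ)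
  have ev6 : ∀ᶠ T in nhds T₀, β.Y (Complex.exp (v T)) ∈ Metric.ball (y T₀) σ := by
    have h1 : ContinuousAt (fun v => β.Y (Complex.exp v)) (v T₀) := by
      rw [hvT]
      exact Cus_cY β hw
    have h2 : ContinuousAt (fun T => β.Y (Complex.exp (v T))) T₀ :=
      ContinuousAt.comp (g := fun v => β.Y (Complex.exp v)) h1 hvc
    refine h2.eventually_mem ?_
    rw [hvT, hY0]
    exact Metric.ball_mem_nhds _ hσ
  obtain ⟨ε, hε, hall⟩ := Metric.eventually_nhds_iff_ball.1
    (ev1.and (ev2.and (ev3.and (ev4.and (ev5.and ev6)))))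
  refine ⟨v, ε, hε, fun T hT' => (hall T hT').1, fun T hT' =>
    (hvd T (hall T hT').2.1).differentiableWithinAt, hvT, ?_⟩
  intro T hT'
  obtain ⟨a1, a2, a3, a4, a5, a6⟩ := hall T hT'
  have n1 := Complex.slitPlane_ne_zero a2
  have e1 : Complex.exp (v T) ^ β.m = Cus_q β.o T := by
    rw [← Complex.exp_nat_mul]
    have e2 : (β.m : ℂ) * v T = β.m * w + Complex.log (R T) := by
      change (β.m : ℂ) * (w + (β.m : ℂ)⁻¹ * Complex.log (R T)) = _
      field_simp
    rw [e2, Complex.exp_add, Complex.exp_nat_mul, Complex.exp_log n1]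
    change s₀ * (Cus_q β.o T / s₀) = _
    field_simp
  have p1 : β.pt (v T) = (T, β.Y (Complex.exp (v T))) := by
    change (Tp β.o (Complex.exp (v T) ^ β.m), β.Y (Complex.exp (v T))) = _
    rw [e1, Cus_Tp_q]
  refine ⟨a3, ?_⟩
  have m1 := β.pt_mem a3
  rw [p1] at m1
  have u := hy' T a4
  rw [Metric.mem_ball, dist_eq_norm] at a5 a6
  rw [p1, u.2.2 _ a6 m1, ← u.2.2 _ a5 (hp T a1)]

theorem glob_hol (A : Atl S) {I : Ideal (MvPolynomial (Fin 3) ℂ)}
    (hI : ∃ (β : Br S) (γ : Fin 3 → SL(2, ℤ)), vanishingIdeal ℂ (cv β γ) = I)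
    (a : Fin 3) {q : ℂ → ℂ} (hq : DifferentiableOn ℂ q {z : ℂ | 0 < z.im}) {h : ℂ × ℂ → ℂ}
    (hh : ∀ (β : Br S) (γ : Fin 3 → SL(2, ℤ)), vanishingIdeal ℂ (cv β γ) = I → ∀ w ∈ β.U,
      h (β.pt w) = q (mz (γ a).1 (β.z a w))) : Hol (S.rem A.cen) h := by
  obtain ⟨β₀, γ₀, hI₀⟩ := hI
  intro Ω y hΩ hy hp T₀ hT₀
  have hp' : ∀ T ∈ Ω, (T, y T) ∈ S.pt := fun T hT => ((S.mem_rem _ _).mp (hp T hT)).1
  have hc : T₀ ∉ A.cen := ((S.mem_rem _ _).mp (hp T₀ hT₀)).2
  obtain ⟨i, w, h1, -, h2⟩ := A.cover (T₀, y T₀) (hp' T₀ hT₀) hc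
  have hw : w ∈ (A.br i).U := Cus_U _ h1
  obtain ⟨v, ε, hε, hsub, hvd, hvT, hv⟩ := sec_param (A.br i) hw hΩ hy hp' hT₀ h2
  obtain ⟨γ', hγ'⟩ := transport A β₀ (A.br i) γ₀
  have hT₀b : T₀ ∈ Metric.ball T₀ ε := Metric.mem_ball_self hε
  have hdet : ((γ' a).1).det ≠ 0 := by
    rw [(γ' a).2]
    exact one_ne_zero
  have d1 : DifferentiableOn ℂ (fun T => (A.br i).z a (v T)) (Metric.ball T₀ ε) :=
    ((A.br i).z_diff a).comp hvd (fun T hT => (hv T hT).1)
  have d2 : DifferentiableOn ℂ (fun T => mz (γ' a).1 ((A.br i).z a (v T))) (Metric.ball T₀ ε) :=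
    (mz_diff hdet).comp d1 (fun T hT => (A.br i).z_im a (hv T hT).1)
  have d3 : DifferentiableOn ℂ (fun T => q (mz (γ' a).1 ((A.br i).z a (v T)))) (Metric.ball T₀ ε) :=
    hq.comp d2 (fun T hT => mz_im_sl (γ' a) ((A.br i).z_im a (hv T hT).1))
  have d4 : DifferentiableAt ℂ (fun T => q (mz (γ' a).1 ((A.br i).z a (v T)))) T₀ :=
    d3.differentiableAt (Metric.isOpen_ball.mem_nhds hT₀b)
  have hev : (fun T => h (T, y T)) =ᶠ[nhds T₀] fun T => q (mz (γ' a).1 ((A.br i).z a (v T))) := by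
    filter_upwards [Metric.isOpen_ball.mem_nhds hT₀b] with T hT
    rw [← (hv T hT).2]
    exact hh (A.br i) γ' (hγ'.trans hI₀) (v T) (hv T hT).1
  exact (hev.differentiableAt_iff.mpr d4).differentiableWithinAt

theorem exists_cusp (hN : S.NCo) (A : Atl S) (a : Fin 3) : ∃ i, 0 < (A.br i).e a := by
  by_contra hcon
  push Not at hcon
  have he : ∀ i, (A.br i).e a = 0 := fun i => Nat.le_zero.mp (hcon i)
  have hz : ∀ i w, zz ((A.br i).e a) ((A.br i).ψ a) w = (A.br i).ψ a (Complex.exp w) := by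
    intro i w
    rw [zz, he i, Nat.cast_zero, zero_mul, zero_div, zero_add]
  have hb : ∀ i, ∃ C : ℝ, ∀ t ∈ Metric.closedBall (0 : ℂ) ((A.br i).r * Real.exp (-4)),
      ‖jF ((A.br i).ψ a t)‖ ≤ C := by
    intro i
    have hr : (A.br i).r * Real.exp (-4) < (A.br i).r := by
      have h1 : Real.exp (-4) < 1 := by rw [← Real.exp_zero]; exact Real.exp_lt_exp.mpr (by norm_num)
      have h2 := (A.br i).r_pos
      nlinarith
    have him : ∀ t ∈ Metric.ball (0 : ℂ) (A.br i).r, 0 < ((A.br i).ψ a t).im := by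
      intro t ht
      rw [mem_ball_zero_iff] at ht
      by_cases h0 : t = 0
      · rw [h0]
        exact (A.br i).cen a (he i)
      · have h1 := (A.br i).im_pos a (Complex.log t) (by
          rw [← Complex.norm_exp, Complex.exp_log h0]
          exact ht)
        rw [hz i, Complex.exp_log h0] at h1
        exact h1
    have hcont : ContinuousOn (fun t => jF ((A.br i).ψ a t))
        (Metric.closedBall (0 : ℂ) ((A.br i).r * Real.exp (-4))) := by
      have h1 : DifferentiableOn ℂ (fun t => jF ((A.br i).ψ a t)) (Metric.ball 0 (A.br i).r) :=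
        jF_analytic.differentiableOn.comp ((A.br i).dψ a) him
      exact h1.continuousOn.mono (Metric.closedBall_subset_ball hr)
    exact (isCompact_closedBall _ _).exists_bound_of_continuousOn hcont
  choose C hC using hb
  have hfin := liouville (S.rem A.cen) (h := S.x a) ⟨∑ i, |C i|, by
    intro p hp
    rw [S.mem_rem] at hp
    obtain ⟨i, w, h1, -, rfl⟩ := A.cover p hp.1 hp.2
    have h2 := (A.br i).jF_z a (Cus_U _ h1)
    rw [← h2, Br.z, hz i]
    have h3 := hC i (Complex.exp w) (by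
      rw [mem_closedBall_zero_iff, Complex.norm_exp]
      exact h1)
    refine h3.trans ((le_abs_self _).trans ?_)
    exact Finset.single_le_sum (f := fun i => |C i|) (fun _ _ => abs_nonneg _) (Finset.mem_univ i)⟩ (by
    intro Ω y hΩ hy hp
    exact x_hol (S.rem A.cen) a hΩ hy hp)
  obtain ⟨p, hp, hpE, hpF⟩ := x_avoid S hN a (E := A.cen) hfin
  exact hpF ⟨p, (S.mem_rem _ _).mpr ⟨hp, hpE⟩, rfl⟩

/-- an upper triangular element is a translation -/
private theorem Cus_exp (δ : SL(2, ℤ)) (h : δ.1 1 0 = 0) (z : ℂ) :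
    Complex.exp (2 * Real.pi * Complex.I * mz δ.1 z) = Complex.exp (2 * Real.pi * Complex.I * z) := by
  have hd : δ.1 0 0 * δ.1 1 1 = 1 := by
    have h1 := δ.2
    rw [Matrix.det_fin_two, h, mul_zero, sub_zero] at h1
    exact h1
  have h2 : ∃ n : ℤ, mz δ.1 z = z + n := by
    rcases Int.mul_eq_one_iff_eq_one_or_neg_one.mp hd with ⟨h3, h4⟩ | ⟨h3, h4⟩
    · refine ⟨δ.1 0 1, ?_⟩
      rw [mz, h, h3, h4]
      simp
    · refine ⟨-δ.1 0 1, ?_⟩
      rw [mz, h, h3, h4]
      push_cast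
      field_simp
      ring
  obtain ⟨n, hn⟩ := h2
  rw [hn, Complex.exp_eq_exp_iff_exists_int]
  exact ⟨n, by ring⟩

private theorem Cus_norm {z : ℂ} (hz : 0 < z.im) : ‖Complex.exp (2 * Real.pi * Complex.I * z)‖ ≤ 1 := by
  rw [Complex.norm_exp]
  have h1 : (2 * Real.pi * Complex.I * z).re = -(2 * Real.pi * z.im) := by
    have h2 : (2 * Real.pi * Complex.I * z) = ((2 * Real.pi : ℝ) : ℂ) * (Complex.I * z) := by
      push_cast
      ring
    rw [h2, Complex.re_ofReal_mul, Complex.I_mul_re]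
    ring
  rw [h1, Real.exp_le_one_iff]
  have h3 : 0 < 2 * Real.pi * z.im := by positivity
  linarith

theorem stb_c (A : Atl S) (β : Br S) {a : Fin 3} (he : 0 < β.e a) :
    ∃ δ ∈ Stb (vanishingIdeal ℂ (cv β 1)), (δ a).1 1 0 ≠ 0 := by
  by_contra hcon
  push Not at hcon
  obtain ⟨h, hh⟩ := glob (S := S) (I := vanishingIdeal ℂ (cv β 1))
    (fun ζ : Fin 3 → ℂ => Complex.exp (2 * Real.pi * Complex.I * ζ a)) (by
      intro δ hδ ζ _
      exact Cus_exp (δ a) (hcon δ hδ) (ζ a))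
  have hhol : Hol (S.rem A.cen) h := by
    refine glob_hol A (I := vanishingIdeal ℂ (cv β 1)) ⟨β, 1, rfl⟩ a
      (q := fun z => Complex.exp (2 * Real.pi * Complex.I * z)) ?_ hh
    have h1 : Differentiable ℂ (fun z : ℂ => Complex.exp (2 * Real.pi * Complex.I * z)) := by fun_prop
    exact h1.differentiableOn
  have hfin := liouville (S.rem A.cen) (h := h) ⟨1, by
    intro p hp
    rw [S.mem_rem] at hp
    obtain ⟨i, w, h1, -, rfl⟩ := A.cover p hp.1 hp.2
    obtain ⟨γ', hγ'⟩ := transport A β (A.br i) 1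
    have hw : w ∈ (A.br i).U := Cus_U _ h1
    rw [hh (A.br i) γ' hγ' w hw]
    exact Cus_norm (mz_im_sl (γ' a) ((A.br i).z_im a hw))⟩ hhol
  -- the points `w = -n`
  set t : ℕ → ℂ := fun n => Complex.exp (-(n : ℂ)) with ht
  have htn : ∀ n : ℕ, ‖t n‖ = Real.exp (-(n : ℝ)) := by
    intro n
    change ‖Complex.exp (-(n : ℂ))‖ = _
    rw [Complex.norm_exp, Complex.neg_re, Complex.natCast_re]
  have htend : Tendsto t atTop (𝓝 0) := by
    rw [tendsto_zero_iff_norm_tendsto_zero]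
    have h1 : Tendsto (fun n : ℕ => Real.exp (-(n : ℝ))) atTop (𝓝 0) :=
      Real.tendsto_exp_neg_atTop_nhds_zero.comp tendsto_natCast_atTop_atTop
    exact h1.congr (fun n => (htn n).symm)
  have hU : ∀ᶠ n : ℕ in atTop, (-(n : ℂ)) ∈ β.U := by
    have h1 : ∀ᶠ n : ℕ in atTop, t n ∈ Metric.ball (0 : ℂ) β.r :=
      htend.eventually_mem (Metric.ball_mem_nhds _ β.r_pos)
    filter_upwards [h1] with n hn
    rw [mem_ball_zero_iff, htn] at hn
    change Real.exp ((-(n : ℂ)).re) < β.r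
    rw [Complex.neg_re, Complex.natCast_re]
    exact hn
  have hinj : Function.Injective (fun n : ℕ => (β.pt (-(n : ℂ))).1) := by
    intro n k hnk
    have h1 : t n ^ β.m = t k ^ β.m := by
      have h2 := congrArg (Cus_q β.o) hnk
      change Cus_q β.o (Tp β.o (t n ^ β.m)) = Cus_q β.o (Tp β.o (t k ^ β.m)) at h2
      rwa [Cus_q_Tp, Cus_q_Tp] at h2
    have h3 := congrArg norm h1
    rw [norm_pow, norm_pow, htn, htn] at h3
    have h4 := (pow_left_inj₀ (Real.exp_pos _).le (Real.exp_pos _).le β.m_pos.ne').mp h3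
    have h5 := Real.exp_injective h4
    have h6 : (n : ℝ) = k := by linarith
    exact_mod_cast h6
  have hE : ∀ᶠ n : ℕ in atTop, (β.pt (-(n : ℂ))).1 ∉ A.cen := by
    rw [← Nat.cofinite_eq_atTop]
    have h1 : {n : ℕ | ¬ (β.pt (-(n : ℂ))).1 ∉ A.cen}.Finite := by
      have h2 : ((fun n : ℕ => (β.pt (-(n : ℂ))).1) ⁻¹' (A.cen : Set ℂ)).Finite :=
        A.cen.finite_toSet.preimage hinj.injOn
      refine h2.subset ?_
      intro n hn
      exact not_not.mp hn
    exact h1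
  have hval : ∀ n : ℕ, Complex.exp (2 * Real.pi * Complex.I * β.z a (-(n : ℂ))) =
      t n ^ β.e a * Complex.exp (2 * Real.pi * Complex.I * β.ψ a (t n)) := by
    intro n
    rw [Br.z, zz, mul_add, Complex.exp_add]
    congr 1
    rw [ht, ← Complex.exp_nat_mul]
    congr 1
    have h1 : (2 * Real.pi * Complex.I : ℂ) ≠ 0 := Complex.two_pi_I_ne_zero
    field_simp
  have hlim : Tendsto (fun n : ℕ => Complex.exp (2 * Real.pi * Complex.I * β.z a (-(n : ℂ)))) atTop (𝓝 0) := by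
    have h0 : (0 : ℂ) ∈ Metric.ball (0 : ℂ) β.r := Metric.mem_ball_self β.r_pos
    have h1 : ContinuousAt (β.ψ a) 0 :=
      ((β.dψ a).differentiableAt (Metric.isOpen_ball.mem_nhds h0)).continuousAt
    have h2 : Tendsto (fun n => β.ψ a (t n)) atTop (𝓝 (β.ψ a 0)) := h1.tendsto.comp htend
    have h3 : Tendsto (fun n => Complex.exp (2 * Real.pi * Complex.I * β.ψ a (t n))) atTop
        (𝓝 (Complex.exp (2 * Real.pi * Complex.I * β.ψ a 0))) :=
      (Complex.continuous_exp.tendsto _).comp (h2.const_mul _)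
    have h4 : Tendsto (fun n => t n ^ β.e a) atTop (𝓝 0) := by
      have h5 := htend.pow (β.e a)
      rwa [zero_pow he.ne'] at h5
    have h5 := h4.mul h3
    rw [zero_mul] at h5
    exact h5.congr (fun n => (hval n).symm)
  have hmem : ∀ᶠ n : ℕ in atTop, Complex.exp (2 * Real.pi * Complex.I * β.z a (-(n : ℂ))) ∈
      {z : ℂ | ∃ p ∈ (S.rem A.cen).pt, z = h p} \ {0} := by
    filter_upwards [hU, hE] with n hn1 hn2
    refine ⟨⟨β.pt (-(n : ℂ)), (S.mem_rem _ _).mpr ⟨β.pt_mem hn1, hn2⟩, ?_⟩, Complex.exp_ne_zero _⟩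
    rw [hh β 1 rfl _ hn1]
    change _ = Complex.exp (2 * Real.pi * Complex.I * mz (1 : SL(2, ℤ)).1 (β.z a (-(n : ℂ))))
    rw [mz_one]
  have hcl := (hfin.subset (Set.sdiff_subset (t := {0}))).isClosed.mem_of_tendsto hlim hmem
  exact hcl.2 rfl

end Pool.Agent.LGO.AX
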