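import Mathlib
import Pool.Agent.LGO.AX.Cus
import Pool.Agent.LGO.AX.AlgE

/-!
# LGO/AX: the family of moved curves satisfies `Fmy`

`Fm = {cv β γ}`.
* `im`: `cv_im`.
* `prime`: `cv_prime`: the functions `w ↦ eval (γ z^β w) G` are analytic on the convex open set `β.U`; if a product of
  two of them vanishes on `β.U`, one of them does (`AnalyticOnNhd.eq_zero_or_eq_zero_of_mul_eq_zero` or the identity
  theorem); `1 ∉ I` because `β.U` is not empty.
* `nc`: if `(γ z) a = c` on `β.U`, then `x a (β.pt w) = jF c` (`Br.jF_z`, `jF_mz`) for all `w ∈ β.U`, but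
  `{β.pt w}` is infinite (`br_avoid`: otherwise take `E` = the set of the first coordinates), against
  `x_fiber_finite`.
* `tr`: `transport` and `cv_smul`: `cv β' γ'' = (γ'' γ'⁻¹) cv β' γ'`.
* `cusp`: `exists_cusp`: `β = A.br i` with `0 < β.e a`, the set `cv β 1`, `e = β.e`; `∃ k, e k = 0` by `hfin`; the shift
  by `Br.z_shift` (`H` vanishes at `z (w + 2 π i n)`); `δ` by `stb_c` and the definition of `Stb`.
* `nomod`: suppose `z j = r z i + l` on `cv β γ`, `r = u / v`, `l = s / v` with integers `u, v > 0`; let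
  `g = !![u, s; 0, v]` (determinant `u v > 0`): `z j = mz g (z i)` on `cv β γ`, so `v Z j - u Z i - s ∈ vI (cv β γ) = I`.  Every
  `p ∈ S.pt`, `p.1 ∉ A.cen`, is `β'.pt w` with a branch `β'` of the atlas (`A.cover`); `γ'` with `vI (cv β' γ') = I`
  (`transport`); with `ζ a = mz (γ' a) (β'.z a w)`: `x i p = jF (ζ i)`, `x j p = jF (ζ j) = jF (mz g (ζ i))` (`jF_z`, `jF_mz`):
  against `NoMod` with `E = A.cen`.
-/

namespace Pool.Agent.LGO.AX

open Polynomial Pool.Agent.LGO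
open scoped MatrixGroups
open MvPolynomial (vanishingIdeal)

variable {S : Cur}

/-- polynomials in the moved lifts are holomorphic -/
theorem cv_analytic (β : Br S) (γ : Fin 3 → SL(2, ℤ)) (G : MvPolynomial (Fin 3) ℂ) :
    AnalyticOnNhd ℂ (fun w => MvPolynomial.aeval (fun a => mz (γ a).1 (β.z a w)) G) β.U := by
  have hd : ∀ a, DifferentiableOn ℂ (fun w => mz (γ a).1 (β.z a w)) β.U := by
    intro a
    exact (mz_diff (by rw [(γ a).2]; exact one_ne_zero)).comp (β.z_diff a) fun w hw => β.z_im a hw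
  have : DifferentiableOn ℂ (fun w => MvPolynomial.aeval (fun a => mz (γ a).1 (β.z a w)) G) β.U := by
    induction G using MvPolynomial.induction_on with
    | C c => simpa using differentiableOn_const _
    | add p q hp hq =>
      simp only [map_add]
      exact hp.add hq
    | mul_X p i hp =>
      simp only [map_mul, MvPolynomial.aeval_X]
      exact hp.mul (hd i)
  exact this.analyticOnNhd β.isOpen_U

theorem cv_prime (β : Br S) (γ : Fin 3 → SL(2, ℤ)) : (vanishingIdeal ℂ (cv β γ)).IsPrime := by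
  refine ⟨?_, ?_⟩
  · rw [Ideal.ne_top_iff_one]
    intro h
    obtain ⟨w, hw⟩ := β.nonempty_U
    have := h (fun a => mz (γ a).1 (β.z a w)) ⟨w, hw, rfl⟩
    simp at this
  · intro G H h
    have h1 := (cv_analytic β γ G).eq_zero_or_eq_zero_of_mul_eq_zero (cv_analytic β γ H)
      (fun w hw => by
        have := h (fun a => mz (γ a).1 (β.z a w)) ⟨w, hw, rfl⟩
        rwa [map_mul] at this) β.convex_U.isPreconnected
    rcases h1 with h1 | h1
    · left
      rintro _ ⟨w, hw, rfl⟩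
      exact h1 w hw
    · right
      rintro _ ⟨w, hw, rfl⟩
      exact h1 w hw

theorem cv_nc (hN : S.NCo) (β : Br S) (γ : Fin 3 → SL(2, ℤ)) (a : Fin 3) (c : ℂ) :
    ∃ z ∈ cv β γ, z a ≠ c := by
  by_contra hcon
  push Not at hcon
  have h1 : ∀ w ∈ β.U, S.x a (β.pt w) = jF c := by
    intro w hw
    rw [← β.jF_z a hw, ← jF_mz (γ a) (β.z_im a hw)]
    exact congrArg jF (hcon _ ⟨w, hw, rfl⟩)
  have hfin := x_fiber_finite S hN a (jF c)
  obtain ⟨w, hw, hE⟩ := br_avoid β (hfin.image Prod.fst).toFinset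
  apply hE
  rw [Set.Finite.mem_toFinset]
  exact ⟨β.pt w, ⟨β.pt_mem hw, h1 w hw⟩, rfl⟩

theorem cv_nomod (hM : S.NoMod) (A : Atl S) (β : Br S) (γ : Fin 3 → SL(2, ℤ)) {i j : Fin 3}
    (hij : i ≠ j) {r : ℚ} (hr : 0 < r) (l : ℚ) : ∃ z ∈ cv β γ, z j ≠ (r : ℂ) * z i + (l : ℂ) := by
  by_contra hcon
  push Not at hcon
  have hI : (MvPolynomial.X j - MvPolynomial.C (r : ℂ) * MvPolynomial.X i - MvPolynomial.C (l : ℂ) :
      MvPolynomial (Fin 3) ℂ) ∈
      (MvPolynomial.vanishingIdeal ℂ (cv β γ) : Ideal (MvPolynomial (Fin 3) ℂ)) := by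
    intro ζ hζ
    simp only [map_sub, map_mul, MvPolynomial.aeval_X, MvPolynomial.aeval_C]
    change ζ j - (r : ℂ) * ζ i - (l : ℂ) = 0
    rw [hcon ζ hζ]
    ring
  let g : Matrix (Fin 2) (Fin 2) ℤ := !![r.num * l.den, l.num * r.den; 0, r.den * l.den]
  have hdet : 0 < g.det := by
    rw [Matrix.det_fin_two_of]
    have h1 : 0 < r.num := Rat.num_pos.mpr hr
    have h2 : (0 : ℤ) < l.den := by exact_mod_cast l.den_pos
    have h3 : (0 : ℤ) < r.den := by exact_mod_cast r.den_pos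
    have : r.num * l.den * (r.den * l.den) - l.num * r.den * 0 =
      r.num * l.den * (r.den * l.den) := by ring
    rw [this]
    positivity
  apply hM i j hij g hdet A.cen
  intro p hp hpc
  obtain ⟨i', w, hw, -, rfl⟩ := A.cover p hp hpc
  have hwU : w ∈ (A.br i').U := by
    have h1 := (A.br i').r_pos
    have h2 : Real.exp (-4) < 1 := by
      rw [Real.exp_lt_one_iff]; norm_num
    change Real.exp w.re < (A.br i').r
    nlinarith
  obtain ⟨γ', hγ'⟩ := transport A β (A.br i') γ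
  have h1 : (MvPolynomial.X j - MvPolynomial.C (r : ℂ) * MvPolynomial.X i - MvPolynomial.C (l : ℂ) :
      MvPolynomial (Fin 3) ℂ) ∈ (MvPolynomial.vanishingIdeal ℂ (cv (A.br i') γ') :
        Ideal (MvPolynomial (Fin 3) ℂ)) := by
    rw [hγ']; exact hI
  have h2 := h1 _ ⟨w, hwU, rfl⟩
  simp only [map_sub, map_mul, MvPolynomial.aeval_X, MvPolynomial.aeval_C] at h2
  have h3 : mz (γ' j).1 ((A.br i').z j w) = (r : ℂ) * mz (γ' i).1 ((A.br i').z i w) + (l : ℂ) := by
    have h4 : mz (γ' j).1 ((A.br i').z j w) - (r : ℂ) * mz (γ' i).1 ((A.br i').z i w) - (l : ℂ) = 0 :=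
      h2
    linear_combination h4
  refine ⟨mz (γ' i).1 ((A.br i').z i w), mz_im_sl _ ((A.br i').z_im i hwU), ?_, ?_⟩
  · rw [jF_mz _ ((A.br i').z_im i hwU), (A.br i').jF_z i hwU]
  · have hg : mz g (mz (γ' i).1 ((A.br i').z i w)) =
        (r : ℂ) * mz (γ' i).1 ((A.br i').z i w) + (l : ℂ) := by
      set x := mz (γ' i).1 ((A.br i').z i w)
      have e1 : (r : ℂ) = (r.num : ℂ) / (r.den : ℂ) := by
        exact_mod_cast (Rat.num_div_den r).symm
      have e2 : (l : ℂ) = (l.num : ℂ) / (l.den : ℂ) := by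
        exact_mod_cast (Rat.num_div_den l).symm
      have hd1 : (r.den : ℂ) ≠ 0 := by exact_mod_cast r.den_pos.ne'
      have hd2 : (l.den : ℂ) ≠ 0 := by exact_mod_cast l.den_pos.ne'
      rw [e1, e2]
      simp only [mz, g, Matrix.of_apply, Matrix.cons_val_zero, Matrix.cons_val_one,
        Matrix.cons_val', Matrix.cons_val_fin_one]
      push_cast
      field_simp
      ring
    rw [hg, ← h3, jF_mz _ ((A.br i').z_im j hwU), (A.br i').jF_z j hwU]

theorem fmy (hN : S.NCo) (hM : S.NoMod) (A : Atl S) (h3 : ∀ β : Br S, ∃ k, β.e k = 0) :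
    Fmy {Z : Set (Fin 3 → ℂ) | ∃ (β : Br S) (γ : Fin 3 → SL(2, ℤ)), Z = cv β γ} where
  im := by
    rintro _ ⟨β, γ, rfl⟩ ζ hζ a
    exact cv_im hζ a
  prime := by
    rintro _ ⟨β, γ, rfl⟩
    exact cv_prime β γ
  nc := by
    rintro _ ⟨β, γ, rfl⟩ a c
    exact cv_nc hN β γ a c
  tr := by
    rintro _ ⟨β, γ, rfl⟩ _ ⟨β', γ₁, rfl⟩
    obtain ⟨γ', h⟩ := transport A β β' γ
    refine ⟨γ' * γ₁⁻¹, ?_⟩
    rw [← cv_smul, inv_mul_cancel_right]
    exact h.symm
  cusp := by
    intro a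
    obtain ⟨i, hi⟩ := exists_cusp hN A a
    have hcv : ∀ ζ, ζ ∈ cv (A.br i) 1 ↔ ∃ w ∈ (A.br i).U, ζ = fun a => (A.br i).z a w := by
      intro ζ
      constructor
      · rintro ⟨w, hw, rfl⟩
        exact ⟨w, hw, funext fun a => mz_one _⟩
      · rintro ⟨w, hw, rfl⟩
        exact ⟨w, hw, funext fun a => (mz_one _).symm⟩
    refine ⟨cv (A.br i) 1, ⟨_, _, rfl⟩, (A.br i).e, hi, h3 _, ?_, ?_⟩
    · intro H hH n ζ hζ
      obtain ⟨w, hw, rfl⟩ := (hcv ζ).mp hζ
      have h1 := hH _ ((hcv _).mpr ⟨w + 2 * Real.pi * Complex.I * (n : ℤ), (A.br i).shift_mem hw n, rfl⟩)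
      rw [← h1]
      congr 2
      funext b
      rw [(A.br i).z_shift b w n]
      push_cast
      ring
    · obtain ⟨δ, hδ, hc⟩ := stb_c A (A.br i) hi
      exact ⟨δ, hδ _ (fun ζ hζ b => cv_im hζ b) rfl, hc⟩
  nomod := by
    rintro _ ⟨β, γ, rfl⟩ i j hij r hr l
    exact cv_nomod hM A β γ hij hr l

/-- the lifts on every branch are algebraically independent over `ℂ` -/
theorem ax_main (hN : S.NCo) (hM : S.NoMod) (A : Atl S) (hfin : ∀ β : Br S, ∃ k, β.e k = 0) (β : Br S)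
    {G : MvPolynomial (Fin 3) ℂ} (hG : G ≠ 0) :
    ∃ w ∈ β.U, MvPolynomial.eval (fun a => β.z a w) G ≠ 0 := by
  by_contra hcon
  push Not at hcon
  have h1 : vanishingIdeal ℂ (cv β 1) = ⊥ := ind_of (fmy hN hM A hfin) ⟨β, 1, rfl⟩
  have h2 : G ∈ vanishingIdeal ℂ (cv β 1) := by
    rw [MvPolynomial.mem_vanishingIdeal_iff]
    rintro _ ⟨w, hw, rfl⟩
    have h3 := hcon w hw
    simp only [Pi.one_apply, mz_one]
    rw [MvPolynomial.aeval_eq_eval]
    exact h3
  rw [h1] at h2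
  exact hG (by simpa using h2)

end Pool.Agent.LGO.AX
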