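import Mathlib
import Pool.Agent.LGO.AX.Fz
import Pool.Agent.LGO.H.Defs
import Pool.Agent.Hhelper14.ZPL.Closed
import Pool.Agent.LGO.H.CuspF

/-!
# LGO/AX: the model of a curve `V ⊆ ℂⁿ`

* `exists_model`: `A = MvPolynomial (Fin n) ℂ ⧸ vanishingIdeal ℂ V` is a domain of dimension 1, finitely generated over
  `ℂ`, so its fraction field `L` has transcendence degree 1 (`Pool/Agent/Hhelper14/ZPL/Dim.lean`; or look at how
  `Pool/Agent/LGO/G/SetupEx.lean`, `Pool/Agent/LGO/G/DimB.lean` do it).  `T := x (i 0)` is transcendental over `ℂ` (`ℂ` is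
  algebraically closed and `x (i 0)` is not constant on `V`), so `L` is algebraic over `ℂ(T)`.  The subfield
  `E = ℂ(T)(x (i 1), x (i 2))` is finite over `ℂ(T)`, separable: primitive element `Y` (`Field.exists_primitive_element`);
  one may take `Y = x (i 1) + l x (i 2)` with `l ∈ ℂ` (`Field.primitive_element_inf_aux`), or, with any primitive element,
  multiply by a nonzero element of `ℂ[T]` so that `Y` is a polynomial in `T, x (i 1), x (i 2)` divided by nothing.  The minimal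
  polynomial of `Y` over `ℂ(T)`, multiplied by a common denominator and made primitive, is `F ∈ ℂ[T][Y]`, irreducible
  (Gauss: `Polynomial.IsPrimitive.irreducible_iff_irreducible_map_fraction_map`).  `x (i a) = N a (T, Y) / M(T)` in `E`.
  `D` := product of `M`, the leading coefficient of `F`, and a nonzero `R(T)` with `U F + W ∂F/∂Y = R` (`F` is separable over
  `ℂ(T)`).  The identities `F(T, Y) = 0`, `M(T) x (i a) = N a (T, Y)` hold in `A`, so at all points of `V`.  The exceptional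
  set: points of `V` with `D(x (i 0)) = 0`: a polynomial which is not in the vanishing ideal has finitely many zeros
  on `V` (`dim V = 1`; see `Pool/Agent/LGO/H/CuspF.lean` or `Pool/Agent/LGO/G/` for that lemma).
-/

namespace Pool.Agent.LGO.AX

open Polynomial Pool.Agent.LGO UpperHalfPlane Pool.Agent.Hhelper14.ZP Pool.Agent.Hhelper14.ZPL
open scoped MatrixGroups

/-- the points of `V` outside a finite set come from the model -/
def Cov {n : ℕ} (S : Cur) (V : Set (Fin n → ℂ)) (i : Fin 3 → Fin n) : Prop :=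
  ∃ E : Set (Fin n → ℂ), E.Finite ∧ ∀ x ∈ V, x ∉ E → ∃ p ∈ S.pt, ∀ a, x (i a) = S.x a p

/-- polynomial relation from two variables -/
private theorem Model_poly {K : Type} [Field K] [Algebra ℂ K] {t y : K}
    {P : MvPolynomial (Fin 2) ℂ} (hP : P ≠ 0) (h : MvPolynomial.aeval ![t, y] P = 0) :
    ∃ Q : ℂ[X][X], Q ≠ 0 ∧ aevalAeval t y Q = 0 := by
  refine ⟨(Bivariate.equivMvPolynomial ℂ).symm P, ?_, ?_⟩
  · rw [ne_eq, EmbeddingLike.map_eq_zero_iff]
    exact hP
  · have h1 : (aevalAeval t y : ℂ[X][X] →ₐ[ℂ] K) =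
        (MvPolynomial.aeval ![t, y]).comp
          ((Bivariate.equivMvPolynomial ℂ) : ℂ[X][X] →ₐ[ℂ] MvPolynomial (Fin 2) ℂ) := by
      ext <;> simp
    rw [h1, AlgHom.comp_apply, AlgEquiv.coe_toAlgHom, AlgEquiv.apply_symm_apply, h]

/-- an irreducible relation of positive degree -/
private theorem Model_irr {K : Type} [Field K] [Algebra ℂ K] {t y : K} (ht : Transcendental ℂ t)
    {Q : ℂ[X][X]} (hQ : Q ≠ 0) (h : aevalAeval t y Q = 0) :
    ∃ F : ℂ[X][X], Irreducible F ∧ 0 < F.natDegree ∧ aevalAeval t y F = 0 := by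
  obtain ⟨s, hs, u, hu⟩ := WfDvdMonoid.exists_factors Q hQ
  have h1 : aevalAeval t y s.prod = 0 := by
    have h2 : aevalAeval t y (s.prod * (u : ℂ[X][X])) = 0 := by rw [hu, h]
    rw [map_mul] at h2
    refine (mul_eq_zero.1 h2).resolve_right ?_
    exact ((u.isUnit).map (aevalAeval t y : ℂ[X][X] →ₐ[ℂ] K)).ne_zero
  rw [map_multiset_prod, Multiset.prod_eq_zero_iff, Multiset.mem_map] at h1
  obtain ⟨F, hF, hF0⟩ := h1
  refine ⟨F, hs F hF, ?_, hF0⟩
  rw [Nat.pos_iff_ne_zero]
  intro hd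
  obtain ⟨c, rfl⟩ := natDegree_eq_zero.1 hd
  rw [aevalAeval_C] at hF0
  refine ht ⟨c, ?_, hF0⟩
  rintro rfl
  exact (hs _ hF).ne_zero (map_zero _)

private theorem Model_bez_aux (k : Type) [Field k] [Algebra ℂ[X] k] [IsFractionRing ℂ[X] k]
    {F : ℂ[X][X]} (irr : Irreducible F) (deg : 0 < F.natDegree) (G : ℂ[X][X]) (h : ¬ F ∣ G) :
    ∃ (R : ℂ[X]) (U W : ℂ[X][X]), R ≠ 0 ∧ U * F + W * G = C R := by
  have hprim : F.IsPrimitive := irr.isPrimitive deg.ne'
  have hirr : Irreducible (F.map (algebraMap ℂ[X] k)) :=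
    (hprim.irreducible_iff_irreducible_map_fraction_map (K := k)).1 irr
  have hnd : ¬ F.map (algebraMap ℂ[X] k) ∣ G.map (algebraMap ℂ[X] k) := fun h' =>
    h (hprim.dvd_of_fraction_map_dvd_fraction_map h')
  obtain ⟨u, w, huw⟩ := (hirr.coprime_iff_not_dvd).2 hnd
  obtain ⟨b, hb0, hb⟩ := IsLocalization.integerNormalization_spec (nonZeroDivisors ℂ[X]) u
  obtain ⟨d, hd0, hd⟩ := IsLocalization.integerNormalization_spec (nonZeroDivisors ℂ[X]) w
  rw [mem_nonZeroDivisors_iff_ne_zero] at hb0 hd0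
  rw [Algebra.smul_def, Polynomial.algebraMap_apply] at hb hd
  refine ⟨b * d, C d * IsLocalization.integerNormalization (nonZeroDivisors ℂ[X]) u,
    C b * IsLocalization.integerNormalization (nonZeroDivisors ℂ[X]) w, mul_ne_zero hb0 hd0, ?_⟩
  apply map_injective (algebraMap ℂ[X] k) (IsFractionRing.injective _ _)
  rw [Polynomial.map_add, Polynomial.map_mul, Polynomial.map_mul, Polynomial.map_mul,
    Polynomial.map_mul, hb, hd, map_C, map_C, map_C, map_mul, C_mul]
  calc C ((algebraMap ℂ[X] k) d) * (C ((algebraMap ℂ[X] k) b) * u) *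
        map (algebraMap ℂ[X] k) F +
      C ((algebraMap ℂ[X] k) b) * (C ((algebraMap ℂ[X] k) d) * w) *
        map (algebraMap ℂ[X] k) G =
      C ((algebraMap ℂ[X] k) b) * C ((algebraMap ℂ[X] k) d) *
        (u * map (algebraMap ℂ[X] k) F +
          w * map (algebraMap ℂ[X] k) G) := by ring
    _ = _ := by rw [huw, mul_one]

/-- the discriminant -/
private theorem Model_disc {F : ℂ[X][X]} (irr : Irreducible F) (deg : 0 < F.natDegree) :
    ∃ R : ℂ[X], R ≠ 0 ∧ ∀ T, R.eval T ≠ 0 → (F.map (evalRingHom T)).Separable := by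
  have hd : derivative F ≠ 0 := by
    intro h
    exact deg.ne' (derivative_eq_zero.1 h)
  have hnd : ¬ F ∣ derivative F := by
    intro h
    exact (natDegree_derivative_lt deg.ne').not_ge (natDegree_le_of_dvd h hd)
  obtain ⟨R, U, W, hR, hUW⟩ := Model_bez_aux (FractionRing ℂ[X]) irr deg _ hnd
  refine ⟨R, hR, fun T hT => ?_⟩
  have h1 := congrArg (Polynomial.map (evalRingHom T)) hUW
  rw [Polynomial.map_add, Polynomial.map_mul, Polynomial.map_mul, map_C, ← derivative_map,
    coe_evalRingHom] at h1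
  refine ⟨C (R.eval T)⁻¹ * U.map (evalRingHom T), C (R.eval T)⁻¹ * W.map (evalRingHom T), ?_⟩
  calc C (R.eval T)⁻¹ * U.map (evalRingHom T) * F.map (evalRingHom T) +
        C (R.eval T)⁻¹ * W.map (evalRingHom T) * derivative (F.map (evalRingHom T)) =
      C (R.eval T)⁻¹ * (U.map (evalRingHom T) * F.map (evalRingHom T) +
        W.map (evalRingHom T) * derivative (F.map (evalRingHom T))) := by ring
    _ = C (R.eval T)⁻¹ * C (R.eval T) := by rw [h1]
    _ = 1 := by rw [← C_mul, inv_mul_cancel₀ hT, C_1]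

/-- naturality of the evaluation -/
private theorem Model_nat {A B : Type} [CommRing A] [CommRing B] [Algebra ℂ A] [Algebra ℂ B]
    (f : A →ₐ[ℂ] B) (a b : A) (P : ℂ[X][X]) :
    f (aevalAeval a b P) = aevalAeval (f a) (f b) P := by
  have h1 : f.comp (aevalAeval a b : ℂ[X][X] →ₐ[ℂ] A) = aevalAeval (f a) (f b) := by
    ext <;> simp
  exact DFunLike.congr_fun h1 P

private theorem Model_clear (k K : Type) [Field k] [Algebra ℂ[X] k] [IsFractionRing ℂ[X] k]
    [Field K] [Algebra ℂ K] [Algebra k K] {t : K}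
    (hk : ∀ p : ℂ[X], algebraMap k K (algebraMap ℂ[X] k p) = aeval t p) (y : K) (p : k[X]) :
    ∃ (d : ℂ[X]) (N : ℂ[X][X]), d ≠ 0 ∧ aeval t d * aeval y p = aevalAeval t y N := by
  obtain ⟨b, hb0, hb⟩ := IsLocalization.integerNormalization_spec (nonZeroDivisors ℂ[X]) p
  rw [mem_nonZeroDivisors_iff_ne_zero] at hb0
  rw [Algebra.smul_def, Polynomial.algebraMap_apply] at hb
  refine ⟨b, IsLocalization.integerNormalization (nonZeroDivisors ℂ[X]) p, hb0, ?_⟩
  have h1 : ∀ N : ℂ[X][X], aevalAeval t y N = aeval y (N.map (algebraMap ℂ[X] k)) := by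
    intro N
    induction N using Polynomial.induction_on' with
    | add p q hp hq => rw [map_add, hp, hq, Polynomial.map_add, map_add]
    | monomial n a =>
      rw [← C_mul_X_pow_eq_monomial, map_mul, map_pow, aevalAeval_Y, aevalAeval_C,
        Polynomial.map_mul, Polynomial.map_pow, map_C, map_X, map_mul, map_pow, aeval_X, aeval_C, hk]
  rw [h1, hb, map_mul, aeval_C, hk]

private theorem Model_alg (k K : Type) [Field k] [Algebra ℂ[X] k] [IsFractionRing ℂ[X] k]
    [Field K] [Algebra ℂ K] [Algebra k K] [CharZero k] [Infinite k]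
    (hdep : ∀ x y : K, ∃ P : MvPolynomial (Fin 2) ℂ, P ≠ 0 ∧ MvPolynomial.aeval ![x, y] P = 0)
    {t : K} (ht : Transcendental ℂ t)
    (hk : ∀ p : ℂ[X], algebraMap k K (algebraMap ℂ[X] k p) = aeval t p)
    (u v : K) (A : Subalgebra ℂ K) (htA : t ∈ A) (huA : u ∈ A) (hvA : v ∈ A) :
    ∃ γ ∈ A, ∃ (F N₁ N₂ : ℂ[X][X]) (M : ℂ[X]), Irreducible F ∧ 0 < F.natDegree ∧ M ≠ 0 ∧
      aevalAeval t γ F = 0 ∧ aeval t M * u = aevalAeval t γ N₁ ∧
      aeval t M * v = aevalAeval t γ N₂ := by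
  have hne : ∀ d : ℂ[X], d ≠ 0 → (aeval t d : K) ≠ 0 := fun d hd h => ht ⟨d, hd, h⟩
  have hmapne : ∀ p : ℂ[X], p ≠ 0 → algebraMap ℂ[X] k p ≠ 0 := fun p hp =>
    (map_ne_zero_iff _ (IsFractionRing.injective ℂ[X] k)).2 hp
  have h1 : ∀ (y : K) (N : ℂ[X][X]), aevalAeval t y N = aeval y (N.map (algebraMap ℂ[X] k)) := by
    intro y N
    induction N using Polynomial.induction_on' with
    | add p q hp hq => rw [map_add, hp, hq, Polynomial.map_add, map_add]
    | monomial n a =>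
      rw [← C_mul_X_pow_eq_monomial, map_mul, map_pow, aevalAeval_Y, aevalAeval_C,
        Polynomial.map_mul, Polynomial.map_pow, map_C, map_X, map_mul, map_pow, aeval_X, aeval_C, hk]
  have halg : ∀ y : K, IsAlgebraic k y := by
    intro y
    obtain ⟨P, hP, hP0⟩ := hdep t y
    obtain ⟨Q, hQ, hQ0⟩ := Model_poly hP hP0
    refine ⟨Q.map (algebraMap ℂ[X] k), ?_, ?_⟩
    · exact (Polynomial.map_ne_zero_iff (IsFractionRing.injective ℂ[X] k)).2 hQ
    · rw [← h1, hQ0]
  have hAl : Algebra.IsAlgebraic k K := ⟨halg⟩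
  obtain ⟨γ₀, hγ₀⟩ := Field.primitive_element_inf_aux k u v
  -- `d(t) γ₀` lies in `A`
  obtain ⟨d, hd, hdA⟩ : ∃ d : ℂ[X], d ≠ 0 ∧ aeval t d * γ₀ ∈ A := by
    have h2 : γ₀ ∈ Algebra.adjoin k ({u, v} : Set K) := by
      rw [← IntermediateField.adjoin_toSubalgebra (F := k) ({u, v} : Set K),
        IntermediateField.mem_toSubalgebra, hγ₀]
      exact IntermediateField.mem_adjoin_simple_self k γ₀
    have htd : ∀ d : ℂ[X], (aeval t d : K) ∈ A := by
      intro d
      have h3 : (aeval t d : K) ∈ Algebra.adjoin ℂ {t} := aeval_mem_adjoin_singleton ℂ t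
      exact Algebra.adjoin_le (Set.singleton_subset_iff.2 htA) h3
    clear hγ₀
    induction h2 using Algebra.adjoin_induction with
    | mem x hx =>
      refine ⟨1, one_ne_zero, ?_⟩
      rw [map_one, one_mul]
      rcases hx with rfl | hx
      · exact huA
      · rw [Set.mem_singleton_iff] at hx
        rw [hx]
        exact hvA
    | algebraMap r =>
      obtain ⟨a, b, hb, rfl⟩ := IsFractionRing.div_surjective (A := ℂ[X]) r
      rw [mem_nonZeroDivisors_iff_ne_zero] at hb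
      refine ⟨b, hb, ?_⟩
      rw [map_div₀, hk, hk, mul_div_cancel₀ _ (hne b hb)]
      exact htd a
    | add x y _ _ hx hy =>
      obtain ⟨d, hd, hdA⟩ := hx
      obtain ⟨e, he, heA⟩ := hy
      refine ⟨d * e, mul_ne_zero hd he, ?_⟩
      have h3 : (aeval t (d * e) : K) * (x + y) =
          aeval t e * (aeval t d * x) + aeval t d * (aeval t e * y) := by
        rw [map_mul]
        ring
      rw [h3]
      exact A.add_mem (A.mul_mem (htd e) hdA) (A.mul_mem (htd d) heA)
    | mul x y _ _ hx hy =>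
      obtain ⟨d, hd, hdA⟩ := hx
      obtain ⟨e, he, heA⟩ := hy
      refine ⟨d * e, mul_ne_zero hd he, ?_⟩
      have h3 : (aeval t (d * e) : K) * (x * y) = (aeval t d * x) * (aeval t e * y) := by
        rw [map_mul]
        ring
      rw [h3]
      exact A.mul_mem hdA heA
  set γ : K := aeval t d * γ₀ with hγ
  have hsub : IntermediateField.adjoin k ({γ₀} : Set K) ≤ IntermediateField.adjoin k ({γ} : Set K) := by
    rw [IntermediateField.adjoin_simple_le_iff]
    have h2 : γ₀ = algebraMap k K (algebraMap ℂ[X] k d)⁻¹ * γ := by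
      rw [map_inv₀, hk, hγ, inv_mul_cancel_left₀ (hne d hd)]
    rw [h2]
    exact mul_mem (IntermediateField.algebraMap_mem _ _) (IntermediateField.mem_adjoin_simple_self k γ)
  have hrep : ∀ w ∈ ({u, v} : Set K), ∃ p : k[X], aeval γ p = w := by
    intro w hw
    have h2 : w ∈ IntermediateField.adjoin k ({γ} : Set K) := by
      refine hsub ?_
      rw [← hγ₀]
      exact IntermediateField.subset_adjoin _ _ hw
    rw [← IntermediateField.mem_toSubalgebra, IntermediateField.adjoin_toSubalgebra,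
      Algebra.adjoin_singleton_eq_range_aeval] at h2
    exact h2
  obtain ⟨p₁, hp₁⟩ := hrep u (by simp)
  obtain ⟨p₂, hp₂⟩ := hrep v (by simp)
  obtain ⟨d₁, N₁, hd₁, hN₁⟩ := Model_clear k K hk γ p₁
  obtain ⟨d₂, N₂, hd₂, hN₂⟩ := Model_clear k K hk γ p₂
  rw [hp₁] at hN₁
  rw [hp₂] at hN₂
  obtain ⟨P, hP, hP0⟩ := hdep t γ
  obtain ⟨Q, hQ, hQ0⟩ := Model_poly hP hP0
  obtain ⟨F, hF, hFd, hF0⟩ := Model_irr ht hQ hQ0
  refine ⟨γ, hdA, F, C d₂ * N₁, C d₁ * N₂, d₁ * d₂, hF, hFd, mul_ne_zero hd₁ hd₂, hF0, ?_, ?_⟩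
  · rw [map_mul, map_mul, aevalAeval_C, ← hN₁]
    ring
  · rw [map_mul, map_mul, aevalAeval_C, ← hN₂]
    ring

theorem exists_model {n : ℕ} {V : Set (Fin n → ℂ)} (hV : Pool.Agent.Hhelper14.ZPL.IsIrredClosed V)
    (hdim : Pool.Agent.Hhelper14.ZPL.dim V = 1) (i : Fin 3 → Fin n)
    (hconst : ∀ a, ∀ c : ℂ, ∃ x ∈ V, x (i a) ≠ c) : ∃ S : Cur, Cov S V i := by
  classical
  obtain ⟨K, hK, hA, π, hCF, h0, hfin⟩ := Pool.Agent.ZPB.exists_fun hV hdim
  have ht : Transcendental ℂ (π (MvPolynomial.X (i 0))) := by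
    rcases Pool.Agent.ZPB.trans_or_const (π (MvPolynomial.X (i 0))) with h | ⟨c, hc⟩
    · exact h
    · exfalso
      obtain ⟨x, hx, hne⟩ := hconst 0 c
      have h1 : π (MvPolynomial.X (i 0) - MvPolynomial.C c) = 0 := by
        have h2 : π (MvPolynomial.C c) = algebraMap ℂ K c := π.commutes c
        rw [map_sub, hc, h2, sub_self]
      have h2 := (h0 _).1 h1 x hx
      rw [map_sub, MvPolynomial.eval_X, MvPolynomial.eval_C, sub_eq_zero] at h2
      exact hne h2
  have hinj : Function.Injective (aeval (π (MvPolynomial.X (i 0))) : ℂ[X] →ₐ[ℂ] K) :=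
    transcendental_iff_injective.1 ht
  let k := FractionRing ℂ[X]
  let hkK : Algebra k K := (IsFractionRing.lift (A := ℂ[X]) (K := k) (L := K)
    (g := (aeval (π (MvPolynomial.X (i 0))) : ℂ[X] →ₐ[ℂ] K).toRingHom) hinj).toAlgebra
  have hk : ∀ p : ℂ[X], algebraMap k K (algebraMap ℂ[X] k p) =
      aeval (π (MvPolynomial.X (i 0))) p := fun p => IsFractionRing.lift_algebraMap hinj p
  have : CharZero k := by
    refine charZero_of_injective_algebraMap (R := ℂ[X]) (A := k) (IsFractionRing.injective ℂ[X] k)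
  have : Infinite k := inferInstance
  obtain ⟨γ, hγ, F, N₁, N₂, M, hF, hFd, hM, hF0, hN₁, hN₂⟩ := Model_alg k K hCF.dep ht hk
    (π (MvPolynomial.X (i 1))) (π (MvPolynomial.X (i 2))) π.range ⟨_, rfl⟩ ⟨_, rfl⟩ ⟨_, rfl⟩
  obtain ⟨G, rfl⟩ := hγ
  obtain ⟨R, hR, hsep⟩ := Model_disc hF hFd
  have hev : ∀ (x : Fin n → ℂ) (P : ℂ[X][X]), MvPolynomial.eval x
      (aevalAeval (MvPolynomial.X (i 0)) G P) = P.evalEval (x (i 0)) (MvPolynomial.eval x G) := by
    intro x P
    have h1 := Model_nat (MvPolynomial.aeval x : MvPolynomial (Fin n) ℂ →ₐ[ℂ] ℂ)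
      (MvPolynomial.X (i 0)) G P
    rw [MvPolynomial.aeval_X, MvPolynomial.aeval_eq_eval] at h1
    rw [← coe_aevalAeval_eq_evalEval, ← h1]
  have hev1 : ∀ (x : Fin n → ℂ) (P : ℂ[X]), MvPolynomial.eval x
      (aeval (MvPolynomial.X (i 0) : MvPolynomial (Fin n) ℂ) P) = P.eval (x (i 0)) := by
    intro x P
    have h1 := hev x (C P)
    rw [aevalAeval_C, evalEval_C] at h1
    exact h1
  have hπ : ∀ P : ℂ[X][X], π (aevalAeval (MvPolynomial.X (i 0)) G P) =
      aevalAeval (π (MvPolynomial.X (i 0))) (π G) P := fun P => Model_nat π _ _ P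
  have hπ1 : ∀ P : ℂ[X], π (aeval (MvPolynomial.X (i 0) : MvPolynomial (Fin n) ℂ) P) =
      aeval (π (MvPolynomial.X (i 0))) P := by
    intro P
    have h1 := hπ (C P)
    rw [aevalAeval_C, aevalAeval_C] at h1
    exact h1
  have hFx : ∀ x ∈ V, F.evalEval (x (i 0)) (MvPolynomial.eval x G) = 0 := by
    intro x hx
    rw [← hev]
    refine (h0 _).1 ?_ x hx
    rw [hπ]
    exact hF0
  have hNx : ∀ (a : Fin n) (N : ℂ[X][X]), aeval (π (MvPolynomial.X (i 0))) M *
      π (MvPolynomial.X a) = aevalAeval (π (MvPolynomial.X (i 0))) (π G) N →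
      ∀ x ∈ V, M.eval (x (i 0)) * x a = N.evalEval (x (i 0)) (MvPolynomial.eval x G) := by
    intro a N hN x hx
    have h1 : π (aeval (MvPolynomial.X (i 0) : MvPolynomial (Fin n) ℂ) M * MvPolynomial.X a -
        aevalAeval (MvPolynomial.X (i 0)) G N) = 0 := by
      rw [map_sub, map_mul, hπ, hπ1, hN, sub_self]
    have h2 := (h0 _).1 h1 x hx
    rw [map_sub, map_mul, hev, hev1, MvPolynomial.eval_X, sub_eq_zero] at h2
    exact h2
  have hD : M * F.leadingCoeff * R ≠ 0 :=
    mul_ne_zero (mul_ne_zero hM (leadingCoeff_ne_zero.2 hF.ne_zero)) hR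
  let S : Cur :=
    { F := F
      N := ![C (X * M), N₁, N₂]
      M := M
      D := M * F.leadingCoeff * R
      irr := hF
      deg := hFd
      D_ne := hD
      lead := fun T h => by
        rw [eval_mul, eval_mul] at h
        exact right_ne_zero_of_mul (left_ne_zero_of_mul h)
      sep := fun T h => by
        rw [eval_mul, eval_mul] at h
        exact hsep T (right_ne_zero_of_mul h)
      M_ne := fun T h => by
        rw [eval_mul, eval_mul] at h
        exact left_ne_zero_of_mul (left_ne_zero_of_mul h) }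
  have hDπ : π (aeval (MvPolynomial.X (i 0) : MvPolynomial (Fin n) ℂ)
      (M * F.leadingCoeff * R)) ≠ 0 := by
    rw [hπ1]
    exact (map_ne_zero_iff _ hinj).2 hD
  refine ⟨S, _, hfin _ hDπ, ?_⟩
  intro x hx hxE
  have hDx : (M * F.leadingCoeff * R).eval (x (i 0)) ≠ 0 := by
    intro h
    apply hxE
    refine ⟨hx, ?_⟩
    rw [hev1, h]
  have hMx : M.eval (x (i 0)) ≠ 0 := by
    rw [eval_mul, eval_mul] at hDx
    exact left_ne_zero_of_mul (left_ne_zero_of_mul hDx)
  refine ⟨(x (i 0), MvPolynomial.eval x G), ⟨hDx, hFx x hx⟩, ?_⟩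
  intro a
  unfold Cur.x
  rw [eq_div_iff hMx]
  fin_cases a
  · show x (i 0) * M.eval (x (i 0)) = (C (X * M) : ℂ[X][X]).evalEval (x (i 0)) _
    rw [evalEval_C, eval_mul, eval_X]
  · show x (i 1) * M.eval (x (i 0)) = N₁.evalEval (x (i 0)) _
    rw [mul_comm]
    exact hNx (i 1) N₁ hN₁ x hx
  · show x (i 2) * M.eval (x (i 0)) = N₂.evalEval (x (i 0)) _
    rw [mul_comm]
    exact hNx (i 2) N₂ hN₂ x hx

end Pool.Agent.LGO.AX
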