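import Mathlib
import Pool.Agent.LGO.AX.ModelN
import Pool.Agent.LGO.AX.Ovl

/-!
# LGO/AX: every branch has a finite coordinate

* `inv_num`: `(x₀ x₁ x₂) ^ (N + 1) Q(1 / x)` is a polynomial in `x`, zero if some `x a = 0`.
* `x_inf`: `S.x a (β.pt w) = jF (z a w)` (`Br.jF_z`), `z a w = e a w / (2 π i) + ψ a (exp w)`, for `w = - t`, `t → ∞`:
  `Im (z a w) → ∞`, and `|j| → ∞` as `Im → ∞` (there is such a statement in `Pool/Agent/Hhelper14/ZP/` or `LGO/H/`:
  growth of `j` at the cusp; `|j τ| ≥ exp (2 π Im τ) - C` for `Im τ ≥ 1`; or `LGO/H/JSize`).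
* `hfin_of_rel`: if all `e a > 0` then `x a → ∞` along `w = - t`, so `0 = Q(1/x) → Q(0) ≠ 0`: a contradiction.
-/

namespace Pool.Agent.LGO.AX

open Polynomial Pool.Agent.LGO UpperHalfPlane Filter Topology

theorem inv_num (Q : MvPolynomial (Fin 3) ℂ) : ∃ (R : MvPolynomial (Fin 3) ℂ) (N : ℕ),
    (∀ x : Fin 3 → ℂ, (∀ a, x a ≠ 0) → MvPolynomial.eval x R =
      (∏ a, x a) ^ (N + 1) * MvPolynomial.eval (fun a => (x a)⁻¹) Q) ∧
    ∀ x : Fin 3 → ℂ, (∃ a, x a = 0) → MvPolynomial.eval x R = 0 := by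
  classical
  have hN : ∀ d ∈ Q.support, ∀ a, d a ≤ Q.totalDegree := by
    intro d hd a
    exact (Finsupp.le_degree a d).trans (by
      have h := MvPolynomial.le_totalDegree hd
      rwa [Finsupp.sum] at h)
  have hev : ∀ x : Fin 3 → ℂ, MvPolynomial.eval x (∑ d ∈ Q.support, MvPolynomial.C (MvPolynomial.coeff d Q) *
      ∏ a, MvPolynomial.X a ^ (Q.totalDegree + 1 - d a)) =
      ∑ d ∈ Q.support, MvPolynomial.coeff d Q * ∏ a, x a ^ (Q.totalDegree + 1 - d a) := by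
    intro x
    simp only [map_sum, map_mul, map_prod, map_pow, MvPolynomial.eval_C, MvPolynomial.eval_X]
  refine ⟨∑ d ∈ Q.support, MvPolynomial.C (MvPolynomial.coeff d Q) *
    ∏ a, MvPolynomial.X a ^ (Q.totalDegree + 1 - d a), Q.totalDegree, ?_, ?_⟩
  · intro x hx
    rw [hev, MvPolynomial.eval_eq', Finset.mul_sum]
    refine Finset.sum_congr rfl fun d hd => ?_
    have h1 : ∏ a, x a ^ (Q.totalDegree + 1 - d a) =
        (∏ a, x a) ^ (Q.totalDegree + 1) * ∏ a, (x a)⁻¹ ^ d a := by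
      rw [← Finset.prod_pow, ← Finset.prod_mul_distrib]
      refine Finset.prod_congr rfl fun a _ => ?_
      rw [inv_pow, pow_sub₀ _ (hx a) (by have := hN d hd a; omega)]
    rw [h1]
    ring
  · rintro x ⟨a, ha⟩
    rw [hev]
    refine Finset.sum_eq_zero fun d hd => ?_
    have h1 : ∏ b, x b ^ (Q.totalDegree + 1 - d b) = 0 := by
      refine Finset.prod_eq_zero (Finset.mem_univ a) ?_
      rw [ha]
      exact zero_pow (by have := hN d hd a; omega)
    rw [h1, mul_zero]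

private theorem Rel_jF_ge : ∃ Y : ℝ, ∀ z : ℂ, 0 < z.im → Y ≤ z.im →
    1 / 2 * Real.exp (2 * Real.pi * z.im) ≤ ‖jF z‖ := by
  obtain ⟨J, hJ, hJ0, hj⟩ := Pool.Agent.Hhelper14.ZP.exists_J
  obtain ⟨δ, hδ, hb⟩ := Metric.continuousAt_iff.1 hJ.continuousAt_zero (1 / 2) (by norm_num)
  have hpi := Real.pi_pos
  refine ⟨(-Real.log δ + 1) / (2 * Real.pi), fun z hz hY => ?_⟩
  have h1 := hj ⟨z, hz⟩
  have hz1 : jF z = Pool.Agent.Hhelper14.ZP.jInv ⟨z, hz⟩ := jF_coe ⟨z, hz⟩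
  have hn : ‖Function.Periodic.qParam 1 z‖ = Real.exp (-(2 * Real.pi * z.im)) := by
    rw [Function.Periodic.norm_qParam]
    congr 1
    rw [div_one]
    ring
  have hlt : ‖Function.Periodic.qParam 1 z‖ < δ := by
    rw [hn, ← Real.lt_log_iff_exp_lt hδ]
    rw [div_le_iff₀ (by positivity)] at hY
    nlinarith
  have h3 : dist (J (Function.Periodic.qParam 1 z)) (J 0) < 1 / 2 := by
    apply hb
    rwa [dist_zero_right]
  rw [hJ0, dist_eq_norm] at h3
  have h4 : 1 / 2 ≤ ‖J (Function.Periodic.qParam 1 z)‖ := by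
    have h5 : ‖(1 : ℂ)‖ ≤ ‖J (Function.Periodic.qParam 1 z)‖ +
        ‖J (Function.Periodic.qParam 1 z) - 1‖ := by
      have h6 := norm_sub_le (J (Function.Periodic.qParam 1 z)) (J (Function.Periodic.qParam 1 z) - 1)
      rwa [sub_sub_cancel] at h6
    rw [norm_one] at h5
    linarith
  have h1' : Pool.Agent.Hhelper14.ZP.jInv ⟨z, hz⟩ * Function.Periodic.qParam 1 z =
    J (Function.Periodic.qParam 1 z) := h1
  rw [← h1', norm_mul, hn, ← hz1] at h4
  have h2 : Real.exp (-(2 * Real.pi * z.im)) * Real.exp (2 * Real.pi * z.im) = 1 := by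
    rw [← Real.exp_add, neg_add_cancel, Real.exp_zero]
  have h8 := mul_le_mul_of_nonneg_right h4 (Real.exp_pos (2 * Real.pi * z.im)).le
  rw [mul_assoc ‖jF z‖, h2, mul_one] at h8
  exact h8

private theorem Rel_exp_neg : Tendsto (fun t : ℝ => Complex.exp (-(t : ℂ))) atTop (𝓝 0) := by
  rw [tendsto_zero_iff_norm_tendsto_zero]
  have h1 : (fun t : ℝ => ‖Complex.exp (-(t : ℂ))‖) = fun t : ℝ => Real.exp (-t) := by
    funext t
    rw [Complex.norm_exp, Complex.neg_re, Complex.ofReal_re]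
  rw [h1]
  exact Real.tendsto_exp_neg_atTop_nhds_zero

private theorem Rel_mem_U {S : Cur} (β : Br S) : ∀ᶠ t : ℝ in atTop, -(t : ℂ) ∈ β.U := by
  have h1 := Real.tendsto_exp_neg_atTop_nhds_zero.eventually (gt_mem_nhds β.r_pos)
  filter_upwards [h1] with t ht
  change Real.exp (-(t : ℂ)).re < β.r
  rw [Complex.neg_re, Complex.ofReal_re]
  exact ht

private theorem Rel_im {S : Cur} (β : Br S) {a : Fin 3} (he : 0 < β.e a) :
    Tendsto (fun t : ℝ => (β.z a (-(t : ℂ))).im) atTop atTop := by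
  have hpi := Real.pi_pos
  have h1 : ∀ t : ℝ, (β.z a (-(t : ℂ))).im =
      (β.e a : ℝ) / (2 * Real.pi) * t + (β.ψ a (Complex.exp (-(t : ℂ)))).im := by
    intro t
    change ((β.e a : ℂ) * (-(t : ℂ)) / (2 * Real.pi * Complex.I) + β.ψ a (Complex.exp (-(t : ℂ)))).im = _
    have h2 : (β.e a : ℂ) * (-(t : ℂ)) / (2 * Real.pi * Complex.I) =
        (((β.e a : ℝ) / (2 * Real.pi) * t : ℝ) : ℂ) * Complex.I := by
      have h3 : (Real.pi : ℂ) ≠ 0 := by exact_mod_cast hpi.ne'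
      push_cast
      field_simp
      rw [Complex.I_sq]
      ring
    rw [h2, Complex.add_im, Complex.im_ofReal_mul, Complex.I_im, mul_one]
  have h4 : Tendsto (fun t : ℝ => (β.e a : ℝ) / (2 * Real.pi) * t) atTop atTop := by
    refine Tendsto.const_mul_atTop ?_ tendsto_id
    have : (0 : ℝ) < β.e a := by exact_mod_cast he
    positivity
  have h5 : ContinuousAt (β.ψ a) 0 :=
    ((β.dψ a).differentiableAt (Metric.ball_mem_nhds 0 β.r_pos)).continuousAt
  have h6 : Tendsto (fun t : ℝ => (β.ψ a (Complex.exp (-(t : ℂ)))).im) atTop (𝓝 (β.ψ a 0).im) :=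
    (Complex.continuous_im.continuousAt.tendsto.comp h5.tendsto).comp Rel_exp_neg
  exact (h4.atTop_add h6).congr fun t => (h1 t).symm


theorem x_inf {S : Cur} (β : Br S) {a : Fin 3} (he : 0 < β.e a) :
    Tendsto (fun t : ℝ => ‖S.x a (β.pt (-(t : ℂ)))‖) atTop atTop := by
  have hpi := Real.pi_pos
  obtain ⟨Y, hY⟩ := Rel_jF_ge
  have h1 := Rel_im β he
  have h2 : Tendsto (fun t : ℝ => 1 / 2 * Real.exp (2 * Real.pi * (β.z a (-(t : ℂ))).im)) atTop atTop :=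
    Tendsto.const_mul_atTop (by norm_num)
      (Real.tendsto_exp_atTop.comp (Tendsto.const_mul_atTop (by positivity) h1))
  refine tendsto_atTop_mono' _ ?_ h2
  filter_upwards [Rel_mem_U β, h1.eventually_ge_atTop Y] with t ht htY
  rw [← Br.jF_z β a ht]
  exact hY _ (Br.z_im β a ht) htY

theorem hfin_of_rel {S : Cur} {Q : MvPolynomial (Fin 3) ℂ} (hQ0 : MvPolynomial.constantCoeff Q ≠ 0)
    (hQ : ∀ p ∈ S.pt, (∀ a, S.x a p ≠ 0) → MvPolynomial.eval (fun a => (S.x a p)⁻¹) Q = 0)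
    (β : Br S) : ∃ k, β.e k = 0 := by
  by_contra hcon
  push Not at hcon
  have hx : ∀ a, Tendsto (fun t : ℝ => ‖S.x a (β.pt (-(t : ℂ)))‖) atTop atTop := fun a =>
    x_inf β (Nat.pos_of_ne_zero (hcon a))
  have h1 : Tendsto (fun t : ℝ => fun a => (S.x a (β.pt (-(t : ℂ))))⁻¹) atTop (𝓝 (0 : Fin 3 → ℂ)) := by
    rw [tendsto_pi_nhds]
    intro a
    exact tendsto_inv₀_cobounded.comp (tendsto_norm_atTop_iff_cobounded.mp (hx a))
  have h2 : Tendsto (fun t : ℝ => MvPolynomial.eval (fun a => (S.x a (β.pt (-(t : ℂ))))⁻¹) Q) atTop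
      (𝓝 (MvPolynomial.eval (0 : Fin 3 → ℂ) Q)) :=
    ((MvPolynomial.continuous_eval Q).tendsto 0).comp h1
  have h3 : ∀ᶠ t : ℝ in atTop, MvPolynomial.eval (fun a => (S.x a (β.pt (-(t : ℂ))))⁻¹) Q = 0 := by
    have h4 : ∀ᶠ t : ℝ in atTop, ∀ a, 0 < ‖S.x a (β.pt (-(t : ℂ)))‖ :=
      eventually_all.mpr fun a => (hx a).eventually_gt_atTop 0
    filter_upwards [Rel_mem_U β, h4] with t ht ht4
    exact hQ _ (Br.pt_mem β ht) fun a => norm_pos_iff.mp (ht4 a)
  have h5 : Tendsto (fun t : ℝ => MvPolynomial.eval (fun a => (S.x a (β.pt (-(t : ℂ))))⁻¹) Q) atTop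
      (𝓝 0) := (tendsto_congr' h3).mpr tendsto_const_nhds
  apply hQ0
  have h6 := tendsto_nhds_unique h2 h5
  rwa [MvPolynomial.eval_zero] at h6

/-- the relation `Q` on the model -/
theorem rel_model {n : ℕ} {V : Set (Fin n → ℂ)} (hV : Pool.Agent.Hhelper14.ZPL.IsIrredClosed V)
    (hdim : Pool.Agent.Hhelper14.ZPL.dim V = 1) {i : Fin 3 → Fin n}
    (hconst : ∀ a, ∀ c : ℂ, ∃ x ∈ V, x (i a) ≠ c) {S : Cur} (h : Cov S V i)
    {Q : MvPolynomial (Fin 3) ℂ}
    (hQ : ∀ x ∈ V, (∀ a, x (i a) ≠ 0) → MvPolynomial.eval (fun a => (x (i a))⁻¹) Q = 0) :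
    ∀ p ∈ S.pt, (∀ a, S.x a p ≠ 0) → MvPolynomial.eval (fun a => (S.x a p)⁻¹) Q = 0 := by
  obtain ⟨R, N, h1, h2⟩ := inv_num Q
  have h3 := model_rel hV hdim hconst h (R := R) (by
    intro x hx
    by_cases hx0 : ∀ a, x (i a) ≠ 0
    · rw [h1 _ hx0, hQ x hx hx0, mul_zero]
    · push Not at hx0
      exact h2 _ hx0)
  intro p hp hp0
  have h4 := h3 p hp
  rw [h1 _ hp0] at h4
  exact (mul_eq_zero.mp h4).resolve_left (pow_ne_zero _ (Finset.prod_ne_zero_iff.mpr fun a _ => hp0 a))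

end Pool.Agent.LGO.AX
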