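import Mathlib
import Pool.Agent.LGO.AX.Fam
import Pool.Agent.LGO.AX.Rel
import Pool.Agent.LGO.AX.Conv
import Pool.Agent.LGO.AX.ChC

/-!
# LGO/AX: the atlas of a curve

`hasAtlas`: `exists_model`, `exists_atl5`, `ax_main`, `hfin_of_rel`, `conv`.
-/

namespace Pool.Agent.LGO.AX

open Polynomial Pool.Agent.LGO UpperHalfPlane Pool.Agent.Hhelper14.ZP Pool.Agent.Hhelper14.ZPL

/-- the lifts of a curve in `ℂⁿ`, with three non constant coordinates, no two of them modular related, which are not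
infinite at the same time, are given by finitely many charts -/
theorem hasAtlas {n : ℕ} {V : Set (Fin n → ℂ)} (hV : Pool.Agent.Hhelper14.ZPL.IsIrredClosed V)
    (hdim : Pool.Agent.Hhelper14.ZPL.dim V = 1) (i : Fin 3 → Fin n)
    (hconst : ∀ a, ∀ c : ℂ, ∃ x ∈ V, x (i a) ≠ c)
    (hmod : ∀ a b, a ≠ b → ∀ g : GL (Fin 2) ℚ, 0 < g.det.val →
      ∃ x ∈ V, ¬ ∃ τ : ℍ, x (i a) = jInv τ ∧ x (i b) = jInv (gact g τ))
    {Q : MvPolynomial (Fin 3) ℂ} (hQ0 : MvPolynomial.constantCoeff Q ≠ 0)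
    (hQ : ∀ x ∈ V, (∀ a, x (i a) ≠ 0) → MvPolynomial.eval (fun a => (x (i a))⁻¹) Q = 0) :
    PW.HasAtlas {y | ∃ x ∈ V, y = fun a => x (i a)} := by
  obtain ⟨S, hS⟩ := exists_model hV hdim i hconst
  have hN : S.NCo := model_NCo hV hdim hconst hS
  have hM : S.NoMod := model_NoMod hV hdim hconst hmod hS
  have hfin : ∀ β : Br S, ∃ k, β.e k = 0 := hfin_of_rel hQ0 (rel_model hV hdim hconst hS hQ)
  obtain ⟨A, hA⟩ := exists_atl5 S
  obtain ⟨E, hE, hEV⟩ := hS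
  have hcen : {p ∈ S.pt | p.1 ∈ A.cen}.Finite := by
    have h1 : {p ∈ S.pt | p.1 ∈ A.cen} ⊆ ⋃ c ∈ A.cen, {p ∈ S.pt | p.1 = c} := by
      rintro p ⟨hp, hpc⟩
      exact Set.mem_biUnion hpc ⟨hp, rfl⟩
    exact (Set.Finite.biUnion A.cen.finite_toSet fun c _ => pt_fiber_finite S c).subset h1
  refine conv A hA (fun β G hG => ax_main hN hM A hfin β hG) hfin
    (F := (fun x a => x (i a)) '' E ∪ (fun p a => S.x a p) '' {p ∈ S.pt | p.1 ∈ A.cen})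
    ((hE.image _).union (hcen.image _)) ?_
  rintro y ⟨x, hx, rfl⟩
  by_cases hxE : x ∈ E
  · exact Or.inl (Or.inl ⟨x, hxE, rfl⟩)
  · obtain ⟨p, hp, hpx⟩ := hEV x hx hxE
    by_cases hpc : p.1 ∈ A.cen
    · exact Or.inl (Or.inr ⟨p, ⟨hp, hpc⟩, funext fun a => (hpx a).symm⟩)
    · exact Or.inr ⟨p, hp, hpc, funext hpx⟩

end Pool.Agent.LGO.AX
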